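import Mathlib

set_option autoImplicit false

/-! # Definitions: tree metrics, convexity, projections, small cancellation systems -/

namespace Pool.Agent.H76.SC

/-- `d` is an integer valued tree metric (bipartite, geodesic, four point condition). -/
structure IsTree {T : Type} (d : T → T → ℕ) : Prop where
  self : ∀ x, d x x = 0
  eq : ∀ x y, d x y = 0 → x = y
  symm : ∀ x y, d x y = d y x
  tri : ∀ x y z, d x z ≤ d x y + d y z
  par : ∀ x y z, Even (d x y + d y z + d x z)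
  geo : ∀ x y k, k ≤ d x y → ∃ z, d x z = k ∧ d z y = d x y - k
  four : ∀ x y z w, d x y + d z w ≤ max (d x z + d y w) (d x w + d y z)

/-- `c` lies between `a` and `b` -/
def Btw {T : Type} (d : T → T → ℕ) (a c b : T) : Prop := d a c + d c b = d a b

/-- geodesically convex sets -/
def Conv {T : Type} (d : T → T → ℕ) (S : Set T) : Prop :=
  ∀ a b c, a ∈ S → b ∈ S → Btw d a c b → c ∈ S

/-- `p` is the projection (gate) of `x` to `S` -/
def Pr {T : Type} (d : T → T → ℕ) (S : Set T) (x p : T) : Prop :=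
  p ∈ S ∧ ∀ y ∈ S, Btw d x p y

/-- A small cancellation system: a group `F` with a left invariant tree metric, an equivariant
family of subtrees `Y i`, and subgroups `Γ i ≤ Δ i` of their stabilisers, with translation lengths
at least `ℓ i` on `Y i`, and overlaps at most `ℓ/200`. -/
structure Sys (F ι : Type) [Group F] [MulAction F ι] where
  d : F → F → ℕ
  Y : ι → Set F
  Γ : ι → Subgroup F
  Δ : ι → Subgroup F
  ℓ : ι → ℕ
  tree : IsTree d
  inv : ∀ g x y, d (g * x) (g * y) = d x y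
  ne : ∀ i, (Y i).Nonempty
  conv : ∀ i, Conv d (Y i)
  smulY : ∀ (g : F) i x, x ∈ Y i → g * x ∈ Y (g • i)
  le : ∀ i, Γ i ≤ Δ i
  stab : ∀ i, ∀ g ∈ Δ i, g • i = i
  smulΓ : ∀ (g : F) i, ∀ γ ∈ Γ i, g * γ * g⁻¹ ∈ Γ (g • i)
  smulΔ : ∀ (g : F) i, ∀ γ ∈ Δ i, g * γ * g⁻¹ ∈ Δ (g • i)
  smulℓ : ∀ (g : F) i, ℓ (g • i) = ℓ i
  big : ∀ i, 400 ≤ ℓ i
  disp : ∀ i, ∀ g ∈ Δ i, g ≠ 1 → ∀ x ∈ Y i, ℓ i ≤ d x (g * x)
  piece : ∀ i j, i ≠ j → ∀ x y, x ∈ Y i → x ∈ Y j → y ∈ Y i → y ∈ Y j →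
    200 * d x y ≤ ℓ i ∧ 200 * d x y ≤ ℓ j

/-- the subgroup generated by all `Γ i` -/
def Sys.N {F ι : Type} [Group F] [MulAction F ι] (S : Sys F ι) : Subgroup F :=
  Subgroup.closure (⋃ i, (S.Γ i : Set F))

/-- `x z` is geodesic modulo `N` -/
def Sys.Geo {F ι : Type} [Group F] [MulAction F ι] (S : Sys F ι) (x z : F) : Prop :=
  ∀ n ∈ S.N, S.d x z ≤ S.d x (n * z)

/-- Greendlinger statement for a system -/
def Sys.GL {F ι : Type} [Group F] [MulAction F ι] (S : Sys F ι) : Prop :=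
  ∀ n ∈ S.N, n ≠ 1 → ∀ v, ∃ i, ∃ γ ∈ S.Γ i, γ ≠ 1 ∧ ∀ a b, Pr S.d (S.Y i) v a →
    Pr S.d (S.Y i) (n * v) b → 200 * S.d (γ * a) b ≤ 4 * S.ℓ i

/-- reduced chains -/
inductive Sys.RC {F ι : Type} [Group F] [MulAction F ι] (S : Sys F ι) : ι → F → F → Prop
  | one (i : ι) (x δ n : F) (hx : x ∈ S.Y i) (hδ : δ ∈ S.Δ i) (hδ' : δ ∉ S.Γ i) (hn : n ∈ S.N) :
      S.RC i x (n * (δ * x))
  | cons (i j : ι) (x y δ : F) (hx : x ∈ S.Y i) (hδ : δ ∈ S.Δ i) (hδ' : δ ∉ S.Γ i) (hij : i ≠ j)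
      (h : S.RC j (δ * x) y) : S.RC i x y

end Pool.Agent.H76.SC
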