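import Mathlib
import Pool.Agent.H76.SC.Tree0

set_option autoImplicit false

/-! # The word metric of a free group is a tree metric -/

namespace Pool.Agent.H76.SC

/-- the word metric of a free group -/
def fd {S : Type} [DecidableEq S] (x y : FreeGroup S) : ℕ := (x⁻¹ * y).toWord.length

/-- length of the longest common initial part -/
def ft_lc {α : Type} [DecidableEq α] : List α → List α → ℕ
  | a :: l, b :: m => if a = b then ft_lc l m + 1 else 0
  | _, _ => 0

theorem ft_lc_nil_left {α : Type} [DecidableEq α] (m : List α) : ft_lc [] m = 0 := by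
  cases m <;> rfl

theorem ft_lc_nil_right {α : Type} [DecidableEq α] (m : List α) : ft_lc m [] = 0 := by
  cases m <;> rfl

theorem ft_lc_cons {α : Type} [DecidableEq α] (a b : α) (l m : List α) :
    ft_lc (a :: l) (b :: m) = if a = b then ft_lc l m + 1 else 0 := rfl

theorem ft_lc_comm {α : Type} [DecidableEq α] : ∀ l m : List α, ft_lc l m = ft_lc m l
  | [], m => by rw [ft_lc_nil_left, ft_lc_nil_right]
  | a :: l, [] => rfl
  | a :: l, b :: m => by
      rw [ft_lc_cons, ft_lc_cons, ft_lc_comm l m]
      by_cases h : a = b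
      · rw [if_pos h, if_pos h.symm]
      · rw [if_neg h, if_neg (fun h' => h h'.symm)]

theorem ft_lc_ultra {α : Type} [DecidableEq α] : ∀ l m n : List α,
    min (ft_lc l m) (ft_lc m n) ≤ ft_lc l n
  | [], m, n => by rw [ft_lc_nil_left]; omega
  | a :: l, [], n => by rw [ft_lc_nil_right]; omega
  | a :: l, b :: m, [] => by rw [ft_lc_nil_right (b :: m)]; omega
  | a :: l, b :: m, c :: n => by
      have ih := ft_lc_ultra l m n
      rw [ft_lc_cons, ft_lc_cons, ft_lc_cons]
      by_cases h : a = b
      · by_cases h' : b = c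
        · subst h; subst h'
          simp only [if_true]
          omega
        · rw [if_neg h']; omega
      · rw [if_neg h]; omega

/-- splitting off the common initial part -/
theorem ft_split {α : Type} [DecidableEq α] : ∀ l m : List α,
    ∃ p l' m', l = p ++ l' ∧ m = p ++ m' ∧ p.length = ft_lc l m ∧
      ∀ x ∈ l'.head?, ∀ y ∈ m'.head?, x ≠ y
  | [], m => ⟨[], [], m, rfl, rfl, by rw [ft_lc_nil_left]; rfl, by simp⟩
  | a :: l, [] => ⟨[], a :: l, [], rfl, rfl, by rw [ft_lc_nil_right]; rfl, by simp⟩
  | a :: l, b :: m => by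
      by_cases h : a = b
      · subst h
        obtain ⟨p, l', m', h1, h2, h3, h4⟩ := ft_split l m
        refine ⟨a :: p, l', m', ?_, ?_, ?_, h4⟩
        · rw [h1]; rfl
        · rw [h2]; rfl
        · rw [ft_lc_cons, if_pos rfl, List.length_cons, h3]
      · refine ⟨[], a :: l, b :: m, rfl, rfl, ?_, ?_⟩
        · rw [ft_lc_cons, if_neg h]; rfl
        · intro x hx y hy
          simp only [List.head?_cons, Option.mem_def, Option.some.injEq] at hx hy
          subst hx; subst hy; exact h

theorem ft_isReduced_invRev {S : Type} [DecidableEq S] {l : List (S × Bool)}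
    (h : FreeGroup.IsReduced l) : FreeGroup.IsReduced (FreeGroup.invRev l) := by
  rw [FreeGroup.isReduced_iff_reduce_eq] at h ⊢
  rw [FreeGroup.reduce_invRev, h]

/-- reduced words can be concatenated if there is no cancellation at the junction -/
theorem ft_isReduced_append {S : Type} [DecidableEq S] {l m : List (S × Bool)}
    (hl : FreeGroup.IsReduced l) (hm : FreeGroup.IsReduced m)
    (h : ∀ x ∈ l.head?, ∀ y ∈ m.head?, x ≠ y) :
    FreeGroup.IsReduced (FreeGroup.invRev l ++ m) := by
  unfold FreeGroup.IsReduced
  rw [List.isChain_append]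
  refine ⟨ft_isReduced_invRev hl, hm, ?_⟩
  intro x hx y hy hxy
  cases l with
  | nil => simp [FreeGroup.invRev] at hx
  | cons a l =>
    have hx' : x = (a.1, !a.2) := by
      simpa [FreeGroup.invRev] using hx.symm
    have := h a (by simp) y hy
    subst hx'
    simp only at hxy ⊢
    rcases a with ⟨a1, a2⟩
    rcases y with ⟨y1, y2⟩
    simp only at hxy
    subst hxy
    cases a2 <;> cases y2 <;> simp_all

theorem ft_fd_eq {S : Type} [DecidableEq S] (x y : FreeGroup S) :
    fd x y + 2 * ft_lc x.toWord y.toWord = x.toWord.length + y.toWord.length := by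
  obtain ⟨p, l, m, h1, h2, h3, h4⟩ := ft_split x.toWord y.toWord
  have hl : FreeGroup.IsReduced l := by
    have h0 := FreeGroup.isReduced_toWord (x := x)
    rw [h1] at h0
    unfold FreeGroup.IsReduced at h0 ⊢
    exact h0.right_of_append
  have hm : FreeGroup.IsReduced m := by
    have h0 := FreeGroup.isReduced_toWord (x := y)
    rw [h2] at h0
    unfold FreeGroup.IsReduced at h0 ⊢
    exact h0.right_of_append
  have hx : x = FreeGroup.mk p * FreeGroup.mk l := by
    rw [← FreeGroup.mk_toWord (x := x), h1, FreeGroup.mul_mk]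
  have hy : y = FreeGroup.mk p * FreeGroup.mk m := by
    rw [← FreeGroup.mk_toWord (x := y), h2, FreeGroup.mul_mk]
  have hxy : x⁻¹ * y = FreeGroup.mk (FreeGroup.invRev l ++ m) := by
    rw [← FreeGroup.mul_mk, ← FreeGroup.inv_mk]
    conv_lhs => rw [hx, hy]
    group
  have hd : fd x y = l.length + m.length := by
    unfold fd
    rw [hxy, FreeGroup.toWord_mk, (ft_isReduced_append hl hm h4).reduce_eq, List.length_append,
      FreeGroup.invRev_length]
  rw [hd, ← h3]
  conv_rhs => rw [h1, h2]
  simp only [List.length_append]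
  omega

theorem ft_tri {S : Type} [DecidableEq S] (x y z : FreeGroup S) : fd x z ≤ fd x y + fd y z := by
  have h : x⁻¹ * z = (x⁻¹ * y) * (y⁻¹ * z) := by group
  unfold fd
  rw [h]
  exact FreeGroup.norm_mul_le _ _

theorem isTree_fd (S : Type) [DecidableEq S] : IsTree (fd (S := S)) where
  self x := by unfold fd; rw [inv_mul_cancel]; rfl
  eq x y h := by
    unfold fd at h
    rw [List.length_eq_zero_iff, FreeGroup.toWord_eq_nil_iff] at h
    exact (inv_mul_eq_one.mp h)
  symm x y := by
    have h1 := ft_fd_eq x y
    have h2 := ft_fd_eq y x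
    rw [ft_lc_comm] at h2
    omega
  tri := ft_tri
  par x y z := by
    have h1 := ft_fd_eq x y
    have h2 := ft_fd_eq y z
    have h3 := ft_fd_eq x z
    rw [Nat.even_iff]
    omega
  geo x y k hk := by
    unfold fd at hk
    set w := (x⁻¹ * y).toWord with hw
    have hred : FreeGroup.IsReduced w := FreeGroup.isReduced_toWord
    have h1 : FreeGroup.IsReduced (w.take k) := List.IsChain.take hred k
    have h2 : FreeGroup.IsReduced (w.drop k) := List.IsChain.drop hred k
    refine ⟨x * FreeGroup.mk (w.take k), ?_, ?_⟩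
    · unfold fd
      rw [inv_mul_cancel_left, FreeGroup.toWord_mk, h1.reduce_eq, List.length_take]
      omega
    · have h3 : (x * FreeGroup.mk (w.take k))⁻¹ * y = FreeGroup.mk (w.drop k) := by
        have h4 : x⁻¹ * y = FreeGroup.mk (w.take k) * FreeGroup.mk (w.drop k) := by
          rw [FreeGroup.mul_mk, List.take_append_drop, hw, FreeGroup.mk_toWord]
        rw [mul_inv_rev, mul_assoc, h4, inv_mul_cancel_left]
      unfold fd
      rw [h3, FreeGroup.toWord_mk, h2.reduce_eq, List.length_drop]
  four x y z w := by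
    have e1 := ft_fd_eq x y
    have e2 := ft_fd_eq z w
    have e3 := ft_fd_eq x z
    have e4 := ft_fd_eq y w
    have e5 := ft_fd_eq x w
    have e6 := ft_fd_eq y z
    have u1 := ft_lc_ultra x.toWord z.toWord y.toWord
    have u2 := ft_lc_ultra x.toWord w.toWord y.toWord
    have u3 := ft_lc_ultra z.toWord x.toWord w.toWord
    have u4 := ft_lc_ultra z.toWord y.toWord w.toWord
    rw [ft_lc_comm z.toWord y.toWord] at u1 u4
    rw [ft_lc_comm w.toWord y.toWord] at u2
    rw [ft_lc_comm z.toWord x.toWord] at u3
    omega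

/-- betweenness is concatenation of reduced words -/
theorem btw_fd {S : Type} [DecidableEq S] (a c b : FreeGroup S) :
    Btw fd a c b ↔ (a⁻¹ * b).toWord = (a⁻¹ * c).toWord ++ (c⁻¹ * b).toWord := by
  constructor
  · intro h
    have h1 : a⁻¹ * b = (a⁻¹ * c) * (c⁻¹ * b) := by group
    have h2 := FreeGroup.toWord_mul_sublist (a⁻¹ * c) (c⁻¹ * b)
    rw [← h1] at h2
    refine h2.eq_of_length ?_
    rw [List.length_append]
    exact h.symm
  · intro h
    unfold Btw fd
    rw [h, List.length_append]

end Pool.Agent.H76.SC
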