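import Mathlib

set_option autoImplicit false

/-! # Definitions: labelled graphs as inverse automata -/

namespace Pool.Agent.H76.SC

/-- An inverse automaton on the vertex set `V` with letters `Fin k` and their inverses: `step x a` is
the end of the edge labelled `a` starting at `x`. The vertex set is a disjoint union of levels, the
level `n` has all closed reduced words of length at least `g n`, and a reduced word of length more
than `g/200` is readable from at most one vertex. -/
structure Aut (k : ℕ) (V : Type) where
  step : V → Fin k × Bool → Option V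
  lev : V → ℕ
  g : ℕ → ℕ
  inv : ∀ x y a, step x a = some y → step y (a.1, !a.2) = some x
  lev_step : ∀ x y a, step x a = some y → lev y = lev x
  big : ∀ n, 400 ≤ g n
  girth : ∀ (x : V) (w : List (Fin k × Bool)), FreeGroup.reduce w = w → w ≠ [] →
    List.foldlM step x w = some x → g (lev x) ≤ w.length
  uniq : ∀ (x y : V) (w : List (Fin k × Bool)), FreeGroup.reduce w = w → x ≠ y →
    (List.foldlM step x w).isSome → (List.foldlM step y w).isSome →
    200 * w.length ≤ g (lev x) ∧ 200 * w.length ≤ g (lev y)

variable {k : ℕ} {V : Type}

/-- reading a word from a vertex -/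
def Aut.run (A : Aut k V) (x : V) (w : List (Fin k × Bool)) : Option V := List.foldlM A.step x w

/-- multiplicities mod 2 of the edges crossed by a word read from `x`; an edge is recorded as
(starting point of its positive orientation, letter) -/
def Aut.par [DecidableEq V] (A : Aut k V) : V → List (Fin k × Bool) → (V × Fin k → ZMod 2)
  | _, [] => 0
  | x, (a, true) :: w =>
    match A.step x (a, true) with
    | some y => Pi.single (x, a) 1 + A.par y w
    | none => 0
  | x, (a, false) :: w =>
    match A.step x (a, false) with
    | some y => Pi.single (y, a) 1 + A.par y w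
    | none => 0

/-- closed words -/
def Aut.RG (A : Aut k V) : Set (List (Fin k × Bool)) := {w | ∃ x, A.run x w = some x}

/-- closed words crossing every edge an even number of times -/
def Aut.RH [DecidableEq V] (A : Aut k V) : Set (List (Fin k × Bool)) :=
  {w | ∃ x, A.run x w = some x ∧ A.par x w = 0}

/-- the normal subgroup of the free group generated by a set of words -/
def NC {r : ℕ} (R : Set (List (Fin r × Bool))) : Subgroup (FreeGroup (Fin r)) :=
  Subgroup.normalClosure (FreeGroup.mk '' R)

instance {r : ℕ} (R : Set (List (Fin r × Bool))) : (NC R).Normal := by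
  unfold NC; infer_instance

/-- embedding of words in `k` letters into words in `k + 1` letters -/
def up {k : ℕ} (w : List (Fin k × Bool)) : List (Fin (k + 1) × Bool) :=
  w.map (fun a => (a.1.castSucc, a.2))

/-- formal inverse of a word -/
def winv {r : ℕ} (w : List (Fin r × Bool)) : List (Fin r × Bool) :=
  (w.map (fun a => (a.1, !a.2))).reverse

/-- the lamp letter -/
def lam (k : ℕ) (b : Bool) : List (Fin (k + 1) × Bool) := [(Fin.last k, b)]

/-- Relators of the lamplighter type group. -/
def RStar {k : ℕ} (RH RG : Set (List (Fin k × Bool))) : Set (List (Fin (k + 1) × Bool)) :=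
  {w | (∃ u ∈ RH, w = up u) ∨ w = lam k true ++ lam k true ∨
    (∃ u : List (Fin (k + 1) × Bool), w = u ++ lam k true ++ winv u ++ lam k true ++ u ++
      lam k false ++ winv u ++ lam k false) ∨
    (∃ u ∈ RG, w = up u ++ lam k true ++ winv (up u) ++ lam k false)}

/-- edge expansion of the levels of an automaton -/
def Aut.Exp (A : Aut k V) (b : ℕ) : Prop :=
  ∀ n : ℕ, ∀ B : Finset V, (∀ x ∈ B, A.lev x = n) → 2 * B.card ≤ Nat.card {x // A.lev x = n} →
    B.card ≤ b * Nat.card {p : V × (Fin k × Bool) //
      p.1 ∈ B ∧ ∃ y, y ∉ B ∧ A.step p.1 p.2 = some y}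

end Pool.Agent.H76.SC
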