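import Mathlib
import Pool.Agent.H76.SC.Aut0

set_option autoImplicit false

/-! # Reading words in an automaton -/

namespace Pool.Agent.H76.SC

variable {k : ℕ} {V : Type} (A : Aut k V)

theorem run_nil (x : V) : A.run x [] = some x := rfl

theorem run_cons (x : V) (a : Fin k × Bool) (w : List (Fin k × Bool)) :
    A.run x (a :: w) = (A.step x a).bind (fun y => A.run y w) := rfl

theorem ar_run_cons_eq {x y : V} {a : Fin k × Bool} {w : List (Fin k × Bool)} :
    A.run x (a :: w) = some y ↔ ∃ z, A.step x a = some z ∧ A.run z w = some y := by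
  rw [run_cons, Option.bind_eq_some_iff]

theorem run_append (x : V) (u w : List (Fin k × Bool)) :
    A.run x (u ++ w) = (A.run x u).bind (fun y => A.run y w) := by
  induction u generalizing x with
  | nil => rfl
  | cons a u ih =>
    rw [List.cons_append, run_cons, run_cons, Option.bind_assoc]
    congr 1
    funext y
    exact ih y

theorem ar_run_append_eq {x y : V} {u w : List (Fin k × Bool)} :
    A.run x (u ++ w) = some y ↔ ∃ z, A.run x u = some z ∧ A.run z w = some y := by
  rw [run_append, Option.bind_eq_some_iff]

theorem run_lev {x y : V} {w : List (Fin k × Bool)} (h : A.run x w = some y) :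
    A.lev y = A.lev x := by
  induction w generalizing x with
  | nil => rw [run_nil] at h; rw [Option.some.inj h]
  | cons a u ih =>
    obtain ⟨z, hz, hz2⟩ := (ar_run_cons_eq A).mp h
    rw [ih hz2, A.lev_step x z a hz]

theorem ar_winv_cons (a : Fin k × Bool) (w : List (Fin k × Bool)) :
    winv (a :: w) = winv w ++ [(a.1, !a.2)] := by
  simp [winv]

theorem run_winv {x y : V} {w : List (Fin k × Bool)} (h : A.run x w = some y) :
    A.run y (winv w) = some x := by
  induction w generalizing x with
  | nil => rw [run_nil] at h; rw [Option.some.inj h]; rfl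
  | cons a u ih =>
    obtain ⟨z, hz, hz2⟩ := (ar_run_cons_eq A).mp h
    rw [ar_winv_cons, ar_run_append_eq]
    refine ⟨z, ih hz2, ?_⟩
    rw [ar_run_cons_eq]
    exact ⟨x, A.inv x z a hz, rfl⟩

theorem ar_run_step {x y : V} {L₁ L₂ : List (Fin k × Bool)} (hs : FreeGroup.Red.Step L₁ L₂)
    (h : A.run x L₁ = some y) : A.run x L₂ = some y := by
  cases hs with
  | @not L₁ L₂ a b =>
    obtain ⟨z, hz, hz2⟩ := (ar_run_append_eq A).mp h
    obtain ⟨z1, hz1, hz3⟩ := (ar_run_cons_eq A).mp hz2
    obtain ⟨z2, hz4, hz5⟩ := (ar_run_cons_eq A).mp hz3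
    have := A.inv z z1 (a, b) hz1
    simp only at this
    rw [this] at hz4
    rw [ar_run_append_eq]
    refine ⟨z, hz, ?_⟩
    rw [Option.some.inj hz4]
    exact hz5

theorem run_reduce {x y : V} {w : List (Fin k × Bool)} (h : A.run x w = some y) :
    A.run x (FreeGroup.reduce w) = some y := by
  have hr : FreeGroup.Red w (FreeGroup.reduce w) := FreeGroup.reduce.red
  have key : ∀ w', FreeGroup.Red w w' → A.run x w' = some y := by
    intro w' hw'
    induction hw' with
    | refl => exact h
    | tail _ hs ih => exact ar_run_step A hs ih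
  exact key _ hr

variable [DecidableEq V]

theorem ar_par_cons {x z : V} {a : Fin k × Bool} (h : A.step x a = some z)
    (w : List (Fin k × Bool)) :
    A.par x (a :: w) = Pi.single (if a.2 then x else z, a.1) 1 + A.par z w := by
  obtain ⟨a, b⟩ := a
  cases b with
  | true => simp [Aut.par, h]
  | false => simp [Aut.par, h]

theorem ar_par_nil (x : V) : A.par x [] = 0 := by simp [Aut.par]

theorem par_append {x y : V} {u : List (Fin k × Bool)} (h : A.run x u = some y)
    (w : List (Fin k × Bool)) : A.par x (u ++ w) = A.par x u + A.par y w := by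
  induction u generalizing x with
  | nil => rw [run_nil] at h; rw [Option.some.inj h, ar_par_nil, List.nil_append, zero_add]
  | cons a u ih =>
    obtain ⟨z, hz, hz2⟩ := (ar_run_cons_eq A).mp h
    rw [List.cons_append, ar_par_cons A hz, ar_par_cons A hz, ih hz2, add_assoc]

theorem ar_par_inv {x z : V} {a : Fin k × Bool} (h : A.step x a = some z) :
    A.par z [(a.1, !a.2)] = A.par x [a] := by
  rw [ar_par_cons A h, ar_par_cons A (A.inv x z a h), ar_par_nil, ar_par_nil]
  obtain ⟨a, b⟩ := a
  cases b <;> simp

theorem par_winv {x y : V} {w : List (Fin k × Bool)} (h : A.run x w = some y) :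
    A.par y (winv w) = A.par x w := by
  induction w generalizing x with
  | nil => rw [run_nil] at h; rw [Option.some.inj h]; rfl
  | cons a u ih =>
    obtain ⟨z, hz, hz2⟩ := (ar_run_cons_eq A).mp h
    rw [ar_winv_cons, par_append A (run_winv A hz2), ih hz2, ar_par_inv A hz]
    have : A.par x (a :: u) = A.par x [a] + A.par z u := by
      rw [← par_append A (x := x) (y := z) (u := [a])]
      · rfl
      · rw [ar_run_cons_eq]; exact ⟨z, hz, rfl⟩
    rw [this, add_comm]

theorem ar_par_step {x y : V} {L₁ L₂ : List (Fin k × Bool)} (hs : FreeGroup.Red.Step L₁ L₂)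
    (h : A.run x L₁ = some y) : A.par x L₂ = A.par x L₁ := by
  cases hs with
  | @not L₁ L₂ a b =>
    obtain ⟨z, hz, hz2⟩ := (ar_run_append_eq A).mp h
    obtain ⟨z1, hz1, hz3⟩ := (ar_run_cons_eq A).mp hz2
    obtain ⟨z2, hz4, hz5⟩ := (ar_run_cons_eq A).mp hz3
    have h1 := A.inv z z1 (a, b) hz1
    simp only at h1
    rw [h1] at hz4
    have hz2 := Option.some.inj hz4
    subst hz2
    rw [par_append A hz, par_append A hz, ar_par_cons A hz1, ar_par_cons A h1]
    rw [← add_assoc (Pi.single _ _)]
    have h2 : (Pi.single (if (a, b).2 then z else z1, (a, b).1) 1 : V × Fin k → ZMod 2)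
        + Pi.single (if (a, !b).2 then z1 else z, (a, !b).1) 1 = 0 := by
      cases b
      · simp only [Bool.false_eq_true, ite_false, Bool.not_false, ite_true]
        funext e
        exact CharTwo.add_self_eq_zero _
      · simp only [Bool.false_eq_true, ite_false, Bool.not_true, ite_true]
        funext e
        exact CharTwo.add_self_eq_zero _
    rw [h2, zero_add]

theorem par_reduce {x y : V} {w : List (Fin k × Bool)} (h : A.run x w = some y) :
    A.par x (FreeGroup.reduce w) = A.par x w := by
  have hr : FreeGroup.Red w (FreeGroup.reduce w) := FreeGroup.reduce.red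
  have key : ∀ w', FreeGroup.Red w w' → A.run x w' = some y ∧ A.par x w' = A.par x w := by
    intro w' hw'
    induction hw' with
    | refl => exact ⟨h, rfl⟩
    | tail _ hs ih => exact ⟨ar_run_step A hs ih.1, (ar_par_step A hs ih.1).trans ih.2⟩
  exact (key _ hr).2

end Pool.Agent.H76.SC
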