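import Mathlib

set_option autoImplicit false

/-! # Codes of finite automata -/

namespace Pool.Agent.H76.SC

/-- code of a finite automaton: number of vertices, list of labelled edges `(u, a, v)` -/
abbrev Code := ℕ × List (ℕ × ℕ × ℕ)

/-- one step in a coded automaton -/
def cstep (c : Code) (u : ℕ) (a : ℕ × Bool) : Option ℕ :=
  if a.2 then (c.2.find? (fun t => t.1 == u && t.2.1 == a.1)).map (fun t => t.2.2)
  else (c.2.find? (fun t => t.2.2 == u && t.2.1 == a.1)).map (fun t => t.1)

/-- reading a word in a coded automaton -/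
def crun (c : Code) (u : ℕ) (w : List (ℕ × Bool)) : Option ℕ := List.foldlM (cstep c) u w

/-- parameters: number of letters, degree, expansion, size, shift of levels -/
structure Par where
  k : ℕ
  D : ℕ
  b : ℕ
  C : ℕ
  n0 : ℕ

/-- words in the first `k` letters without cancellation -/
def WRed (k : ℕ) (w : List (ℕ × Bool)) : Prop :=
  (∀ a ∈ w, a.1 < k) ∧ FreeGroup.IsReduced w

/-- `c` is an admissible next level after the levels `l` -/
structure PS (p : Par) (l : List Code) (c : Code) : Prop where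
  bd : ∀ t ∈ c.2, t.1 < c.1 ∧ t.2.1 < p.k ∧ t.2.2 < c.1
  det : ∀ t ∈ c.2, ∀ t' ∈ c.2, t.2.1 = t'.2.1 → (t.1 = t'.1 ↔ t.2.2 = t'.2.2)
  nd : c.2.Nodup
  deg : ∀ u < c.1, (c.2.filter (fun t => t.1 == u || t.2.2 == u)).length ≤ p.D
  exp : ∀ B : List ℕ, B.Sublist (List.range c.1) → 2 * B.length ≤ c.1 →
    B.length ≤ p.b * (c.2.filter (fun t => decide (t.1 ∈ B) != decide (t.2.2 ∈ B))).length
  lo : l.length ≤ c.1
  hi : c.1 ≤ p.C ^ (l.length + p.n0)
  girth : ∀ w, WRed p.k w → w ≠ [] → w.length < 200 * (l.length + p.n0) →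
    ∀ u < c.1, crun c u w ≠ some u
  av : ∀ (m : ℕ) (h : m < l.length), ∀ w, WRed p.k w → w.length = m + p.n0 + 1 →
    ∀ u < (l[m]).1, ∀ v < c.1, (crun l[m] u w).isSome → (crun c v w).isSome → False
  uniq : ∀ w, WRed p.k w → w.length = l.length + p.n0 + 1 →
    ∀ u < c.1, ∀ v < c.1, (crun c u w).isSome → (crun c v w).isSome → u = v

/-- admissible finite sequences of levels -/
def Valid (p : Par) (l : List Code) : Prop := ∀ (n : ℕ) (h : n < l.length), PS p (l.take n) l[n]

end Pool.Agent.H76.SC
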