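import Mathlib
import Pool.Agent.H76.SC.Code

set_option autoImplicit false

/-! # Admissibility is decidable -/

namespace Pool.Agent.H76.SC

section tools

variable {X α β : Type} [Primcodable X] [Primcodable α] [Primcodable β]

theorem psp_all {L : X → List α} {R : X → α → Prop} (hL : Primrec L)
    (hR : PrimrecPred (fun q : X × α => R q.1 q.2)) : PrimrecPred (fun x => ∀ a ∈ L x, R x a) := by
  have h : PrimrecRel (fun (a : α) (x : X) => R x a) :=
    PrimrecPred.comp hR (Primrec.snd.pair Primrec.fst)
  exact h.forall_mem_list.comp hL Primrec.id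

theorem psp_ex {L : X → List α} {R : X → α → Prop} (hL : Primrec L)
    (hR : PrimrecPred (fun q : X × α => R q.1 q.2)) : PrimrecPred (fun x => ∃ a ∈ L x, R x a) := by
  have h : PrimrecRel (fun (a : α) (x : X) => R x a) :=
    PrimrecPred.comp hR (Primrec.snd.pair Primrec.fst)
  exact h.exists_mem_list.comp hL Primrec.id

theorem psp_lt {N : X → ℕ} {R : X → ℕ → Prop} (hN : Primrec N)
    (hR : PrimrecPred (fun q : X × ℕ => R q.1 q.2)) : PrimrecPred (fun x => ∀ a < N x, R x a) := by
  have h := psp_all (L := fun x => List.range (N x)) (Primrec.list_range.comp hN) hR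
  exact h.of_eq (fun x => by simp)

theorem psp_filter {L : X → List α} {p : X → α → Bool} (hL : Primrec L)
    (hp : Primrec₂ p) : Primrec (fun x => (L x).filter (p x)) := by
  have h : PrimrecRel (fun (a : α) (x : X) => p x a = true) :=
    Primrec.eq.comp (hp.comp Primrec.snd Primrec.fst) (Primrec.const true)
  have h2 := h.listFilter.comp hL Primrec.id
  refine h2.of_eq (fun x => ?_)
  simp

theorem psp_imp {p q : X → Prop} (hp : PrimrecPred p) (hq : PrimrecPred q) :
    PrimrecPred (fun x => p x → q x) := by
  classical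
  exact (hp.not.or hq).of_eq (fun x => by tauto)

theorem psp_iff {p q : X → Prop} (hp : PrimrecPred p) (hq : PrimrecPred q) :
    PrimrecPred (fun x => p x ↔ q x) :=
  ((psp_imp hp hq).and (psp_imp hq hp)).of_eq (fun x => by tauto)

theorem psp_cstep {c : X → Code} {u : X → ℕ} {a : X → ℕ × Bool} (hc : Primrec c)
    (hu : Primrec u) (ha : Primrec a) : Primrec (fun x => cstep (c x) (u x) (a x)) := by
  have hl : Primrec (fun x => (c x).2) := Primrec.snd.comp hc
  have h1 : Primrec (fun x => ((c x).2.filter (fun t => t.1 == u x && t.2.1 == (a x).1))) := by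
    apply psp_filter hl
    refine Primrec.and.comp ?_ ?_
    · exact Primrec.beq.comp (Primrec.fst.comp Primrec.snd) (hu.comp Primrec.fst)
    · exact Primrec.beq.comp (Primrec.fst.comp (Primrec.snd.comp Primrec.snd))
        ((Primrec.fst.comp ha).comp Primrec.fst)
  have h2 : Primrec (fun x => ((c x).2.filter (fun t => t.2.2 == u x && t.2.1 == (a x).1))) := by
    apply psp_filter hl
    refine Primrec.and.comp ?_ ?_
    · exact Primrec.beq.comp (Primrec.snd.comp (Primrec.snd.comp Primrec.snd))
        (hu.comp Primrec.fst)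
    · exact Primrec.beq.comp (Primrec.fst.comp (Primrec.snd.comp Primrec.snd))
        ((Primrec.fst.comp ha).comp Primrec.fst)
  have h3 : Primrec (fun x => (((c x).2.filter (fun t => t.1 == u x && t.2.1 == (a x).1)).head?).map
      (fun t => t.2.2)) :=
    Primrec.option_map (Primrec.list_head?.comp h1)
      (Primrec.snd.comp (Primrec.snd.comp Primrec.snd)).to₂
  have h4 : Primrec (fun x => (((c x).2.filter (fun t => t.2.2 == u x && t.2.1 == (a x).1)).head?).map
      (fun t => t.1)) :=
    Primrec.option_map (Primrec.list_head?.comp h2)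
      (Primrec.fst.comp Primrec.snd).to₂
  have h5 := Primrec.ite (c := fun x => (a x).2 = true)
    (Primrec.eq.comp (Primrec.snd.comp ha) (Primrec.const true)) h3 h4
  refine h5.of_eq (fun x => ?_)
  unfold cstep
  rw [List.head?_filter, List.head?_filter]

theorem psp_crun_eq (c : Code) (w : List (ℕ × Bool)) : ∀ o : Option ℕ,
    o.bind (fun u => crun c u w) = w.foldl (fun o a => o.bind (fun u => cstep c u a)) o := by
  induction w with
  | nil =>
    intro o
    cases o <;> rfl
  | cons a w ih =>
    intro o
    rw [List.foldl_cons, ← ih]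
    cases o with
    | none => rfl
    | some u => rfl

theorem psp_crun {c : X → Code} {u : X → ℕ} {w : X → List (ℕ × Bool)} (hc : Primrec c)
    (hu : Primrec u) (hw : Primrec w) : Primrec (fun x => crun (c x) (u x) (w x)) := by
  have h := Primrec.list_foldl (f := w) (g := fun x => some (u x))
    (h := fun x (q : Option ℕ × (ℕ × Bool)) => q.1.bind (fun v => cstep (c x) v q.2)) hw
    (Primrec.option_some.comp hu) ?_
  · refine h.of_eq (fun x => ?_)
    rw [← psp_crun_eq]
    rfl
  · refine Primrec.option_bind (Primrec.fst.comp Primrec.snd) ?_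
    exact psp_cstep (hc.comp (Primrec.fst.comp Primrec.fst)) Primrec.snd
      (Primrec.snd.comp (Primrec.snd.comp Primrec.fst))

end tools

theorem crun_prim : Primrec (fun x : (Code × ℕ) × List (ℕ × Bool) => crun x.1.1 x.1.2 x.2) :=
  psp_crun (Primrec.fst.comp Primrec.fst) (Primrec.snd.comp Primrec.fst) Primrec.snd

/-! ### Enumeration of reduced words -/

/-- the letters -/
def psp_letters (k : ℕ) : List (ℕ × Bool) :=
  (List.range k).map (fun a => (a, true)) ++ (List.range k).map (fun a => (a, false))

theorem psp_mem_letters {k : ℕ} {a : ℕ × Bool} : a ∈ psp_letters k ↔ a.1 < k := by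
  obtain ⟨q, b⟩ := a
  unfold psp_letters
  cases b <;> simp

/-- the reduced words of length `r` -/
def psp_words (k : ℕ) : ℕ → List (List (ℕ × Bool))
  | 0 => [[]]
  | r + 1 => (psp_words k r).flatMap (fun w => (psp_letters k).flatMap (fun a =>
      if w.head? = some (a.1, !a.2) then [] else [a :: w]))

theorem psp_words_eq (k r : ℕ) : psp_words k r =
    Nat.rec (motive := fun _ => List (List (ℕ × Bool))) [[]]
      (fun _ l => l.flatMap (fun w => (psp_letters k).flatMap (fun a =>
      if w.head? = some (a.1, !a.2) then [] else [a :: w]))) r := by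
  induction r with
  | zero => rfl
  | succ r ih => rw [psp_words, ih]

theorem psp_words_prim (k : ℕ) : Primrec (psp_words k) := by
  have h := Primrec.nat_rec₁ (α := List (List (ℕ × Bool))) [[]]
    (f := fun _ l => l.flatMap (fun w => (psp_letters k).flatMap (fun a =>
      if w.head? = some (a.1, !a.2) then [] else [a :: w]))) ?_
  · exact h.of_eq (fun r => (psp_words_eq k r).symm)
  · refine Primrec.list_flatMap Primrec.snd ?_
    refine Primrec.list_flatMap (Primrec.const _) ?_
    refine Primrec.ite ?_ (Primrec.const _) ?_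
    · refine Primrec.eq.comp ?_ ?_
      · exact Primrec.list_head?.comp (Primrec.snd.comp Primrec.fst)
      · exact Primrec.option_some.comp ((Primrec.fst.comp Primrec.snd).pair
          (Primrec.not.comp (Primrec.snd.comp Primrec.snd)))
    · exact Primrec.list_cons.comp (Primrec.list_cons.comp Primrec.snd
        (Primrec.snd.comp Primrec.fst)) (Primrec.const [])

theorem psp_red_cons {a : ℕ × Bool} {w : List (ℕ × Bool)} :
    FreeGroup.IsReduced (a :: w) ↔ FreeGroup.IsReduced w ∧ w.head? ≠ some (a.1, !a.2) := by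
  cases w with
  | nil => simp [FreeGroup.IsReduced]
  | cons b w =>
    unfold FreeGroup.IsReduced
    rw [List.isChain_cons_cons, and_comm]
    refine and_congr_right (fun _ => ?_)
    obtain ⟨a1, a2⟩ := a
    obtain ⟨b1, b2⟩ := b
    simp only [List.head?_cons, ne_eq, Option.some.injEq, Prod.mk.injEq, not_and]
    constructor
    · intro h h1 h2
      have := h h1.symm
      rw [this] at h2
      cases b2 <;> simp at h2
    · intro h h1
      have := h h1.symm
      cases a2 <;> cases b2 <;> simp_all

theorem psp_mem_words {k : ℕ} : ∀ (r : ℕ) (w : List (ℕ × Bool)),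
    w ∈ psp_words k r ↔ WRed k w ∧ w.length = r
  | 0, w => by
      unfold psp_words WRed
      rw [List.mem_singleton, List.length_eq_zero_iff]
      constructor
      · rintro rfl
        exact ⟨⟨by simp, FreeGroup.IsReduced.nil⟩, rfl⟩
      · exact fun h => h.2
  | r + 1, w => by
      unfold psp_words
      simp only [List.mem_flatMap]
      constructor
      · rintro ⟨w', hw', a, ha, hm⟩
        split_ifs at hm with h
        · simp at hm
        · rw [List.mem_singleton] at hm
          subst hm
          obtain ⟨h1, h2⟩ := (psp_mem_words r w').mp hw'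
          refine ⟨⟨?_, psp_red_cons.mpr ⟨h1.2, h⟩⟩, by rw [List.length_cons, h2]⟩
          intro b hb
          rcases List.mem_cons.mp hb with hb | hb
          · rw [hb]; exact psp_mem_letters.mp ha
          · exact h1.1 b hb
      · rintro ⟨⟨h1, h2⟩, h3⟩
        cases w with
        | nil => simp at h3
        | cons a w =>
          have h4 := psp_red_cons.mp h2
          refine ⟨w, (psp_mem_words r w).mpr ⟨⟨fun b hb => h1 b (List.mem_cons_of_mem _ hb),
            h4.1⟩, by simpa using h3⟩, a, psp_mem_letters.mpr (h1 a List.mem_cons_self), ?_⟩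
          rw [if_neg h4.2]
          simp

/-! ### Enumeration of sublists of a range -/

/-- sublists of `List.range n` -/
def psp_sub : ℕ → List (List ℕ)
  | 0 => [[]]
  | n + 1 => (psp_sub n).flatMap (fun B => [B, B ++ [n]])

theorem psp_sub_prim : Primrec psp_sub := by
  have h := Primrec.nat_rec₁ (α := List (List ℕ)) [[]]
    (f := fun n l => l.flatMap (fun B => [B, B ++ [n]])) ?_
  · refine h.of_eq (fun r => ?_)
    induction r with
    | zero => rfl
    | succ r ih => rw [psp_sub, ← ih]
  · refine Primrec.list_flatMap Primrec.snd ?_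
    refine Primrec.list_cons.comp Primrec.snd (Primrec.list_cons.comp ?_ (Primrec.const []))
    refine Primrec.list_append.comp Primrec.snd (Primrec.list_cons.comp ?_ (Primrec.const []))
    exact Primrec.fst.comp Primrec.fst

theorem psp_mem_sub : ∀ (n : ℕ) (B : List ℕ), B ∈ psp_sub n ↔ B.Sublist (List.range n)
  | 0, B => by simp [psp_sub]
  | n + 1, B => by
      rw [psp_sub, List.range_succ, List.sublist_append_iff]
      simp only [List.mem_flatMap, List.mem_cons, List.not_mem_nil, or_false]
      constructor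
      · rintro ⟨B', hB', rfl | rfl⟩
        · exact ⟨B, [], by simp, (psp_mem_sub n B).mp hB', by simp⟩
        · exact ⟨B', [n], rfl, (psp_mem_sub n B').mp hB', by simp⟩
      · rintro ⟨B1, B2, rfl, h1, h2⟩
        refine ⟨B1, (psp_mem_sub n B1).mpr h1, ?_⟩
        rw [List.sublist_singleton] at h2
        rcases h2 with h2 | h2
        · left; rw [h2]; simp
        · right; rw [h2]

/-! ### The fields of `PS` -/

theorem psp_pow (C : ℕ) : Primrec (fun n : ℕ => C ^ n) := by
  have hf : Primrec₂ (fun (_ : ℕ) (x : ℕ) => x * C) :=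
    Primrec.nat_mul.comp Primrec.snd (Primrec.const C)
  have h := Primrec.nat_rec₁ (α := ℕ) 1 hf
  refine h.of_eq (fun r => ?_)
  induction r with
  | zero => rfl
  | succ r ih => rw [pow_succ, ← ih]

abbrev psp_X : Type := List Code × Code

theorem psp_bd (p : Par) : PrimrecPred (fun x : psp_X =>
    ∀ t ∈ x.2.2, t.1 < x.2.1 ∧ t.2.1 < p.k ∧ t.2.2 < x.2.1) := by
  refine psp_all (Primrec.snd.comp Primrec.snd) ?_
  refine PrimrecPred.and ?_ (PrimrecPred.and ?_ ?_)
  · exact Primrec.nat_lt.comp (Primrec.fst.comp Primrec.snd)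
      (Primrec.fst.comp (Primrec.snd.comp Primrec.fst))
  · exact Primrec.nat_lt.comp (Primrec.fst.comp (Primrec.snd.comp Primrec.snd)) (Primrec.const _)
  · exact Primrec.nat_lt.comp (Primrec.snd.comp (Primrec.snd.comp Primrec.snd))
      (Primrec.fst.comp (Primrec.snd.comp Primrec.fst))

theorem psp_det : PrimrecPred (fun x : psp_X =>
    ∀ t ∈ x.2.2, ∀ t' ∈ x.2.2, t.2.1 = t'.2.1 → (t.1 = t'.1 ↔ t.2.2 = t'.2.2)) := by
  refine psp_all (Primrec.snd.comp Primrec.snd) ?_
  refine psp_all (Primrec.snd.comp (Primrec.snd.comp Primrec.fst)) ?_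
  refine psp_imp ?_ (psp_iff ?_ ?_)
  · exact Primrec.eq.comp (Primrec.fst.comp (Primrec.snd.comp (Primrec.snd.comp Primrec.fst)))
      (Primrec.fst.comp (Primrec.snd.comp Primrec.snd))
  · exact Primrec.eq.comp (Primrec.fst.comp (Primrec.snd.comp Primrec.fst))
      (Primrec.fst.comp Primrec.snd)
  · exact Primrec.eq.comp (Primrec.snd.comp (Primrec.snd.comp (Primrec.snd.comp Primrec.fst)))
      (Primrec.snd.comp (Primrec.snd.comp Primrec.snd))

theorem psp_nd : PrimrecPred (fun x : psp_X => x.2.2.Nodup) := by
  have h : PrimrecPred (fun x : psp_X =>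
      ∀ t ∈ x.2.2, (x.2.2.filter (fun s => decide (s = t))).length ≤ 1) := by
    refine psp_all (Primrec.snd.comp Primrec.snd) ?_
    refine Primrec.nat_le.comp (Primrec.list_length.comp ?_) (Primrec.const 1)
    refine psp_filter (Primrec.snd.comp (Primrec.snd.comp Primrec.fst)) ?_
    exact (Primrec.eq.comp Primrec.snd (Primrec.snd.comp Primrec.fst)).decide
  refine h.of_eq (fun x => ?_)
  have e : ∀ t, List.count t x.2.2 = (x.2.2.filter (fun s => decide (s = t))).length := by
    intro t
    rw [List.count_eq_length_filter]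
    congr 1
    apply List.filter_congr
    intro s _
    exact beq_eq_decide _ _
  rw [List.nodup_iff_count_le_one]
  constructor
  · intro h t
    by_cases ht : t ∈ x.2.2
    · rw [e]
      exact h t ht
    · rw [List.count_eq_zero_of_not_mem ht]; omega
  · intro h t _
    rw [← e]
    exact h t

theorem psp_deg (p : Par) : PrimrecPred (fun x : psp_X =>
    ∀ u < x.2.1, (x.2.2.filter (fun t => t.1 == u || t.2.2 == u)).length ≤ p.D) := by
  refine psp_lt (Primrec.fst.comp Primrec.snd) ?_
  refine Primrec.nat_le.comp (Primrec.list_length.comp ?_) (Primrec.const _)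
  refine psp_filter (Primrec.snd.comp (Primrec.snd.comp Primrec.fst)) ?_
  refine Primrec.or.comp ?_ ?_
  · exact Primrec.beq.comp (Primrec.fst.comp Primrec.snd) (Primrec.snd.comp Primrec.fst)
  · exact Primrec.beq.comp (Primrec.snd.comp (Primrec.snd.comp Primrec.snd))
      (Primrec.snd.comp Primrec.fst)

theorem psp_mem {X : Type} [Primcodable X] {f : X → ℕ} {B : X → List ℕ} (hf : Primrec f)
    (hB : Primrec B) : Primrec (fun x => decide (f x ∈ B x)) := by
  have h : PrimrecPred (fun x => ∃ b ∈ B x, b = f x) :=
    psp_ex hB (Primrec.eq.comp Primrec.snd (hf.comp Primrec.fst))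
  have h2 : PrimrecPred (fun x => f x ∈ B x) := h.of_eq (fun x => by simp)
  exact h2.decide

theorem psp_bne : Primrec₂ (fun a b : Bool => a != b) := Primrec.dom_bool₂ _

theorem psp_exp (p : Par) : PrimrecPred (fun x : psp_X =>
    ∀ B : List ℕ, B.Sublist (List.range x.2.1) → 2 * B.length ≤ x.2.1 →
    B.length ≤ p.b * (x.2.2.filter (fun t => decide (t.1 ∈ B) != decide (t.2.2 ∈ B))).length) := by
  have h : PrimrecPred (fun x : psp_X => ∀ B ∈ psp_sub x.2.1, 2 * B.length ≤ x.2.1 →
    B.length ≤ p.b * (x.2.2.filter (fun t => decide (t.1 ∈ B) != decide (t.2.2 ∈ B))).length) := by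
    refine psp_all (psp_sub_prim.comp (Primrec.fst.comp Primrec.snd)) ?_
    refine psp_imp ?_ ?_
    · exact Primrec.nat_le.comp (Primrec.nat_mul.comp (Primrec.const 2)
        (Primrec.list_length.comp Primrec.snd)) (Primrec.fst.comp (Primrec.snd.comp Primrec.fst))
    · refine Primrec.nat_le.comp (Primrec.list_length.comp Primrec.snd)
        (Primrec.nat_mul.comp (Primrec.const _) (Primrec.list_length.comp ?_))
      refine psp_filter (Primrec.snd.comp (Primrec.snd.comp Primrec.fst)) ?_
      refine psp_bne.comp ?_ ?_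
      · exact psp_mem (Primrec.fst.comp Primrec.snd) (Primrec.snd.comp Primrec.fst)
      · exact psp_mem (Primrec.snd.comp (Primrec.snd.comp Primrec.snd))
          (Primrec.snd.comp Primrec.fst)
  refine h.of_eq (fun x => ?_)
  refine forall_congr' (fun B => ?_)
  rw [psp_mem_sub]

theorem psp_len (p : Par) : Primrec (fun x : psp_X => x.1.length + p.n0) :=
  Primrec.nat_add.comp (Primrec.list_length.comp Primrec.fst) (Primrec.const _)

theorem psp_girth (p : Par) : PrimrecPred (fun x : psp_X =>
    ∀ w, WRed p.k w → w ≠ [] → w.length < 200 * (x.1.length + p.n0) →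
    ∀ u < x.2.1, crun x.2 u w ≠ some u) := by
  have h : PrimrecPred (fun x : psp_X => ∀ r < 200 * (x.1.length + p.n0),
      ∀ w ∈ psp_words p.k r, w ≠ [] → ∀ u < x.2.1, crun x.2 u w ≠ some u) := by
    refine psp_lt (Primrec.nat_mul.comp (Primrec.const _) (psp_len p)) ?_
    refine psp_all ((psp_words_prim p.k).comp Primrec.snd) ?_
    refine psp_imp ?_ ?_
    · exact (Primrec.eq.comp Primrec.snd (Primrec.const [])).not
    · refine psp_lt (Primrec.fst.comp (Primrec.snd.comp (Primrec.fst.comp Primrec.fst))) ?_
      refine PrimrecPred.not (Primrec.eq.comp ?_ (Primrec.option_some.comp Primrec.snd))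
      exact psp_crun (Primrec.snd.comp (Primrec.fst.comp (Primrec.fst.comp Primrec.fst)))
        Primrec.snd (Primrec.snd.comp Primrec.fst)
  refine h.of_eq (fun x => ?_)
  constructor
  · intro h w hw hne hlen u hu
    exact h w.length hlen w ((psp_mem_words _ _).mpr ⟨hw, rfl⟩) hne u hu
  · intro h r hr w hw hne u hu
    obtain ⟨h1, h2⟩ := (psp_mem_words _ _).mp hw
    exact h w h1 hne (by omega) u hu

theorem psp_av (p : Par) : PrimrecPred (fun x : psp_X =>
    ∀ (m : ℕ) (h : m < x.1.length), ∀ w, WRed p.k w → w.length = m + p.n0 + 1 →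
    ∀ u < (x.1[m]).1, ∀ v < x.2.1, (crun x.1[m] u w).isSome → (crun x.2 v w).isSome → False) := by
  have h : PrimrecPred (fun x : psp_X => ∀ m < x.1.length, ∀ w ∈ psp_words p.k (m + p.n0 + 1),
      ∀ u < (x.1.getD m (0, [])).1, ∀ v < x.2.1,
        (crun (x.1.getD m (0, [])) u w).isSome = true → ¬ (crun x.2 v w).isSome = true) := by
    refine psp_lt (Primrec.list_length.comp Primrec.fst) ?_
    refine psp_all ((psp_words_prim p.k).comp (Primrec.nat_add.comp (Primrec.nat_add.comp
      Primrec.snd (Primrec.const _)) (Primrec.const 1))) ?_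
    refine psp_lt (Primrec.fst.comp ((Primrec.list_getD _).comp
      (Primrec.fst.comp (Primrec.fst.comp Primrec.fst)) (Primrec.snd.comp Primrec.fst))) ?_
    refine psp_lt (Primrec.fst.comp (Primrec.snd.comp (Primrec.fst.comp
      (Primrec.fst.comp Primrec.fst)))) ?_
    refine psp_imp ?_ (PrimrecPred.not ?_)
    · refine Primrec.eq.comp (Primrec.option_isSome.comp ?_) (Primrec.const true)
      refine psp_crun ((Primrec.list_getD _).comp ?_ ?_) (Primrec.snd.comp Primrec.fst)
        (Primrec.snd.comp (Primrec.fst.comp Primrec.fst))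
      · exact Primrec.fst.comp (Primrec.fst.comp (Primrec.fst.comp
          (Primrec.fst.comp Primrec.fst)))
      · exact Primrec.snd.comp (Primrec.fst.comp (Primrec.fst.comp Primrec.fst))
    · refine Primrec.eq.comp (Primrec.option_isSome.comp ?_) (Primrec.const true)
      refine psp_crun ?_ Primrec.snd (Primrec.snd.comp (Primrec.fst.comp Primrec.fst))
      exact Primrec.snd.comp (Primrec.fst.comp (Primrec.fst.comp
          (Primrec.fst.comp Primrec.fst)))
  refine h.of_eq (fun x => ?_)
  constructor
  · intro h m hm w hw hlen u hu v hv h1 h2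
    have e : x.1.getD m (0, []) = x.1[m] := List.getD_eq_getElem _ _ hm
    exact h m hm w ((psp_mem_words _ _).mpr ⟨hw, hlen⟩) u (by rw [e]; exact hu) v hv
      (by rw [e]; exact h1) h2
  · intro h m hm w hw u hu v hv h1 h2
    have e : x.1.getD m (0, []) = x.1[m] := List.getD_eq_getElem _ _ hm
    rw [e] at hu h1
    obtain ⟨h3, h4⟩ := (psp_mem_words _ _).mp hw
    exact h m hm w h3 h4 u hu v hv h1 h2

theorem psp_uniq (p : Par) : PrimrecPred (fun x : psp_X =>
    ∀ w, WRed p.k w → w.length = x.1.length + p.n0 + 1 →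
    ∀ u < x.2.1, ∀ v < x.2.1, (crun x.2 u w).isSome → (crun x.2 v w).isSome → u = v) := by
  have h : PrimrecPred (fun x : psp_X => ∀ w ∈ psp_words p.k (x.1.length + p.n0 + 1),
      ∀ u < x.2.1, ∀ v < x.2.1,
        (crun x.2 u w).isSome = true → (crun x.2 v w).isSome = true → u = v) := by
    refine psp_all ((psp_words_prim p.k).comp (Primrec.nat_add.comp (psp_len p)
      (Primrec.const 1))) ?_
    refine psp_lt (Primrec.fst.comp (Primrec.snd.comp Primrec.fst)) ?_
    refine psp_lt (Primrec.fst.comp (Primrec.snd.comp (Primrec.fst.comp Primrec.fst))) ?_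
    refine psp_imp ?_ (psp_imp ?_ ?_)
    · refine Primrec.eq.comp (Primrec.option_isSome.comp ?_) (Primrec.const true)
      exact psp_crun (Primrec.snd.comp (Primrec.fst.comp (Primrec.fst.comp Primrec.fst)))
        (Primrec.snd.comp Primrec.fst) (Primrec.snd.comp (Primrec.fst.comp Primrec.fst))
    · refine Primrec.eq.comp (Primrec.option_isSome.comp ?_) (Primrec.const true)
      exact psp_crun (Primrec.snd.comp (Primrec.fst.comp (Primrec.fst.comp Primrec.fst)))
        Primrec.snd (Primrec.snd.comp (Primrec.fst.comp Primrec.fst))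
    · exact Primrec.eq.comp (Primrec.snd.comp Primrec.fst) Primrec.snd
  refine h.of_eq (fun x => ?_)
  constructor
  · intro h w hw hlen u hu v hv h1 h2
    exact h w ((psp_mem_words _ _).mpr ⟨hw, hlen⟩) u hu v hv h1 h2
  · intro h w hw u hu v hv h1 h2
    obtain ⟨h3, h4⟩ := (psp_mem_words _ _).mp hw
    exact h w h3 h4 u hu v hv h1 h2

theorem ps_prim (p : Par) : ComputablePred (fun x : List Code × Code => PS p x.1 x.2) := by
  apply PrimrecPred.computablePred
  have hlo : PrimrecPred (fun x : psp_X => x.1.length ≤ x.2.1) :=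
    Primrec.nat_le.comp (Primrec.list_length.comp Primrec.fst) (Primrec.fst.comp Primrec.snd)
  have hhi : PrimrecPred (fun x : psp_X => x.2.1 ≤ p.C ^ (x.1.length + p.n0)) :=
    Primrec.nat_le.comp (Primrec.fst.comp Primrec.snd) ((psp_pow p.C).comp (psp_len p))
  refine ((psp_bd p).and (psp_det.and (psp_nd.and ((psp_deg p).and ((psp_exp p).and
    (hlo.and (hhi.and ((psp_girth p).and ((psp_av p).and (psp_uniq p)))))))))).of_eq ?_
  intro x
  constructor
  · rintro ⟨h1, h2, h3, h4, h5, h6, h7, h8, h9, h10⟩
    exact ⟨h1, h2, h3, h4, h5, h6, h7, h8, h9, h10⟩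
  · rintro ⟨h1, h2, h3, h4, h5, h6, h7, h8, h9, h10⟩
    exact ⟨h1, h2, h3, h4, h5, h6, h7, h8, h9, h10⟩

end Pool.Agent.H76.SC
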