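import Mathlib
import Pool.Agent.H76.SC.Aut0
import Pool.Agent.H76.SC.AutRun
import Pool.Agent.H76.SC.Code
import Pool.Agent.H76.SC.PSPrim
import Pool.Agent.H91.CD.COMPa

set_option autoImplicit false

/-! # The automaton of a computable admissible sequence of codes -/

namespace Pool.Agent.H76.SC

open Pool.Agent.H91.CD.COMP

/-! ### Single codes -/

theorem ao_cstep_true {c : Code} {u q v : ℕ} :
    cstep c u (q, true) = some v ↔
      ∃ t, c.2.find? (fun t => t.1 == u && t.2.1 == q) = some t ∧ t.2.2 = v := by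
  unfold cstep
  simp only [if_true, Option.map_eq_some_iff]

theorem ao_cstep_false {c : Code} {u q v : ℕ} :
    cstep c u (q, false) = some v ↔
      ∃ t, c.2.find? (fun t => t.2.2 == u && t.2.1 == q) = some t ∧ t.1 = v := by
  unfold cstep
  simp only [Bool.false_eq_true, if_false, Option.map_eq_some_iff]

theorem ao_cstep_mem {c : Code} {u v : ℕ} {a : ℕ × Bool} (h : cstep c u a = some v) :
    (if a.2 then (u, a.1, v) else (v, a.1, u)) ∈ c.2 := by
  obtain ⟨q, b⟩ := a
  cases b with
  | true =>
    obtain ⟨t, ht, htv⟩ := ao_cstep_true.mp h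
    have hm := List.mem_of_find?_eq_some ht
    have hp := List.find?_some ht
    simp only [Bool.and_eq_true, beq_iff_eq] at hp
    simp only [if_true]
    rw [← htv, ← hp.1, ← hp.2]
    exact hm
  | false =>
    obtain ⟨t, ht, htv⟩ := ao_cstep_false.mp h
    have hm := List.mem_of_find?_eq_some ht
    have hp := List.find?_some ht
    simp only [Bool.and_eq_true, beq_iff_eq] at hp
    simp only [Bool.false_eq_true, if_false]
    rw [← htv, ← hp.1, ← hp.2]
    exact hm

theorem ao_cstep_of_mem {c : Code}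
    (hdet : ∀ t ∈ c.2, ∀ t' ∈ c.2, t.2.1 = t'.2.1 → (t.1 = t'.1 ↔ t.2.2 = t'.2.2))
    {u v : ℕ} {a : ℕ × Bool} (h : (if a.2 then (u, a.1, v) else (v, a.1, u)) ∈ c.2) :
    cstep c u a = some v := by
  obtain ⟨q, b⟩ := a
  cases b with
  | true =>
    simp only [if_true] at h
    rw [ao_cstep_true]
    have hex : ∃ t', c.2.find? (fun s => s.1 == u && s.2.1 == q) = some t' := by
      rw [← Option.isSome_iff_exists, List.find?_isSome]
      exact ⟨_, h, by simp⟩
    obtain ⟨t, ht⟩ := hex
    have hm := List.mem_of_find?_eq_some ht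
    have hp := List.find?_some ht
    simp only [Bool.and_eq_true, beq_iff_eq] at hp
    exact ⟨t, ht, (hdet t hm _ h hp.2).mp hp.1⟩
  | false =>
    simp only [Bool.false_eq_true, if_false] at h
    rw [ao_cstep_false]
    have hex : ∃ t', c.2.find? (fun s => s.2.2 == u && s.2.1 == q) = some t' := by
      rw [← Option.isSome_iff_exists, List.find?_isSome]
      exact ⟨_, h, by simp⟩
    obtain ⟨t, ht⟩ := hex
    have hm := List.mem_of_find?_eq_some ht
    have hp := List.find?_some ht
    simp only [Bool.and_eq_true, beq_iff_eq] at hp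
    exact ⟨t, ht, (hdet t hm _ h hp.2).mpr hp.1⟩

/-! ### Steps on the disjoint union of the levels -/

/-- letters as numbers -/
def ao_num {k : ℕ} (w : List (Fin k × Bool)) : List (ℕ × Bool) := w.map (fun a => (a.1.val, a.2))

/-- the step of the automaton -/
def ao_step {k : ℕ} (s : ℕ → Code) (x : Σ n, Fin (s n).1) (a : Fin k × Bool) :
    Option (Σ n, Fin (s n).1) :=
  (cstep (s x.1) x.2.val (a.1.val, a.2)).bind
    (fun v => if h : v < (s x.1).1 then some ⟨x.1, ⟨v, h⟩⟩ else none)

theorem ao_step_some {k : ℕ} (s : ℕ → Code) (x y : Σ n, Fin (s n).1) (a : Fin k × Bool) :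
    ao_step s x a = some y ↔ y.1 = x.1 ∧
      cstep (s x.1) x.2.val (a.1.val, a.2) = some y.2.val := by
  unfold ao_step
  rw [Option.bind_eq_some_iff]
  constructor
  · rintro ⟨v, hv, h⟩
    split_ifs at h with h1
    · have := Option.some.inj h
      subst this
      exact ⟨rfl, hv⟩
  · rintro ⟨h1, h2⟩
    obtain ⟨n, u⟩ := x
    obtain ⟨m, v⟩ := y
    simp only at h1 h2
    subst h1
    refine ⟨v.val, h2, ?_⟩
    simp only [v.2, dif_pos]

theorem ao_run_some {k : ℕ} (s : ℕ → Code)
    (hb : ∀ n u a v, cstep (s n) u a = some v → v < (s n).1) (w : List (Fin k × Bool)) :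
    ∀ x y : Σ n, Fin (s n).1, List.foldlM (ao_step s) x w = some y ↔ y.1 = x.1 ∧
      crun (s x.1) x.2.val (ao_num w) = some y.2.val := by
  induction w with
  | nil =>
    rintro ⟨n, u⟩ ⟨m, v⟩
    simp only [List.foldlM_nil, ao_num, List.map_nil, crun]
    constructor
    · intro h
      have := Option.some.inj h
      rw [Sigma.mk.injEq] at this
      obtain ⟨h1, h2⟩ := this
      subst h1
      rw [eq_of_heq h2]
      exact ⟨rfl, rfl⟩
    · rintro ⟨h1, h2⟩
      subst h1
      have h3 : u.val = v.val := Option.some.inj h2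
      rw [Fin.ext h3]
      rfl
  | cons a w ih =>
    intro x y
    have e1 : List.foldlM (ao_step s) x (a :: w) =
        (ao_step s x a).bind (fun z => List.foldlM (ao_step s) z w) := rfl
    have e2 : crun (s x.1) x.2.val (ao_num (a :: w)) =
        (cstep (s x.1) x.2.val (a.1.val, a.2)).bind (fun z => crun (s x.1) z (ao_num w)) := rfl
    rw [e1, e2, Option.bind_eq_some_iff, Option.bind_eq_some_iff]
    constructor
    · rintro ⟨z, hz, hzy⟩
      obtain ⟨h1, h2⟩ := (ao_step_some s x z a).mp hz
      obtain ⟨h3, h4⟩ := (ih z y).mp hzy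
      refine ⟨h3.trans h1, z.2.val, h2, ?_⟩
      rw [← h1]
      exact h4
    · rintro ⟨h1, v, h2, h3⟩
      have hv := hb _ _ _ _ h2
      refine ⟨⟨x.1, ⟨v, hv⟩⟩, (ao_step_some s x _ a).mpr ⟨rfl, h2⟩, ?_⟩
      exact (ih _ y).mpr ⟨h1, h3⟩

theorem ao_run_isSome {k : ℕ} (s : ℕ → Code)
    (hb : ∀ n u a v, cstep (s n) u a = some v → v < (s n).1) (w : List (Fin k × Bool))
    (x : Σ n, Fin (s n).1) (h : (List.foldlM (ao_step s) x w).isSome) :
    (crun (s x.1) x.2.val (ao_num w)).isSome := by
  obtain ⟨y, hy⟩ := Option.isSome_iff_exists.mp h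
  obtain ⟨_, h2⟩ := (ao_run_some s hb w x y).mp hy
  rw [h2]
  rfl

theorem ao_crun_take {c : Code} (w : List (ℕ × Bool)) (i : ℕ) :
    ∀ u, (crun c u w).isSome → (crun c u (w.take i)).isSome := by
  induction w generalizing i with
  | nil => intro u h; simpa using h
  | cons a w ih =>
    intro u h
    cases i with
    | zero => rfl
    | succ i =>
      have e1 : crun c u (a :: w) = (cstep c u a).bind (fun z => crun c z w) := rfl
      have e2 : crun c u ((a :: w).take (i + 1)) =
        (cstep c u a).bind (fun z => crun c z (w.take i)) := rfl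
      obtain ⟨v, hv⟩ := Option.isSome_iff_exists.mp h
      rw [e1, Option.bind_eq_some_iff] at hv
      obtain ⟨z, hz, hzv⟩ := hv
      have := ih i z (by rw [hzv]; rfl)
      rw [e2, hz]
      exact this

theorem ao_wred {k : ℕ} {w : List (Fin k × Bool)} (h : FreeGroup.reduce w = w) :
    WRed k (ao_num w) := by
  constructor
  · intro a ha
    unfold ao_num at ha
    rw [List.mem_map] at ha
    obtain ⟨b, _, rfl⟩ := ha
    exact b.1.2
  · have h1 : FreeGroup.IsReduced w := by
      rw [FreeGroup.isReduced_iff_reduce_eq]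
      exact h
    unfold FreeGroup.IsReduced at h1 ⊢
    unfold ao_num
    rw [List.isChain_map]
    refine List.IsChain.imp ?_ h1
    intro a b hab h2
    exact hab (Fin.ext h2)

theorem ao_wred_take {k : ℕ} {w : List (ℕ × Bool)} (h : WRed k w) (i : ℕ) :
    WRed k (w.take i) := by
  refine ⟨fun a ha => h.1 a (List.mem_of_mem_take ha), ?_⟩
  have := h.2
  unfold FreeGroup.IsReduced at this ⊢
  exact this.take i

/-! ### Crossed edges -/

/-- the list of the edges crossed while reading a word -/
def ao_E (c : Code) (u : ℕ) (w : List (ℕ × Bool)) : List (Option ℕ × ℕ) :=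
  (List.range w.length).map (fun i =>
    (crun c u (w.take (if (w.getD i (0, true)).2 = true then i else i + 1)),
      (w.getD i (0, true)).1))

theorem ao_E_cons {c : Code} {u v : ℕ} {a : ℕ × Bool} (w : List (ℕ × Bool))
    (h : cstep c u a = some v) :
    ao_E c u (a :: w) = (some (if a.2 = true then u else v), a.1) :: ao_E c v w := by
  unfold ao_E
  rw [List.length_cons, List.range_succ_eq_map, List.map_cons, List.map_map]
  congr 1
  · simp only [List.getD_cons_zero, Prod.mk.injEq, and_true]
    split_ifs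
    · rfl
    · have e2 : crun c u ((a :: w).take 1) = (cstep c u a).bind (fun z => crun c z []) := rfl
      rw [show (0 : ℕ) + 1 = 1 from rfl, e2, h]
      rfl
  · apply List.map_congr_left
    intro i _
    simp only [Function.comp_apply, Nat.succ_eq_add_one, List.getD_cons_succ, Prod.mk.injEq,
      and_true]
    have key : ∀ j : ℕ, crun c u ((a :: w).take (j + 1)) = crun c v (w.take j) := by
      intro j
      have e2 : crun c u ((a :: w).take (j + 1)) =
        (cstep c u a).bind (fun z => crun c z (w.take j)) := rfl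
      rw [e2, h]
      rfl
    split_ifs
    · exact key i
    · exact key (i + 1)

theorem ao_num_cons {k : ℕ} (a : Fin k × Bool) (w : List (Fin k × Bool)) :
    ao_num (a :: w) = (a.1.val, a.2) :: ao_num w := rfl

theorem ao_par {k : ℕ} {s : ℕ → Code} (A : Aut k (Σ n, Fin (s n).1)) (hA : A.step = ao_step s)
    (w : List (Fin k × Bool)) : ∀ (x y z : Σ n, Fin (s n).1) (q : Fin k),
    A.run x w = some y → A.par x w (z, q) = if z.1 = x.1 then
      (((ao_E (s x.1) x.2.val (ao_num w)).count (some z.2.val, q.val) : ℕ) : ZMod 2) else 0 := by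
  induction w with
  | nil =>
    intro x y z q _
    rw [ar_par_nil]
    simp [ao_num, ao_E]
  | cons a w ih =>
    intro x y z q h
    obtain ⟨x', h1, h2⟩ := (ar_run_cons_eq A).mp h
    rw [ar_par_cons A h1, Pi.add_apply, ih x' y z q h2]
    rw [hA] at h1
    obtain ⟨h3, h4⟩ := (ao_step_some s x x' a).mp h1
    rw [ao_num_cons, ao_E_cons _ h4, List.count_cons]
    have h5 : ((if a.2 = true then x else x') : Σ n, Fin (s n).1).1 = x.1 := by
      split_ifs
      · rfl
      · exact h3
    have h6 : ((if a.2 = true then x else x') : Σ n, Fin (s n).1).2.val =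
        (if a.2 = true then x.2.val else x'.2.val) := by
      cases a.2 <;> rfl
    generalize (if a.2 = true then x else x' : Σ n, Fin (s n).1) = e at h5 h6
    simp only
    rw [← h6]
    clear h6 h4 h1
    generalize x'.2.val = v
    rw [h3]
    by_cases hz : z.1 = x.1
    · rw [if_pos hz, if_pos hz]
      by_cases hz2 : z.2.val = e.2.val ∧ q = a.1
      · obtain ⟨hz2, hz3⟩ := hz2
        have hze : z = e := by
          obtain ⟨n, z⟩ := z
          obtain ⟨m, e⟩ := e
          simp only at hz hz2 h5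
          subst hz
          subst h5
          rw [Fin.ext hz2]
        subst hze
        subst hz3
        rw [Pi.single_eq_same, if_pos (by simp)]
        push_cast
        ring
      · rw [Pi.single_eq_of_ne, if_neg]
        · push_cast
          ring
        · intro h7
          simp only [beq_iff_eq, Prod.mk.injEq, Option.some.injEq] at h7
          exact hz2 ⟨h7.1.symm, Fin.ext h7.2.symm⟩
        · intro h7
          rw [Prod.mk.injEq] at h7
          exact hz2 ⟨by rw [h7.1], h7.2⟩
    · rw [if_neg hz, if_neg hz, add_zero, Pi.single_eq_of_ne]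
      intro h7
      rw [Prod.mk.injEq] at h7
      exact hz (by rw [h7.1, h5])

theorem ao_E_mem {k : ℕ} {s : ℕ → Code} (A : Aut k (Σ n, Fin (s n).1)) (hA : A.step = ao_step s)
    (w : List (Fin k × Bool)) : ∀ (x y : Σ n, Fin (s n).1), A.run x w = some y →
    ∀ e ∈ ao_E (s x.1) x.2.val (ao_num w), ∃ (z : Σ n, Fin (s n).1) (q : Fin k),
      z.1 = x.1 ∧ e = (some z.2.val, q.val) := by
  induction w with
  | nil =>
    intro x y _ e he
    simp [ao_num, ao_E] at he
  | cons a w ih =>
    intro x y h e he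
    obtain ⟨x', h1, h2⟩ := (ar_run_cons_eq A).mp h
    rw [hA] at h1
    obtain ⟨h3, h4⟩ := (ao_step_some s x x' a).mp h1
    rw [ao_num_cons, ao_E_cons _ h4, List.mem_cons] at he
    rcases he with he | he
    · refine ⟨if a.2 = true then x else x', a.1, ?_, ?_⟩
      · split_ifs
        · rfl
        · exact h3
      · rw [he]
        cases a.2 <;> rfl
    · have he' : e ∈ ao_E (s x'.1) x'.2.val (ao_num w) := by
        revert he
        generalize x'.2.val = v
        intro he
        rw [h3]
        exact he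
      obtain ⟨z, q, h5, h6⟩ := ih x' y h2 e he'
      exact ⟨z, q, h5.trans h3, h6⟩

theorem ao_par_zero {k : ℕ} {s : ℕ → Code} (A : Aut k (Σ n, Fin (s n).1))
    (hA : A.step = ao_step s) (w : List (Fin k × Bool)) (x y : Σ n, Fin (s n).1)
    (h : A.run x w = some y) : A.par x w = 0 ↔ ∀ e ∈ ao_E (s x.1) x.2.val (ao_num w),
      ((ao_E (s x.1) x.2.val (ao_num w)).filter (fun e' => e' = e)).length % 2 = 0 := by
  have hc : ∀ e : Option ℕ × ℕ, ∀ L : List (Option ℕ × ℕ),
      (L.filter (fun e' => e' = e)).length = L.count e := by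
    intro e L
    rw [List.count, List.countP_eq_length_filter]
    congr 1
    apply List.filter_congr
    intro x _
    rw [Bool.eq_iff_iff]
    simp
  constructor
  · intro h0 e he
    obtain ⟨z, q, h1, h2⟩ := ao_E_mem A hA w x y h e he
    have h3 := ao_par A hA w x y z q h
    rw [h0, if_pos h1, ← h2, Pi.zero_apply] at h3
    rw [hc]
    have h4 := (ZMod.natCast_eq_zero_iff _ _).mp h3.symm
    omega
  · intro h0
    funext e
    obtain ⟨z, q⟩ := e
    rw [ao_par A hA w x y z q h, Pi.zero_apply]
    split_ifs with h1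
    · by_cases hm : ((some z.2.val, q.val) : Option ℕ × ℕ) ∈ ao_E (s x.1) x.2.val (ao_num w)
      · have := h0 _ hm
        rw [hc] at this
        rw [ZMod.natCast_eq_zero_iff]
        omega
      · rw [List.count_eq_zero_of_not_mem hm]
        simp
    · rfl

/-! ### Computability -/

theorem ao_num_comp {k : ℕ} : Primrec (ao_num (k := k)) := by
  unfold ao_num
  refine Primrec.list_map Primrec.id ?_
  exact ((Primrec.fin_val.comp (Primrec.fst.comp Primrec.snd)).pair
    (Primrec.snd.comp Primrec.snd)).to₂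

theorem ao_E_comp : Primrec (fun x : (Code × ℕ) × List (ℕ × Bool) => ao_E x.1.1 x.1.2 x.2) := by
  unfold ao_E
  refine Primrec.list_map (Primrec.list_range.comp (Primrec.list_length.comp Primrec.snd)) ?_
  have hget : Primrec (fun y : ((Code × ℕ) × List (ℕ × Bool)) × ℕ => y.1.2.getD y.2 (0, true)) :=
    (Primrec.list_getD (0, true)).comp (Primrec.snd.comp Primrec.fst) Primrec.snd
  have hidx : Primrec (fun y : ((Code × ℕ) × List (ℕ × Bool)) × ℕ =>
      if (y.1.2.getD y.2 (0, true)).2 = true then y.2 else y.2 + 1) := by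
    refine Primrec.ite ?_ Primrec.snd (Primrec.succ.comp Primrec.snd)
    exact Primrec.eq.comp (Primrec.snd.comp hget) (Primrec.const true)
  have htake : Primrec (fun y : ((Code × ℕ) × List (ℕ × Bool)) × ℕ =>
      y.1.2.take (if (y.1.2.getD y.2 (0, true)).2 = true then y.2 else y.2 + 1)) :=
    Primrec.list_take.comp hidx (Primrec.snd.comp Primrec.fst)
  have hrun : Primrec (fun y : ((Code × ℕ) × List (ℕ × Bool)) × ℕ =>
      crun y.1.1.1 y.1.1.2
        (y.1.2.take (if (y.1.2.getD y.2 (0, true)).2 = true then y.2 else y.2 + 1))) :=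
    crun_prim.comp ((Primrec.fst.comp Primrec.fst).pair htake)
  exact (hrun.pair (Primrec.fst.comp hget)).to₂

/-- evenness of all multiplicities -/
def ao_ev (L : List (Option ℕ × ℕ)) : Prop :=
  ∀ e ∈ L, (L.filter (fun e' => e' = e)).length % 2 = 0

theorem ao_ev_comp : PrimrecPred ao_ev := by
  have h1 : PrimrecRel (fun (e : Option ℕ × ℕ) (L : List (Option ℕ × ℕ)) =>
      (L.filter (fun e' => e' = e)).length % 2 = 0) := by
    have h2 : Primrec₂ (fun (L : List (Option ℕ × ℕ)) (e : Option ℕ × ℕ) =>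
      L.filter (fun e' => e' = e)) := PrimrecRel.listFilter (R := fun a b => a = b) Primrec.eq
    exact Primrec.eq.comp (Primrec.nat_mod.comp (Primrec.list_length.comp
      (h2.comp Primrec.snd Primrec.fst)) (Primrec.const 2)) (Primrec.const 0)
  exact h1.forall_mem_list.comp Primrec.id Primrec.id

theorem ao_re {k : ℕ} {s : ℕ → Code} (hs : Computable s) :
    REPred (fun w : List (Fin k × Bool) => ∃ x : ℕ × ℕ,
      x.2 < (s x.1).1 ∧ crun (s x.1) x.2 (ao_num w) = some x.2) := by
  apply re_exists
  apply re_and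
  · have h : Computable (fun q : List (Fin k × Bool) × (ℕ × ℕ) =>
        decide (q.2.2 < (s q.2.1).1)) := by
      have h1 : Computable (fun q : List (Fin k × Bool) × (ℕ × ℕ) => (s q.2.1).1) :=
        Computable.fst.comp (hs.comp (Computable.fst.comp Computable.snd))
      exact (Primrec.nat_lt.decide.to_comp).comp (Computable.snd.comp Computable.snd) h1
    refine (re_eq h (Computable.const true)).of_eq ?_
    intro q
    rw [decide_eq_true_iff]
  · refine re_eq ?_ ?_
    · exact crun_prim.to_comp.comp (((hs.comp (Computable.fst.comp Computable.snd)).pair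
        (Computable.snd.comp Computable.snd)).pair (ao_num_comp.to_comp.comp Computable.fst))
    · exact Computable.option_some.comp (Computable.snd.comp Computable.snd)

theorem ao_re2 {k : ℕ} {s : ℕ → Code} (hs : Computable s) :
    REPred (fun w : List (Fin k × Bool) => ∃ x : ℕ × ℕ,
      x.2 < (s x.1).1 ∧ crun (s x.1) x.2 (ao_num w) = some x.2 ∧
        ao_ev (ao_E (s x.1) x.2 (ao_num w))) := by
  apply re_exists
  apply re_and
  · have h : Computable (fun q : List (Fin k × Bool) × (ℕ × ℕ) =>
        decide (q.2.2 < (s q.2.1).1)) := by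
      have h1 : Computable (fun q : List (Fin k × Bool) × (ℕ × ℕ) => (s q.2.1).1) :=
        Computable.fst.comp (hs.comp (Computable.fst.comp Computable.snd))
      exact (Primrec.nat_lt.decide.to_comp).comp (Computable.snd.comp Computable.snd) h1
    refine (re_eq h (Computable.const true)).of_eq ?_
    intro q
    rw [decide_eq_true_iff]
  · have h0 : Computable (fun q : List (Fin k × Bool) × (ℕ × ℕ) =>
        (((s q.2.1, q.2.2), ao_num q.1) : (Code × ℕ) × List (ℕ × Bool))) :=
      ((hs.comp (Computable.fst.comp Computable.snd)).pair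
        (Computable.snd.comp Computable.snd)).pair (ao_num_comp.to_comp.comp Computable.fst)
    apply re_and
    · refine re_eq ?_ ?_
      · exact crun_prim.to_comp.comp h0
      · exact Computable.option_some.comp (Computable.snd.comp Computable.snd)
    · obtain ⟨d, hd⟩ := ao_ev_comp
      refine (re_eq (hd.to_comp.comp (ao_E_comp.to_comp.comp h0))
        (Computable.const true)).of_eq ?_
      intro q
      rw [decide_eq_true_iff]

/-- the triples with exactly one end in a set give edges leaving the set -/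
theorem ao_exp (p : Par) (s : ℕ → Code) (hPS : ∀ n, PS p ((List.range n).map s) (s n))
    (n : ℕ) (B : Finset (Σ n, Fin (s n).1)) (hB : ∀ x ∈ B, x.1 = n)
    (hcard : 2 * B.card ≤ Nat.card {x : Σ n, Fin (s n).1 // x.1 = n}) :
    B.card ≤ p.b * Nat.card {q : (Σ n, Fin (s n).1) × (Fin p.k × Bool) //
      q.1 ∈ B ∧ ∃ y, y ∉ B ∧ ao_step s q.1 q.2 = some y} := by
  classical
  have hc : Nat.card {x : Σ n, Fin (s n).1 // x.1 = n} = (s n).1 := by
    rw [← Nat.card_fin (s n).1]
    symm
    refine Nat.card_congr (Equiv.ofBijective (fun u => ⟨⟨n, u⟩, rfl⟩) ⟨?_, ?_⟩)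
    · intro u u' h
      have h2 := congrArg Subtype.val h
      simpa using h2
    · rintro ⟨⟨m, u⟩, h⟩
      simp only at h
      subst h
      exact ⟨u, rfl⟩
  rw [hc] at hcard
  set B' : List ℕ := (List.range (s n).1).filter
    (fun u => decide (∃ h : u < (s n).1, (⟨n, ⟨u, h⟩⟩ : Σ n, Fin (s n).1) ∈ B)) with hB'
  have hmem : ∀ u : ℕ, ∀ h : u < (s n).1, u ∈ B' ↔ (⟨n, ⟨u, h⟩⟩ : Σ n, Fin (s n).1) ∈ B := by
    intro u h
    rw [hB', List.mem_filter, List.mem_range, decide_eq_true_iff]
    constructor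
    · rintro ⟨_, h1, h2⟩
      exact h2
    · intro h1
      exact ⟨h, h, h1⟩
  have hnd : B'.Nodup := List.nodup_range.filter _
  have hlen : B'.length = B.card := by
    rw [← List.toFinset_card_of_nodup hnd]
    symm
    apply Finset.card_bij (fun x _ => x.2.val)
    · rintro ⟨m, u⟩ hx
      have := hB _ hx
      simp only at this
      subst this
      exact List.mem_toFinset.mpr ((hmem u.val u.2).mpr hx)
    · rintro ⟨m, u⟩ hx ⟨m', u'⟩ hx' h
      have h1 := hB _ hx
      have h2 := hB _ hx'
      simp only at h1 h2 h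
      subst h1
      subst h2
      rw [Fin.ext h]
    · intro u hu
      have hu' := List.mem_toFinset.mp hu
      have hlt : u < (s n).1 := by
        rw [hB', List.mem_filter, List.mem_range] at hu'
        exact hu'.1
      exact ⟨⟨n, ⟨u, hlt⟩⟩, (hmem u hlt).mp hu', rfl⟩
  have h1 := (hPS n).exp B' List.filter_sublist (by rw [hlen]; exact hcard)
  rw [hlen] at h1
  refine h1.trans (Nat.mul_le_mul_left _ ?_)
  have hnd2 : ((s n).2.filter
      (fun t => decide (t.1 ∈ B') != decide (t.2.2 ∈ B'))).Nodup := (hPS n).nd.filter _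
  rw [← List.toFinset_card_of_nodup hnd2, ← Fintype.card_coe, ← Nat.card_eq_fintype_card]
  have : Finite {q : (Σ n, Fin (s n).1) × (Fin p.k × Bool) //
      q.1 ∈ B ∧ ∃ y, y ∉ B ∧ ao_step s q.1 q.2 = some y} := by
    have hfin : ((B : Set (Σ n, Fin (s n).1)) ×ˢ (Set.univ : Set (Fin p.k × Bool))).Finite :=
      (Finset.finite_toSet B).prod Set.finite_univ
    refine (hfin.subset ?_).to_subtype
    rintro ⟨x, a⟩ ⟨hx, _⟩
    exact ⟨hx, Set.mem_univ _⟩
  have key : ∀ t : {t // t ∈ ((s n).2.filter
        (fun t => decide (t.1 ∈ B') != decide (t.2.2 ∈ B'))).toFinset},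
      ∃ q : (Σ n, Fin (s n).1) × (Fin p.k × Bool),
        (q.1 ∈ B ∧ ∃ y, y ∉ B ∧ ao_step s q.1 q.2 = some y) ∧
        (q.1.2.val = if q.2.2 = true then t.1.1 else t.1.2.2) ∧ q.2.1.val = t.1.2.1 := by
    rintro ⟨t, ht⟩
    rw [List.mem_toFinset, List.mem_filter] at ht
    obtain ⟨ht1, ht2⟩ := ht
    obtain ⟨b1, b2, b3⟩ := (hPS n).bd t ht1
    have hdet := (hPS n).det
    by_cases hm : t.1 ∈ B'
    · have hm2 : t.2.2 ∉ B' := by
        intro h
        simp [hm, h] at ht2
      refine ⟨(⟨n, ⟨t.1, b1⟩⟩, (⟨t.2.1, b2⟩, true)), ⟨(hmem _ b1).mp hm, ⟨n, ⟨t.2.2, b3⟩⟩,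
        fun h => hm2 ((hmem _ b3).mpr h), ?_⟩, by simp, rfl⟩
      rw [ao_step_some]
      refine ⟨rfl, ao_cstep_of_mem hdet ?_⟩
      simpa using ht1
    · have hm2 : t.2.2 ∈ B' := by
        by_contra h
        simp [hm, h] at ht2
      refine ⟨(⟨n, ⟨t.2.2, b3⟩⟩, (⟨t.2.1, b2⟩, false)), ⟨(hmem _ b3).mp hm2, ⟨n, ⟨t.1, b1⟩⟩,
        fun h => hm ((hmem _ b1).mpr h), ?_⟩, by simp, rfl⟩
      rw [ao_step_some]
      refine ⟨rfl, ao_cstep_of_mem hdet ?_⟩
      simpa using ht1
  choose f hf1 hf2 hf3 using key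
  refine Nat.card_le_card_of_injective (fun t => (⟨f t, hf1 t⟩ :
    {q : (Σ n, Fin (s n).1) × (Fin p.k × Bool) //
      q.1 ∈ B ∧ ∃ y, y ∉ B ∧ ao_step s q.1 q.2 = some y})) ?_
  intro t t' he
  have he' : f t = f t' := congrArg Subtype.val he
  have e1 := hf2 t
  have e2 := hf2 t'
  have e3 := hf3 t
  have e4 := hf3 t'
  rw [← he'] at e2 e4
  obtain ⟨t, ht⟩ := t
  obtain ⟨t', ht'⟩ := t'
  have hmt := (List.mem_filter.mp (List.mem_toFinset.mp ht)).1
  have hmt' := (List.mem_filter.mp (List.mem_toFinset.mp ht')).1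
  have hd := (hPS n).det t hmt t' hmt' (e3.symm.trans e4)
  have e5 : t.2.1 = t'.2.1 := e3.symm.trans e4
  have e6 := e1.symm.trans e2
  apply Subtype.ext
  show t = t'
  simp only at e6
  split_ifs at e6
  · exact Prod.ext e6 (Prod.ext e5 (hd.mp e6))
  · exact Prod.ext (hd.mpr e6) (Prod.ext e5 e6)

theorem aut_of (p : Par) (hn0 : 2 ≤ p.n0) (s : ℕ → Code) (hs : Computable s)
    (hPS : ∀ n, PS p ((List.range n).map s) (s n)) :
    ∃ A : Aut p.k (Σ n, Fin (s n).1), (∀ n, A.g n = 200 * (n + p.n0)) ∧
      (∀ x, A.lev x = x.1) ∧ A.Exp p.b ∧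
      REPred (fun w => w ∈ A.RH) ∧ REPred (fun w => w ∈ A.RG) := by
  have hlen : ∀ n, ((List.range n).map s).length = n := by intro n; simp
  have hb : ∀ n u a v, cstep (s n) u a = some v → v < (s n).1 := by
    intro n u a v h
    have h1 := ao_cstep_mem h
    have h2 := (hPS n).bd _ h1
    cases ha : a.2 with
    | true => rw [ha] at h2; simpa using h2.2.2
    | false => rw [ha] at h2; simpa using h2.1
  have hinv : ∀ (x y : Σ n, Fin (s n).1) (a : Fin p.k × Bool), ao_step s x a = some y →
      ao_step s y (a.1, !a.2) = some x := by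
    intro x y a h
    rw [ao_step_some] at h ⊢
    obtain ⟨h1, h2⟩ := h
    refine ⟨h1.symm, ?_⟩
    have h3 : cstep (s x.1) y.2.val (a.1.val, !a.2) = some x.2.val := by
      apply ao_cstep_of_mem (hPS x.1).det
      have h4 := ao_cstep_mem h2
      cases ha : a.2 with
      | true => rw [ha] at h4; simpa using h4
      | false => rw [ha] at h4; simpa using h4
    revert h3
    generalize y.2.val = v
    intro h3
    rw [h1]
    exact h3
  -- the key estimate on words readable at two places
  have hkey : ∀ (x y : Σ n, Fin (s n).1) (w : List (Fin p.k × Bool)), FreeGroup.reduce w = w →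
      x ≠ y → (List.foldlM (ao_step s) x w).isSome → (List.foldlM (ao_step s) y w).isSome →
      x.1 ≤ y.1 → w.length ≤ x.1 + p.n0 := by
    intro x y w hw hne hx hy hle
    by_contra hlt
    push Not at hlt
    have hwr := ao_wred_take (ao_wred hw) (x.1 + p.n0 + 1)
    have hl : ((ao_num w).take (x.1 + p.n0 + 1)).length = x.1 + p.n0 + 1 := by
      rw [List.length_take]
      unfold ao_num
      rw [List.length_map]
      omega
    have hx1 := ao_crun_take _ (x.1 + p.n0 + 1) _ (ao_run_isSome s hb w x hx)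
    have hy1 := ao_crun_take _ (x.1 + p.n0 + 1) _ (ao_run_isSome s hb w y hy)
    rcases Nat.lt_or_ge x.1 y.1 with h | h
    · have h1 := (hPS y.1).av x.1 (by rw [hlen]; exact h) _ hwr hl x.2.val
        (by simp) y.2.val y.2.2
      rw [List.getElem_map, List.getElem_range] at h1
      exact h1 hx1 hy1
    · have he : x.1 = y.1 := le_antisymm hle h
      obtain ⟨n, u⟩ := x
      obtain ⟨m, v⟩ := y
      simp only at he
      subst he
      have h1 := (hPS n).uniq _ hwr (by rw [hl, hlen]) u.val u.2 v.val v.2 hx1 hy1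
      exact hne (by rw [Fin.ext h1])
  refine ⟨{ step := ao_step s, lev := fun x => x.1, g := fun n => 200 * (n + p.n0),
            inv := hinv, lev_step := ?_, big := ?_, girth := ?_, uniq := ?_ },
          fun n => rfl, fun x => rfl, ?_, ?_, ?_⟩
  · intro x y a h
    exact ((ao_step_some s x y a).mp h).1
  · intro n
    show 400 ≤ 200 * (n + p.n0)
    omega
  · intro x w hw hne h
    by_contra hlt
    push Not at hlt
    have h1 := ((ao_run_some s hb w x x).mp h).2
    have hwr := ao_wred hw
    refine (hPS x.1).girth (ao_num w) hwr ?_ ?_ x.2.val x.2.2 h1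
    · intro h2
      exact hne (by simpa [ao_num] using h2)
    · rw [hlen]
      unfold ao_num
      rw [List.length_map]
      exact hlt
  · intro x y w hw hne hx hy
    show 200 * w.length ≤ 200 * (x.1 + p.n0) ∧ 200 * w.length ≤ 200 * (y.1 + p.n0)
    rcases Nat.le_total x.1 y.1 with h | h
    · have := hkey x y w hw hne hx hy h
      omega
    · have := hkey y x w hw (Ne.symm hne) hy hx h
      omega
  · -- expansion
    intro n B hB hcard
    exact ao_exp p s hPS n B hB hcard
  · -- RH
    refine (ao_re2 hs).of_eq ?_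
    intro w
    constructor
    · rintro ⟨⟨n, u⟩, hu, hr, hev⟩
      have h1 := (ao_run_some s hb w ⟨n, ⟨u, hu⟩⟩ ⟨n, ⟨u, hu⟩⟩).mpr ⟨rfl, hr⟩
      refine ⟨⟨n, ⟨u, hu⟩⟩, h1, ?_⟩
      refine (ao_par_zero _ rfl w ⟨n, ⟨u, hu⟩⟩ ⟨n, ⟨u, hu⟩⟩ ?_).mpr hev
      exact h1
    · rintro ⟨x, hr, hp⟩
      refine ⟨(x.1, x.2.val), x.2.2, ((ao_run_some s hb w x x).mp hr).2, ?_⟩
      exact (ao_par_zero _ rfl w x x hr).mp hp
  · refine (ao_re hs).of_eq ?_
    intro w
    constructor
    · rintro ⟨⟨n, u⟩, hu, hr⟩
      exact ⟨⟨n, ⟨u, hu⟩⟩, (ao_run_some s hb w _ _).mpr ⟨rfl, hr⟩⟩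
    · rintro ⟨x, hr⟩
      exact ⟨(x.1, x.2.val), x.2.2, ((ao_run_some s hb w x x).mp hr).2⟩

end Pool.Agent.H76.SC
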