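import Mathlib
import Pool.Agent.H76.SC.AutRun
import Pool.Agent.H76.SC.FreeTree

set_option autoImplicit false

/-! # The small cancellation systems of an automaton -/

namespace Pool.Agent.H76.SC

open FreeGroup

variable {k : ℕ} {V : Type} (A : Aut k V)

/-- the lift of the automaton to the tree, sending `g` to `x` -/
def Aut.orb (g : FreeGroup (Fin k)) (x : V) : FreeGroup (Fin k) → Option V :=
  fun h => A.run x (g⁻¹ * h).toWord

/-- index set: the lifts -/
def Aut.Idx : Type := {c : FreeGroup (Fin k) → Option V // ∃ g x, c = A.orb g x}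

instance : MulAction (FreeGroup (Fin k)) A.Idx where
  smul f c := ⟨fun h => c.1 (f⁻¹ * h), by
    obtain ⟨c, g, x, rfl⟩ := c
    refine ⟨f * g, x, ?_⟩
    funext h
    show A.run x (g⁻¹ * (f⁻¹ * h)).toWord = A.run x ((f * g)⁻¹ * h).toWord
    congr 2
    group⟩
  one_smul c := by
    apply Subtype.ext
    funext h
    show c.1 ((1 : FreeGroup (Fin k))⁻¹ * h) = c.1 h
    simp
  mul_smul f f' c := by
    apply Subtype.ext
    funext h
    show c.1 ((f * f')⁻¹ * h) = c.1 (f'⁻¹ * (f⁻¹ * h))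
    rw [mul_inv_rev, mul_assoc]

theorem smul_idx (f : FreeGroup (Fin k)) (c : A.Idx) (h : FreeGroup (Fin k)) :
    (f • c).1 h = c.1 (f⁻¹ * h) := rfl

theorem orb_self (g : FreeGroup (Fin k)) (x : V) : A.orb g x g = some x := by
  unfold Aut.orb
  rw [inv_mul_cancel, toWord_one]
  rfl

/-- reading the product of two group elements -/
theorem run_mul {x y z : V} {u v : FreeGroup (Fin k)} (hu : A.run x u.toWord = some y)
    (hv : A.run y v.toWord = some z) : A.run x (u * v).toWord = some z := by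
  rw [toWord_mul]
  apply run_reduce
  rw [run_append, hu]
  exact hv

theorem orb_eq {g h : FreeGroup (Fin k)} {x y : V} (hy : A.orb g x h = some y) :
    A.orb g x = A.orb h y := by
  have h1 : A.run x (g⁻¹ * h).toWord = some y := hy
  have h2 : A.run y (h⁻¹ * g).toWord = some x := by
    have := run_winv A h1
    have h3 : (h⁻¹ * g).toWord = reduce (winv (g⁻¹ * h).toWord) := by
      rw [← toWord_mk]
      congr 1
      rw [show h⁻¹ * g = (g⁻¹ * h)⁻¹ by group]
      conv_lhs => rw [← mk_toWord (x := g⁻¹ * h)]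
      rw [inv_mk]
      rfl
    rw [h3]
    exact run_reduce A this
  funext z
  show A.run x (g⁻¹ * z).toWord = A.run y (h⁻¹ * z).toWord
  cases hz : A.run x (g⁻¹ * z).toWord with
  | some u =>
    have h4 := run_mul A h2 hz
    rw [show h⁻¹ * g * (g⁻¹ * z) = h⁻¹ * z by group] at h4
    exact h4.symm
  | none =>
    cases hz' : A.run y (h⁻¹ * z).toWord with
    | none => rfl
    | some u =>
      have h4 := run_mul A h1 hz'
      rw [show g⁻¹ * h * (h⁻¹ * z) = g⁻¹ * z by group, hz] at h4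
      exact absurd h4 (by simp)

theorem idx_eq {c : A.Idx} {h : FreeGroup (Fin k)} {y : V} (hy : c.1 h = some y) :
    c.1 = A.orb h y := by
  obtain ⟨c, g, x, rfl⟩ := c
  exact orb_eq A hy

theorem idx_ext {c c' : A.Idx} {h : FreeGroup (Fin k)} {y : V} (hy : c.1 h = some y)
    (hy' : c'.1 h = some y) : c = c' :=
  Subtype.ext ((idx_eq A hy).trans (idx_eq A hy').symm)

/-- the index of the lift through `(g, x)` -/
def Aut.mkI (g : FreeGroup (Fin k)) (x : V) : A.Idx := ⟨A.orb g x, g, x, rfl⟩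

theorem idx_ne (c : A.Idx) : ∃ g x, c.1 g = some x := by
  obtain ⟨c, g, x, rfl⟩ := c
  exact ⟨g, x, orb_self A g x⟩

/-- support of a lift -/
def Aut.YY (c : A.Idx) : Set (FreeGroup (Fin k)) := {h | (c.1 h).isSome}

theorem mem_YY {c : A.Idx} {h : FreeGroup (Fin k)} : h ∈ A.YY c ↔ ∃ y, c.1 h = some y :=
  Option.isSome_iff_exists

/-- vertices read along a lift -/
theorem run_idx {c : A.Idx} {g h : FreeGroup (Fin k)} {x y : V} (hx : c.1 g = some x)
    (hy : c.1 h = some y) : A.run x (g⁻¹ * h).toWord = some y := by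
  rw [idx_eq A hx] at hy
  exact hy

/-- level of a lift -/
noncomputable def Aut.lv (c : A.Idx) : ℕ := A.lev (idx_ne A c).choose_spec.choose

theorem lv_eq {c : A.Idx} {g : FreeGroup (Fin k)} {x : V} (hx : c.1 g = some x) :
    A.lv c = A.lev x := by
  have h1 := (idx_ne A c).choose_spec.choose_spec
  exact run_lev A (run_idx A hx h1)

/-- stabiliser of a lift -/
def Aut.DD (c : A.Idx) : Subgroup (FreeGroup (Fin k)) := MulAction.stabilizer _ c

theorem mem_DD {c : A.Idx} {f : FreeGroup (Fin k)} : f ∈ A.DD c ↔ f • c = c := Iff.rfl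

theorem DD_apply {c : A.Idx} {f : FreeGroup (Fin k)} (hf : f ∈ A.DD c) (h : FreeGroup (Fin k)) :
    c.1 (f * h) = c.1 h := by
  have h1 : (f • c).1 (f * h) = c.1 (f * h) := by rw [(mem_DD A).mp hf]
  rw [smul_idx, inv_mul_cancel_left] at h1
  exact h1.symm

theorem mem_DD_of {c : A.Idx} {f h : FreeGroup (Fin k)} {y : V} (h1 : c.1 h = some y)
    (h2 : c.1 (f * h) = some y) : f ∈ A.DD c := by
  rw [mem_DD]
  apply idx_ext A (h := f * h) (y := y) _ h2
  rw [smul_idx, inv_mul_cancel_left, h1]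

theorem conv_YY (c : A.Idx) : Conv fd (A.YY c) := by
  intro a b e ha hb he
  obtain ⟨x, hx⟩ := (mem_YY A).mp ha
  obtain ⟨y, hy⟩ := (mem_YY A).mp hb
  have h1 := run_idx A hx hy
  rw [(btw_fd a e b).mp he, run_append] at h1
  rw [mem_YY, idx_eq A hx]
  cases h2 : A.run x (a⁻¹ * e).toWord with
  | none => rw [h2] at h1; exact absurd h1 (by simp)
  | some z => exact ⟨z, h2⟩

theorem smul_YY (g : FreeGroup (Fin k)) (c : A.Idx) (x : FreeGroup (Fin k)) (hx : x ∈ A.YY c) :
    g * x ∈ A.YY (g • c) := by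
  obtain ⟨y, hy⟩ := (mem_YY A).mp hx
  exact (mem_YY A).mpr ⟨y, by rw [smul_idx, inv_mul_cancel_left, hy]⟩

theorem smul_DD (g : FreeGroup (Fin k)) (c : A.Idx) (f : FreeGroup (Fin k)) (hf : f ∈ A.DD c) :
    g * f * g⁻¹ ∈ A.DD (g • c) := by
  rw [mem_DD] at *
  rw [mul_smul, mul_smul, inv_smul_smul, hf]

theorem smul_lv (g : FreeGroup (Fin k)) (c : A.Idx) : A.lv (g • c) = A.lv c := by
  obtain ⟨h, x, hx⟩ := idx_ne A c
  rw [lv_eq A hx]
  apply lv_eq A (g := g * h)
  rw [smul_idx, inv_mul_cancel_left, hx]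

theorem disp_DD (c : A.Idx) (f : FreeGroup (Fin k)) (hf : f ∈ A.DD c) (hne : f ≠ 1)
    (x : FreeGroup (Fin k)) (hx : x ∈ A.YY c) : A.g (A.lv c) ≤ fd x (f * x) := by
  obtain ⟨y, hy⟩ := (mem_YY A).mp hx
  rw [lv_eq A hy]
  have h1 := run_idx A hy (h := f * x) (y := y) (by rw [DD_apply A hf, hy])
  apply A.girth y _ (reduce_toWord _) _ h1
  intro h2
  rw [toWord_eq_nil_iff] at h2
  apply hne
  have h3 : f = x * (x⁻¹ * (f * x)) * x⁻¹ := by group
  rw [h3, h2]
  group

theorem piece_YY (c c' : A.Idx) (hne : c ≠ c') (x y : FreeGroup (Fin k)) (h1 : x ∈ A.YY c)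
    (h2 : x ∈ A.YY c') (h3 : y ∈ A.YY c) (h4 : y ∈ A.YY c') :
    200 * fd x y ≤ A.g (A.lv c) ∧ 200 * fd x y ≤ A.g (A.lv c') := by
  obtain ⟨u, hu⟩ := (mem_YY A).mp h1
  obtain ⟨v, hv⟩ := (mem_YY A).mp h2
  obtain ⟨u', hu'⟩ := (mem_YY A).mp h3
  obtain ⟨v', hv'⟩ := (mem_YY A).mp h4
  rw [lv_eq A hu, lv_eq A hv]
  apply A.uniq u v _ (reduce_toWord _)
  · rintro rfl
    exact hne (idx_ext A hu hv)
  · have := run_idx A hu hu'
    unfold Aut.run at this
    rw [this]; rfl
  · have := run_idx A hv hv'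
    unfold Aut.run at this
    rw [this]; rfl

/-- the system with all closed words -/
noncomputable def Aut.sysG : Sys (FreeGroup (Fin k)) A.Idx where
  d := fd
  Y := A.YY
  Γ := A.DD
  Δ := A.DD
  ℓ := fun c => A.g (A.lv c)
  tree := isTree_fd _
  inv := fun g x y => by
    unfold fd
    congr 2
    group
  ne := fun c => by
    obtain ⟨h, x, hx⟩ := idx_ne A c
    exact ⟨h, (mem_YY A).mpr ⟨x, hx⟩⟩
  conv := conv_YY A
  smulY := smul_YY A
  le := fun _ => le_rfl
  stab := fun _ _ h => h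
  smulΓ := fun g c f hf => smul_DD A g c f hf
  smulΔ := fun g c f hf => smul_DD A g c f hf
  smulℓ := fun g c => by rw [smul_lv]
  big := fun _ => A.big _
  disp := disp_DD A
  piece := piece_YY A

variable [DecidableEq V]

/-- even part of the stabiliser of a lift -/
def Aut.EE (c : A.Idx) : Subgroup (FreeGroup (Fin k)) where
  carrier := {f | f ∈ A.DD c ∧ ∀ h y, c.1 h = some y → A.par y (h⁻¹ * f * h).toWord = 0}
  one_mem' := ⟨one_mem _, fun h y _ => by
    rw [show h⁻¹ * 1 * h = (1 : FreeGroup (Fin k)) by group, toWord_one]; rfl⟩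
  mul_mem' := by
    rintro f f' ⟨h1, h2⟩ ⟨h3, h4⟩
    refine ⟨mul_mem h1 h3, fun h y hy => ?_⟩
    have e : h⁻¹ * (f * f') * h = (h⁻¹ * f * h) * (h⁻¹ * f' * h) := by group
    have r1 : A.run y (h⁻¹ * f * h).toWord = some y := by
      have := run_idx A hy (h := f * h) (y := y) (by rw [DD_apply A h1, hy])
      rwa [← mul_assoc] at this
    have r2 : A.run y (h⁻¹ * f' * h).toWord = some y := by
      have := run_idx A hy (h := f' * h) (y := y) (by rw [DD_apply A h3, hy])
      rwa [← mul_assoc] at this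
    have r3 : A.run y ((h⁻¹ * f * h).toWord ++ (h⁻¹ * f' * h).toWord) = some y := by
      rw [run_append, r1]; exact r2
    rw [e, toWord_mul, par_reduce A r3, par_append A r1, h2 h y hy, h4 h y hy, add_zero]
  inv_mem' := by
    rintro f ⟨h1, h2⟩
    refine ⟨inv_mem h1, fun h y hy => ?_⟩
    have r1 : A.run y (h⁻¹ * f * h).toWord = some y := by
      have := run_idx A hy (h := f * h) (y := y) (by rw [DD_apply A h1, hy])
      rwa [← mul_assoc] at this
    have e : (h⁻¹ * f⁻¹ * h).toWord = reduce (winv (h⁻¹ * f * h).toWord) := by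
      rw [← toWord_mk]
      congr 1
      rw [show h⁻¹ * f⁻¹ * h = (h⁻¹ * f * h)⁻¹ by group]
      conv_lhs => rw [← mk_toWord (x := h⁻¹ * f * h)]
      rw [inv_mk]
      rfl
    rw [e, par_reduce A (run_winv A r1), par_winv A r1, h2 h y hy]

theorem mem_EE {c : A.Idx} {f : FreeGroup (Fin k)} : f ∈ A.EE c ↔
    f ∈ A.DD c ∧ ∀ h y, c.1 h = some y → A.par y (h⁻¹ * f * h).toWord = 0 := Iff.rfl

theorem smul_EE (g : FreeGroup (Fin k)) (c : A.Idx) (f : FreeGroup (Fin k)) (hf : f ∈ A.EE c) :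
    g * f * g⁻¹ ∈ A.EE (g • c) := by
  rw [mem_EE] at *
  refine ⟨smul_DD A g c f hf.1, fun h y hy => ?_⟩
  rw [smul_idx] at hy
  have h1 := hf.2 _ y hy
  rw [← h1]
  congr 2
  group

/-- the system with the closed words crossing all edges evenly -/
noncomputable def Aut.sysH : Sys (FreeGroup (Fin k)) A.Idx where
  d := fd
  Y := A.YY
  Γ := A.EE
  Δ := A.DD
  ℓ := fun c => A.g (A.lv c)
  tree := isTree_fd _
  inv := A.sysG.inv
  ne := A.sysG.ne
  conv := conv_YY A
  smulY := smul_YY A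
  le := fun _ _ h => h.1
  stab := fun _ _ h => h
  smulΓ := fun g c f hf => smul_EE A g c f hf
  smulΔ := fun g c f hf => smul_DD A g c f hf
  smulℓ := fun g c => by rw [smul_lv]
  big := fun _ => A.big _
  disp := disp_DD A
  piece := piece_YY A

omit [DecidableEq V] in
theorem winv_eq (u : FreeGroup (Fin k)) : (u⁻¹).toWord = reduce (winv u.toWord) := by
  rw [← toWord_mk]
  congr 1
  conv_lhs => rw [← mk_toWord (x := u)]
  rw [inv_mk]
  rfl

omit [DecidableEq V] in
theorem run_inv' {x y : V} {u : FreeGroup (Fin k)} (h : A.run x u.toWord = some y) :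
    A.run y (u⁻¹).toWord = some x := by
  rw [winv_eq]
  exact run_reduce A (run_winv A h)

theorem par_inv' {x y : V} {u : FreeGroup (Fin k)} (h : A.run x u.toWord = some y) :
    A.par y (u⁻¹).toWord = A.par x u.toWord := by
  rw [winv_eq, par_reduce A (run_winv A h), par_winv A h]

theorem par_mul' {x y z : V} {u v : FreeGroup (Fin k)} (hu : A.run x u.toWord = some y)
    (hv : A.run y v.toWord = some z) :
    A.par x (u * v).toWord = A.par x u.toWord + A.par y v.toWord := by
  have h1 : A.run x (u.toWord ++ v.toWord) = some z := by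
    rw [run_append, hu]; exact hv
  rw [toWord_mul, par_reduce A h1, par_append A hu]

theorem add_self_fun {α : Type} (f : α → ZMod 2) : f + f = 0 := by
  funext a
  exact CharTwo.add_self_eq_zero (f a)

/-- parity of the path of a lift -/
theorem par_idx {c : A.Idx} {g h h' : FreeGroup (Fin k)} {x y z : V} (hx : c.1 g = some x)
    (hy : c.1 h = some y) (hz : c.1 h' = some z) :
    A.par x (g⁻¹ * h').toWord = A.par x (g⁻¹ * h).toWord + A.par y (h⁻¹ * h').toWord := by
  rw [← par_mul' A (run_idx A hx hy) (run_idx A hy hz)]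
  congr 2
  group

/-- criterion for the even part at one point -/
theorem mem_EE_of {c : A.Idx} {f h : FreeGroup (Fin k)} {y : V} (hy : c.1 h = some y)
    (hf : f ∈ A.DD c) (hp : A.par y (h⁻¹ * f * h).toWord = 0) : f ∈ A.EE c := by
  refine ⟨hf, fun h' y' hy' => ?_⟩
  have e1 : c.1 (f * h) = some y := by rw [DD_apply A hf, hy]
  have e2 : c.1 (f * h') = some y' := by rw [DD_apply A hf, hy']
  have h1 := par_idx A hy' hy e2
  have h2 := par_idx A hy e1 e2
  have h3 := par_inv' A (run_idx A hy' hy)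
  have e3 : h⁻¹ * (f * h) = h⁻¹ * f * h := by group
  have e4 : (f * h)⁻¹ * (f * h') = (h'⁻¹ * h)⁻¹ := by group
  have e5 : h'⁻¹ * (f * h') = h'⁻¹ * f * h' := by group
  rw [e3, hp, e4, h3, zero_add] at h2
  rw [e5, h2, add_self_fun] at h1
  exact h1

theorem sysN_normal' {F ι : Type} [Group F] [MulAction F ι] (S : Sys F ι) : S.N.Normal := by
  constructor
  intro n hn g
  unfold Sys.N at *
  induction hn using Subgroup.closure_induction with
  | mem x hx =>
    obtain ⟨c, hc⟩ := Set.mem_iUnion.mp hx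
    apply Subgroup.subset_closure
    exact Set.mem_iUnion.mpr ⟨g • c, S.smulΓ g c x hc⟩
  | one => rw [mul_one, mul_inv_cancel]; exact one_mem _
  | mul x y _ _ h1 h2 =>
    have := mul_mem h1 h2
    rwa [show g * x * g⁻¹ * (g * y * g⁻¹) = g * (x * y) * g⁻¹ by group] at this
  | inv x _ h1 =>
    have := inv_mem h1
    rwa [show (g * x * g⁻¹)⁻¹ = g * x⁻¹ * g⁻¹ by group] at this

theorem N_sysG : A.sysG.N = NC A.RG := by
  apply le_antisymm
  · unfold Sys.N
    rw [Subgroup.closure_le]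
    rintro f hf
    obtain ⟨c, hc⟩ := Set.mem_iUnion.mp hf
    have hc' : f ∈ A.DD c := hc
    obtain ⟨h, y, hy⟩ := idx_ne A c
    have h1 := run_idx A hy (h := f * h) (y := y) (by rw [DD_apply A hc', hy])
    have h2 : h⁻¹ * (f * h) ∈ NC A.RG := by
      apply Subgroup.subset_normalClosure
      exact ⟨_, ⟨y, h1⟩, mk_toWord⟩
    have h3 := (inferInstance : (NC A.RG).Normal).conj_mem _ h2 h
    have e : h * (h⁻¹ * (f * h)) * h⁻¹ = f := by group
    rw [e] at h3
    exact h3
  · haveI := sysN_normal' A.sysG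
    apply Subgroup.normalClosure_le_normal
    rintro _ ⟨w, ⟨x, hx⟩, rfl⟩
    apply Subgroup.subset_closure
    refine Set.mem_iUnion.mpr ⟨A.mkI 1 x, ?_⟩
    apply mem_DD_of A (h := 1) (y := x)
    · exact orb_self A 1 x
    · show A.run x (1⁻¹ * (FreeGroup.mk w * 1)).toWord = some x
      rw [mul_one, inv_one, one_mul, toWord_mk]
      exact run_reduce A hx

theorem N_sysH : A.sysH.N = NC A.RH := by
  apply le_antisymm
  · unfold Sys.N
    rw [Subgroup.closure_le]
    rintro f hf
    obtain ⟨c, hc⟩ := Set.mem_iUnion.mp hf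
    have hc' : f ∈ A.EE c := hc
    obtain ⟨h, y, hy⟩ := idx_ne A c
    have h1 := run_idx A hy (h := f * h) (y := y) (by rw [DD_apply A hc'.1, hy])
    have h2 : h⁻¹ * (f * h) ∈ NC A.RH := by
      apply Subgroup.subset_normalClosure
      refine ⟨_, ⟨y, h1, ?_⟩, mk_toWord⟩
      rw [← mul_assoc]
      exact hc'.2 h y hy
    have h3 := (inferInstance : (NC A.RH).Normal).conj_mem _ h2 h
    have e : h * (h⁻¹ * (f * h)) * h⁻¹ = f := by group
    rw [e] at h3
    exact h3
  · haveI := sysN_normal' A.sysH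
    apply Subgroup.normalClosure_le_normal
    rintro _ ⟨w, ⟨x, hx, hp⟩, rfl⟩
    apply Subgroup.subset_closure
    refine Set.mem_iUnion.mpr ⟨A.mkI 1 x, ?_⟩
    apply mem_EE_of A (h := 1) (y := x) (orb_self A 1 x)
    · apply mem_DD_of A (h := 1) (y := x)
      · exact orb_self A 1 x
      · show A.run x (1⁻¹ * (FreeGroup.mk w * 1)).toWord = some x
        rw [mul_one, inv_one, one_mul, toWord_mk]
        exact run_reduce A hx
    · rw [mul_one, inv_one, one_mul, toWord_mk, par_reduce A hx, hp]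

end Pool.Agent.H76.SC
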