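import Mathlib
import Pool.Agent.H76.SC.Tree0

set_option autoImplicit false

/-! # Basic geometry of tree metrics -/

namespace Pool.Agent.H76.SC

variable {T : Type} {d : T → T → ℕ}

theorem Btw.symm (h : IsTree d) {a c b : T} (hc : Btw d a c b) : Btw d b c a := by
  unfold Btw at *
  rw [h.symm b c, h.symm c a, h.symm b a]
  omega

theorem btw_left (h : IsTree d) (a b : T) : Btw d a a b := by
  unfold Btw
  rw [h.self]
  omega

theorem btw_right (h : IsTree d) (a b : T) : Btw d a b b := by
  unfold Btw
  rw [h.self]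
  omega

/-- medians -/
theorem med (h : IsTree d) (x y z : T) : ∃ m, Btw d x m y ∧ Btw d y m z ∧ Btw d x m z := by
  obtain ⟨k, hk⟩ := h.par x y z
  have h1 := h.tri x y z
  have h2 := h.tri y x z
  have h3 := h.tri x z y
  have s1 := h.symm x y
  have s2 := h.symm z y
  have s3 := h.symm x z
  -- k = half perimeter; d x m = k - d y z
  obtain ⟨m, hm1, hm2⟩ := h.geo x y (k - d y z) (by omega)
  have h4 := h.four x y z m
  have h5 := h.tri x m z
  have h6 := h.tri y m z
  have s4 := h.symm m y
  have s5 := h.symm m z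
  have s6 := h.symm z m
  refine ⟨m, ?_, ?_, ?_⟩ <;> unfold Btw <;> omega

/-- a geodesic is covered by two geodesics through any point -/
theorem btw_split (h : IsTree d) {a c b : T} (hc : Btw d a c b) (w : T) :
    Btw d a c w ∨ Btw d w c b := by
  have h1 := h.four a b c w
  have s1 := h.symm a b
  have s2 := h.symm c b
  have s3 := h.symm w c
  have s4 := h.symm w b
  have h2 := h.tri a c w
  have h3 := h.tri w c b
  unfold Btw at *
  omega

/-- two geodesics overlapping in a nondegenerate segment concatenate -/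
theorem concat (h : IsTree d) {x p q r : T} (h1 : Btw d x p q) (h2 : Btw d p q r) (hne : p ≠ q) :
    d x r = d x p + d p q + d q r := by
  have h3 := h.four x q p r
  have h4 := h.tri x p r
  have h5 := h.tri p q r
  have h0 : d p q ≠ 0 := fun h0 => hne (h.eq _ _ h0)
  have s1 := h.symm q p
  unfold Btw at *
  omega

/-- points at the same position of a geodesic coincide -/
theorem btw_unique (h : IsTree d) {a c c' b : T} (hc : Btw d a c b) (hc' : Btw d a c' b)
    (he : d a c = d a c') : c = c' := by
  apply h.eq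
  have h1 := h.four a b c c'
  have s1 : d b c' = d c' b := h.symm b c'
  have s2 : d b c = d c b := h.symm b c
  unfold Btw at *
  rw [s1, s2] at h1
  rcases le_max_iff.mp h1 with h1 | h1 <;> omega

/-- points of a geodesic are linearly ordered -/
theorem btw_linear (h : IsTree d) {a c c' b : T} (hc : Btw d a c b) (hc' : Btw d a c' b)
    (he : d a c ≤ d a c') : Btw d a c c' ∧ Btw d c c' b := by
  have h1 := h.four a b c c'
  have h2 := h.tri a c c'
  have h3 := h.tri c c' b
  have s1 : d b c' = d c' b := h.symm b c'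
  have s2 : d b c = d c b := h.symm b c
  unfold Btw at *
  rw [s1, s2] at h1
  rcases le_max_iff.mp h1 with h1 | h1 <;> constructor <;> omega

theorem btw_trans (h : IsTree d) {a c c' b : T} (hc : Btw d a c b) (hc' : Btw d a c' c) :
    Btw d a c' b ∧ Btw d c' c b := by
  have h1 := h.tri a c' b
  have h2 := h.tri c' c b
  unfold Btw at *
  omega

theorem btw_trans' (h : IsTree d) {a c c' b : T} (hc : Btw d a c b) (hc' : Btw d c c' b) :
    Btw d a c' b ∧ Btw d a c c' := by
  have h1 := h.tri a c' b
  have h2 := h.tri a c c'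
  unfold Btw at *
  omega

theorem exists_pr (h : IsTree d) {S : Set T} (hS : Conv d S) (hne : S.Nonempty) (x : T) :
    ∃ p, Pr d S x p := by
  classical
  obtain ⟨s, hs⟩ := hne
  have hex : ∃ n, ∃ p ∈ S, d x p = n := ⟨_, s, hs, rfl⟩
  obtain ⟨p, hp, hpn⟩ := Nat.find_spec hex
  refine ⟨p, hp, fun y hy => ?_⟩
  obtain ⟨m, h1, h2, h3⟩ := med h x p y
  have hm : m ∈ S := hS p y m hp hy h2
  have h4 := Nat.find_min' hex ⟨m, hm, rfl⟩
  rw [← hpn] at h4
  have h5 : m = p := by
    apply h.eq
    unfold Btw at h1
    omega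
  rw [← h5]
  exact h3

theorem pr_unique (h : IsTree d) {S : Set T} {x p p' : T} (h1 : Pr d S x p) (h2 : Pr d S x p') :
    p = p' := by
  apply h.eq
  have h3 := h1.2 p' h2.1
  have h4 := h2.2 p h1.1
  have s1 := h.symm p' p
  unfold Btw at *
  omega

theorem pr_self (h : IsTree d) {S : Set T} {x : T} (hx : x ∈ S) : Pr d S x x :=
  ⟨hx, fun y _ => btw_left h x y⟩

/-- the projection of a point of `W` to `S` lies in `W` if `S` and `W` are convex and meet -/
theorem pr_mem {S W : Set T} (hW : Conv d W) {x p s : T} (hx : x ∈ W)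
    (hp : Pr d S x p) (hs : s ∈ S) (hs' : s ∈ W) : p ∈ W :=
  hW x s p hx hs' (hp.2 s hs)

/-- changing the point along the geodesic to the projection does not change the projection -/
theorem pr_btw (h : IsTree d) {S : Set T} {x p q : T} (hp : Pr d S x p) (hq : Btw d x q p) :
    Pr d S q p := by
  refine ⟨hp.1, fun y hy => ?_⟩
  exact (btw_trans h (hp.2 y hy) hq).2

/-- `p` is the projection of `x` to `S`, `q` the projection of `p` to `S'`; if `p` is not the
projection of `q` to `S` then `q` is the projection of `x` to `S'`. -/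
theorem pr_pr (h : IsTree d) {S S' : Set T} {x p q p' : T} (hp : Pr d S x p) (hq : Pr d S' p q)
    (hp' : Pr d S q p') (hne : p ≠ p') : Pr d S' x q := by
  refine ⟨hq.1, fun r hr => ?_⟩
  have h1 : Btw d x p p' := hp.2 p' hp'.1
  have h2 : Btw d q p' p := hp'.2 p hp.1
  have h3 : Btw d p q r := hq.2 r hr
  have h4 : Btw d p p' q := Btw.symm h h2
  have h5 := btw_trans h h3 h4
  have h6 := concat h h1 h5.1 hne
  have h7 := concat h h1 h4 hne
  unfold Btw at *
  omega

/-- if the projections of `x` and `y` differ, the geodesic from `x` to `y` passes through them -/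
theorem pr_two (h : IsTree d) {S : Set T} {x y p q : T} (hp : Pr d S x p) (hq : Pr d S y q)
    (hne : p ≠ q) : d x y = d x p + d p q + d q y :=
  concat h (hp.2 q hq.1) (Btw.symm h (hq.2 p hp.1)) hne

/-- projections are 1-Lipschitz -/
theorem pr_lip (h : IsTree d) {S : Set T} {x y p q : T} (hp : Pr d S x p) (hq : Pr d S y q) :
    d p q ≤ d x y := by
  by_cases hne : p = q
  · rw [hne, h.self]; omega
  · rw [pr_two h hp hq hne]; omega

theorem conv_union (h : IsTree d) {S S' : Set T} (hS : Conv d S) (hS' : Conv d S')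
    (hne : (S ∩ S').Nonempty) : Conv d (S ∪ S') := by
  obtain ⟨z, hz, hz'⟩ := hne
  intro a b c ha hb hc
  rcases ha with ha | ha <;> rcases hb with hb | hb
  · exact Or.inl (hS a b c ha hb hc)
  · rcases btw_split h hc z with h1 | h1
    · exact Or.inl (hS a z c ha hz h1)
    · exact Or.inr (hS' z b c hz' hb h1)
  · rcases btw_split h hc z with h1 | h1
    · exact Or.inr (hS' a z c ha hz' h1)
    · exact Or.inl (hS z b c hz hb h1)
  · exact Or.inr (hS' a b c ha hb hc)

/-- the 1-neighbourhood -/
def nb1 (d : T → T → ℕ) (W : Set T) : Set T := {x | ∃ w ∈ W, d x w ≤ 1}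

theorem subset_nb1 (h : IsTree d) (W : Set T) : W ⊆ nb1 d W := fun x hx => ⟨x, hx, by
  rw [h.self]; omega⟩

theorem conv_nb1 (h : IsTree d) {W : Set T} (hW : Conv d W) : Conv d (nb1 d W) := by
  rintro a b c ⟨a', ha', haa⟩ ⟨b', hb', hbb⟩ hc
  rcases btw_split h hc a' with h1 | h1
  · exact ⟨a', ha', by unfold Btw at h1; omega⟩
  · rcases btw_split h h1 b' with h2 | h2
    · exact ⟨c, hW a' b' c ha' hb' h2, by rw [h.self]; omega⟩
    · refine ⟨b', hb', ?_⟩
      have s1 := h.symm b b'
      have s2 := h.symm c b'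
      unfold Btw at h2
      omega

end Pool.Agent.H76.SC
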