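import Mathlib
import Pool.Agent.H76.SC.Tree

set_option autoImplicit false

/-! # Consequences of the Greendlinger lemma -/

namespace Pool.Agent.H76.SC

variable {F ι : Type} [Group F] [MulAction F ι] {S : Sys F ι}

theorem co_gamma_N {i : ι} {γ : F} (hγ : γ ∈ S.Γ i) : γ ∈ S.N :=
  Subgroup.subset_closure (Set.mem_iUnion.mpr ⟨i, hγ⟩)

theorem co_delta_Y {i : ι} {δ x : F} (hδ : δ ∈ S.Δ i) (hx : x ∈ S.Y i) : δ * x ∈ S.Y i := by
  have := S.smulY δ i x hx
  rwa [S.stab i δ hδ] at this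

theorem co_gamma_Y {i : ι} {γ x : F} (hγ : γ ∈ S.Γ i) (hx : x ∈ S.Y i) : γ * x ∈ S.Y i :=
  co_delta_Y (S.le i hγ) hx

theorem co_inv_left (S : Sys F ι) (g x y : F) : S.d (g⁻¹ * x) y = S.d x (g * y) := by
  have := S.inv g (g⁻¹ * x) y
  rw [mul_inv_cancel_left] at this
  exact this.symm

/-- translating a projection -/
theorem co_pr_smul {i : ι} {γ z p : F} (hγ : γ ∈ S.Γ i) (hp : Pr S.d (S.Y i) z p) :
    Pr S.d (S.Y i) (γ * z) (γ * p) := by
  refine ⟨co_gamma_Y hγ hp.1, fun y hy => ?_⟩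
  have h1 : γ⁻¹ * y ∈ S.Y i := co_gamma_Y (inv_mem hγ) hy
  have h2 := hp.2 _ h1
  unfold Btw at *
  rw [S.inv]
  have e1 : S.d (γ * p) y = S.d p (γ⁻¹ * y) := by
    have := co_inv_left S γ⁻¹ p y
    rwa [inv_inv] at this
  have e2 : S.d (γ * z) y = S.d z (γ⁻¹ * y) := by
    have := co_inv_left S γ⁻¹ z y
    rwa [inv_inv] at this
  rw [e1, e2]
  exact h2

/-- translating a geodesic modulo `N` -/
theorem co_geo_smul {γ x z : F} (hγ : γ ∈ S.N) (hg : S.Geo x z) : S.Geo (γ * x) (γ * z) := by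
  intro m hm
  have h1 : γ⁻¹ * m * γ ∈ S.N := mul_mem (mul_mem (inv_mem hγ) hm) hγ
  have h2 := hg _ h1
  rw [S.inv]
  have e : S.d (γ * x) (m * (γ * z)) = S.d x (γ⁻¹ * m * γ * z) := by
    have := co_inv_left S γ⁻¹ x (m * (γ * z))
    rw [inv_inv] at this
    rw [this]
    simp only [mul_assoc]
  rw [e]
  exact h2

/-- unpacked Greendlinger statement -/
theorem co_GL (h : S.GL) {n : F} (hn : n ∈ S.N) (hn1 : n ≠ 1) (v : F) :
    ∃ i a b, ∃ γ ∈ S.Γ i, γ ≠ 1 ∧ Pr S.d (S.Y i) v a ∧ Pr S.d (S.Y i) (n * v) b ∧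
      200 * S.d (γ * a) b ≤ 4 * S.ℓ i ∧ 196 * S.ℓ i ≤ 200 * S.d a b ∧ a ≠ b ∧
      S.d v (n * v) = S.d v a + S.d a b + S.d b (n * v) := by
  obtain ⟨i, γ, hγ, hγ1, hab⟩ := h n hn hn1 v
  obtain ⟨a, ha⟩ := exists_pr S.tree (S.conv i) (S.ne i) v
  obtain ⟨b, hb⟩ := exists_pr S.tree (S.conv i) (S.ne i) (n * v)
  have h1 := hab a b ha hb
  have h2 := S.disp i γ (S.le i hγ) hγ1 a ha.1
  have h3 := S.tree.tri a b (γ * a)
  have h4 := S.tree.symm b (γ * a)
  have h5 := S.big i
  have h6 : 196 * S.ℓ i ≤ 200 * S.d a b := by omega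
  have h7 : a ≠ b := by
    rintro rfl
    rw [S.tree.self] at h6
    omega
  exact ⟨i, a, b, γ, hγ, hγ1, ha, hb, h1, h6, h7, pr_two S.tree ha hb h7⟩

/-- shortening a geodesic modulo `N` -/
theorem co_short {x z a b γ : F} {l : ℕ} (hl : 0 < l) (hg : S.Geo x z) (hγ : γ ∈ S.N)
    (hlin : S.d x z = S.d x a + S.d a b + S.d b z) (h5 : 200 * S.d (γ * a) b ≤ 5 * l)
    (h195 : 195 * l ≤ 200 * S.d a b) : False := by
  have h1 := hg γ⁻¹ (inv_mem hγ)
  have h2 := S.tree.tri x a (γ⁻¹ * z)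
  have h3 := S.tree.tri a (γ⁻¹ * b) (γ⁻¹ * z)
  have h4 := S.inv γ⁻¹ b z
  have h6 : S.d a (γ⁻¹ * b) = S.d (γ * a) b := by
    have := co_inv_left S γ⁻¹ a b
    rw [inv_inv] at this
    exact this.symm
  omega

/-- no long overlap with another axis beyond `Y i` -/
theorem co_cut {i j : ι} (hij : i ≠ j) {x z p q a b γ : F} (hx : x ∈ S.Y i) (hg : S.Geo x z)
    (hp : Pr S.d (S.Y i) z p) (hq : q ∈ S.Y i) (ha : a ∈ S.Y j) (hb : b ∈ S.Y j)
    (hlin : S.d q z = S.d q a + S.d a b + S.d b z) (hγ : γ ∈ S.N)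
    (h4 : 200 * S.d (γ * a) b ≤ 4 * S.ℓ j) (h196 : 196 * S.ℓ j ≤ 200 * S.d a b) : False := by
  have hbig := S.big j
  have t := S.tree
  have tab := t.tri q a b
  have tqb := t.tri q b z
  have taz := t.tri a b z
  have tqa := t.tri q a z
  have bb : Btw S.d q b z := by unfold Btw; omega
  have ba : Btw S.d q a z := by unfold Btw; omega
  have bab : Btw S.d q a b := by unfold Btw; omega
  have babz : Btw S.d a b z := by unfold Btw; omega
  have bp : Btw S.d q p z := (hp.2 q hq).symm t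
  have bx : Btw S.d x p z := (hp.2 x hx).symm t
  rcases le_or_gt (S.d q b) (S.d q p) with hc | hc
  · -- both in `Y i`
    have h1 := (btw_linear t bb bp hc).1
    have hbi : b ∈ S.Y i := S.conv i q p b hq hp.1 h1
    have hai : a ∈ S.Y i := S.conv i q b a hq hbi bab
    have := (S.piece i j hij a b hai ha hbi hb).2
    omega
  · rcases le_or_gt (S.d q a) (S.d q p) with hc2 | hc2
    · have h1 := btw_linear t ba bp hc2
      have hai : a ∈ S.Y i := S.conv i q p a hq hp.1 h1.1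
      have h2 := btw_linear t bp bb hc.le
      -- p in [a,b]
      have h3 : Btw S.d a p b := by
        have e1 := h1.1
        have e2 := h2.1
        have e3 := bab
        unfold Btw at *
        omega
      have hpj : p ∈ S.Y j := S.conv j a b p ha hb h3
      have h5 := (S.piece i j hij a p hai ha hp.1 hpj).2
      refine co_short (S := S) (x := x) (z := z) (a := p) (b := b) (l := S.ℓ j)
        (by omega) hg hγ ?_ ?_ ?_
      · have e2 := h2.2
        unfold Btw at *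
        omega
      · have e1 := t.tri (γ * p) (γ * a) b
        have e2 := S.inv γ p a
        have e3 := t.symm p a
        omega
      · unfold Btw at h3
        omega
    · have h1 := btw_linear t bp ba hc2.le
      refine co_short (S := S) (x := x) (z := z) (a := a) (b := b) (l := S.ℓ j)
        (by omega) hg hγ ?_ ?_ ?_
      · -- x p z, p a z
        have e2 := h1.2
        have e3 : S.d x z = S.d x p + S.d p z := by unfold Btw at bx; omega
        have e4 : S.d p z = S.d p a + S.d a z := by unfold Btw at e2; omega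
        have e5 : S.d a z = S.d a b + S.d b z := by unfold Btw at babz; omega
        have e6 := t.tri x p a
        have e7 := t.tri x a z
        omega
      · omega
      · omega

/-- an element of `N` moving a point of `Y i` to a point of `Y i` is in `Γ i` -/
theorem mem_gamma (h : S.GL) {i : ι} {n x : F} (hn : n ∈ S.N) (hx : x ∈ S.Y i)
    (hx' : n * x ∈ S.Y i) : n ∈ S.Γ i := by
  have key : ∀ m ∈ S.N, m ≠ 1 → m * x ∈ S.Y i → ∃ γ ∈ S.Γ i,
      200 * S.d (γ * x) (m * x) ≤ 4 * S.ℓ i ∧ 196 * S.ℓ i ≤ 200 * S.d x (m * x) := by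
    intro m hm hm1 hmx
    obtain ⟨j, a, b, γ, hγ, hγ1, ha, hb, h1, h2, hne, hlin⟩ := co_GL h hm hm1 x
    by_cases hij : i = j
    · subst hij
      have ea : a = x := pr_unique S.tree ha (pr_self S.tree hx)
      have eb : b = m * x := pr_unique S.tree hb (pr_self S.tree hmx)
      subst ea
      subst eb
      exact ⟨γ, hγ, h1, h2⟩
    · exfalso
      have t := S.tree
      have e1 := t.tri x a b
      have e2 := t.tri x b (m * x)
      have e3 := t.tri a b (m * x)
      have e4 := t.tri x a (m * x)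
      have hai : a ∈ S.Y i := S.conv i x (m * x) a hx hmx (by unfold Btw; omega)
      have hbi : b ∈ S.Y i := S.conv i x (m * x) b hx hmx (by unfold Btw; omega)
      have := (S.piece i j hij a b hai ha.1 hbi hb.1).2
      have := S.big j
      omega
  by_cases hn1 : n = 1
  · rw [hn1]; exact one_mem _
  obtain ⟨γ, hγ, h1, h2⟩ := key n hn hn1 hx'
  by_cases hm1 : γ⁻¹ * n = 1
  · have : n = γ := by
      rw [inv_mul_eq_one] at hm1
      exact hm1.symm
    rw [this]; exact hγ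
  · exfalso
    have hm : γ⁻¹ * n ∈ S.N := mul_mem (inv_mem (co_gamma_N hγ)) hn
    have hmx : γ⁻¹ * n * x ∈ S.Y i := by
      rw [mul_assoc]
      exact co_gamma_Y (inv_mem hγ) hx'
    obtain ⟨_, _, _, h3⟩ := key _ hm hm1 hmx
    have h4 : S.d x (γ⁻¹ * n * x) = S.d (γ * x) (n * x) := by
      rw [mul_assoc]
      have := co_inv_left S γ⁻¹ x (n * x)
      rw [inv_inv] at this
      exact this.symm
    have := S.big i
    omega

/-- geodesics modulo `N` between points of `Y i` end in `Y i` -/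
theorem geo_mem (h : S.GL) {i : ι} {n x y : F} (hn : n ∈ S.N) (hx : x ∈ S.Y i) (hy : y ∈ S.Y i)
    (hg : S.Geo x (n * y)) : n ∈ S.Γ i := by
  classical
  have t := S.tree
  obtain ⟨p, hp⟩ := exists_pr t (S.conv i) (S.ne i) (n * y)
  have hex : ∃ k, ∃ γ ∈ S.Γ i, S.d (γ * y) p = k := ⟨_, 1, one_mem _, rfl⟩
  obtain ⟨γ0, hγ0, hk⟩ := Nat.find_spec hex
  have hmin : ∀ γ ∈ S.Γ i, S.d (γ0 * y) p ≤ S.d (γ * y) p := by
    intro γ hγ
    rw [hk]
    exact Nat.find_min' hex ⟨γ, hγ, rfl⟩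
  by_cases hn1 : n * γ0⁻¹ = 1
  · have : n = γ0 := by rwa [mul_inv_eq_one] at hn1
    rw [this]; exact hγ0
  exfalso
  have hn' : n * γ0⁻¹ ∈ S.N := mul_mem hn (inv_mem (co_gamma_N hγ0))
  have ez : n * γ0⁻¹ * (γ0 * y) = n * y := by group
  have hy' : γ0 * y ∈ S.Y i := co_gamma_Y hγ0 hy
  obtain ⟨j, a, b, γ, hγ, hγ1, ha, hb, h1, h2, hne, hlin⟩ := co_GL h hn' hn1 (γ0 * y)
  rw [ez] at hb hlin
  by_cases hij : i = j
  · subst hij
    have ea : a = γ0 * y := pr_unique t ha (pr_self t hy')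
    have eb : b = p := pr_unique t hb hp
    subst ea
    subst eb
    have h3 := hmin (γ * γ0) (mul_mem hγ hγ0)
    rw [mul_assoc] at h3
    have := S.big i
    omega
  · exact co_cut hij hx hg hp hy' ha.1 hb.1 hlin (co_gamma_N hγ) h1 h2

/-- the projection to `Y i` of a point seen from `Y i` along geodesics modulo `N` is coarsely well
defined -/
theorem gate (h : S.GL) {i : ι} {n x x' z p p' : F} (hn : n ∈ S.N) (hx : x ∈ S.Y i)
    (hx' : x' ∈ S.Y i) (hg : S.Geo x (n * z)) (hg' : S.Geo x' z) (hp : Pr S.d (S.Y i) (n * z) p)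
    (hp' : Pr S.d (S.Y i) z p') : ∃ γ ∈ S.Γ i, 200 * S.d p (γ * p') ≤ S.ℓ i := by
  classical
  have t := S.tree
  have hex : ∃ k, ∃ γ ∈ S.Γ i, S.d p (γ * p') = k := ⟨_, 1, one_mem _, rfl⟩
  obtain ⟨γ0, hγ0, hk⟩ := Nat.find_spec hex
  have hmin : ∀ γ ∈ S.Γ i, S.d p (γ0 * p') ≤ S.d p (γ * p') := by
    intro γ hγ
    rw [hk]
    exact Nat.find_min' hex ⟨γ, hγ, rfl⟩
  have hq : Pr S.d (S.Y i) (γ0 * z) (γ0 * p') := co_pr_smul hγ0 hp'
  have hgq : S.Geo (γ0 * x') (γ0 * z) := co_geo_smul (co_gamma_N hγ0) hg'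
  have hxq : γ0 * x' ∈ S.Y i := co_gamma_Y hγ0 hx'
  refine ⟨γ0, hγ0, ?_⟩
  by_contra hcon
  push Not at hcon
  have hpq : γ0 * p' ≠ p := by
    intro e
    rw [e, t.self] at hcon
    omega
  have hn1 : n * γ0⁻¹ ≠ 1 := by
    intro e
    have : n = γ0 := by rwa [mul_inv_eq_one] at e
    rw [this] at hp
    exact hpq (pr_unique t hq hp)
  have hn' : n * γ0⁻¹ ∈ S.N := mul_mem hn (inv_mem (co_gamma_N hγ0))
  have ez : n * γ0⁻¹ * (γ0 * z) = n * z := by group
  obtain ⟨j, a, b, γ, hγ, hγ1, ha, hb, h1, h2, hne, hlin⟩ := co_GL h hn' hn1 (γ0 * z)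
  rw [ez] at hb hlin
  by_cases hij : i = j
  · subst hij
    have ea : a = γ0 * p' := pr_unique t ha hq
    have eb : b = p := pr_unique t hb hp
    subst ea
    subst eb
    have h3 := hmin (γ * γ0) (mul_mem hγ hγ0)
    rw [mul_assoc] at h3
    have e1 := t.symm b (γ * (γ0 * p'))
    have e2 := t.symm b (γ0 * p')
    have := S.big i
    omega
  · have hbig := S.big j
    generalize hqd : γ0 * p' = q at *
    generalize hzd : γ0 * z = z' at *
    have hw := pr_two t hq hp hpq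
    have t1 := t.tri z' q p
    have t2 := t.tri z' p (n * z)
    have t3 := t.tri z' q (n * z)
    have t4 := t.tri q p (n * z)
    have t5 := t.tri z' a b
    have t6 := t.tri z' b (n * z)
    have t7 := t.tri z' a (n * z)
    have t8 := t.tri a b (n * z)
    have bq : Btw S.d z' q (n * z) := by unfold Btw; omega
    have bp : Btw S.d z' p (n * z) := by unfold Btw; omega
    have ba : Btw S.d z' a (n * z) := by unfold Btw; omega
    have bb : Btw S.d z' b (n * z) := by unfold Btw; omega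
    have bab : Btw S.d z' a b := by unfold Btw; omega
    have babz : Btw S.d a b (n * z) := by unfold Btw; omega
    have bqp : Btw S.d z' q p := by unfold Btw; omega
    rcases le_or_gt (S.d z' a) (S.d z' q) with hs | hs
    · rcases le_or_gt (S.d z' p) (S.d z' b) with hs2 | hs2
      · -- [q,p] inside [a,b]
        have f1 := btw_linear t ba bq hs
        have f2 := btw_linear t bp bb hs2
        have f3 := btw_linear t bq bb (by unfold Btw at bqp; omega)
        have f4 := btw_linear t ba bp (by unfold Btw at bqp; omega)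
        have gq : Btw S.d a q b := by
          have := f1.1
          have := f3.1
          unfold Btw at *
          omega
        have gp : Btw S.d a p b := by
          have := f4.1
          have := f2.1
          unfold Btw at *
          omega
        have hqj : q ∈ S.Y j := S.conv j a b q ha.1 hb.1 gq
        have hpj : p ∈ S.Y j := S.conv j a b p ha.1 hb.1 gp
        have := (S.piece i j hij p q hp.1 hpj hq.1 hqj).1
        omega
      · -- [a,b] inside [z',p]
        have f1 := (btw_linear t bb bp hs2.le).1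
        -- p -> b -> a -> z'
        refine co_cut (S := S) (i := i) (j := j) hij (x := γ0 * x') (z := z') (p := q) (q := p)
          (a := b) (b := a) (γ := γ⁻¹) hxq hgq hq hp.1 hb.1 ha.1 ?_ (inv_mem (co_gamma_N hγ)) ?_ ?_
        · have s1 := t.symm p z'
          have s2 := t.symm p b
          have s3 := t.symm b a
          have s4 := t.symm a z'
          unfold Btw at *
          omega
        · rw [co_inv_left, t.symm b]
          exact h1
        · rw [t.symm b a]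
          exact h2
    · -- a beyond q
      have f1 := btw_linear t bq ba hs.le
      refine co_cut (S := S) (i := i) (j := j) hij (x := x) (z := n * z) (p := p) (q := q)
          (a := a) (b := b) (γ := γ) hx hg hp hq.1 ha.1 hb.1 ?_ (co_gamma_N hγ) h1 h2
      have := f1.2
      unfold Btw at *
      omega

theorem exists_geo (x z : F) : ∃ n ∈ S.N, S.Geo x (n * z) := by
  classical
  have hex : ∃ k, ∃ n ∈ S.N, S.d x (n * z) = k := ⟨_, 1, one_mem _, rfl⟩
  obtain ⟨n, hn, hk⟩ := Nat.find_spec hex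
  refine ⟨n, hn, fun m hm => ?_⟩
  rw [hk]
  exact Nat.find_min' hex ⟨m * n, mul_mem hm hn, by rw [mul_assoc]⟩

theorem RC.mul_left {i : ι} {x y n : F} (hn : n ∈ S.N) (h : S.RC i x y) : S.RC i x (n * y) := by
  induction h with
  | one i x δ n' hx hδ hδ' hn' =>
    rw [← mul_assoc]
    exact Sys.RC.one i x δ (n * n') hx hδ hδ' (mul_mem hn hn')
  | cons i j x y δ hx hδ hδ' hij _ ih =>
    exact Sys.RC.cons i j x (n * y) δ hx hδ hδ' hij ih

theorem co_RC_mem {i : ι} {x y : F} (h : S.RC i x y) : x ∈ S.Y i := by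
  cases h with
  | one _ _ _ _ hx _ _ _ => exact hx
  | cons _ _ _ _ _ hx _ _ _ _ => exact hx

theorem co_far (h : S.GL) {j : ι} {x1 q δ : F} (hx : x1 ∈ S.Y j) (hδ : δ ∈ S.Δ j)
    (hδ' : δ ∉ S.Γ j) (hq : 200 * S.d q (δ * x1) ≤ 2 * S.ℓ j) :
    198 * S.ℓ j ≤ 200 * S.d x1 q := by
  have _ := h
  have h1 : δ ≠ 1 := fun e => hδ' (e ▸ one_mem _)
  have h2 := S.disp j δ hδ h1 x1 hx
  have h3 := S.tree.tri x1 q (δ * x1)
  omega

theorem co_chainK (h : S.GL) {i : ι} {x z : F} (hc : S.RC i x z) :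
    ∀ n ∈ S.N, S.Geo x (n * z) → ∀ p, Pr S.d (S.Y i) (n * z) p →
      ∃ δ ∈ S.Δ i, δ ∉ S.Γ i ∧ 200 * S.d p (δ * x) ≤ 2 * S.ℓ i := by
  have t := S.tree
  induction hc with
  | one i x δ n' hx hδ hδ' hn' =>
    intro n hn hg p hp
    have hδx : δ * x ∈ S.Y i := co_delta_Y hδ hx
    rw [← mul_assoc] at hg hp
    have hm := geo_mem h (mul_mem hn hn') hx hδx hg
    have e1 : p = n * n' * (δ * x) :=
      pr_unique t hp (pr_self t (co_gamma_Y hm hδx))
    refine ⟨n * n' * δ, mul_mem (S.le i hm) hδ, ?_, ?_⟩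
    · intro hcon
      apply hδ'
      have := mul_mem (inv_mem hm) hcon
      rwa [inv_mul_cancel_left] at this
    · rw [e1, mul_assoc (n * n') δ x, t.self]
      omega
  | cons i j x y δ hx hδ hδ' hij hrc ih =>
    intro n hn hg p hp
    obtain ⟨n1, hn1, hg1⟩ := exists_geo (S := S) (δ * x) y
    obtain ⟨q, hq⟩ := exists_pr t (S.conv j) (S.ne j) (n1 * y)
    obtain ⟨p1, hp1⟩ := exists_pr t (S.conv i) (S.ne i) (n1 * y)
    obtain ⟨δ1, hδ1, hδ1', hd1⟩ := ih n1 hn1 hg1 q hq
    have hxi : δ * x ∈ S.Y i := co_delta_Y hδ hx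
    have hxj : δ * x ∈ S.Y j := co_RC_mem hrc
    have hfar := co_far h hxj hδ1 hδ1' hd1
    have bq : Btw S.d (δ * x) q (n1 * y) := (hq.2 _ hxj).symm t
    have bp : Btw S.d (δ * x) p1 (n1 * y) := (hp1.2 _ hxi).symm t
    have hbig := S.big j
    have h1 : 200 * S.d (δ * x) p1 ≤ S.ℓ i := by
      rcases le_or_gt (S.d (δ * x) p1) (S.d (δ * x) q) with hle | hle
      · have h2 := (btw_linear t bp bq hle).1
        have h3 : p1 ∈ S.Y j := S.conv j _ _ _ hxj hq.1 h2
        exact (S.piece i j hij _ _ hxi hxj hp1.1 h3).1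
      · have h2 := (btw_linear t bq bp hle.le).1
        have h3 : q ∈ S.Y i := S.conv i _ _ _ hxi hp1.1 h2
        have := (S.piece i j hij _ _ hxi hxj h3 hq.1).2
        omega
    have ez : n * n1⁻¹ * (n1 * y) = n * y := by group
    have hnn : n * n1⁻¹ ∈ S.N := mul_mem hn (inv_mem hn1)
    obtain ⟨γ, hγ, hd⟩ := gate h (i := i) (n := n * n1⁻¹) (x := x) (x' := δ * x) (z := n1 * y)
      (p := p) (p' := p1) hnn hx hxi (by rw [ez]; exact hg) hg1 (by rw [ez]; exact hp) hp1
    refine ⟨γ * δ, mul_mem (S.le i hγ) hδ, ?_, ?_⟩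
    · intro hcon
      apply hδ'
      have := mul_mem (inv_mem hγ) hcon
      rwa [inv_mul_cancel_left] at this
    · have h2 := t.tri p (γ * p1) (γ * (δ * x))
      rw [S.inv] at h2
      have h3 := t.symm p1 (δ * x)
      rw [mul_assoc]
      omega

theorem chainK (h : S.GL) {i : ι} {x z p : F} (hc : S.RC i x z) (hg : S.Geo x z)
    (hp : Pr S.d (S.Y i) z p) : ∃ δ ∈ S.Δ i, δ ∉ S.Γ i ∧ 200 * S.d p (δ * x) ≤ 2 * S.ℓ i := by
  refine co_chainK h hc 1 (one_mem _) ?_ p ?_
  · rw [one_mul]; exact hg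
  · rw [one_mul]; exact hp

theorem chainK2 (h : S.GL) {i : ι} {x z : F} (hc : S.RC i x z) (hg : S.Geo x z)
    (hz : z ∈ S.Y i) : ∃ δ ∈ S.Δ i, z = δ * x := by
  have t := S.tree
  cases hc with
  | one _ _ δ n hx hδ hδ' hn =>
    have hm := geo_mem h hn hx (co_delta_Y hδ hx) hg
    exact ⟨n * δ, mul_mem (S.le i hm) hδ, by rw [mul_assoc]⟩
  | cons _ j _ _ δ hx hδ hδ' hij hrc =>
    exfalso
    obtain ⟨n1, hn1, hg1⟩ := exists_geo (S := S) (δ * x) z
    obtain ⟨q, hq⟩ := exists_pr t (S.conv j) (S.ne j) (n1 * z)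
    obtain ⟨δ1, hδ1, hδ1', hd1⟩ := co_chainK h hrc n1 hn1 hg1 q hq
    have hxi : δ * x ∈ S.Y i := co_delta_Y hδ hx
    have hxj : δ * x ∈ S.Y j := co_RC_mem hrc
    have hfar := co_far h hxj hδ1 hδ1' hd1
    have hm := geo_mem h hn1 hxi hz hg1
    have hzi : n1 * z ∈ S.Y i := co_gamma_Y hm hz
    have bq : Btw S.d (δ * x) q (n1 * z) := (hq.2 _ hxj).symm t
    have hqi : q ∈ S.Y i := S.conv i _ _ _ hxi hzi bq
    have := (S.piece i j hij _ _ hxi hxj hqi hq.1).2
    have hbig := S.big j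
    omega

end Pool.Agent.H76.SC
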