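import Mathlib
import Pool.Agent.H76.SC.AutSys

set_option autoImplicit false

/-! # Walls and the wall cocycle -/

namespace Pool.Agent.H76.SC

open FreeGroup

variable {k : ℕ}

/-- edges crossed by a word read from a group element -/
def ed : FreeGroup (Fin k) → List (Fin k × Bool) → List (FreeGroup (Fin k) × Fin k)
  | _, [] => []
  | g, (a, true) :: w => (g, a) :: ed (g * of a) w
  | g, (a, false) :: w => (g * (of a)⁻¹, a) :: ed (g * (of a)⁻¹) w

theorem ed_append (g : FreeGroup (Fin k)) (u w : List (Fin k × Bool)) :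
    ed g (u ++ w) = ed g u ++ ed (g * FreeGroup.mk u) w := by
  induction u generalizing g with
  | nil => simp [ed, ← FreeGroup.one_eq_mk]
  | cons a u ih =>
    obtain ⟨a, b⟩ := a
    cases b
    · have e : g * FreeGroup.mk ((a, false) :: u) = g * (of a)⁻¹ * FreeGroup.mk u := by
        rw [mul_assoc]; congr 1
      simp only [List.cons_append, ed, ih, e]
    · have e : g * FreeGroup.mk ((a, true) :: u) = g * of a * FreeGroup.mk u := by
        rw [mul_assoc]; congr 1
      simp only [List.cons_append, ed, ih, e]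

theorem ed_length (g : FreeGroup (Fin k)) (w : List (Fin k × Bool)) :
    (ed g w).length = w.length := by
  induction w generalizing g with
  | nil => rfl
  | cons a u ih =>
    obtain ⟨a, b⟩ := a
    cases b <;> simp [ed, ih]

/-- edge sum with values in any family of labels -/
noncomputable def es {α : Type*} (f : FreeGroup (Fin k) × Fin k → α) (g : FreeGroup (Fin k))
    (w : List (Fin k × Bool)) : α →₀ ZMod 2 :=
  ((ed g w).map (fun e => Finsupp.single (f e) 1)).sum

theorem es_append {α : Type*} (f : FreeGroup (Fin k) × Fin k → α) (g : FreeGroup (Fin k))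
    (u w : List (Fin k × Bool)) : es f g (u ++ w) = es f g u + es f (g * FreeGroup.mk u) w := by
  unfold es
  rw [ed_append, List.map_append, List.sum_append]

theorem add_self_finsupp {α : Type*} (f : α →₀ ZMod 2) : f + f = 0 := by
  ext a
  exact CharTwo.add_self_eq_zero (f a)

theorem es_step {α : Type*} (f : FreeGroup (Fin k) × Fin k → α) (g : FreeGroup (Fin k))
    {u w : List (Fin k × Bool)} (h : Red.Step u w) : es f g u = es f g w := by
  rcases h with @⟨L₁, L₂, x, b⟩
  rw [es_append, es_append]
  congr 1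
  cases b
  · have e : g * FreeGroup.mk L₁ * (of x)⁻¹ * of x = g * FreeGroup.mk L₁ := by group
    simp only [es, ed, Bool.not_false, e, List.map_cons, List.sum_cons]
    rw [← add_assoc, add_self_finsupp, zero_add]
  · have e : g * FreeGroup.mk L₁ * of x * (of x)⁻¹ = g * FreeGroup.mk L₁ := by group
    simp only [es, ed, Bool.not_true, e, List.map_cons, List.sum_cons]
    rw [← add_assoc, add_self_finsupp, zero_add]

theorem es_reduce {α : Type*} (f : FreeGroup (Fin k) × Fin k → α) (g : FreeGroup (Fin k))
    (w : List (Fin k × Bool)) : es f g (reduce w) = es f g w := by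
  have key : ∀ w', Red w w' → es f g w = es f g w' := by
    intro w' h
    induction h with
    | refl => rfl
    | tail _ h2 ih => rw [ih, es_step f g h2]
  exact (key _ reduce.red).symm

/-- the wall sum between two points -/
noncomputable def eB {α : Type*} (f : FreeGroup (Fin k) × Fin k → α) (x y : FreeGroup (Fin k)) :
    α →₀ ZMod 2 := es f x (x⁻¹ * y).toWord

theorem eB_add {α : Type*} (f : FreeGroup (Fin k) × Fin k → α) (x y z : FreeGroup (Fin k)) :
    eB f x y + eB f y z = eB f x z := by
  unfold eB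
  have h1 : (x⁻¹ * z).toWord = reduce ((x⁻¹ * y).toWord ++ (y⁻¹ * z).toWord) := by
    rw [← toWord_mul]
    congr 1
    group
  rw [h1, es_reduce, es_append, mk_toWord]
  congr 2
  group

theorem eB_self {α : Type*} (f : FreeGroup (Fin k) × Fin k → α) (x : FreeGroup (Fin k)) :
    eB f x x = 0 := by
  have h := eB_add f x x x
  exact add_eq_left.mp h

theorem eB_comm {α : Type*} (f : FreeGroup (Fin k) × Fin k → α) (x y : FreeGroup (Fin k)) :
    eB f x y = eB f y x := by
  have h := eB_add f x y x
  rw [eB_self] at h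
  have h2 := add_self_finsupp (eB f y x)
  have h3 : eB f x y + eB f y x + eB f y x = eB f y x := by rw [h, zero_add]
  rw [add_assoc, h2, add_zero] at h3
  exact h3

theorem ed_mul (h g : FreeGroup (Fin k)) (w : List (Fin k × Bool)) :
    ed (h * g) w = (ed g w).map (fun e => (h * e.1, e.2)) := by
  induction w generalizing g with
  | nil => rfl
  | cons a u ih =>
    obtain ⟨a, b⟩ := a
    cases b
    · simp only [ed, List.map_cons, ← ih, mul_assoc]
    · simp only [ed, List.map_cons, ← ih, mul_assoc]

variable {V : Type} [DecidableEq V] (A : Aut k V)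

/-- elementary wall moves, for the base points of edges labelled `a` -/
inductive Aut.WR (a : Fin k) : FreeGroup (Fin k) → FreeGroup (Fin k) → Prop
  | nm (n x : FreeGroup (Fin k)) (hn : n ∈ A.sysH.N) : Aut.WR a x (n * x)
  | dl (c : A.Idx) (f x : FreeGroup (Fin k)) (hf : f ∈ A.DD c) (hx : x ∈ A.YY c)
      (hx' : x * of a ∈ A.YY c) : Aut.WR a x (f * x)

/-- walls are classes of edges -/
def Aut.ws : Setoid (FreeGroup (Fin k) × Fin k) where
  r e e' := e.2 = e'.2 ∧ Relation.ReflTransGen (A.WR e.2) e.1 e'.1
  iseqv := by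
    have hsymm : ∀ a x y, A.WR a x y → A.WR a y x := by
      intro a x y h
      obtain ⟨n, x, hn⟩ | ⟨c, f, x, hf, hx, hx'⟩ := h
      · have := Aut.WR.nm (A := A) (a := a) n⁻¹ (n * x) (inv_mem hn)
        rwa [inv_mul_cancel_left] at this
      · have h1 : f * x ∈ A.YY c := by
          obtain ⟨y, hy⟩ := (mem_YY A).mp hx
          exact (mem_YY A).mpr ⟨y, by rw [DD_apply A hf, hy]⟩
        have h2 : f * x * of a ∈ A.YY c := by
          obtain ⟨y, hy⟩ := (mem_YY A).mp hx'
          exact (mem_YY A).mpr ⟨y, by rw [mul_assoc, DD_apply A hf, hy]⟩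
        have := Aut.WR.dl (A := A) (a := a) c f⁻¹ (f * x) (inv_mem hf) h1 h2
        rwa [inv_mul_cancel_left] at this
    constructor
    · intro e
      exact ⟨rfl, Relation.ReflTransGen.refl⟩
    · rintro ⟨x, a⟩ ⟨y, b⟩ ⟨h1, h2⟩
      dsimp only at h1 h2
      subst h1
      refine ⟨rfl, ?_⟩
      induction h2 with
      | refl => exact Relation.ReflTransGen.refl
      | tail _ h3 ih => exact Relation.ReflTransGen.head (hsymm _ _ _ h3) ih
    · rintro ⟨x, a⟩ ⟨y, b⟩ ⟨z, c⟩ ⟨h1, h2⟩ ⟨h3, h4⟩
      dsimp only at h1 h2 h3 h4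
      subst h1
      subst h3
      exact ⟨rfl, h2.trans h4⟩

/-- the type of walls -/
def Aut.Wall : Type := Quotient A.ws

/-- the wall of an edge -/
def Aut.wm (e : FreeGroup (Fin k) × Fin k) : A.Wall := Quotient.mk A.ws e

theorem wm_eq {e e' : FreeGroup (Fin k) × Fin k} : A.wm e = A.wm e' ↔
    e.2 = e'.2 ∧ Relation.ReflTransGen (A.WR e.2) e.1 e'.1 := Quotient.eq (r := A.ws)

theorem WR_mul (g : FreeGroup (Fin k)) {a : Fin k} {x y : FreeGroup (Fin k)} (h : A.WR a x y) :
    A.WR a (g * x) (g * y) := by
  obtain ⟨n, x, hn⟩ | ⟨c, f, x, hf, hx, hx'⟩ := h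
  · have h1 := (sysN_normal' A.sysH).conj_mem n hn g
    have := Aut.WR.nm (A := A) (a := a) (g * n * g⁻¹) (g * x) h1
    rwa [show g * n * g⁻¹ * (g * x) = g * (n * x) by group] at this
  · have h3 := smul_YY A g c _ hx'
    rw [← mul_assoc] at h3
    have := Aut.WR.dl (A := A) (a := a) (g • c) (g * f * g⁻¹) (g * x) (smul_DD A g c f hf)
      (smul_YY A g c x hx) h3
    rwa [show g * f * g⁻¹ * (g * x) = g * (f * x) by group] at this

/-- translation of walls -/
def Aut.wt (g : FreeGroup (Fin k)) : A.Wall → A.Wall :=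
  Quotient.map' (fun e => (g * e.1, e.2)) (by
    rintro ⟨x, a⟩ ⟨y, b⟩ ⟨h1, h2⟩
    dsimp only at h1 h2
    subst h1
    refine ⟨rfl, ?_⟩
    induction h2 with
    | refl => exact Relation.ReflTransGen.refl
    | tail _ h3 ih => exact Relation.ReflTransGen.tail ih (WR_mul A g h3))

theorem wt_wm (g : FreeGroup (Fin k)) (e : FreeGroup (Fin k) × Fin k) :
    A.wt g (A.wm e) = A.wm (g * e.1, e.2) := rfl

theorem wt_inj (g : FreeGroup (Fin k)) : Function.Injective (A.wt g) := by
  apply Function.LeftInverse.injective (g := A.wt g⁻¹)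
  intro W
  obtain ⟨e, rfl⟩ := Quotient.exists_rep W
  show A.wt g⁻¹ (A.wt g (A.wm e)) = A.wm e
  rw [wt_wm, wt_wm]
  simp

/-- the wall sum -/
noncomputable def Aut.B (x y : FreeGroup (Fin k)) : A.Wall →₀ ZMod 2 := eB A.wm x y

theorem B_mul (g x y : FreeGroup (Fin k)) :
    A.B (g * x) (g * y) = (A.B x y).mapDomain (A.wt g) := by
  unfold Aut.B eB es
  have e : (g * x)⁻¹ * (g * y) = x⁻¹ * y := by group
  rw [e, ed_mul, List.map_map]
  rw [← Finsupp.mapDomain.addMonoidHom_apply, map_list_sum, List.map_map]
  congr 1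
  apply List.map_congr_left
  intro e _
  simp [Finsupp.mapDomain_single, wt_wm]

/-- elements of `N` act trivially on walls -/
theorem wm_N {n x : FreeGroup (Fin k)} {a : Fin k} (hn : n ∈ A.sysH.N) :
    A.wm (n * x, a) = A.wm (x, a) := by
  symm
  rw [wm_eq]
  exact ⟨rfl, Relation.ReflTransGen.single (Aut.WR.nm n x hn)⟩

theorem wt_N {n : FreeGroup (Fin k)} (hn : n ∈ A.sysH.N) (W : A.Wall) : A.wt n W = W := by
  obtain ⟨e, rfl⟩ := Quotient.exists_rep W
  exact wm_N A hn

theorem B_N {n x y : FreeGroup (Fin k)} (hn : n ∈ A.sysH.N) : A.B (n * x) (n * y) = A.B x y := by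
  rw [B_mul]
  have : A.wt n = id := funext (fun W => wt_N A hn W)
  rw [this, Finsupp.mapDomain_id]

omit [DecidableEq V] in
/-- edges read along a lift -/
theorem ed_idx {c : A.Idx} {w : List (Fin k × Bool)} : ∀ {g : FreeGroup (Fin k)} {x y : V},
    c.1 g = some x → A.run x w = some y →
    ∀ e ∈ ed g w, e.1 ∈ A.YY c ∧ e.1 * of e.2 ∈ A.YY c := by
  induction w with
  | nil => intro g x y _ _ e he; simp [ed] at he
  | cons a w ih =>
    obtain ⟨a, b⟩ := a
    intro g x y hx hy
    rw [run_cons] at hy
    cases hs : A.step x (a, b) with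
    | none => rw [hs] at hy; simp at hy
    | some z =>
      rw [hs] at hy
      have hz : c.1 (g * FreeGroup.mk [(a, b)]) = some z := by
        rw [idx_eq A hx]
        show A.run x (g⁻¹ * (g * FreeGroup.mk [(a, b)])).toWord = some z
        rw [inv_mul_cancel_left, toWord_mk]
        apply run_reduce
        rw [run_cons, hs]
        rfl
      have hg : g ∈ A.YY c := (mem_YY A).mpr ⟨x, hx⟩
      have hg' : g * FreeGroup.mk [(a, b)] ∈ A.YY c := (mem_YY A).mpr ⟨z, hz⟩
      cases b
      · have e1 : g * FreeGroup.mk [(a, false)] = g * (of a)⁻¹ := rfl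
        rw [e1] at hz hg'
        intro e he
        simp only [ed, List.mem_cons] at he
        rcases he with rfl | he
        · refine ⟨hg', ?_⟩
          simpa using hg
        · exact ih hz hy e he
      · have e1 : g * FreeGroup.mk [(a, true)] = g * of a := rfl
        rw [e1] at hz hg'
        intro e he
        simp only [ed, List.mem_cons] at he
        rcases he with rfl | he
        · exact ⟨hg, hg'⟩
        · exact ih hz hy e he

theorem es_true {α : Type*} (f : FreeGroup (Fin k) × Fin k → α) (g : FreeGroup (Fin k))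
    (a : Fin k) (w : List (Fin k × Bool)) :
    es f g ((a, true) :: w) = Finsupp.single (f (g, a)) 1 + es f (g * of a) w := by
  simp [es, ed]

theorem es_false {α : Type*} (f : FreeGroup (Fin k) × Fin k → α) (g : FreeGroup (Fin k))
    (a : Fin k) (w : List (Fin k × Bool)) :
    es f g ((a, false) :: w) =
      Finsupp.single (f (g * (of a)⁻¹, a)) 1 + es f (g * (of a)⁻¹) w := by
  simp [es, ed]

/-- the label of an edge in a lift -/
def Aut.lab (c : A.Idx) (e : FreeGroup (Fin k) × Fin k) : Option V × Fin k := (c.1 e.1, e.2)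

omit [DecidableEq V] in
theorem idx_step {c : A.Idx} {g : FreeGroup (Fin k)} {x z : V} {a : Fin k} {b : Bool}
    (hx : c.1 g = some x) (hs : A.step x (a, b) = some z) :
    c.1 (g * FreeGroup.mk [(a, b)]) = some z := by
  rw [idx_eq A hx]
  show A.run x (g⁻¹ * (g * FreeGroup.mk [(a, b)])).toWord = some z
  rw [inv_mul_cancel_left, toWord_mk]
  apply run_reduce
  rw [run_cons, hs]
  rfl

theorem lab_par {c : A.Idx} {w : List (Fin k × Bool)} : ∀ {g : FreeGroup (Fin k)} {x y : V},
    c.1 g = some x → A.run x w = some y → ∀ z a,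
    es (A.lab c) g w (some z, a) = A.par x w (z, a) := by
  induction w with
  | nil => intro g x y _ _ z a; simp [es, ed, Aut.par]
  | cons l w ih =>
    obtain ⟨l, b⟩ := l
    intro g x y hx hy z a
    rw [run_cons] at hy
    cases hs : A.step x (l, b) with
    | none => rw [hs] at hy; simp at hy
    | some t =>
      rw [hs] at hy
      have ht := idx_step A hx hs
      have ih' := ih ht hy z a
      cases b
      · have e1 : g * FreeGroup.mk [(l, false)] = g * (of l)⁻¹ := rfl
        rw [e1] at ht ih'
        rw [es_false, Finsupp.add_apply, ih', Aut.par, hs]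
        dsimp only
        rw [Pi.add_apply]
        congr 1
        unfold Aut.lab
        dsimp only
        rw [ht, Finsupp.single_apply, Pi.single_apply]
        by_cases h : (z, a) = (t, l)
        · rw [if_pos h, if_pos]
          rw [Prod.mk.injEq] at h
          rw [h.1, h.2]
        · rw [if_neg h, if_neg]
          intro h'
          apply h
          rw [Prod.mk.injEq, Option.some.injEq] at h'
          rw [h'.1, h'.2]
      · have e1 : g * FreeGroup.mk [(l, true)] = g * of l := rfl
        rw [e1] at ht ih'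
        rw [es_true, Finsupp.add_apply, ih', Aut.par, hs]
        dsimp only
        rw [Pi.add_apply]
        congr 1
        unfold Aut.lab
        dsimp only
        rw [hx, Finsupp.single_apply, Pi.single_apply]
        by_cases h : (z, a) = (x, l)
        · rw [if_pos h, if_pos]
          rw [Prod.mk.injEq] at h
          rw [h.1, h.2]
        · rw [if_neg h, if_neg]
          intro h'
          apply h
          rw [Prod.mk.injEq, Option.some.injEq] at h'
          rw [h'.1, h'.2]

omit [DecidableEq V] in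
theorem lab_none {c : A.Idx} {w : List (Fin k × Bool)} {g : FreeGroup (Fin k)} {x y : V}
    (hx : c.1 g = some x) (hy : A.run x w = some y) (a : Fin k) :
    es (A.lab c) g w (none, a) = 0 := by
  classical
  have h1 := ed_idx A hx hy
  unfold es
  generalize ed g w = l at h1
  induction l with
  | nil => simp
  | cons e l ih =>
    rw [List.map_cons, List.sum_cons, Finsupp.add_apply,
      ih (fun e' he' => h1 e' (List.mem_cons_of_mem _ he')), add_zero]
    obtain ⟨y, hy⟩ := (mem_YY A).mp (h1 e (List.mem_cons_self)).1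
    rw [Finsupp.single_apply, if_neg]
    intro h'
    unfold Aut.lab at h'
    rw [Prod.mk.injEq, hy] at h'
    exact absurd h'.1 (by simp)

theorem wm_lab {c : A.Idx} {e e' : FreeGroup (Fin k) × Fin k} (h1 : e.1 ∈ A.YY c)
    (h2 : e.1 * of e.2 ∈ A.YY c) (h : A.lab c e = A.lab c e') : A.wm e = A.wm e' := by
  obtain ⟨x, a⟩ := e
  obtain ⟨x', a'⟩ := e'
  unfold Aut.lab at h
  rw [Prod.mk.injEq] at h
  dsimp only at h h1 h2
  obtain ⟨h3, rfl⟩ := h
  obtain ⟨y, hy⟩ := (mem_YY A).mp h1
  rw [wm_eq]
  refine ⟨rfl, ?_⟩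
  have h4 : x' * x⁻¹ ∈ A.DD c := by
    apply mem_DD_of A hy
    rw [inv_mul_cancel_right, ← h3, hy]
  have := Aut.WR.dl (A := A) (a := a) c (x' * x⁻¹) x h4 h1 h2
  rw [inv_mul_cancel_right] at this
  exact Relation.ReflTransGen.single this

theorem es_map {α β : Type*} (f : FreeGroup (Fin k) × Fin k → α)
    (f' : FreeGroup (Fin k) × Fin k → β) (κ : α → β) (g : FreeGroup (Fin k))
    (w : List (Fin k × Bool)) (h : ∀ e ∈ ed g w, f' e = κ (f e)) :
    es f' g w = (es f g w).mapDomain κ := by
  unfold es
  rw [← Finsupp.mapDomain.addMonoidHom_apply, map_list_sum, List.map_map]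
  congr 1
  apply List.map_congr_left
  intro e he
  simp [Finsupp.mapDomain_single, h e he]

/-- closed words crossing all edges evenly have wall sum zero -/
theorem B_even {c : A.Idx} {g : FreeGroup (Fin k)} {x y : V} {w : List (Fin k × Bool)}
    (hx : c.1 g = some x) (hy : A.run x w = some y) (hp : A.par x w = 0) :
    es A.wm g w = 0 := by
  classical
  have h0 : es (A.lab c) g w = 0 := by
    ext ⟨o, a⟩
    cases o with
    | none => rw [lab_none A hx hy]; rfl
    | some z => rw [lab_par A hx hy, hp]; rfl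
  let κ : Option V × Fin k → Option A.Wall := fun p =>
    if h : ∃ e ∈ ed g w, A.lab c e = p then some (A.wm h.choose) else none
  have h1 : es (fun e => some (A.wm e)) g w = (es (A.lab c) g w).mapDomain κ := by
    apply es_map
    intro e he
    have hex : ∃ e' ∈ ed g w, A.lab c e' = A.lab c e := ⟨e, he, rfl⟩
    have e1 : κ (A.lab c e) = some (A.wm hex.choose) := dif_pos hex
    rw [e1]
    congr 1
    have h2 := ed_idx A hx hy _ hex.choose_spec.1
    exact (wm_lab A h2.1 h2.2 hex.choose_spec.2).symm
  have h2 : es (fun e => some (A.wm e)) g w = (es A.wm g w).mapDomain some :=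
    es_map _ _ _ _ _ (fun e _ => rfl)
  rw [h0, Finsupp.mapDomain_zero, h2] at h1
  exact (Finsupp.mapDomain_injective (Option.some_injective _)) (by
    rw [h1, Finsupp.mapDomain_zero])

theorem B_add (x y z : FreeGroup (Fin k)) : A.B x y + A.B y z = A.B x z := eB_add _ _ _ _

theorem B_comm (x y : FreeGroup (Fin k)) : A.B x y = A.B y x := eB_comm _ _ _

theorem B_self (x : FreeGroup (Fin k)) : A.B x x = 0 := eB_self _ _

theorem B_one_N {n : FreeGroup (Fin k)} (hn : n ∈ A.sysH.N) : A.B 1 n = 0 := by
  have hn' := hn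
  unfold Sys.N at hn'
  induction hn' using Subgroup.closure_induction with
  | mem f hf =>
    obtain ⟨c, hc⟩ := Set.mem_iUnion.mp hf
    have hc' : f ∈ A.EE c := hc
    obtain ⟨h, y, hy⟩ := idx_ne A c
    have e1 : c.1 (f * h) = some y := by rw [DD_apply A hc'.1, hy]
    have h1 : A.B h (f * h) = 0 := by
      have h2 := run_idx A hy e1
      apply B_even A hy h2
      have := hc'.2 h y hy
      rwa [mul_assoc] at this
    have h3 : A.B (f * h) (f * 1) = A.B h 1 := B_N A hn
    rw [mul_one] at h3
    rw [← B_add A 1 h f, ← B_add A h (f * h) f, h1, h3, zero_add, B_comm A 1 h]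
    exact add_self_finsupp _
  | one => exact B_self A 1
  | mul x y hx hy h1 h2 =>
    have h3 : A.B (x * 1) (x * y) = A.B 1 y := B_N A hx
    rw [mul_one] at h3
    rw [← B_add A 1 x (x * y), h3, h1 hx, h2 hy, add_zero]
  | inv x hx h1 =>
    have h3 : A.B (x * 1) (x * x⁻¹) = A.B 1 x⁻¹ := B_N A hx
    rw [mul_one, mul_inv_cancel] at h3
    rw [← h3, B_comm, h1 hx]

end Pool.Agent.H76.SC
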