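import Mathlib
import Pool.Agent.H76.SC.Tree

set_option autoImplicit false

/-! # Windmills: the Greendlinger lemma for small cancellation systems -/

namespace Pool.Agent.H76.SC

variable {F ι : Type} [Group F] [MulAction F ι] {S : Sys F ι}

theorem wm_btw (g : F) {a c b : F} (h : Btw S.d a c b) : Btw S.d (g * a) (g * c) (g * b) := by
  unfold Btw at *
  rw [S.inv, S.inv, S.inv]
  exact h

theorem wm_btw' (g : F) {a c b : F} (h : Btw S.d (g * a) c b) :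
    Btw S.d a (g⁻¹ * c) (g⁻¹ * b) := by
  have := wm_btw g⁻¹ h
  rwa [inv_mul_cancel_left] at this

theorem wm_Y {g : F} {i : ι} {x : F} (h : g * x ∈ S.Y (g • i)) : x ∈ S.Y i := by
  have := S.smulY g⁻¹ _ _ h
  rwa [inv_mul_cancel_left, inv_smul_smul] at this

theorem wm_Yinv {g : F} {i : ι} {x : F} (h : x ∈ S.Y i) : g⁻¹ * x ∈ S.Y (g⁻¹ • i) :=
  S.smulY g⁻¹ _ _ h

theorem wm_stab {i : ι} {g : F} (hg : g ∈ S.Γ i) : g • i = i := S.stab i g (S.le i hg)

theorem wm_YΓ {i : ι} {g x : F} (hg : g ∈ S.Γ i) (h : x ∈ S.Y i) : g * x ∈ S.Y i := by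
  have := S.smulY g _ _ h
  rwa [wm_stab hg] at this

theorem wm_pr {g : F} {i : ι} {x p : F} (h : Pr S.d (S.Y i) x p) :
    Pr S.d (S.Y (g • i)) (g * x) (g * p) := by
  refine ⟨S.smulY g _ _ h.1, fun y hy => ?_⟩
  have hy' : g⁻¹ * y ∈ S.Y i := by
    apply wm_Y (g := g)
    rwa [mul_inv_cancel_left]
  have := wm_btw g (h.2 _ hy')
  rwa [mul_inv_cancel_left] at this

theorem wm_prΓ {g : F} {i : ι} {x p : F} (hg : g ∈ S.Γ i) (h : Pr S.d (S.Y i) x p) :
    Pr S.d (S.Y i) (g * x) (g * p) := by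
  have := wm_pr (g := g) h
  rwa [wm_stab hg] at this

/-- windmills -/
structure WM (S : Sys F ι) (v : F) where
  W : Set F
  M : Subgroup F
  NN : Set ι
  vW : v ∈ W
  conv : Conv S.d W
  MW : ∀ m ∈ M, ∀ w ∈ W, m * w ∈ W
  MN : ∀ m ∈ M, ∀ i ∈ NN, m • i ∈ NN
  AY : ∀ i ∈ NN, S.Y i ⊆ W
  AG : ∀ i ∈ NN, S.Γ i ≤ M
  le : M ≤ S.N
  B : ∀ i, i ∉ NN → ∀ a b, a ∈ S.Y i → b ∈ S.Y i → a ∈ W → b ∈ W → 200 * S.d a b ≤ 2 * S.ℓ i

namespace WM

variable {v : F} (w : WM S v)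

/-- 1-neighbourhood -/
def W1 : Set F := nb1 S.d w.W

/-- new indices -/
def ZZ : Set ι := {i | i ∉ w.NN ∧ ∃ s ∈ S.Y i, s ∈ w.W1}

/-- fundamental piece -/
def U : Set F := {x | x ∈ w.W1 ∨ ∃ i ∈ w.ZZ, x ∈ S.Y i}

/-- generators -/
def G : Set F := {h | h ∈ w.M ∨ ∃ i ∈ w.ZZ, h ∈ S.Γ i}

/-- new group -/
def M' : Subgroup F := Subgroup.closure w.G

/-- new set -/
def W' : Set F := {x | ∃ m ∈ w.M', ∃ u ∈ w.U, x = m * u}

/-- new index set -/
def NN' : Set ι := {i | ∃ m ∈ w.M', ∃ j, (j ∈ w.NN ∨ j ∈ w.ZZ) ∧ i = m • j}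

/-- points seen from `Y i` near `W1` -/
def AA (i : ι) : Set F := {x | ∃ p, Pr S.d (S.Y i) x p ∧ ∃ q, q ∈ S.Y i ∧ q ∈ w.W1 ∧
  200 * S.d p q ≤ S.ℓ i}

theorem convW1 : Conv S.d w.W1 := conv_nb1 S.tree w.conv

theorem WW1 : w.W ⊆ w.W1 := subset_nb1 S.tree _

theorem vW1 : v ∈ w.W1 := w.WW1 w.vW

theorem MW1 {m : F} (hm : m ∈ w.M) {x : F} (hx : x ∈ w.W1) : m * x ∈ w.W1 := by
  obtain ⟨y, hy, hd⟩ := hx
  exact ⟨m * y, w.MW m hm y hy, by rw [S.inv]; exact hd⟩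

theorem MNN {m : F} (hm : m ∈ w.M) {i : ι} : m • i ∈ w.NN ↔ i ∈ w.NN := by
  constructor
  · intro h
    have := w.MN m⁻¹ (w.M.inv_mem hm) _ h
    rwa [inv_smul_smul] at this
  · exact w.MN m hm i

theorem MZZ {m : F} (hm : m ∈ w.M) {i : ι} (hi : i ∈ w.ZZ) : m • i ∈ w.ZZ := by
  obtain ⟨h1, s, hs, hs'⟩ := hi
  exact ⟨fun h => h1 ((w.MNN hm).mp h), m * s, S.smulY m _ _ hs, w.MW1 hm hs'⟩

theorem MU {m : F} (hm : m ∈ w.M) {x : F} (hx : x ∈ w.U) : m * x ∈ w.U := by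
  rcases hx with hx | ⟨i, hi, hx⟩
  · exact Or.inl (w.MW1 hm hx)
  · exact Or.inr ⟨m • i, w.MZZ hm hi, S.smulY m _ _ hx⟩

/-- overlaps with `W1` -/
theorem D_le {i : ι} (hi : i ∉ w.NN) {a b : F} (ha : a ∈ S.Y i) (hb : b ∈ S.Y i)
    (ha1 : a ∈ w.W1) (hb1 : b ∈ w.W1) : 200 * S.d a b ≤ 3 * S.ℓ i := by
  have h := S.tree
  have hne : (w.W).Nonempty := ⟨v, w.vW⟩
  obtain ⟨a', pa⟩ := exists_pr h w.conv hne a
  obtain ⟨b', pb⟩ := exists_pr h w.conv hne b
  obtain ⟨y, hy, hya⟩ := ha1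
  obtain ⟨z, hz, hzb⟩ := hb1
  have h1 := pa.2 y hy
  have h2 := pb.2 z hz
  have hbig := S.big i
  unfold Btw at h1 h2
  by_cases hab : a' = b'
  · subst hab
    have h3 := h.tri a a' b
    have s1 := h.symm a' b
    omega
  · have h3 := pr_two h pa pb hab
    have s1 := h.symm b' b
    have t1 := h.tri a b' b
    have t2 := h.tri a a' b
    have t3 := h.tri a' b' b
    have t4 := h.tri a a' b'
    have ha' : a' ∈ S.Y i := S.conv i a b a' ha hb (by unfold Btw; omega)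
    have hb' : b' ∈ S.Y i := S.conv i a b b' ha hb (by unfold Btw; omega)
    have h4 := w.B i hi a' b' ha' hb' pa.1 pb.1
    omega

theorem gateW1 {i : ι} (hi : i ∈ w.ZZ) {x p : F} (hx : x ∈ w.W1) (hp : Pr S.d (S.Y i) x p) :
    p ∈ w.W1 := by
  obtain ⟨-, s, hs, hs'⟩ := hi
  exact pr_mem w.convW1 hx hp hs hs'

theorem P0a {i : ι} (hi : i ∈ w.ZZ) {x : F} (hx : x ∈ w.W1) : x ∈ w.AA i := by
  obtain ⟨p, hp⟩ := exists_pr S.tree (S.conv i) (S.ne i) x
  refine ⟨p, hp, p, hp.1, w.gateW1 hi hx hp, ?_⟩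
  rw [S.tree.self]
  omega

theorem P0b {i j : ι} (hi : i ∈ w.ZZ) (hj : j ∈ w.ZZ) (hij : i ≠ j) {x : F} (hx : x ∈ S.Y j) :
    x ∈ w.AA i := by
  have h := S.tree
  obtain ⟨p, hp⟩ := exists_pr h (S.conv i) (S.ne i) x
  obtain ⟨hiN, s, hs, hs'⟩ := hi
  obtain ⟨hjN, t, ht, ht'⟩ := hj
  by_cases hne : ∃ z, z ∈ S.Y i ∧ z ∈ S.Y j
  · obtain ⟨z, hzi, hzj⟩ := hne
    obtain ⟨y, hy⟩ := exists_pr h w.convW1 ⟨v, w.vW1⟩ z
    have h1 : y ∈ S.Y i := pr_mem (S.conv i) hzi hy hs' hs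
    have h2 : y ∈ S.Y j := pr_mem (S.conv j) hzj hy ht' ht
    have h3 : p ∈ S.Y j := pr_mem (S.conv j) hx hp h1 h2
    exact ⟨p, hp, y, h1, hy.1, (S.piece i j hij p y hp.1 h3 h1 h2).1⟩
  · push Not at hne
    obtain ⟨q, hq⟩ := exists_pr h (S.conv i) (S.ne i) t
    have hq1 : q ∈ w.W1 := pr_mem w.convW1 ht' hq hs hs'
    have hpq : p = q := by
      by_contra hpq
      have h3 := pr_two h hp hq hpq
      have t1 := h.tri x q t
      have t2 := h.tri x p t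
      have t3 := h.tri p q t
      have t4 := h.tri x p q
      exact hne p hp.1 (S.conv j x t p hx ht (by unfold Btw; omega))
    subst hpq
    refine ⟨p, hp, p, hp.1, hq1, ?_⟩
    rw [h.self]
    omega

theorem P0 {i : ι} (hi : i ∈ w.ZZ) {x : F} (hx : x ∈ w.U) : x ∈ S.Y i ∨ x ∈ w.AA i := by
  rcases hx with hx | ⟨j, hj, hx⟩
  · exact Or.inr (w.P0a hi hx)
  · by_cases hij : i = j
    · subst hij
      exact Or.inl hx
    · exact Or.inr (w.P0b hi hj hij hx)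

/-- the gates of points of `AA i` are close to each other -/
theorem AA_close {i : ι} (hi : i ∈ w.ZZ) {x y p q : F} (hx : x ∈ w.AA i) (hy : y ∈ w.AA i)
    (hp : Pr S.d (S.Y i) x p) (hq : Pr S.d (S.Y i) y q) : 200 * S.d p q ≤ 5 * S.ℓ i := by
  have h := S.tree
  obtain ⟨p', hp', s, hs, hs1, hs2⟩ := hx
  obtain ⟨q', hq', t, ht, ht1, ht2⟩ := hy
  rw [pr_unique h hp' hp] at hs2
  rw [pr_unique h hq' hq] at ht2
  have h1 := w.D_le hi.1 hs ht hs1 ht1
  have t1 := h.tri p s q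
  have t2 := h.tri s t q
  have s1 := h.symm t q
  omega

theorem P1 {i j : ι} (hi : i ∈ w.ZZ) (hj : j ∈ w.ZZ) (hij : i ≠ j) {x g : F} (hx : x ∈ w.AA i)
    (hg : g ∈ S.Γ i) (hg1 : g ≠ 1) : g * x ∈ w.AA j := by
  have h := S.tree
  obtain ⟨p, hp⟩ := exists_pr h (S.conv i) (S.ne i) x
  have hgp := wm_prΓ hg hp
  obtain ⟨q, hq⟩ := exists_pr h (S.conv j) (S.ne j) (g * p)
  obtain ⟨q', hq'⟩ := exists_pr h (S.conv i) (S.ne i) q
  have h1 : q ∈ w.AA i := w.P0b hi hj hij hq.1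
  have h2 := w.AA_close hi hx h1 hp hq'
  have h3 := S.disp i g (S.le i hg) hg1 p hp.1
  have hbig := S.big i
  have hne : g * p ≠ q' := by
    intro he
    rw [← he] at h2
    omega
  have h4 := pr_pr h hgp hq hq' hne
  obtain ⟨q'', hq'', t, ht, ht1, ht2⟩ := w.P0b hj hi (Ne.symm hij) hgp.1
  rw [pr_unique h hq'' hq] at ht2
  exact ⟨q, h4, t, ht, ht1, ht2⟩

/-- reduced forms -/
inductive RF (w : WM S v) : ι → F → Prop
  | base (i : ι) (g m : F) (hi : i ∈ w.ZZ) (hg : g ∈ S.Γ i) (hg1 : g ≠ 1) (hm : m ∈ w.M) :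
      RF w i (g * m)
  | step (i j : ι) (g m : F) (hi : i ∈ w.ZZ) (hg : g ∈ S.Γ i) (hg1 : g ≠ 1) (hij : j ≠ i)
      (hm : RF w j m) : RF w i (g * m)

variable {w}

theorem RF.mem {i : ι} {m : F} (h : RF w i m) : i ∈ w.ZZ := by
  cases h with
  | base _ g m hi hg hg1 hm => exact hi
  | step _ j g m hi hg hg1 hij hm => exact hi

theorem RF.conj {i : ι} {m h : F} (hm : RF w i m) (hh : h ∈ w.M) : RF w (h • i) (h * m) := by
  induction hm with
  | base i g m hi hg hg1 hm =>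
    have : h * (g * m) = (h * g * h⁻¹) * (h * m) := by group
    rw [this]
    refine RF.base _ _ _ (w.MZZ hh hi) (S.smulΓ h i g hg) ?_ (w.M.mul_mem hh hm)
    intro h1
    apply hg1
    have h2 : h⁻¹ * (h * g * h⁻¹) * h = g := by group
    rw [h1] at h2
    rw [← h2]
    group
  | step i j g m hi hg hg1 hij hm ih =>
    have : h * (g * m) = (h * g * h⁻¹) * (h * m) := by group
    rw [this]
    refine RF.step _ (h • j) _ _ (w.MZZ hh hi) (S.smulΓ h i g hg) ?_ ?_ ih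
    · intro h1
      apply hg1
      have h2 : h⁻¹ * (h * g * h⁻¹) * h = g := by group
      rw [h1] at h2
      rw [← h2]
      group
    · intro he
      exact hij (MulAction.injective h he)

theorem nf_mul {h m : F} (hh : h ∈ w.G) (hm : m ∈ w.M ∨ ∃ j, RF w j m) :
    h * m ∈ w.M ∨ ∃ j, RF w j (h * m) := by
  rcases hh with hh | ⟨i, hi, hh⟩
  · rcases hm with hm | ⟨j, hm⟩
    · exact Or.inl (w.M.mul_mem hh hm)
    · exact Or.inr ⟨_, hm.conj hh⟩
  · by_cases h1 : h = 1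
    · subst h1
      rw [one_mul]
      exact hm
    · rcases hm with hm | ⟨j, hm⟩
      · exact Or.inr ⟨i, RF.base i h m hi hh h1 hm⟩
      · by_cases hij : j = i
        · subst hij
          cases hm with
          | base _ g m hi' hg hg1 hm =>
            rw [← mul_assoc]
            by_cases h2 : h * g = 1
            · rw [h2, one_mul]
              exact Or.inl hm
            · exact Or.inr ⟨j, RF.base j _ m hi (mul_mem hh hg) h2 hm⟩
          | step _ k g m hi' hg hg1 hij hm =>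
            rw [← mul_assoc]
            by_cases h2 : h * g = 1
            · rw [h2, one_mul]
              exact Or.inr ⟨k, hm⟩
            · exact Or.inr ⟨j, RF.step j k _ m hi (mul_mem hh hg) h2 hij hm⟩
        · exact Or.inr ⟨i, RF.step i j h m hi hh h1 hij hm⟩

theorem G_inv {h : F} (hh : h ∈ w.G) : h⁻¹ ∈ w.G := by
  rcases hh with hh | ⟨i, hi, hh⟩
  · exact Or.inl (w.M.inv_mem hh)
  · exact Or.inr ⟨i, hi, (S.Γ i).inv_mem hh⟩

theorem nf {m : F} (hm : m ∈ w.M') : m ∈ w.M ∨ ∃ j, RF w j m := by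
  unfold M' at hm
  induction hm using Subgroup.closure_induction_left with
  | one => exact Or.inl w.M.one_mem
  | mul_left x hx y hy ih => exact nf_mul hx ih
  | inv_mul_cancel x hx y hy ih => exact nf_mul (G_inv hx) ih

theorem T {j : ι} {m u : F} (hm : RF w j m) (hu : u ∈ w.U) :
    m * u ∈ S.Y j ∨ ∃ g ∈ S.Γ j, g ≠ 1 ∧ ∃ x ∈ w.AA j, m * u = g * x := by
  induction hm with
  | base i g m hi hg hg1 hm =>
    rcases w.P0 hi (w.MU hm hu) with h1 | h1
    · left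
      rw [mul_assoc]
      exact wm_YΓ hg h1
    · exact Or.inr ⟨g, hg, hg1, m * u, h1, mul_assoc _ _ _⟩
  | step i j g m hi hg hg1 hij hm ih =>
    right
    refine ⟨g, hg, hg1, m * u, ?_, mul_assoc _ _ _⟩
    rcases ih with h1 | ⟨g', hg', hg1', x, hx, he⟩
    · exact w.P0b hi hm.mem (Ne.symm hij) h1
    · rw [he]
      exact w.P1 hm.mem hi hij hx hg' hg1'

theorem T1 {j : ι} {m u : F} (hm : RF w j m) (hu : u ∈ w.W1) :
    ∃ g ∈ S.Γ j, g ≠ 1 ∧ ∃ x ∈ w.AA j, m * u = g * x := by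
  cases hm with
  | base _ g m hi hg hg1 hm =>
    exact ⟨g, hg, hg1, m * u, w.P0a hi (w.MW1 hm hu), mul_assoc _ _ _⟩
  | step _ k g m hi hg hg1 hij hm =>
    refine ⟨g, hg, hg1, m * u, ?_, mul_assoc _ _ _⟩
    rcases T hm (Or.inl hu) with h1 | ⟨g', hg', hg1', x, hx, he⟩
    · exact w.P0b hi hm.mem (Ne.symm hij) h1
    · rw [he]
      exact w.P1 hm.mem hi hij hx hg' hg1'

/-- the Greendlinger conclusion for new elements -/
theorem green {n : F} (hn : n ∈ w.M') (hn' : n ∉ w.M) : ∃ i, ∃ γ ∈ S.Γ i, γ ≠ 1 ∧ ∀ a b,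
    Pr S.d (S.Y i) v a → Pr S.d (S.Y i) (n * v) b → 200 * S.d (γ * a) b ≤ 4 * S.ℓ i := by
  have h := S.tree
  rcases nf hn with h1 | ⟨j, h1⟩
  · exact absurd h1 hn'
  obtain ⟨g, hg, hg1, x, ⟨p, hp, q, hq, hq1, hpq⟩, he⟩ := T1 h1 w.vW1
  refine ⟨j, g, hg, hg1, fun a b ha hb => ?_⟩
  rw [he] at hb
  rw [pr_unique h hb (wm_prΓ hg hp), S.inv]
  have ha1 := w.gateW1 h1.mem w.vW1 ha
  have h2 := w.D_le h1.mem.1 ha.1 hq ha1 hq1
  have h3 := h.tri a q p
  have s1 := h.symm q p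
  omega

theorem subM {m : F} (hm : m ∈ w.M) : m ∈ w.M' := Subgroup.subset_closure (Or.inl hm)

theorem subΓ {i : ι} (hi : i ∈ w.ZZ) {g : F} (hg : g ∈ S.Γ i) : g ∈ w.M' :=
  Subgroup.subset_closure (Or.inr ⟨i, hi, hg⟩)

theorem NN'_smul {m : F} (hm : m ∈ w.M') {i : ι} (hi : i ∈ w.NN') : m • i ∈ w.NN' := by
  obtain ⟨m', hm', j, hj, rfl⟩ := hi
  exact ⟨m * m', mul_mem hm hm', j, hj, (mul_smul _ _ _).symm⟩

theorem NN'_inv {m : F} (hm : m ∈ w.M') {i : ι} (hi : i ∉ w.NN') : m⁻¹ • i ∉ w.NN' := by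
  intro h1
  have := NN'_smul hm h1
  rw [smul_inv_smul] at this
  exact hi this

theorem not_NN {i : ι} (hi : i ∉ w.NN') : i ∉ w.NN := fun h1 =>
  hi ⟨1, one_mem _, i, Or.inl h1, (one_smul _ _).symm⟩

theorem not_ZZ {i : ι} (hi : i ∉ w.NN') : i ∉ w.ZZ := fun h1 =>
  hi ⟨1, one_mem _, i, Or.inr h1, (one_smul _ _).symm⟩

theorem B0 {i : ι} (hi : i ∉ w.NN') {a b : F} (ha : a ∈ w.U) (hb : b ∈ w.U)
    (hai : a ∈ S.Y i) (hbi : b ∈ S.Y i) : 200 * S.d a b ≤ 2 * S.ℓ i := by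
  have h := S.tree
  have hno : ∀ x, x ∈ S.Y i → x ∉ w.W1 := fun x hx hx1 => not_ZZ hi ⟨not_NN hi, x, hx, hx1⟩
  rcases ha with ha | ⟨j, hj, ha⟩
  · exact absurd ha (hno a hai)
  rcases hb with hb | ⟨k, hk, hb⟩
  · exact absurd hb (hno b hbi)
  have hij : i ≠ j := fun he => not_ZZ hi (he ▸ hj)
  have hik : i ≠ k := fun he => not_ZZ hi (he ▸ hk)
  obtain ⟨q, hq⟩ := exists_pr h w.convW1 ⟨v, w.vW1⟩ a
  obtain ⟨q', hq'⟩ := exists_pr h w.convW1 ⟨v, w.vW1⟩ b
  have hqq : q = q' := by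
    by_contra hne
    have h3 := pr_two h hq hq' hne
    have t1 := h.tri a q' b
    have t2 := h.tri a q b
    have t3 := h.tri q q' b
    have t4 := h.tri a q q'
    exact hno q (S.conv i a b q hai hbi (by unfold Btw; omega)) hq.1
  subst hqq
  obtain ⟨-, s, hs, hs1⟩ := hj
  obtain ⟨-, t, ht, ht1⟩ := hk
  have hqj : q ∈ S.Y j := pr_mem (S.conv j) ha hq hs1 hs
  have hqk : q ∈ S.Y k := pr_mem (S.conv k) hb hq' ht1 ht
  obtain ⟨c, h1, h2, h3⟩ := med h a b q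
  have hci : c ∈ S.Y i := S.conv i a b c hai hbi h1
  have hcj : c ∈ S.Y j := S.conv j a q c ha hqj h3
  have hck : c ∈ S.Y k := S.conv k b q c hb hqk h2
  have e1 := (S.piece i j hij a c hai ha hci hcj).1
  have e2 := (S.piece i k hik c b hci hck hbi hb).1
  unfold Btw at h1
  omega

theorem B1 {k : ι} {m u : F} (hm : RF w k m) (hu : u ∈ w.U) : ∀ (i : ι), i ∉ w.NN' →
    ∀ a ∈ w.U, a ∈ S.Y i → m * u ∈ S.Y i → 200 * S.d a (m * u) ≤ 2 * S.ℓ i := by
  have h := S.tree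
  have key : ∀ (k : ι) (m : F), RF w k m → ∀ i, i ∉ w.NN' → ∀ a ∈ w.U, a ∈ S.Y i →
      m * u ∈ S.Y i → a ∉ S.Y k → 200 * S.d a (m * u) ≤ 2 * S.ℓ i := by
    intro k m hm i hi a ha hai hmi hak
    have hk := hm.mem
    have hik : i ≠ k := fun he => not_ZZ hi (he ▸ hk)
    have ha1 : a ∈ w.AA k := (w.P0 hk ha).resolve_left hak
    rcases T hm hu with h1 | ⟨g, hg, hg1, x, hx, he⟩
    · exact B0 hi ha (Or.inr ⟨k, hk, h1⟩) hai hmi
    · exfalso
      obtain ⟨p, hp⟩ := exists_pr h (S.conv k) (S.ne k) a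
      obtain ⟨q, hq⟩ := exists_pr h (S.conv k) (S.ne k) x
      have hgq := wm_prΓ hg hq
      rw [← he] at hgq
      have h2 := w.AA_close hk ha1 hx hp hq
      have h3 := S.disp k g (S.le k hg) hg1 q hq.1
      have hbig := S.big k
      have t0 := h.tri q p (g * q)
      have s0 := h.symm p q
      have hne : p ≠ g * q := by
        intro hpe
        rw [← hpe] at h3
        omega
      have h4 := pr_two h hp hgq hne
      have t1 := h.tri a (g * q) (m * u)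
      have t2 := h.tri a p (m * u)
      have t3 := h.tri p (g * q) (m * u)
      have t4 := h.tri a p (g * q)
      have hpi : p ∈ S.Y i := S.conv i a (m * u) p hai hmi (by unfold Btw; omega)
      have hqi : g * q ∈ S.Y i := S.conv i a (m * u) (g * q) hai hmi (by unfold Btw; omega)
      have h5 := (S.piece i k hik p (g * q) hpi hp.1 hqi hgq.1).2
      omega
  induction hm with
  | base k g m hk hg hg1 hm =>
    intro i hi a ha hai hmi
    by_cases hak : a ∈ S.Y k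
    · have e1 : g⁻¹ * a ∈ w.U := Or.inr ⟨k, hk, wm_YΓ ((S.Γ k).inv_mem hg) hak⟩
      have e2 := B0 (NN'_inv (subΓ hk hg) hi) e1 (w.MU hm hu) (wm_Yinv hai)
        (by have := wm_Yinv (g := g) hmi; rwa [mul_assoc, inv_mul_cancel_left] at this)
      rw [S.smulℓ] at e2
      rw [mul_assoc, ← S.inv g⁻¹, inv_mul_cancel_left]
      exact e2
    · exact key k _ (RF.base k g m hk hg hg1 hm) i hi a ha hai hmi hak
  | step k j g m hk hg hg1 hij hm ih =>
    intro i hi a ha hai hmi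
    by_cases hak : a ∈ S.Y k
    · have e1 : g⁻¹ * a ∈ w.U := Or.inr ⟨k, hk, wm_YΓ ((S.Γ k).inv_mem hg) hak⟩
      have e2 := ih (g⁻¹ • i) (NN'_inv (subΓ hk hg) hi) _ e1 (wm_Yinv hai)
        (by have := wm_Yinv (g := g) hmi; rwa [mul_assoc, inv_mul_cancel_left] at this)
      rw [S.smulℓ] at e2
      rw [mul_assoc, ← S.inv g⁻¹, inv_mul_cancel_left]
      exact e2
    · exact key k _ (RF.step k j g m hk hg hg1 hij hm) i hi a ha hai hmi hak

theorem B2 {m u : F} (hm : m ∈ w.M') (hu : u ∈ w.U) {i : ι} (hi : i ∉ w.NN') {a : F}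
    (ha : a ∈ w.U) (hai : a ∈ S.Y i) (hmi : m * u ∈ S.Y i) :
    200 * S.d a (m * u) ≤ 2 * S.ℓ i := by
  rcases nf hm with h1 | ⟨j, h1⟩
  · exact B0 hi ha (w.MU h1 hu) hai hmi
  · exact B1 h1 hu i hi a ha hai hmi

theorem B' {i : ι} (hi : i ∉ w.NN') {a b : F} (hai : a ∈ S.Y i) (hbi : b ∈ S.Y i)
    (ha : a ∈ w.W') (hb : b ∈ w.W') : 200 * S.d a b ≤ 2 * S.ℓ i := by
  obtain ⟨m, hm, u, hu, rfl⟩ := ha
  obtain ⟨n, hn, z, hz, rfl⟩ := hb
  have e0 : m⁻¹ * (n * z) = (m⁻¹ * n) * z := by group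
  have e1 := B2 (mul_mem (inv_mem hm) hn) hz (NN'_inv hm hi) hu
    (by have := wm_Yinv (g := m) hai; rwa [inv_mul_cancel_left] at this)
    (by rw [← e0]; exact wm_Yinv hbi)
  rw [S.smulℓ, ← e0] at e1
  rw [← S.inv m⁻¹, inv_mul_cancel_left]
  exact e1

theorem W'_mul {m x : F} (hm : m ∈ w.M') (hx : x ∈ w.W') : m * x ∈ w.W' := by
  obtain ⟨n, hn, u, hu, rfl⟩ := hx
  exact ⟨m * n, mul_mem hm hn, u, hu, (mul_assoc _ _ _).symm⟩

theorem U_sub {x : F} (hx : x ∈ w.U) : x ∈ w.W' := ⟨1, one_mem _, x, hx, (one_mul _).symm⟩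

/-- segments from `v` to translates by generators -/
theorem seg_G {h c : F} (hh : h ∈ w.G) (hc : Btw S.d v c (h * v)) : c ∈ w.W' := by
  have hT := S.tree
  rcases hh with hh | ⟨i, hi, hh⟩
  · exact U_sub (Or.inl (w.WW1 (w.conv v (h * v) c w.vW (w.MW h hh v w.vW) hc)))
  · have hi' := hi
    obtain ⟨-, s, hs, hs1⟩ := hi'
    rcases btw_split hT hc s with h1 | h1
    · exact U_sub (Or.inl (w.convW1 v s c w.vW1 hs1 h1))
    · rcases btw_split hT h1 (h * s) with h2 | h2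
      · exact U_sub (Or.inr ⟨i, hi, S.conv i s (h * s) c hs (wm_YΓ hh hs) h2⟩)
      · have h3 := wm_btw' h h2
        rw [inv_mul_cancel_left] at h3
        have h4 : h⁻¹ * c ∈ w.W' := U_sub (Or.inl (w.convW1 s v _ hs1 w.vW1 h3))
        have h5 := W'_mul (subΓ hi hh) h4
        rwa [mul_inv_cancel_left] at h5

theorem star_step {h m : F} (hh : h ∈ w.G) (ih : ∀ u ∈ w.U, ∀ c, Btw S.d v c (m * u) → c ∈ w.W') :
    ∀ u ∈ w.U, ∀ c, Btw S.d v c (h * m * u) → c ∈ w.W' := by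
  intro u hu c hc
  have hT := S.tree
  rcases btw_split hT hc (h * v) with h1 | h1
  · exact seg_G hh h1
  · have h2 := wm_btw' h h1
    have h3 : h⁻¹ * (h * m * u) = m * u := by group
    rw [h3] at h2
    have h4 := W'_mul (Subgroup.subset_closure hh : h ∈ w.M') (ih u hu _ h2)
    rwa [mul_inv_cancel_left] at h4

theorem star {m : F} (hm : m ∈ w.M') : ∀ u ∈ w.U, ∀ c, Btw S.d v c (m * u) → c ∈ w.W' := by
  have hT := S.tree
  unfold M' at hm
  induction hm using Subgroup.closure_induction_left with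
  | one =>
    intro u hu c hc
    rw [one_mul] at hc
    rcases hu with hu | ⟨i, hi, hu⟩
    · exact U_sub (Or.inl (w.convW1 v u c w.vW1 hu hc))
    · have hi' := hi
      obtain ⟨-, s, hs, hs1⟩ := hi'
      rcases btw_split hT hc s with h1 | h1
      · exact U_sub (Or.inl (w.convW1 v s c w.vW1 hs1 h1))
      · exact U_sub (Or.inr ⟨i, hi, S.conv i s u c hs hu h1⟩)
  | mul_left x hx y hy ih => exact star_step hx ih
  | inv_mul_cancel x hx y hy ih => exact star_step (G_inv hx) ih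

theorem convW' : Conv S.d w.W' := by
  intro a b c ha hb hc
  obtain ⟨m, hm, u, hu, rfl⟩ := ha
  obtain ⟨n, hn, z, hz, rfl⟩ := hb
  rcases btw_split S.tree hc v with h1 | h1
  · exact star hm u hu c (Btw.symm S.tree h1)
  · exact star hn z hz c h1

variable (w)

/-- the next windmill -/
def next : WM S v where
  W := w.W'
  M := w.M'
  NN := w.NN'
  vW := U_sub (Or.inl w.vW1)
  conv := convW'
  MW := fun _ hm _ hx => W'_mul hm hx
  MN := fun _ hm _ hi => NN'_smul hm hi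
  AY := by
    rintro i ⟨m, hm, j, hj, rfl⟩ x hx
    have h1 : m⁻¹ * x ∈ S.Y j := by
      have := wm_Yinv (g := m) hx
      rwa [inv_smul_smul] at this
    have h2 : m⁻¹ * x ∈ w.W' := by
      rcases hj with hj | hj
      · exact U_sub (Or.inl (w.WW1 (w.AY j hj h1)))
      · exact U_sub (Or.inr ⟨j, hj, h1⟩)
    have := W'_mul hm h2
    rwa [mul_inv_cancel_left] at this
  AG := by
    rintro i ⟨m, hm, j, hj, rfl⟩ g hg
    have h1 := S.smulΓ m⁻¹ _ _ hg
    rw [inv_smul_smul] at h1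
    have h2 : m⁻¹ * g * m⁻¹⁻¹ ∈ w.M' := by
      rcases hj with hj | hj
      · exact subM (w.AG j hj h1)
      · exact subΓ hj h1
    have h3 : g = m * (m⁻¹ * g * m⁻¹⁻¹) * m⁻¹ := by group
    rw [h3]
    exact mul_mem (mul_mem hm h2) (inv_mem hm)
  le := by
    unfold M'
    rw [Subgroup.closure_le]
    rintro h (hh | ⟨i, hi, hh⟩)
    · exact w.le hh
    · exact Subgroup.subset_closure (Set.mem_iUnion.mpr ⟨i, hh⟩)
  B := fun _ hi _ _ hai hbi ha hb => B' hi hai hbi ha hb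

theorem nb_next {x y : F} (hx : x ∈ w.W) (hy : S.d y x ≤ 1) : y ∈ w.next.W :=
  U_sub (Or.inl ⟨x, hx, hy⟩)

theorem NN_next {i : ι} {x : F} (hx : x ∈ S.Y i) (hxW : x ∈ w.W) : i ∈ w.next.NN := by
  by_cases hi : i ∈ w.NN
  · exact ⟨1, one_mem _, i, Or.inl hi, (one_smul _ _).symm⟩
  · exact ⟨1, one_mem _, i, Or.inr ⟨hi, x, hx, w.WW1 hxW⟩, (one_smul _ _).symm⟩

end WM

/-- the first windmill -/
def wm_start (S : Sys F ι) (v : F) : WM S v where
  W := {v}
  M := ⊥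
  NN := ∅
  vW := rfl
  conv := by
    rintro a b c ha hb hc
    rw [Set.mem_singleton_iff] at ha hb ⊢
    subst ha
    rw [hb] at hc
    unfold Btw at hc
    rw [S.tree.self] at hc
    exact (S.tree.eq _ _ (by omega)).symm
  MW := by
    intro m hm x hx
    rw [Subgroup.mem_bot] at hm
    rw [hm, one_mul]
    exact hx
  MN := fun _ _ _ hi => absurd hi (Set.notMem_empty _)
  AY := fun _ hi => absurd hi (Set.notMem_empty _)
  AG := fun _ hi => absurd hi (Set.notMem_empty _)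
  le := bot_le
  B := by
    intro i _ a b _ _ ha hb
    rw [Set.mem_singleton_iff] at ha hb
    rw [ha, hb, S.tree.self]
    omega

/-- the sequence of windmills -/
def wm_seq (S : Sys F ι) (v : F) : ℕ → WM S v
  | 0 => wm_start S v
  | n + 1 => (wm_seq S v n).next

theorem wm_ball (S : Sys F ι) (v : F) (n : ℕ) : ∀ x, S.d v x ≤ n → x ∈ (wm_seq S v n).W := by
  induction n with
  | zero =>
    intro x hx
    have : v = x := S.tree.eq _ _ (by omega)
    rw [← this]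
    exact (wm_seq S v 0).vW
  | succ n ih =>
    intro x hx
    by_cases h0 : S.d v x ≤ n
    · exact WM.nb_next _ (ih x h0) (by rw [S.tree.self]; omega)
    · obtain ⟨z, h1, h2⟩ := S.tree.geo v x n (by omega)
      refine WM.nb_next _ (ih z (by omega)) ?_
      rw [S.tree.symm]
      omega

theorem wm_mono (S : Sys F ι) (v : F) {m n : ℕ} (h : m ≤ n) :
    (wm_seq S v m).M ≤ (wm_seq S v n).M := by
  induction n with
  | zero =>
    have : m = 0 := by omega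
    rw [this]
  | succ n ih =>
    by_cases h1 : m ≤ n
    · exact (ih h1).trans fun x hx => WM.subM hx
    · have : m = n + 1 := by omega
      rw [this]

theorem wm_exhaust (S : Sys F ι) (v : F) {n : F} (hn : n ∈ S.N) : ∃ k, n ∈ (wm_seq S v k).M := by
  unfold Sys.N at hn
  induction hn using Subgroup.closure_induction with
  | mem x hx =>
    obtain ⟨i, hi⟩ := Set.mem_iUnion.mp hx
    obtain ⟨y, hy⟩ := S.ne i
    exact ⟨S.d v y + 1, WM.AG _ i (WM.NN_next _ hy (wm_ball S v _ y le_rfl)) hi⟩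
  | one => exact ⟨0, one_mem _⟩
  | mul x y hx hy ihx ihy =>
    obtain ⟨k, hk⟩ := ihx
    obtain ⟨l, hl⟩ := ihy
    exact ⟨max k l, mul_mem (wm_mono S v (le_max_left k l) hk) (wm_mono S v (le_max_right k l) hl)⟩
  | inv x hx ih =>
    obtain ⟨k, hk⟩ := ih
    exact ⟨k, inv_mem hk⟩

theorem gl {F ι : Type} [Group F] [MulAction F ι] (S : Sys F ι) : S.GL := by
  classical
  intro n hn hn1 v
  have hex := wm_exhaust S v hn
  have h1 := Nat.find_spec hex
  cases hk : Nat.find hex with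
  | zero =>
    rw [hk] at h1
    exact absurd (Subgroup.mem_bot.mp h1) hn1
  | succ k =>
    rw [hk] at h1
    have h2 : n ∉ (wm_seq S v k).M := Nat.find_min hex (by omega)
    exact WM.green h1 h2

end Pool.Agent.H76.SC
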