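import Mathlib
import Pool.Agent.H76.SC.Walls
import Pool.Agent.H76.SC.Cons
import Pool.Agent.H76.SC.Windmill

set_option autoImplicit false

/-! # Reduced chains of wall moves -/

namespace Pool.Agent.H76.SC

open FreeGroup

variable {k : ℕ} {V : Type} [DecidableEq V] (A : Aut k V)

/-- reduced chains of edges labelled `a` -/
inductive Aut.RCE (a : Fin k) : A.Idx → FreeGroup (Fin k) → FreeGroup (Fin k) → Prop
  | one (c : A.Idx) (x f n : FreeGroup (Fin k)) (hx : x ∈ A.YY c) (hx' : x * of a ∈ A.YY c)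
      (hf : f ∈ A.DD c) (hf' : f ∉ A.EE c) (hn : n ∈ A.sysH.N) : Aut.RCE a c x (n * (f * x))
  | cons (c j : A.Idx) (x y f : FreeGroup (Fin k)) (hx : x ∈ A.YY c) (hx' : x * of a ∈ A.YY c)
      (hf : f ∈ A.DD c) (hf' : f ∉ A.EE c) (hij : c ≠ j) (h : Aut.RCE a j (f * x) y) :
      Aut.RCE a c x y

theorem RCE.mem {a : Fin k} {c : A.Idx} {x y : FreeGroup (Fin k)} (h : A.RCE a c x y) :
    x ∈ A.YY c ∧ x * of a ∈ A.YY c := by
  cases h with
  | one _ _ _ _ hx hx' => exact ⟨hx, hx'⟩
  | cons _ _ _ _ _ hx hx' => exact ⟨hx, hx'⟩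

theorem RCE.rc {a : Fin k} {c : A.Idx} {x y : FreeGroup (Fin k)} (h : A.RCE a c x y) :
    A.sysH.RC c x y := by
  induction h with
  | one c x f n hx hx' hf hf' hn => exact Sys.RC.one c x f n hx hf hf' hn
  | cons c j x y f hx hx' hf hf' hij _ ih => exact Sys.RC.cons c j x y f hx hf hf' hij ih

theorem RCE.mul_left {a : Fin k} {c : A.Idx} {x y n : FreeGroup (Fin k)} (hn : n ∈ A.sysH.N)
    (h : A.RCE a c x y) : A.RCE a c x (n * y) := by
  induction h with
  | one c x f m hx hx' hf hf' hm =>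
    rw [← mul_assoc]
    exact Aut.RCE.one c x f (n * m) hx hx' hf hf' (mul_mem hn hm)
  | cons c j x y f hx hx' hf hf' hij _ ih => exact Aut.RCE.cons c j x _ f hx hx' hf hf' hij ih

theorem RCE.smul (g : FreeGroup (Fin k)) {a : Fin k} {c : A.Idx} {x y : FreeGroup (Fin k)}
    (h : A.RCE a c x y) : A.RCE a (g • c) (g * x) (g * y) := by
  have key : ∀ (c : A.Idx) (f : FreeGroup (Fin k)), f ∉ A.EE c → g * f * g⁻¹ ∉ A.EE (g • c) := by
    intro c f hf hf'
    apply hf
    have := smul_EE A g⁻¹ (g • c) _ hf'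
    rw [inv_smul_smul] at this
    rwa [show g⁻¹ * (g * f * g⁻¹) * g⁻¹⁻¹ = f by group] at this
  induction h with
  | one c x f n hx hx' hf hf' hn =>
    have h1 := Aut.RCE.one (A := A) (a := a) (g • c) (g * x) (g * f * g⁻¹) (g * n * g⁻¹)
      (smul_YY A g c x hx) (by have := smul_YY A g c _ hx'; rwa [← mul_assoc] at this)
      (smul_DD A g c f hf) (key c f hf') ((sysN_normal' A.sysH).conj_mem n hn g)
    rwa [show g * n * g⁻¹ * (g * f * g⁻¹ * (g * x)) = g * (n * (f * x)) by group] at h1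
  | cons c j x y f hx hx' hf hf' hij _ ih =>
    apply Aut.RCE.cons (A := A) (a := a) (g • c) (g • j) (g * x) (g * y) (g * f * g⁻¹)
      (smul_YY A g c x hx) (by have := smul_YY A g c _ hx'; rwa [← mul_assoc] at this)
      (smul_DD A g c f hf) (key c f hf')
    · intro h
      exact hij (smul_left_cancel g h)
    · rwa [show g * f * g⁻¹ * (g * x) = g * (f * x) by group]

/-- moving the start of a chain by an element of `N` -/
theorem RCE.nstart {a : Fin k} {c : A.Idx} {n x y : FreeGroup (Fin k)} (hn : n ∈ A.sysH.N)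
    (h : A.RCE a c (n * x) y) : ∃ c', A.RCE a c' x y := by
  have h1 := RCE.smul A n⁻¹ h
  rw [inv_mul_cancel_left] at h1
  have h2 := RCE.mul_left A hn h1
  rw [mul_inv_cancel_left] at h2
  exact ⟨_, h2⟩

/-- wall equivalent edges are `N`-translates or joined by a reduced chain -/
theorem chain_exists {a : Fin k} {x y : FreeGroup (Fin k)}
    (h : Relation.ReflTransGen (A.WR a) x y) :
    (∃ n ∈ A.sysH.N, y = n * x) ∨ ∃ c, A.RCE a c x y := by
  induction h using Relation.ReflTransGen.head_induction_on with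
  | refl => exact Or.inl ⟨1, one_mem _, (one_mul _).symm⟩
  | head h1 _ ih =>
    have EN : ∀ (c : A.Idx) (f : FreeGroup (Fin k)), f ∈ A.EE c → f ∈ A.sysH.N := fun c f hf =>
      Subgroup.subset_closure (Set.mem_iUnion.mpr ⟨c, hf⟩)
    have nmcase : ∀ n ∈ A.sysH.N, ∀ z, ((∃ m ∈ A.sysH.N, y = m * (n * z)) ∨
        ∃ c, A.RCE a c (n * z) y) → ((∃ m ∈ A.sysH.N, y = m * z) ∨ ∃ c, A.RCE a c z y) := by
      rintro n hn z (⟨m, hm, h2⟩ | ⟨c, h2⟩)
      · exact Or.inl ⟨m * n, mul_mem hm hn, by rw [h2, mul_assoc]⟩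
      · exact Or.inr (RCE.nstart A hn h2)
    cases h1 with
    | nm n x hn => exact nmcase n hn _ ih
    | dl c f x hf hx hx' =>
      by_cases hf' : f ∈ A.EE c
      · exact nmcase f (EN c f hf') _ ih
      rcases ih with ⟨m, hm, h2⟩ | ⟨j, h2⟩
      · rw [h2]
        exact Or.inr ⟨c, Aut.RCE.one c _ f m hx hx' hf hf' hm⟩
      · by_cases hcj : c = j
        · subst hcj
          cases h2 with
          | one _ _ f' m hy hy' hf2 hf2' hm =>
            have hprod : f' * f ∈ A.DD c := mul_mem hf2 hf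
            have e : ∀ z, m * (f' * (f * z)) = m * ((f' * f) * z) := fun z => by
              rw [mul_assoc f' f]
            by_cases hE : f' * f ∈ A.EE c
            · left
              refine ⟨m * (f' * f), mul_mem hm (EN c _ hE), ?_⟩
              rw [e, mul_assoc m]
            · right
              rw [e]
              exact ⟨c, Aut.RCE.one c _ (f' * f) m hx hx' hprod hE hm⟩
          | cons _ j _ _ f' hy hy' hf2 hf2' hij h3 =>
            have hprod : f' * f ∈ A.DD c := mul_mem hf2 hf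
            rw [← mul_assoc] at h3
            by_cases hE : f' * f ∈ A.EE c
            · exact Or.inr (RCE.nstart A (EN c _ hE) h3)
            · exact Or.inr ⟨c, Aut.RCE.cons c j _ _ (f' * f) hx hx' hprod hE hij h3⟩
        · exact Or.inr ⟨c, Aut.RCE.cons c j _ _ f hx hx' hf hf' hcj h2⟩

end Pool.Agent.H76.SC
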