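import Mathlib

set_option autoImplicit false

/-! # Non-backtracking walks in graphs of large girth -/

namespace Pool.Agent.H76.SC

/-- no cycle of length between 3 and `g - 1` -/
def Girth {n : ℕ} (Gr : SimpleGraph (Fin n)) (g : ℕ) : Prop :=
  ∀ (m : ℕ) (v : ℕ → Fin n), 3 ≤ m → m < g → (∀ i < m, ∀ j < m, v i = v j → i = j) →
    (∀ i, i + 1 < m → Gr.Adj (v i) (v (i + 1))) → ¬ Gr.Adj (v (m - 1)) (v 0)

/-- non-backtracking walks as lists of vertices -/
def NB {n : ℕ} (Gr : SimpleGraph (Fin n)) (p : List (Fin n)) : Prop :=
  p.IsChain Gr.Adj ∧ ∀ (i : ℕ) (h : i + 2 < p.length), p[i] ≠ p[i + 2]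

/-- number of non-backtracking walks with given number of vertices from a vertex -/
theorem nb_nodup {n : ℕ} (Gr : SimpleGraph (Fin n)) (g : ℕ) (hg : Girth Gr g) (p : List (Fin n))
    (hp : NB Gr p) (hl : p.length ≤ g) : p.Nodup := by
  classical
  by_contra hnd
  have hne : 0 < p.length := by
    rcases Nat.eq_zero_or_pos p.length with h | h
    · exact absurd (by rw [List.length_eq_zero_iff] at h; subst h; exact List.nodup_nil) hnd
    · exact h
  set w : ℕ → Fin n := fun t => p.getD t (p[0]) with hw
  have hwget : ∀ (t : ℕ) (h : t < p.length), w t = p[t] := by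
    intro t h
    simp [hw, h]
  have hadj : ∀ t, t + 1 < p.length → Gr.Adj (w t) (w (t + 1)) := by
    intro t h
    rw [hwget t (by omega), hwget (t + 1) h]
    exact (List.isChain_iff_getElem.mp hp.1) t h
  have hex : ∃ m, ∃ i, 0 < m ∧ i + m < p.length ∧ w i = w (i + m) := by
    by_contra hcon
    push Not at hcon
    apply hnd
    rw [List.nodup_iff_injective_get]
    intro a b hab
    by_contra hab'
    rcases lt_or_gt_of_ne (fun h => hab' (Fin.ext h) : (a : ℕ) ≠ b) with h | h
    · refine hcon (b - a) a (by omega) (by have := b.2; omega) ?_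
      rw [show (a : ℕ) + (b - a) = b by omega, hwget _ a.2, hwget _ b.2]
      exact hab
    · refine hcon (a - b) b (by omega) (by have := a.2; omega) ?_
      rw [show (b : ℕ) + (a - b) = a by omega, hwget _ a.2, hwget _ b.2]
      exact hab.symm
  obtain ⟨i, hm0, him, hwi⟩ := Nat.find_spec hex
  set m := Nat.find hex with hm
  have hmin : ∀ m' < m, ¬ ∃ i, 0 < m' ∧ i + m' < p.length ∧ w i = w (i + m') :=
    fun m' h => Nat.find_min hex h
  have hm3 : 3 ≤ m := by
    by_contra hlt
    have : m = 1 ∨ m = 2 := by omega
    rcases this with h | h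
    · rw [h] at hwi him
      have := hadj i him
      rw [← hwi] at this
      exact this.ne rfl
    · rw [h] at hwi him
      have := hp.2 i him
      rw [hwget i (by omega), hwget (i + 2) him] at hwi
      exact this hwi
  refine hg m (fun t => w (i + t)) hm3 (by omega) ?_ ?_ ?_
  · intro a ha b hb hab
    by_contra hne'
    rcases lt_or_gt_of_ne hne' with h | h
    · refine hmin (b - a) (by omega) ⟨i + a, by omega, by omega, ?_⟩
      rw [show i + a + (b - a) = i + b by omega]
      exact hab
    · refine hmin (a - b) (by omega) ⟨i + b, by omega, by omega, ?_⟩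
      rw [show i + b + (a - b) = i + a by omega]
      exact hab.symm
  · intro t ht
    exact hadj (i + t) (by omega)
  · have := hadj (i + (m - 1)) (by omega)
    rw [show i + (m - 1) + 1 = i + m by omega, ← hwi] at this
    simpa using this

/-- counting walks through a vertex at a given position -/
theorem nb_card {n : ℕ} (Gr : SimpleGraph (Fin n)) (D : ℕ)
    (hD : ∀ v, Nat.card {u // Gr.Adj v u} ≤ D) (m : ℕ) (i : ℕ) (hi : i < m + 1) (v : Fin n) :
    Nat.card {p : List (Fin n) // NB Gr p ∧ p.length = m + 1 ∧ p[i]? = some v} ≤ D ^ m := by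
  classical
  have he : ∀ x : Fin n, ∃ e : {u // Gr.Adj x u} → Fin D, Function.Injective e := by
    intro x
    have h := hD x
    rw [Nat.card_eq_fintype_card] at h
    have : Nonempty ({u // Gr.Adj x u} ↪ Fin D) := by
      apply Function.Embedding.nonempty_of_card_le
      simpa using h
    exact ⟨this.some, this.some.injective⟩
  choose e he using he
  have hadj : ∀ (p : List (Fin n)), NB Gr p → p.length = m + 1 → ∀ k (hk : k < p.length)
      (hk' : k + 1 < p.length), Gr.Adj p[k] p[k + 1] := by
    intro p hp hl k hk hk'
    exact (List.isChain_iff_getElem.mp hp.1) k hk'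
  let code : {p : List (Fin n) // NB Gr p ∧ p.length = m + 1 ∧ p[i]? = some v} → (Fin m → Fin D) :=
    fun p k => if (k : ℕ) < i then
      e (p.1[(k : ℕ) + 1]'(by have := k.2; have := p.2.2.1; omega))
        ⟨p.1[(k : ℕ)]'(by have := k.2; have := p.2.2.1; omega),
          (hadj p.1 p.2.1 p.2.2.1 k _ _).symm⟩
      else
      e (p.1[(k : ℕ)]'(by have := k.2; have := p.2.2.1; omega))
        ⟨p.1[(k : ℕ) + 1]'(by have := k.2; have := p.2.2.1; omega),
          (hadj p.1 p.2.1 p.2.2.1 k _ _)⟩
  have hcode : Function.Injective code := by
    intro p q hpq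
    have hlp := p.2.2.1
    have hlq := q.2.2.1
    have key : ∀ (x y : Fin n) (u : {u // Gr.Adj x u}) (u' : {u // Gr.Adj y u}), x = y →
        e x u = e y u' → (u : Fin n) = u' := by
      intro x y u u' hxy huu
      subst hxy
      exact congrArg _ (he x huu)
    have h0 : p.1[i]? = q.1[i]? := by rw [p.2.2.2, q.2.2.2]
    have hfw : ∀ k, i ≤ k → k < m + 1 → p.1[k]? = q.1[k]? := by
      intro k hk
      induction k, hk using Nat.le_induction with
      | base => intro _; exact h0
      | succ k hk ih =>
        intro hk1
        have hih := ih (by omega)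
        have hc := congrFun hpq ⟨k, by omega⟩
        simp only [code, show ¬ (k < i) by omega, if_false] at hc
        rw [List.getElem?_eq_getElem (by omega), List.getElem?_eq_getElem (by omega)] at hih
        rw [List.getElem?_eq_getElem (by omega), List.getElem?_eq_getElem (by omega)]
        have := key _ _ _ _ (Option.some.inj hih) hc
        simpa using this
    have hbw : ∀ d, d ≤ i → p.1[i - d]? = q.1[i - d]? := by
      intro d
      induction d with
      | zero => intro _; simpa using h0
      | succ d ih =>
        intro hd
        have hih := ih (by omega)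
        have hc := congrFun hpq ⟨i - (d + 1), by omega⟩
        simp only [code, show i - (d + 1) < i by omega, if_true] at hc
        have h1 : i - (d + 1) + 1 = i - d := by omega
        rw [List.getElem?_eq_getElem (by omega), List.getElem?_eq_getElem (by omega)] at hih
        rw [List.getElem?_eq_getElem (by omega), List.getElem?_eq_getElem (by omega)]
        have h2 : p.1[i - (d + 1) + 1]'(by omega) = q.1[i - (d + 1) + 1]'(by omega) := by
          simp only [h1]
          exact Option.some.inj hih
        have := key _ _ _ _ h2 hc
        simpa using this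
    apply Subtype.ext
    apply List.ext_getElem?
    intro k
    by_cases hk : k < m + 1
    · by_cases hki : i ≤ k
      · exact hfw k hki hk
      · have := hbw (i - k) (by omega)
        rwa [show i - (i - k) = k by omega] at this
    · rw [List.getElem?_eq_none (by omega), List.getElem?_eq_none (by omega)]
  calc Nat.card {p : List (Fin n) // NB Gr p ∧ p.length = m + 1 ∧ p[i]? = some v}
      ≤ Nat.card (Fin m → Fin D) := Nat.card_le_card_of_injective code hcode
    _ = D ^ m := by simp

end Pool.Agent.H76.SC
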