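import Mathlib

set_option autoImplicit false

/-! # Rosenfeld's counting lemma for colourings -/

namespace Pool.Agent.H76.SC

open Finset

theorem ros_card {V : Type} [Fintype V] [DecidableEq V] (K : ℕ) (S : Finset V) (c' : V → Fin K) :
    (univ.filter (fun c : V → Fin K => ∀ u, u ∉ S → c' u = c u)).card = K ^ S.card := by
  classical
  have h : univ.filter (fun c : V → Fin K => ∀ u, u ∉ S → c' u = c u) =
      Fintype.piFinset (fun u => if u ∈ S then (univ : Finset (Fin K)) else {c' u}) := by
    ext c
    simp only [mem_filter, mem_univ, true_and, Fintype.mem_piFinset]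
    constructor
    · intro h u
      by_cases hu : u ∈ S
      · simp [hu]
      · simp [hu, (h u hu).symm]
    · intro h u hu
      have := h u
      simp only [hu, if_false, mem_singleton] at this
      exact this.symm
  rw [h, Fintype.card_piFinset]
  have h2 : ∀ u, (if u ∈ S then (univ : Finset (Fin K)) else {c' u}).card =
      if u ∈ S then K else 1 := by
    intro u
    by_cases hu : u ∈ S <;> simp [hu]
  simp only [h2]
  rw [Finset.prod_ite_mem, Finset.univ_inter, Finset.prod_const]

theorem ros_group {V : Type} [Fintype V] [DecidableEq V] (K : ℕ) (S : Finset V)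
    (G B : (V → Fin K) → Prop) [DecidablePred G] [DecidablePred B]
    (hG : ∀ c c' : V → Fin K, (∀ u, u ∉ S → c' u = c u) → G c' → G c) (w : ℕ)
    (hw : ∀ c : V → Fin K,
      (univ.filter (fun c' : V → Fin K => (∀ u, u ∉ S → c' u = c u) ∧ B c')).card ≤ w) :
    K ^ S.card * (univ.filter (fun c : V → Fin K => G c ∧ B c)).card ≤
      w * (univ.filter (fun c : V → Fin K => G c)).card := by
  classical
  calc K ^ S.card * (univ.filter (fun c : V → Fin K => G c ∧ B c)).card
      = ∑ c' ∈ univ.filter (fun c : V → Fin K => G c ∧ B c), K ^ S.card := by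
        rw [sum_const, smul_eq_mul, mul_comm]
    _ = ∑ c' ∈ univ.filter (fun c : V → Fin K => G c ∧ B c),
          ∑ c : V → Fin K, (if (∀ u, u ∉ S → c' u = c u) then 1 else 0) := by
        refine sum_congr rfl fun c' _ => ?_
        rw [← ros_card K S c', card_filter]
    _ ≤ ∑ c' ∈ univ.filter (fun c : V → Fin K => G c ∧ B c),
          ∑ c : V → Fin K, (if (G c ∧ (∀ u, u ∉ S → c' u = c u) ∧ B c') then 1 else 0) := by
        refine sum_le_sum fun c' hc' => sum_le_sum fun c _ => ?_
        simp only [mem_filter, mem_univ, true_and] at hc'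
        by_cases h : ∀ u, u ∉ S → c' u = c u
        · rw [if_pos h, if_pos ⟨hG c c' h hc'.1, h, hc'.2⟩]
        · rw [if_neg h]; exact Nat.zero_le _
    _ ≤ ∑ c' : V → Fin K,
          ∑ c : V → Fin K, (if (G c ∧ (∀ u, u ∉ S → c' u = c u) ∧ B c') then 1 else 0) :=
        sum_le_sum_of_subset (subset_univ _)
    _ = ∑ c : V → Fin K,
          ∑ c' : V → Fin K, (if (G c ∧ (∀ u, u ∉ S → c' u = c u) ∧ B c') then 1 else 0) :=
        sum_comm
    _ = ∑ c ∈ univ.filter (fun c : V → Fin K => G c),
          (univ.filter (fun c' : V → Fin K => (∀ u, u ∉ S → c' u = c u) ∧ B c')).card := by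
        rw [sum_filter]
        refine sum_congr rfl fun c _ => ?_
        by_cases h : G c
        · rw [if_pos h, card_filter]
          refine sum_congr rfl fun c' _ => ?_
          simp only [h, true_and]
        · rw [if_neg h]
          refine sum_eq_zero fun c' _ => ?_
          rw [if_neg (fun hh => h hh.1)]
    _ ≤ ∑ c ∈ univ.filter (fun c : V → Fin K => G c), w := sum_le_sum fun c _ => hw c
    _ = w * (univ.filter (fun c : V → Fin K => G c)).card := by
        rw [sum_const, smul_eq_mul, mul_comm]

theorem rosenfeld {V P : Type} [Fintype V] [DecidableEq V] [Fintype P] [DecidableEq P] (K : ℕ)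
    (β : ℝ) (hβ : 0 < β) (bad : P → (V → Fin K) → Prop) (supp : P → Finset V)
    (hne : ∀ p, (supp p).Nonempty)
    (hsupp : ∀ p c c', (∀ v ∈ supp p, c v = c' v) → bad p c → bad p c')
    (S : P → V → Finset V) (w : P → V → ℕ)
    (hS : ∀ p, ∀ v ∈ supp p, v ∈ S p v ∧ S p v ⊆ supp p)
    (hw : ∀ p, ∀ v ∈ supp p, ∀ c : V → Fin K,
      Nat.card {c' : V → Fin K // (∀ u, u ∉ S p v → c' u = c u) ∧ bad p c'} ≤ w p v)
    (hsum : ∀ v, ∑ p ∈ Finset.univ.filter (fun p => v ∈ supp p),
      (w p v : ℝ) / β ^ ((S p v).card - 1) ≤ K - β) :
    ∃ c : V → Fin K, ∀ p, ¬ bad p c := by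
  classical
  rcases isEmpty_or_nonempty V with hV | ⟨⟨v0⟩⟩
  · refine ⟨fun v => (hV.false v).elim, fun p => ?_⟩
    obtain ⟨v, _⟩ := hne p
    exact (hV.false v).elim
  have hK : (0 : ℝ) < K := by
    have h1 := hsum v0
    have h2 : (0 : ℝ) ≤ ∑ p ∈ Finset.univ.filter (fun p => v0 ∈ supp p),
        (w p v0 : ℝ) / β ^ ((S p v0).card - 1) :=
      sum_nonneg fun p _ => div_nonneg (Nat.cast_nonneg _) (pow_nonneg hβ.le _)
    linarith
  have hK' : 0 < K := by exact_mod_cast hK
  set N : Finset V → ℕ := fun U =>
    (univ.filter (fun c : V → Fin K => ∀ p, supp p ⊆ U → ¬ bad p c)).card with hN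
  have key : ∀ n : ℕ, ∀ U : Finset V, U.card = n → ∀ v, v ∉ U →
      β * N U ≤ K * N (insert v U) := by
    intro n
    induction n using Nat.strong_induction_on with
    | _ n ih =>
    intro U hU v hv
    -- removing a subset
    have hrem : ∀ T : Finset V, T ⊆ U → β ^ T.card * N (U \ T) ≤ (K : ℝ) ^ T.card * N U := by
      intro T
      induction T using Finset.induction_on with
      | empty => intro _; simp
      | insert t T ht ihT =>
        intro hTU
        have htU : t ∈ U := hTU (mem_insert_self _ _)
        have hTU' : T ⊆ U := fun x hx => hTU (mem_insert_of_mem hx)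
        have h1 : insert t (U \ insert t T) = U \ T := by
          ext x
          simp only [mem_insert, mem_sdiff]
          constructor
          · rintro (rfl | ⟨h1, h2⟩)
            · exact ⟨htU, ht⟩
            · exact ⟨h1, fun h => h2 (Or.inr h)⟩
          · rintro ⟨h1, h2⟩
            by_cases hx : x = t
            · exact Or.inl hx
            · exact Or.inr ⟨h1, fun h => h.elim hx h2⟩
        have h2 : (U \ insert t T).card < n := by
          rw [← hU]
          refine card_lt_card ⟨sdiff_subset, fun h => ?_⟩
          exact (mem_sdiff.1 (h htU)).2 (mem_insert_self _ _)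
        have h3 := ih _ h2 (U \ insert t T) rfl t
          (fun h => (mem_sdiff.1 h).2 (mem_insert_self _ _))
        rw [h1] at h3
        have h4 := ihT hTU'
        rw [card_insert_of_notMem ht, pow_succ, pow_succ]
        calc β ^ T.card * β * N (U \ insert t T) = β ^ T.card * (β * N (U \ insert t T)) := by ring
          _ ≤ β ^ T.card * (K * N (U \ T)) :=
              mul_le_mul_of_nonneg_left h3 (pow_nonneg hβ.le _)
          _ = K * (β ^ T.card * N (U \ T)) := by ring
          _ ≤ K * ((K : ℝ) ^ T.card * N U) := mul_le_mul_of_nonneg_left h4 hK.le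
          _ = (K : ℝ) ^ T.card * K * N U := by ring
    -- bound on the number of colourings spoiled by `p`
    set M : P → ℕ := fun p =>
      (univ.filter (fun c : V → Fin K => (∀ q, supp q ⊆ U → ¬ bad q c) ∧
        (supp p ⊆ insert v U ∧ bad p c))).card with hM
    have hMp : ∀ p, v ∈ supp p → K * (M p : ℝ) ≤ (w p v : ℝ) / β ^ ((S p v).card - 1) * N U := by
      intro p hp
      by_cases hpU : supp p ⊆ insert v U
      · obtain ⟨hvS, hSs⟩ := hS p v hp
        have hG : ∀ c c' : V → Fin K, (∀ u, u ∉ S p v → c' u = c u) →
            (∀ q, supp q ⊆ insert v U \ S p v → ¬ bad q c') →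
            (∀ q, supp q ⊆ insert v U \ S p v → ¬ bad q c) := by
          intro c c' hcc h q hq hb
          refine h q hq (hsupp q c c' (fun u hu => ?_) hb)
          exact (hcc u (mem_sdiff.1 (hq hu)).2).symm
        have hg := ros_group K (S p v) (fun c => ∀ q, supp q ⊆ insert v U \ S p v → ¬ bad q c)
          (fun c => bad p c) hG (w p v) (by
            intro c
            have := hw p v hp c
            rw [Nat.card_eq_fintype_card, Fintype.card_subtype] at this
            exact this)
        have hM1 : M p ≤ (univ.filter (fun c : V → Fin K =>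
            (∀ q, supp q ⊆ insert v U \ S p v → ¬ bad q c) ∧ bad p c)).card := by
          refine card_le_card fun c hc => ?_
          simp only [mem_filter, mem_univ, true_and] at hc ⊢
          refine ⟨fun q hq => hc.1 q (fun x hx => ?_), hc.2.2⟩
          have h5 := mem_sdiff.1 (hq hx)
          rcases mem_insert.1 h5.1 with rfl | h6
          · exact absurd hvS h5.2
          · exact h6
        have hT : (S p v).erase v ⊆ U := by
          intro x hx
          rcases mem_insert.1 (hpU (hSs (mem_of_mem_erase hx))) with h | h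
          · exact absurd h (ne_of_mem_erase hx)
          · exact h
        have hset : insert v U \ S p v = U \ (S p v).erase v := by
          ext x
          simp only [mem_sdiff, mem_insert, mem_erase]
          constructor
          · rintro ⟨h1 | h1, h2⟩
            · exact absurd (h1 ▸ hvS) h2
            · exact ⟨h1, fun h => h2 h.2⟩
          · rintro ⟨h1, h2⟩
            refine ⟨Or.inr h1, fun h => h2 ⟨?_, h⟩⟩
            rintro rfl
            exact hv h1
        have hr := hrem _ hT
        have hcard : ((S p v).erase v).card = (S p v).card - 1 := card_erase_of_mem hvS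
        rw [hcard, ← hset] at hr
        have hpos : 0 < (S p v).card := card_pos.2 ⟨v, hvS⟩
        have hg' : (K : ℝ) ^ (S p v).card * M p ≤ w p v * N (insert v U \ S p v) := by
          have : K ^ (S p v).card * M p ≤ w p v * N (insert v U \ S p v) :=
            le_trans (Nat.mul_le_mul_left _ hM1) hg
          exact_mod_cast this
        obtain ⟨m, hm⟩ : ∃ m, (S p v).card = m + 1 := ⟨(S p v).card - 1, by omega⟩
        rw [hm] at hg' hr ⊢
        simp only [Nat.add_sub_cancel] at hr ⊢
        rw [pow_succ] at hg'
        have hβm : 0 < β ^ m := pow_pos hβ m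
        have hKm : 0 < (K : ℝ) ^ m := pow_pos hK m
        rw [div_mul_eq_mul_div, le_div_iff₀ hβm]
        -- K * M * β^m ≤ w * N U
        have h7 : (K : ℝ) ^ m * (K * M p * β ^ m) ≤ (K : ℝ) ^ m * (w p v * N U) := by
          calc (K : ℝ) ^ m * (K * M p * β ^ m) = β ^ m * ((K : ℝ) ^ m * K * M p) := by ring
            _ ≤ β ^ m * (w p v * N (insert v U \ S p v)) :=
                mul_le_mul_of_nonneg_left hg' hβm.le
            _ = w p v * (β ^ m * N (insert v U \ S p v)) := by ring
            _ ≤ w p v * ((K : ℝ) ^ m * N U) :=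
                mul_le_mul_of_nonneg_left hr (Nat.cast_nonneg _)
            _ = (K : ℝ) ^ m * (w p v * N U) := by ring
        exact le_of_mul_le_mul_left h7 hKm
      · have : M p = 0 := by
          rw [hM]
          simp [hpU]
        rw [this]
        simp only [Nat.cast_zero, mul_zero]
        exact mul_nonneg (div_nonneg (Nat.cast_nonneg _) (pow_nonneg hβ.le _)) (Nat.cast_nonneg _)
    have hcover : N U ≤ N (insert v U) + ∑ p ∈ univ.filter (fun p => v ∈ supp p), M p := by
      have hsub : univ.filter (fun c : V → Fin K => ∀ p, supp p ⊆ U → ¬ bad p c) ⊆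
          univ.filter (fun c : V → Fin K => ∀ p, supp p ⊆ insert v U → ¬ bad p c) ∪
          (univ.filter (fun p => v ∈ supp p)).biUnion (fun p =>
            univ.filter (fun c : V → Fin K => (∀ q, supp q ⊆ U → ¬ bad q c) ∧
              (supp p ⊆ insert v U ∧ bad p c))) := by
        intro c hc
        simp only [mem_filter, mem_univ, true_and] at hc
        by_cases h : ∀ p, supp p ⊆ insert v U → ¬ bad p c
        · exact mem_union_left _ (by simpa using h)
        · push Not at h
          obtain ⟨p, hp1, hp2⟩ := h
          refine mem_union_right _ (mem_biUnion.2 ⟨p, ?_, ?_⟩)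
          · simp only [mem_filter, mem_univ, true_and]
            by_contra hvp
            refine hc p (fun x hx => ?_) hp2
            rcases mem_insert.1 (hp1 hx) with rfl | h6
            · exact absurd hx hvp
            · exact h6
          · simp only [mem_filter, mem_univ, true_and]
            exact ⟨hc, hp1, hp2⟩
      calc N U ≤ _ := card_le_card hsub
        _ ≤ _ := card_union_le _ _
        _ ≤ N (insert v U) + ∑ p ∈ univ.filter (fun p => v ∈ supp p), M p :=
            Nat.add_le_add_left card_biUnion_le _
    have hcover' : (N U : ℝ) ≤ N (insert v U) +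
        ∑ p ∈ univ.filter (fun p => v ∈ supp p), (M p : ℝ) := by exact_mod_cast hcover
    have hsumM : K * ∑ p ∈ univ.filter (fun p => v ∈ supp p), (M p : ℝ) ≤ (K - β) * N U := by
      rw [mul_sum]
      calc ∑ p ∈ univ.filter (fun p => v ∈ supp p), (K : ℝ) * M p
          ≤ ∑ p ∈ univ.filter (fun p => v ∈ supp p),
              (w p v : ℝ) / β ^ ((S p v).card - 1) * N U :=
            sum_le_sum fun p hp => hMp p (mem_filter.1 hp).2
        _ = (∑ p ∈ univ.filter (fun p => v ∈ supp p),
              (w p v : ℝ) / β ^ ((S p v).card - 1)) * N U := by rw [sum_mul]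
        _ ≤ (K - β) * N U := mul_le_mul_of_nonneg_right (hsum v) (Nat.cast_nonneg _)
    nlinarith [mul_le_mul_of_nonneg_left hcover' hK.le]
  have hpos : ∀ U : Finset V, 0 < N U := by
    intro U
    induction U using Finset.induction_on with
    | empty =>
      refine card_pos.2 ⟨fun _ => ⟨0, hK'⟩, ?_⟩
      simp only [mem_filter, mem_univ, true_and]
      intro p hp
      obtain ⟨x, hx⟩ := hne p
      exact absurd (hp hx) (notMem_empty x)
    | insert v U hv ihU =>
      have h1 := key _ U rfl v hv
      have h2 : (0 : ℝ) < N U := by exact_mod_cast ihU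
      have h3 : (0 : ℝ) < K * N (insert v U) := lt_of_lt_of_le (mul_pos hβ h2) h1
      have h4 : (0 : ℝ) < N (insert v U) := (mul_pos_iff_of_pos_left hK).1 h3
      exact_mod_cast h4
  obtain ⟨c, hc⟩ := card_pos.1 (hpos univ)
  simp only [mem_filter, mem_univ, true_and] at hc
  exact ⟨c, fun p => hc p (subset_univ _)⟩

end Pool.Agent.H76.SC
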