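import Mathlib
import Pool.Agent.H76.SC.NB
import Pool.Agent.H76.SC.Rosenfeld

set_option autoImplicit false

/-! # Small cancellation colourings -/

namespace Pool.Agent.H76.SC

open Finset

theorem col_indep (N : ℕ) (R : Fin N → Fin N → Prop) (hirr : ∀ a, ¬ R a a)
    (hsym : ∀ a b, R a b → R b a)
    (h2 : ∀ a, Nat.card {b // R a b} ≤ 2) (t0 : Fin N) :
    ∃ J : Finset (Fin N), t0 ∈ J ∧ (∀ a ∈ J, ∀ b ∈ J, ¬ R a b) ∧ N ≤ 3 * J.card := by
  classical
  let fam : Finset (Finset (Fin N)) := univ.filter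
    (fun J => t0 ∈ J ∧ (∀ a ∈ J, ∀ b ∈ J, ¬ R a b))
  have hfam : fam.Nonempty := by
    refine ⟨{t0}, ?_⟩
    simp only [fam, mem_filter, mem_univ, true_and, mem_singleton, forall_eq]
    exact hirr t0
  obtain ⟨J, hJ, hmax⟩ := exists_max_image fam (fun J => J.card) hfam
  simp only [fam, mem_filter, mem_univ, true_and] at hJ
  refine ⟨J, hJ.1, hJ.2, ?_⟩
  have hcov : (univ : Finset (Fin N)) ⊆ J ∪ J.biUnion (fun a => univ.filter (fun b => R a b)) := by
    intro b _
    by_contra hb
    simp only [mem_union, mem_biUnion, mem_filter, mem_univ, true_and, not_or, not_exists,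
      not_and] at hb
    have hin : insert b J ∈ fam := by
      simp only [fam, mem_filter, mem_univ, true_and]
      refine ⟨mem_insert_of_mem hJ.1, ?_⟩
      intro x hx y hy hR
      rcases mem_insert.mp hx with rfl | hx
      · rcases mem_insert.mp hy with rfl | hy
        · exact hirr _ hR
        · exact hb.2 y hy (hsym _ _ hR)
      · rcases mem_insert.mp hy with h' | hy
        · rw [h'] at hR
          exact hb.2 x hx hR
        · exact hJ.2 x hx y hy hR
    have := hmax _ hin
    rw [card_insert_of_notMem hb.1] at this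
    omega
  have h3 := card_le_card hcov
  rw [card_univ, Fintype.card_fin] at h3
  have h4 : (J.biUnion (fun a => univ.filter (fun b => R a b))).card ≤ J.card * 2 := by
    apply card_biUnion_le_card_mul
    intro a _
    have := h2 a
    rwa [Nat.card_eq_fintype_card, Fintype.card_subtype] at this
  have h5 := card_union_le J (J.biUnion (fun a => univ.filter (fun b => R a b)))
  omega

theorem col_T3 {n K L : ℕ} (p q : List (Fin n)) (hp : p.Nodup) (hq : q.Nodup)
    (hpl : p.length = L + 2) (hql : q.length = L + 2)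
    (hpq : ∀ t (h1 : t < p.length) (h2 : t < q.length), p[t] ≠ q[t]) (v : Fin n) (hv : v ∈ p) :
    ∃ S : Finset (Fin n), v ∈ S ∧ S ⊆ p.toFinset ∧ L + 2 ≤ 3 * S.card ∧
      ∀ c c1 c2 : Fin n → Fin K, (∀ u, u ∉ S → c1 u = c u) → p.map c1 = q.map c1 →
        (∀ u, u ∉ S → c2 u = c u) → p.map c2 = q.map c2 → c1 = c2 := by
  classical
  have lp : ∀ t : Fin (L + 2), t.val < p.length := fun t => by rw [hpl]; exact t.2
  have lq : ∀ t : Fin (L + 2), t.val < q.length := fun t => by rw [hql]; exact t.2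
  let P : Fin (L + 2) → Fin n := fun t => p[t.val]'(lp t)
  let Q : Fin (L + 2) → Fin n := fun t => q[t.val]'(lq t)
  have hP : Function.Injective P := fun a b h => Fin.ext ((List.Nodup.getElem_inj_iff hp).mp h)
  have hQ : Function.Injective Q := fun a b h => Fin.ext ((List.Nodup.getElem_inj_iff hq).mp h)
  have hPQ : ∀ t, P t ≠ Q t := fun t => hpq t.val (lp t) (lq t)
  obtain ⟨i, hi, hiv⟩ := List.getElem_of_mem hv
  let t0 : Fin (L + 2) := ⟨i, by rw [← hpl]; exact hi⟩
  have ht0 : P t0 = v := hiv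
  obtain ⟨J, hJ0, hJ, hJc⟩ := col_indep (L + 2) (fun a b => P a = Q b ∨ P b = Q a)
    (fun a h => by rcases h with h | h <;> exact hPQ a h)
    (fun a b h => h.symm)
    (by
      intro a
      rw [Nat.card_eq_fintype_card, Fintype.card_subtype, filter_or]
      refine (card_union_le _ _).trans ?_
      have h1 : (univ.filter (fun b => P a = Q b)).card ≤ 1 := by
        rw [card_le_one]
        intro x hx y hy
        simp only [mem_filter, mem_univ, true_and] at hx hy
        exact hQ (hx.symm.trans hy)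
      have h2 : (univ.filter (fun b => P b = Q a)).card ≤ 1 := by
        rw [card_le_one]
        intro x hx y hy
        simp only [mem_filter, mem_univ, true_and] at hx hy
        exact hP (hx.trans hy.symm)
      omega) t0
  refine ⟨J.image P, ?_, ?_, ?_, ?_⟩
  · rw [← ht0]; exact mem_image_of_mem P hJ0
  · intro x hx
    obtain ⟨t, _, rfl⟩ := mem_image.mp hx
    rw [List.mem_toFinset]
    exact List.getElem_mem _
  · rw [card_image_of_injective _ hP]; exact hJc
  · intro c c1 c2 h1 h1' h2 h2'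
    have key : ∀ c' : Fin n → Fin K, (∀ u, u ∉ J.image P → c' u = c u) → p.map c' = q.map c' →
        ∀ t ∈ J, c' (P t) = c (Q t) := by
      intro c' h h' t ht
      have e1 : c' (P t) = c' (Q t) := by
        have h3 : (p.map c')[t.val]'(by rw [List.length_map]; exact lp t)
            = (q.map c')[t.val]'(by rw [List.length_map]; exact lq t) := by
          simp only [h']
        rw [List.getElem_map, List.getElem_map] at h3
        exact h3
      rw [e1]
      apply h
      intro hm
      obtain ⟨s, hs, hs'⟩ := mem_image.mp hm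
      exact hJ s hs t ht (Or.inl hs')
    funext u
    by_cases hu : u ∈ J.image P
    · obtain ⟨t, ht, rfl⟩ := mem_image.mp hu
      rw [key c1 h1 h1' t ht, key c2 h2 h2' t ht]
    · rw [h1 u hu, h2 u hu]

theorem col_card_le_one {α : Type} (h : ∀ a b : α, a = b) : Nat.card α ≤ 1 := by
  have : Subsingleton α := ⟨h⟩
  exact Finite.card_le_one_iff_subsingleton.mpr this

/-- walks with `m + 2` vertices -/
def col_WL {n : ℕ} (Gr : SimpleGraph (Fin n)) (m : ℕ) : Type :=
  {p : List (Fin n) // NB Gr p ∧ p.length = m + 2}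

theorem col_fin_sub {n m : ℕ} (Q : List (Fin n) → Prop) (h : ∀ p, Q p → p.length = m) :
    Finite {p // Q p} := by
  have h1 : {p : List (Fin n) | Q p}.Finite :=
    (List.finite_length_eq (Fin n) m).subset (fun p hp => h p hp)
  exact h1.to_subtype

instance col_WL_fin {n : ℕ} (Gr : SimpleGraph (Fin n)) (m : ℕ) : Finite (col_WL Gr m) :=
  col_fin_sub _ (fun _ h => h.2)

noncomputable instance col_WL_ft {n : ℕ} (Gr : SimpleGraph (Fin n)) (m : ℕ) :
    Fintype (col_WL Gr m) := Fintype.ofFinite _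

theorem col_thr {n : ℕ} (Gr : SimpleGraph (Fin n)) (D : ℕ)
    (hD : ∀ v, Nat.card {u // Gr.Adj v u} ≤ D) (m : ℕ) (v : Fin n) :
    Nat.card {p : col_WL Gr m // v ∈ p.1} ≤ (m + 2) * D ^ (m + 1) := by
  classical
  have h1 : ∀ p : {p : col_WL Gr m // v ∈ p.1}, ∃ i : Fin (m + 2), p.1.1[i.val]? = some v := by
    intro p
    obtain ⟨i, hi, hiv⟩ := List.getElem_of_mem p.2
    refine ⟨⟨i, by rw [← p.1.2.2]; exact hi⟩, ?_⟩
    rw [List.getElem?_eq_getElem hi, hiv]
  choose f hf using h1
  have hfin : ∀ i : Fin (m + 2), Finite {p : List (Fin n) // NB Gr p ∧ p.length = m + 1 + 1 ∧ p[i.val]? = some v} := by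
    intro i
    exact col_fin_sub _ (fun _ h => h.2.1)
  have h2 : Nat.card {p : col_WL Gr m // v ∈ p.1} ≤
      Nat.card (Σ i : Fin (m + 2), {p : List (Fin n) // NB Gr p ∧ p.length = m + 1 + 1 ∧ p[i.val]? = some v}) := by
    apply Nat.card_le_card_of_injective
      (fun p => (⟨f p, ⟨p.1.1, p.1.2.1, p.1.2.2, hf p⟩⟩ :
        Σ i : Fin (m + 2), {p : List (Fin n) // NB Gr p ∧ p.length = m + 1 + 1 ∧ p[i.val]? = some v}))
    intro a b h
    simp only [Sigma.mk.injEq] at h
    obtain ⟨h3, h4⟩ := h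
    apply Subtype.ext
    apply Subtype.ext
    have h5 : ∀ (i j : Fin (m + 2)) (x : {p : List (Fin n) // NB Gr p ∧ p.length = m + 1 + 1 ∧ p[i.val]? = some v})
      (y : {p : List (Fin n) // NB Gr p ∧ p.length = m + 1 + 1 ∧ p[j.val]? = some v}), i = j → HEq x y → x.1 = y.1 := by
      rintro i j x y rfl hxy
      rw [eq_of_heq hxy]
    exact h5 _ _ _ _ h3 h4
  refine h2.trans ?_
  rw [Nat.card_sigma]
  refine (sum_le_sum (fun i _ => nb_card Gr D hD (m + 1) i.val (by have := i.2; omega) v)).trans ?_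
  rw [sum_const, card_univ, Fintype.card_fin, smul_eq_mul]

theorem col_tot {n : ℕ} (Gr : SimpleGraph (Fin n)) (D : ℕ)
    (hD : ∀ v, Nat.card {u // Gr.Adj v u} ≤ D) (m : ℕ) :
    Nat.card (col_WL Gr m) ≤ n * D ^ (m + 1) := by
  classical
  have h1 : ∀ p : col_WL Gr m, ∃ v : Fin n, p.1[0]? = some v := by
    intro p
    have h : 0 < p.1.length := by rw [p.2.2]; omega
    exact ⟨p.1[0], List.getElem?_eq_getElem h⟩
  choose f hf using h1
  have hfin : ∀ v : Fin n, Finite {p : List (Fin n) // NB Gr p ∧ p.length = m + 1 + 1 ∧ p[0]? = some v} := by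
    intro v
    exact col_fin_sub _ (fun _ h => h.2.1)
  have h2 : Nat.card (col_WL Gr m) ≤
      Nat.card (Σ v : Fin n, {p : List (Fin n) // NB Gr p ∧ p.length = m + 1 + 1 ∧ p[0]? = some v}) := by
    apply Nat.card_le_card_of_injective
      (fun p => (⟨f p, ⟨p.1, p.2.1, p.2.2, hf p⟩⟩ :
        Σ v : Fin n, {p : List (Fin n) // NB Gr p ∧ p.length = m + 1 + 1 ∧ p[0]? = some v}))
    intro a b h
    simp only [Sigma.mk.injEq] at h
    obtain ⟨h3, h4⟩ := h
    apply Subtype.ext
    have h5 : ∀ (i j : Fin n) (x : {p : List (Fin n) // NB Gr p ∧ p.length = m + 1 + 1 ∧ p[0]? = some i})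
      (y : {p : List (Fin n) // NB Gr p ∧ p.length = m + 1 + 1 ∧ p[0]? = some j}), i = j → HEq x y → x.1 = y.1 := by
      rintro i j x y rfl hxy
      rw [eq_of_heq hxy]
    exact h5 _ _ _ _ h3 h4
  refine h2.trans ?_
  rw [Nat.card_sigma]
  refine (sum_le_sum (fun v _ => nb_card Gr D hD (m + 1) 0 (by omega) v)).trans ?_
  rw [sum_const, card_univ, Fintype.card_fin, smul_eq_mul]

/-- pairs at distance one or two -/
def col_near {n : ℕ} (Gr : SimpleGraph (Fin n)) (u v : Fin n) : Prop :=
  u ≠ v ∧ (Gr.Adj u v ∨ ∃ w, Gr.Adj u w ∧ Gr.Adj w v)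

theorem col_near_symm {n : ℕ} {Gr : SimpleGraph (Fin n)} {u v : Fin n} (h : col_near Gr u v) :
    col_near Gr v u := by
  refine ⟨h.1.symm, ?_⟩
  rcases h.2 with h | ⟨w, h1, h2⟩
  · exact Or.inl h.symm
  · exact Or.inr ⟨w, h2.symm, h1.symm⟩

theorem col_near_card {n : ℕ} (Gr : SimpleGraph (Fin n)) (D : ℕ)
    (hD : ∀ v, Nat.card {u // Gr.Adj v u} ≤ D) (v : Fin n) :
    Nat.card {u // col_near Gr v u} ≤ D + D * D := by
  classical
  rw [Nat.card_eq_fintype_card, Fintype.card_subtype]
  have hD' : ∀ v, (univ.filter (fun u => Gr.Adj v u)).card ≤ D := by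
    intro v
    have := hD v
    rwa [Nat.card_eq_fintype_card, Fintype.card_subtype] at this
  have hsub : univ.filter (fun u => col_near Gr v u) ⊆
      univ.filter (fun u => Gr.Adj v u) ∪
        (univ.filter (fun u => Gr.Adj v u)).biUnion (fun w => univ.filter (fun u => Gr.Adj w u)) := by
    intro u hu
    simp only [mem_filter, mem_univ, true_and, mem_union, mem_biUnion] at hu ⊢
    rcases hu.2 with h | ⟨w, h1, h2⟩
    · exact Or.inl h
    · exact Or.inr ⟨w, h1, h2⟩
  refine (card_le_card hsub).trans ((card_union_le _ _).trans ?_)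
  apply Nat.add_le_add (hD' v)
  refine (card_biUnion_le_card_mul _ _ D (fun w _ => hD' w)).trans ?_
  exact Nat.mul_le_mul_right D (hD' v)

theorem col_eq_of_meet {n K : ℕ} (Gr : SimpleGraph (Fin n)) (col : Fin n → Fin K)
    (hc : ∀ u v, col_near Gr u v → col u ≠ col v)
    (p q : List (Fin n)) (hp : NB Gr p) (hq : NB Gr q) (l : ℕ) (hpl : p.length = l)
    (hql : q.length = l) (hcol : p.map col = q.map col) (t : ℕ) (htp : t < p.length)
    (htq : t < q.length) (heq : p[t] = q[t]) : p = q := by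
  have hcc : ∀ i (h1 : i < p.length) (h2 : i < q.length), col p[i] = col q[i] := by
    intro i h1 h2
    have h3 : (p.map col)[i]'(by rw [List.length_map]; exact h1)
        = (q.map col)[i]'(by rw [List.length_map]; exact h2) := by
      simp only [hcol]
    rw [List.getElem_map, List.getElem_map] at h3
    exact h3
  have hap := List.isChain_iff_getElem.mp hp.1
  have haq := List.isChain_iff_getElem.mp hq.1
  have hf : ∀ i (h1 : i + 1 < p.length) (h2 : i + 1 < q.length), p[i] = q[i] →
      p[i + 1] = q[i + 1] := by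
    intro i h1 h2 h
    by_contra hne
    apply hc (p[i + 1]) (q[i + 1]) ⟨hne, Or.inr ⟨p[i], (hap i h1).symm, ?_⟩⟩ (hcc _ _ _)
    rw [h]
    exact haq i h2
  have hb : ∀ i (h1 : i + 1 < p.length) (h2 : i + 1 < q.length), p[i + 1] = q[i + 1] →
      p[i] = q[i] := by
    intro i h1 h2 h
    by_contra hne
    apply hc (p[i]) (q[i]) ⟨hne, Or.inr ⟨p[i + 1], hap i h1, ?_⟩⟩ (hcc _ _ _)
    rw [h]
    exact (haq i h2).symm
  have hF : ∀ d (h1 : t + d < p.length) (h2 : t + d < q.length), p[t + d] = q[t + d] := by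
    intro d
    induction d with
    | zero => intro h1 h2; exact heq
    | succ d ih =>
      intro h1 h2
      exact hf (t + d) h1 h2 (ih (by omega) (by omega))
  have hB : ∀ d (_ : d ≤ t), p[t - d]'(by omega) = q[t - d]'(by omega) := by
    intro d
    induction d with
    | zero => intro _; exact heq
    | succ d ih =>
      intro h
      apply hb (t - (d + 1)) (by omega) (by omega)
      have h3 : t - (d + 1) + 1 = t - d := by omega
      simp only [h3]
      exact ih (by omega)
  apply List.ext_getElem (by omega)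
  intro i h1 h2
  rcases le_total i t with h | h
  · have := hB (t - i) (by omega)
    have h3 : t - (t - i) = i := by omega
    simp only [h3] at this
    exact this
  · have := hF (i - t) (by omega) (by omega)
    have h3 : t + (i - t) = i := by omega
    simp only [h3] at this
    exact this

theorem col_sum_ite {α : Type} [Fintype α] (Q : α → Prop) [DecidablePred Q] (a : ℝ) :
    ∑ x, (if Q x then a else 0) = Nat.card {x // Q x} * a := by
  rw [← sum_filter, sum_const, nsmul_eq_mul, Nat.card_eq_fintype_card, Fintype.card_subtype]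

/-- pairs of disjointly indexed walks -/
def col_T3t {n : ℕ} (Gr : SimpleGraph (Fin n)) (L : ℕ) : Type :=
  {x : col_WL Gr L × col_WL Gr L //
    ∀ t (h1 : t < x.1.1.length) (h2 : t < x.2.1.length), x.1.1[t] ≠ x.2.1[t]}

instance col_T3t_fin {n : ℕ} (Gr : SimpleGraph (Fin n)) (L : ℕ) : Finite (col_T3t Gr L) :=
  Subtype.finite

noncomputable instance col_T3t_ft {n : ℕ} (Gr : SimpleGraph (Fin n)) (L : ℕ) :
    Fintype (col_T3t Gr L) := Fintype.ofFinite _

def col_T1t {n : ℕ} (Gr : SimpleGraph (Fin n)) : Type :=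
  {x : Fin n × Fin n // col_near Gr x.1 x.2}

instance col_T1t_fin {n : ℕ} (Gr : SimpleGraph (Fin n)) : Finite (col_T1t Gr) :=
  Subtype.finite

noncomputable instance col_T1t_ft {n : ℕ} (Gr : SimpleGraph (Fin n)) :
    Fintype (col_T1t Gr) := Fintype.ofFinite _

theorem col_T1_count {n : ℕ} (Gr : SimpleGraph (Fin n)) (D : ℕ)
    (hD : ∀ v, Nat.card {u // Gr.Adj v u} ≤ D) (v : Fin n) :
    Nat.card {x : col_T1t Gr // v = x.1.1 ∨ v = x.1.2} ≤ 2 * (D + D * D) := by
  classical
  have h1 : ∀ x : {x : col_T1t Gr // v = x.1.1 ∨ v = x.1.2},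
      ∃ b : Bool × {u // col_near Gr v u},
        (b.1 = true → x.1.1.1 = v ∧ x.1.1.2 = b.2.1) ∧ (b.1 = false → x.1.1.2 = v ∧ x.1.1.1 = b.2.1) := by
    rintro ⟨⟨⟨a, b⟩, hab⟩, hx⟩
    rcases hx with h | h
    · exact ⟨(true, ⟨b, by rw [h]; exact hab⟩), fun _ => ⟨h.symm, rfl⟩, fun h => absurd h (by simp)⟩
    · exact ⟨(false, ⟨a, by rw [h]; exact col_near_symm hab⟩), fun h => absurd h (by simp),
        fun _ => ⟨h.symm, rfl⟩⟩
  choose f hf1 hf2 using h1
  have h2 := Nat.card_le_card_of_injective f (by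
    intro x y hxy
    apply Subtype.ext
    apply Subtype.ext
    cases hb : (f x).1 with
    | true =>
      have h3 := hf1 x hb
      have h4 := hf1 y (by rw [← hxy]; exact hb)
      exact Prod.ext (h3.1.trans h4.1.symm) (by rw [h3.2, h4.2, hxy])
    | false =>
      have h3 := hf2 x hb
      have h4 := hf2 y (by rw [← hxy]; exact hb)
      exact Prod.ext (by rw [h3.2, h4.2, hxy]) (h3.1.trans h4.1.symm))
  refine h2.trans ?_
  rw [Nat.card_prod]
  have h5 := col_near_card Gr D hD v
  have h6 : Nat.card Bool = 2 := by simp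
  rw [h6]
  exact Nat.mul_le_mul_left 2 h5

theorem col_T3_count {n : ℕ} (Gr : SimpleGraph (Fin n)) (D L : ℕ)
    (hD : ∀ v, Nat.card {u // Gr.Adj v u} ≤ D) (v : Fin n) :
    Nat.card {x : col_T3t Gr L // v ∈ x.1.1.1 ∨ v ∈ x.1.2.1} ≤
      2 * (((L + 2) * D ^ (L + 1)) * (n * D ^ (L + 1))) := by
  classical
  have h1 : ∀ x : {x : col_T3t Gr L // v ∈ x.1.1.1 ∨ v ∈ x.1.2.1},
      ∃ b : Bool × ({p : col_WL Gr L // v ∈ p.1} × col_WL Gr L),
        (b.1 = true → x.1.1.1 = b.2.1.1 ∧ x.1.1.2 = b.2.2) ∧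
        (b.1 = false → x.1.1.2 = b.2.1.1 ∧ x.1.1.1 = b.2.2) := by
    rintro ⟨⟨⟨a, b⟩, hab⟩, hx⟩
    rcases hx with h | h
    · exact ⟨(true, (⟨a, h⟩, b)), fun _ => ⟨rfl, rfl⟩, fun h => absurd h (by simp)⟩
    · exact ⟨(false, (⟨b, h⟩, a)), fun h => absurd h (by simp), fun _ => ⟨rfl, rfl⟩⟩
  choose f hf1 hf2 using h1
  have h2 := Nat.card_le_card_of_injective f (by
    intro x y hxy
    apply Subtype.ext
    apply Subtype.ext
    cases hb : (f x).1 with
    | true =>
      have h3 := hf1 x hb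
      have h4 := hf1 y (by rw [← hxy]; exact hb)
      exact Prod.ext (by rw [h3.1, h4.1, hxy]) (by rw [h3.2, h4.2, hxy])
    | false =>
      have h3 := hf2 x hb
      have h4 := hf2 y (by rw [← hxy]; exact hb)
      exact Prod.ext (by rw [h3.2, h4.2, hxy]) (by rw [h3.1, h4.1, hxy]))
  refine h2.trans ?_
  rw [Nat.card_prod, Nat.card_prod]
  have h6 : Nat.card Bool = 2 := by simp
  rw [h6]
  exact Nat.mul_le_mul_left 2 (Nat.mul_le_mul (col_thr Gr D hD L v) (col_tot Gr D hD L))

theorem col_half_sum (L : ℕ) : ∑ m ∈ range L, ((1 : ℝ) / 2) ^ (m + 1) ≤ 1 := by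
  have h : ∀ L : ℕ, ∑ m ∈ range L, ((1 : ℝ) / 2) ^ (m + 1) = 1 - (1 / 2) ^ L := by
    intro L
    induction L with
    | zero => simp
    | succ L ih => rw [sum_range_succ, ih, pow_succ]; ring
  rw [h]
  have : (0 : ℝ) ≤ (1 / 2) ^ L := by positivity
  linarith

theorem colouring (C D : ℕ) : ∃ K n0 : ℕ, 2 ≤ n0 ∧ ∀ (L n : ℕ) (Gr : SimpleGraph (Fin n)),
    n0 ≤ L → n ≤ C ^ L → (∀ v, Nat.card {u // Gr.Adj v u} ≤ D) → Girth Gr (200 * L) →
    ∀ W : ℕ → Finset (List (Fin K)), (∀ m, (W m).card ≤ C ^ m * D ^ (m + 1)) →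
    ∃ col : Fin n → Fin K,
      (∀ u v, Gr.Adj u v → col u ≠ col v) ∧
      (∀ u v w, Gr.Adj u v → Gr.Adj v w → u ≠ w → col u ≠ col w) ∧
      (∀ m, n0 ≤ m → m < L → ∀ p : List (Fin n), NB Gr p → p.length = m + 2 → p.map col ∉ W m) ∧
      (∀ p q : List (Fin n), NB Gr p → NB Gr q → p.length = L + 2 → q.length = L + 2 →
        p.map col = q.map col → p = q) := by
  classical
  obtain ⟨E, hE⟩ : ∃ E : ℕ, E = (C + 1) * (D + 1) ^ 2 := ⟨_, rfl⟩
  have hE1 : 1 ≤ E := by rw [hE]; exact Nat.succ_le_of_lt (by positivity)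
  obtain ⟨γ, hγ⟩ : ∃ γ : ℕ, γ = 8 * E ^ 2 := ⟨_, rfl⟩
  have hγE : 8 * E ≤ γ := by rw [hγ]; nlinarith
  have hγ1 : 1 ≤ γ := by omega
  obtain ⟨κ, hκ⟩ : ∃ κ : ℕ, κ = γ ^ 3 := ⟨_, rfl⟩
  have hκγ : γ ≤ κ := by rw [hκ]; exact Nat.le_self_pow (by norm_num) γ
  refine ⟨2 * κ, 3, by norm_num, ?_⟩
  intro L n Gr hL hn hD hG W hW
  -- real versions
  have hEr : (1 : ℝ) ≤ E := by exact_mod_cast hE1
  have hκr : (8 * E : ℝ) ≤ κ := by exact_mod_cast hγE.trans hκγ
  have hκ0 : (0 : ℝ) < κ := by linarith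
  have hγr : (1 : ℝ) ≤ γ := by exact_mod_cast hγ1
  -- f
  let f2 : ℕ → ℝ := fun m => (C : ℝ) ^ m * D ^ (m + 1) / κ ^ (m + 1)
  let f3 : ℝ := 1 / γ ^ (L - 1)
  let P : Type := col_T1t Gr ⊕ ((Σ m : Fin L, col_WL Gr m.val) ⊕ col_T3t Gr L)
  let bad : P → (Fin n → Fin (2 * κ)) → Prop := fun x c => match x with
    | Sum.inl x => c x.1.1 = c x.1.2
    | Sum.inr (Sum.inl x) => x.2.1.map c ∈ W x.1.val
    | Sum.inr (Sum.inr x) => x.1.1.1.map c = x.1.2.1.map c
  let supp : P → Finset (Fin n) := fun x => match x with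
    | Sum.inl x => {x.1.1, x.1.2}
    | Sum.inr (Sum.inl x) => x.2.1.toFinset
    | Sum.inr (Sum.inr x) => x.1.1.1.toFinset ∪ x.1.2.1.toFinset
  let f : P → ℝ := fun x => match x with
    | Sum.inl _ => 1
    | Sum.inr (Sum.inl x) => f2 x.1.val
    | Sum.inr (Sum.inr _) => f3
  have hnodup : ∀ m ≤ L, ∀ p : col_WL Gr m, p.1.Nodup := by
    intro m hm p
    apply nb_nodup Gr (200 * L) hG p.1 p.2.1
    rw [p.2.2]
    omega
  have key : ∀ (x : P) (v : Fin n), ∃ (S : Finset (Fin n)) (w : ℕ), v ∈ supp x →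
      v ∈ S ∧ S ⊆ supp x ∧
      (∀ c : Fin n → Fin (2 * κ),
        Nat.card {c' : Fin n → Fin (2 * κ) // (∀ u, u ∉ S → c' u = c u) ∧ bad x c'} ≤ w) ∧
      (w : ℝ) / (κ : ℝ) ^ (S.card - 1) ≤ f x := by
    intro x v
    rcases x with x | x | x
    · refine ⟨{v}, 1, fun hv => ⟨mem_singleton_self v, ?_, ?_, ?_⟩⟩
      · exact singleton_subset_iff.mpr hv
      · intro c
        apply col_card_le_one
        rintro ⟨c1, h1, h1'⟩ ⟨c2, h2, h2'⟩
        apply Subtype.ext
        funext u
        show c1 u = c2 u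
        by_cases hu : u = v
        · subst hu
          simp only [bad] at h1' h2'
          simp only [supp, mem_insert, mem_singleton] at hv
          have hne : x.1.1 ≠ x.1.2 := x.2.1
          rcases hv with hv | hv
          · have h3 : x.1.2 ∉ ({u} : Finset (Fin n)) := by
              rw [mem_singleton, hv]; exact hne.symm
            rw [show c1 u = c1 x.1.1 from congrArg c1 hv, show c2 u = c2 x.1.1 from congrArg c2 hv,
              h1', h2', h1 _ h3, h2 _ h3]
          · have h3 : x.1.1 ∉ ({u} : Finset (Fin n)) := by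
              rw [mem_singleton, hv]; exact hne
            rw [show c1 u = c1 x.1.2 from congrArg c1 hv, show c2 u = c2 x.1.2 from congrArg c2 hv,
              ← h1', ← h2', h1 _ h3, h2 _ h3]
        · have h3 : u ∉ ({v} : Finset (Fin n)) := by rw [mem_singleton]; exact hu
          rw [h1 u h3, h2 u h3]
      · simp [f]
    · obtain ⟨m, p⟩ := x
      have hp := hnodup m.val m.2.le p
      refine ⟨p.1.toFinset, (W m.val).card, fun hv => ⟨hv, subset_refl _, ?_, ?_⟩⟩
      · intro c
        have h1 := Nat.card_le_card_of_injective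
          (fun c' : {c' : Fin n → Fin (2 * κ) // (∀ u, u ∉ p.1.toFinset → c' u = c u) ∧
            p.1.map c' ∈ W m.val} => (⟨p.1.map c'.1, c'.2.2⟩ : {z // z ∈ W m.val})) (by
          intro c1 c2 h12
          apply Subtype.ext
          funext u
          by_cases hu : u ∈ p.1
          · have h3 : p.1.map c1.1 = p.1.map c2.1 := congrArg Subtype.val h12
            exact List.map_inj_left.mp h3 u hu
          · have h3 : u ∉ p.1.toFinset := by rw [List.mem_toFinset]; exact hu
            rw [c1.2.1 u h3, c2.2.1 u h3])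
        rw [Nat.card_eq_fintype_card (α := {z // z ∈ W m.val}), Fintype.card_coe] at h1
        exact h1
      · rw [List.toFinset_card_of_nodup hp, p.2.2]
        simp only [f, f2]
        have h3 : m.val + 2 - 1 = m.val + 1 := by omega
        rw [h3]
        apply div_le_div_of_nonneg_right _ (by positivity)
        exact_mod_cast hW m.val
    · obtain ⟨⟨p, q⟩, hpq⟩ := x
      have hp := hnodup L le_rfl p
      have hq := hnodup L le_rfl q
      have hfin : ∀ S : Finset (Fin n), L + 2 ≤ 3 * S.card →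
          ((1 : ℕ) : ℝ) / (κ : ℝ) ^ (S.card - 1) ≤ f3 := by
        intro S hS
        simp only [f3]
        rw [Nat.cast_one]
        apply one_div_le_one_div_of_le (by positivity)
        rw [hκ, Nat.cast_pow, ← pow_mul]
        exact pow_le_pow_right₀ hγr (by omega)
      by_cases hvp : v ∈ p.1
      · obtain ⟨S, hS1, hS2, hS3, hS4⟩ := col_T3 (K := 2 * κ) p.1 q.1 hp hq p.2.2 q.2.2 hpq v hvp
        refine ⟨S, 1, fun _ => ⟨hS1, hS2.trans subset_union_left, ?_, hfin S hS3⟩⟩
        intro c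
        apply col_card_le_one
        rintro ⟨c1, h1, h1'⟩ ⟨c2, h2, h2'⟩
        apply Subtype.ext
        exact hS4 c c1 c2 h1 h1' h2 h2'
      · by_cases hvq : v ∈ q.1
        · obtain ⟨S, hS1, hS2, hS3, hS4⟩ := col_T3 (K := 2 * κ) q.1 p.1 hq hp q.2.2 p.2.2
            (fun t h1 h2 h => hpq t h2 h1 h.symm) v hvq
          refine ⟨S, 1, fun _ => ⟨hS1, hS2.trans subset_union_right, ?_, hfin S hS3⟩⟩
          intro c
          apply col_card_le_one
          rintro ⟨c1, h1, h1'⟩ ⟨c2, h2, h2'⟩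
          apply Subtype.ext
          exact hS4 c c1 c2 h1 h1'.symm h2 h2'.symm
        · refine ⟨∅, 0, fun hv => ?_⟩
          exfalso
          simp only [supp, mem_union, List.mem_toFinset] at hv
          rcases hv with hv | hv
          · exact hvp hv
          · exact hvq hv
  choose S w hSw using key
  have hsumf : ∀ v : Fin n, ∑ x ∈ univ.filter (fun x : P => v ∈ supp x), f x ≤ κ := by
    intro v
    rw [sum_filter, Fintype.sum_sum_type, Fintype.sum_sum_type, Fintype.sum_sigma]
    have e1 : ∑ x : col_T1t Gr, (if v ∈ supp (Sum.inl x) then f (Sum.inl x) else 0)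
        ≤ 2 * (D + D * D) := by
      have h1 := col_sum_ite (fun x : col_T1t Gr => v = x.1.1 ∨ v = x.1.2) (1 : ℝ)
      have h2 := col_T1_count Gr D hD v
      have h3 : ((Nat.card {x : col_T1t Gr // v = x.1.1 ∨ v = x.1.2} : ℕ) : ℝ) ≤ 2 * (D + D * D) := by
        exact_mod_cast h2
      have h4 : ∑ x : col_T1t Gr, (if v ∈ supp (Sum.inl x) then f (Sum.inl x) else 0)
          = ∑ x : col_T1t Gr, (if (v = x.1.1 ∨ v = x.1.2) then (1 : ℝ) else 0) := by
        apply sum_congr rfl
        intro x _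
        simp only [supp, f, mem_insert, mem_singleton]
      rw [h4, h1]
      linarith
    have e2 : ∑ m : Fin L, ∑ p : col_WL Gr m.val, (if v ∈ supp (Sum.inr (Sum.inl ⟨m, p⟩))
        then f (Sum.inr (Sum.inl ⟨m, p⟩)) else 0) ≤ 1 := by
      have h1 : ∀ m : Fin L, ∑ p : col_WL Gr m.val, (if v ∈ supp (Sum.inr (Sum.inl ⟨m, p⟩))
          then f (Sum.inr (Sum.inl ⟨m, p⟩)) else 0) ≤ (1 / 2) ^ (m.val + 1) := by
        intro m
        have h2 := col_sum_ite (fun p : col_WL Gr m.val => v ∈ p.1) (f2 m.val)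
        have h4 : ∑ p : col_WL Gr m.val, (if v ∈ supp (Sum.inr (Sum.inl ⟨m, p⟩))
          then f (Sum.inr (Sum.inl ⟨m, p⟩)) else 0) = ∑ p : col_WL Gr m.val, (if v ∈ p.1 then f2 m.val else 0) := by
          apply sum_congr rfl
          intro p _
          simp only [supp, f, List.mem_toFinset]
        rw [h4, h2]
        have h5 : ((Nat.card {p : col_WL Gr m.val // v ∈ p.1} : ℕ) : ℝ) ≤ (m.val + 2) * (D : ℝ) ^ (m.val + 1) := by
          exact_mod_cast col_thr Gr D hD m.val v
        simp only [f2]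
        have h6 : (C : ℝ) ^ m.val * D ^ (m.val + 1) * D ^ (m.val + 1) ≤ E ^ (m.val + 1) := by
          have h7 : (E : ℝ) = (C + 1) * (D + 1) ^ 2 := by rw [hE]; push_cast; ring
          rw [h7, mul_pow, ← pow_mul, mul_assoc, ← pow_add]
          have h8 : (C : ℝ) ^ m.val ≤ (C + 1) ^ (m.val + 1) := by
            calc (C : ℝ) ^ m.val ≤ (C + 1) ^ m.val := pow_le_pow_left₀ (by positivity) (by linarith) _
              _ ≤ (C + 1) ^ (m.val + 1) := pow_le_pow_right₀ (by have : (0:ℝ) ≤ C := by positivity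
                                                                 linarith) (by omega)
          have h9 : (D : ℝ) ^ (m.val + 1 + (m.val + 1)) ≤ (D + 1) ^ (2 * (m.val + 1)) := by
            rw [two_mul]
            exact pow_le_pow_left₀ (by positivity) (by linarith) _
          exact mul_le_mul h8 h9 (by positivity) (by positivity)
        have h10 : ((m.val : ℝ) + 2) ≤ 2 ^ (m.val + 1) := by
          have : m.val + 2 ≤ 2 ^ (m.val + 1) := by
            have := Nat.lt_two_pow_self (n := m.val + 1)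
            omega
          exact_mod_cast this
        have h11 : (8 * E : ℝ) ^ (m.val + 1) ≤ κ ^ (m.val + 1) :=
          pow_le_pow_left₀ (by positivity) hκr _
        have h12 : (0 : ℝ) < κ ^ (m.val + 1) := by positivity
        calc ((Nat.card {p : col_WL Gr m.val // v ∈ p.1} : ℕ) : ℝ) * ((C : ℝ) ^ m.val * D ^ (m.val + 1) / κ ^ (m.val + 1))
            ≤ ((m.val + 2) * (D : ℝ) ^ (m.val + 1)) * ((C : ℝ) ^ m.val * D ^ (m.val + 1) / κ ^ (m.val + 1)) :=
              mul_le_mul_of_nonneg_right h5 (by positivity)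
          _ = (m.val + 2) * ((C : ℝ) ^ m.val * D ^ (m.val + 1) * D ^ (m.val + 1)) / κ ^ (m.val + 1) := by ring
          _ ≤ 2 ^ (m.val + 1) * E ^ (m.val + 1) / κ ^ (m.val + 1) := by
              apply div_le_div_of_nonneg_right _ h12.le
              exact mul_le_mul h10 h6 (by positivity) (by positivity)
          _ ≤ (1 / 2) ^ (m.val + 1) := by
              rw [div_le_iff₀ h12]
              calc (2 : ℝ) ^ (m.val + 1) * E ^ (m.val + 1) = (1 / 2) ^ (m.val + 1) * (4 * E) ^ (m.val + 1) := by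
                    rw [← mul_pow, ← mul_pow]; congr 1; ring
                _ ≤ (1 / 2) ^ (m.val + 1) * κ ^ (m.val + 1) := by
                    apply mul_le_mul_of_nonneg_left _ (by positivity)
                    refine (pow_le_pow_left₀ (by positivity) ?_ _).trans h11
                    linarith
      refine (sum_le_sum (fun m _ => h1 m)).trans ?_
      rw [Fin.sum_univ_eq_sum_range (fun m => ((1 : ℝ) / 2) ^ (m + 1)) L]
      exact col_half_sum L
    have e3 : ∑ x : col_T3t Gr L, (if v ∈ supp (Sum.inr (Sum.inr x)) then f (Sum.inr (Sum.inr x)) else 0)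
        ≤ 1 := by
      have h1 := col_sum_ite (fun x : col_T3t Gr L => v ∈ x.1.1.1 ∨ v ∈ x.1.2.1) f3
      have h4 : ∑ x : col_T3t Gr L, (if v ∈ supp (Sum.inr (Sum.inr x)) then f (Sum.inr (Sum.inr x)) else 0)
          = ∑ x : col_T3t Gr L, (if (v ∈ x.1.1.1 ∨ v ∈ x.1.2.1) then f3 else 0) := by
        apply sum_congr rfl
        intro x _
        simp only [supp, f, mem_union, List.mem_toFinset]
      rw [h4, h1]
      have h2 := col_T3_count Gr D L hD v
      have h3 : 2 * (((L + 2) * D ^ (L + 1)) * (n * D ^ (L + 1))) ≤ γ ^ (L - 1) := by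
        have g1 : n * D ^ (L + 1) * D ^ (L + 1) ≤ E ^ (L + 1) := by
          rw [hE, mul_pow, ← pow_mul, mul_assoc, ← pow_add]
          apply Nat.mul_le_mul
          · refine hn.trans ?_
            exact (Nat.pow_le_pow_left (by omega) L).trans (Nat.pow_le_pow_right (by omega) (by omega))
          · rw [two_mul]
            exact Nat.pow_le_pow_left (by omega) _
        have g2 : 2 * (L + 2) ≤ 8 ^ (L - 1) := by
          have g3 : L + 2 < 2 ^ (L + 2) := Nat.lt_two_pow_self
          have g4 : ∀ j : ℕ, 2 * (j + 3 + 2) ≤ 8 ^ (j + 2) := by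
            intro j
            induction j with
            | zero => norm_num
            | succ j ih => rw [pow_succ]; omega
          have g5 := g4 (L - 3)
          have g6 : L - 3 + 3 + 2 = L + 2 := by omega
          have g7 : L - 3 + 2 = L - 1 := by omega
          rw [g6, g7] at g5
          exact g5
        have g8 : E ^ (L + 1) ≤ E ^ (2 * (L - 1)) := Nat.pow_le_pow_right hE1 (by omega)
        calc 2 * (((L + 2) * D ^ (L + 1)) * (n * D ^ (L + 1)))
            = (2 * (L + 2)) * (n * D ^ (L + 1) * D ^ (L + 1)) := by ring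
          _ ≤ 8 ^ (L - 1) * E ^ (2 * (L - 1)) := Nat.mul_le_mul g2 (g1.trans g8)
          _ = γ ^ (L - 1) := by rw [hγ, mul_pow, ← pow_mul]
      have h5 : ((Nat.card {x : col_T3t Gr L // v ∈ x.1.1.1 ∨ v ∈ x.1.2.1} : ℕ) : ℝ) ≤ (γ : ℝ) ^ (L - 1) := by
        exact_mod_cast h2.trans h3
      simp only [f3]
      rw [mul_one_div, div_le_one (by positivity)]
      exact h5
    have e4 : (2 * (D + D * D) : ℝ) + (1 + 1) ≤ κ := by
      have : 2 * (D + D * D) + (1 + 1) ≤ κ := by
        refine le_trans ?_ (hγE.trans hκγ)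
        rw [hE]
        nlinarith [Nat.zero_le C, Nat.zero_le D, Nat.zero_le (C * (D + 1) ^ 2)]
      exact_mod_cast this
    linarith
  obtain ⟨c, hc⟩ := rosenfeld (V := Fin n) (P := P) (2 * κ) (κ : ℝ) hκ0 bad supp
    (by
      rintro (x | x | x)
      · exact ⟨x.1.1, by simp [supp]⟩
      · have h : 0 < x.2.1.length := by rw [x.2.2.2]; omega
        exact ⟨x.2.1[0], by simp only [supp, List.mem_toFinset]; exact List.getElem_mem _⟩
      · have h : 0 < x.1.1.1.length := by rw [x.1.1.2.2]; omega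
        exact ⟨x.1.1.1[0], by
          simp only [supp, mem_union, List.mem_toFinset]
          left; exact List.getElem_mem _⟩)
    (by
      rintro (x | x | x) c c' hcc' hb
      · simp only [bad, supp, mem_insert, mem_singleton] at hb hcc' ⊢
        rw [← hcc' _ (Or.inl rfl), ← hcc' _ (Or.inr rfl)]
        exact hb
      · simp only [bad, supp, List.mem_toFinset] at hb hcc' ⊢
        rw [← List.map_congr_left (fun a ha => hcc' a ha)]
        exact hb
      · simp only [bad, supp, mem_union, List.mem_toFinset] at hb hcc' ⊢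
        rw [← List.map_congr_left (fun a ha => hcc' a (Or.inl ha)),
          ← List.map_congr_left (fun a ha => hcc' a (Or.inr ha))]
        exact hb)
    S w (fun x v hv => ⟨(hSw x v hv).1, (hSw x v hv).2.1⟩)
    (fun x v hv c => (hSw x v hv).2.2.1 c)
    (by
      intro v
      have h1 : ∑ x ∈ univ.filter (fun x : P => v ∈ supp x),
          (w x v : ℝ) / (κ : ℝ) ^ ((S x v).card - 1) ≤ ∑ x ∈ univ.filter (fun x : P => v ∈ supp x), f x := by
        apply sum_le_sum
        intro x hx
        exact (hSw x v (mem_filter.mp hx).2).2.2.2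
      have h2 := hsumf v
      push_cast
      linarith)
  have hnear : ∀ u v, col_near Gr u v → c u ≠ c v := by
    intro u v huv h
    exact hc (Sum.inl ⟨(u, v), huv⟩) h
  refine ⟨c, ?_, ?_, ?_, ?_⟩
  · intro u v huv
    exact hnear u v ⟨huv.ne, Or.inl huv⟩
  · intro u v w' huv hvw hne
    exact hnear u w' ⟨hne, Or.inr ⟨v, huv, hvw⟩⟩
  · intro m _ hm p hp hpl h
    exact hc (Sum.inr (Sum.inl ⟨⟨m, hm⟩, ⟨p, hp, hpl⟩⟩)) h
  · intro p q hp hq hpl hql hpq
    by_cases hmeet : ∃ t, ∃ (h1 : t < p.length) (h2 : t < q.length), p[t] = q[t]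
    · obtain ⟨t, h1, h2, h⟩ := hmeet
      exact col_eq_of_meet Gr c hnear p q hp hq (L + 2) hpl hql hpq t h1 h2 h
    · exfalso
      apply hc (Sum.inr (Sum.inr ⟨(⟨p, hp, hpl⟩, ⟨q, hq, hql⟩), ?_⟩)) hpq
      intro t h1 h2 h
      exact hmeet ⟨t, h1, h2, h⟩

end Pool.Agent.H76.SC
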