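import Mathlib

set_option autoImplicit false

namespace Pool.Agent.H76.SC

open Finset

/-- number of ordered adjacent pairs in `U × W`. -/
noncomputable def gr_e {N : ℕ} (G : SimpleGraph (Fin N)) (U W : Finset (Fin N)) : ℕ :=
  by classical exact ((U ×ˢ W).filter (fun p => G.Adj p.1 p.2)).card

/-- degree -/
noncomputable def gr_deg {N : ℕ} (G : SimpleGraph (Fin N)) (v : Fin N) : ℕ :=
  by classical exact (univ.filter (fun u => G.Adj v u)).card

theorem gr_e_mono {N : ℕ} (G : SimpleGraph (Fin N)) {U W U' W' : Finset (Fin N)}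
    (hU : U ⊆ U') (hW : W ⊆ W') : gr_e G U W ≤ gr_e G U' W' := by
  classical
  unfold gr_e
  exact card_le_card (filter_subset_filter _ (product_subset_product hU hW))

theorem gr_e_union_right {N : ℕ} (G : SimpleGraph (Fin N)) (U W W' : Finset (Fin N)) :
    gr_e G U (W ∪ W') ≤ gr_e G U W + gr_e G U W' := by
  classical
  unfold gr_e
  rw [product_union, filter_union]
  exact card_union_le _ _

theorem gr_e_union_left {N : ℕ} (G : SimpleGraph (Fin N)) (U U' W : Finset (Fin N)) :
    gr_e G (U ∪ U') W ≤ gr_e G U W + gr_e G U' W := by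
  classical
  unfold gr_e
  rw [union_product, filter_union]
  exact card_union_le _ _

theorem gr_e_le_deg {N : ℕ} (G : SimpleGraph (Fin N)) (U B : Finset (Fin N)) :
    gr_e G U B ≤ ∑ v ∈ B, gr_deg G v := by
  classical
  unfold gr_e gr_deg
  have : ((U ×ˢ B).filter (fun p => G.Adj p.1 p.2)).card
      ≤ (B.sigma (fun v => univ.filter (fun u => G.Adj v u))).card := by
    apply card_le_card_of_injOn (fun p => ⟨p.2, p.1⟩)
    · intro p hp
      simp only [coe_filter, mem_product, Set.mem_ofPred_eq] at hp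
      simp only [coe_sigma, Set.mem_sigma_iff, mem_coe, mem_filter, mem_univ, true_and]
      exact ⟨hp.1.2, hp.2.symm⟩
    · intro p _ q _ h
      simp only [Sigma.mk.injEq, heq_eq_eq] at h
      exact Prod.ext h.2 h.1
  rwa [card_sigma] at this

theorem gr_clean (N T D : ℕ) (G : SimpleGraph (Fin N)) (hN : 0 < N)
    (ha : ∀ A : Finset (Fin N), N ≤ 8 * A.card → 4 * A.card ≤ 3 * N →
      A.card ≤ gr_e G A Aᶜ)
    (B : Finset (Fin N)) (hB : 16 * B.card ≤ N) (hBe : 16 * ∑ v ∈ B, gr_deg G v ≤ N)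
    (hdeg : ∀ v, v ∉ B → gr_deg G v ≤ D)
    (hcyc : ∀ (m : ℕ) (v : ℕ → Fin N), 3 ≤ m → m < T →
      (∀ i < m, ∀ j < m, v i = v j → i = j) →
      (∀ i, i + 1 < m → G.Adj (v i) (v (i + 1))) → G.Adj (v (m - 1)) (v 0) →
      ∃ i < m, v i ∈ B) :
    ∃ (n : ℕ) (Gr : SimpleGraph (Fin n)), N ≤ 2 * n ∧ n ≤ N ∧
      (∀ v, Nat.card {u // Gr.Adj v u} ≤ D) ∧
      (∀ A : Finset (Fin n), 2 * A.card ≤ n →
        A.card ≤ 2 * Nat.card {p : Fin n × Fin n // p.1 ∈ A ∧ p.2 ∉ A ∧ Gr.Adj p.1 p.2}) ∧
      (∀ (m : ℕ) (v : ℕ → Fin n), 3 ≤ m → m < T → (∀ i < m, ∀ j < m, v i = v j → i = j) →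
        (∀ i, i + 1 < m → Gr.Adj (v i) (v (i + 1))) → ¬ Gr.Adj (v (m - 1)) (v 0)) := by
  classical
  -- V' = complement of B
  set V1 : Finset (Fin N) := Bᶜ with hV1
  have hcardV1 : V1.card + B.card = N := by
    rw [hV1, card_compl, Fintype.card_fin]
    have := card_le_univ B
    rw [Fintype.card_fin] at this
    omega
  -- expansion inside V1
  have hexp1 : ∀ A : Finset (Fin N), A ⊆ V1 → N ≤ 8 * A.card → 4 * A.card ≤ 3 * N →
      A.card ≤ 2 * gr_e G A (V1 \ A) := by
    intro A hA h1 h2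
    have h3 := ha A h1 h2
    have h4 : Aᶜ ⊆ (V1 \ A) ∪ B := by
      intro x hx
      simp only [mem_union, mem_sdiff, hV1, mem_compl] at hx ⊢
      tauto
    have h5 := (gr_e_mono G (subset_refl A) h4).trans (gr_e_union_right G A _ _)
    have h6 := gr_e_le_deg G A B
    omega
  -- choose Z maximal
  let fam : Finset (Finset (Fin N)) := V1.powerset.filter
    (fun Z => 4 * Z.card ≤ 3 * N ∧ (Z = ∅ ∨ 2 * gr_e G Z (V1 \ Z) < Z.card))
  have hfam : fam.Nonempty := ⟨∅, by simp [fam]⟩
  obtain ⟨Z, hZmem, hZmax⟩ := exists_max_image fam (fun Z => Z.card) hfam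
  simp only [fam, mem_filter, mem_powerset] at hZmem
  obtain ⟨hZV, hZ34, hZbad⟩ := hZmem
  have hZsmall : 8 * Z.card < N := by
    by_contra hcon
    push Not at hcon
    have := hexp1 Z hZV hcon hZ34
    rcases hZbad with h | h
    · rw [h] at hcon; simp at hcon; omega
    · omega
  set V2 : Finset (Fin N) := V1 \ Z with hV2
  have hcardV2 : V2.card + Z.card = V1.card := by
    rw [hV2]; exact card_sdiff_add_card_eq_card hZV
  let n := V2.card
  have e : Fin n ≃ V2 := V2.equivFin.symm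
  let f : Fin n → Fin N := fun i => (e i : Fin N)
  have hf : Function.Injective f := fun i j h => e.injective (Subtype.ext h)
  have hfV : ∀ i, f i ∈ V2 := fun i => (e i).2
  have hfsurj : ∀ x ∈ V2, ∃ i, f i = x := fun x hx => ⟨e.symm ⟨x, hx⟩, by simp [f]⟩
  refine ⟨n, G.comap f, by omega, by omega, ?_, ?_, ?_⟩
  · intro v
    have hv : f v ∉ B := by
      have := hfV v
      simp only [hV2, hV1, mem_sdiff, mem_compl] at this
      exact this.1
    refine le_trans ?_ (hdeg (f v) hv)
    unfold gr_deg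
    rw [Nat.card_eq_fintype_card, Fintype.card_subtype]
    apply card_le_card_of_injOn f
    · intro u hu
      simpa using hu
    · exact hf.injOn
  · intro A hA
    by_cases hA0 : A = ∅
    · simp [hA0]
    by_contra hcon
    push Not at hcon
    let A' : Finset (Fin N) := A.image f
    have hA'card : A'.card = A.card := card_image_of_injective _ hf
    have hA'V2 : A' ⊆ V2 := by
      intro x hx
      obtain ⟨i, _, rfl⟩ := mem_image.mp hx
      exact hfV i
    have hEdge : gr_e G A' (V2 \ A') ≤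
        Nat.card {p : Fin n × Fin n // p.1 ∈ A ∧ p.2 ∉ A ∧ (G.comap f).Adj p.1 p.2} := by
      rw [Nat.card_eq_fintype_card, Fintype.card_subtype]
      unfold gr_e
      have : (((A' ×ˢ (V2 \ A')).filter (fun p => G.Adj p.1 p.2))) ⊆
        (univ.filter (fun p : Fin n × Fin n => p.1 ∈ A ∧ p.2 ∉ A ∧ (G.comap f).Adj p.1 p.2)).image
          (fun p => (f p.1, f p.2)) := by
        rintro ⟨x, y⟩ hp
        simp only [mem_filter, mem_product, mem_sdiff] at hp
        obtain ⟨⟨hx, hy, hyA⟩, hadj⟩ := hp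
        obtain ⟨i, hi, rfl⟩ := mem_image.mp hx
        obtain ⟨j, rfl⟩ := hfsurj y hy
        refine mem_image.mpr ⟨(i, j), ?_, rfl⟩
        simp only [mem_filter, mem_univ, true_and, SimpleGraph.comap_adj]
        exact ⟨hi, fun h => hyA (mem_image_of_mem f h), hadj⟩
      exact (card_le_card this).trans card_image_le
    have hApos : 0 < A'.card := by
      rw [hA'card]; exact card_pos.mpr (nonempty_iff_ne_empty.mpr hA0)
    have hdisj : Disjoint A' Z := by
      rw [disjoint_left]
      intro x hx hxZ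
      have := hA'V2 hx
      simp only [hV2, mem_sdiff] at this
      exact this.2 hxZ
    have hcardU : (A' ∪ Z).card = A'.card + Z.card := card_union_of_disjoint hdisj
    have hA'V1 : A' ⊆ V1 := hA'V2.trans sdiff_subset
    have hbd : gr_e G (A' ∪ Z) (V1 \ (A' ∪ Z)) ≤ gr_e G A' (V2 \ A') + gr_e G Z V2 := by
      refine (gr_e_union_left G A' Z _).trans (add_le_add ?_ ?_)
      · apply gr_e_mono G (subset_refl _)
        intro x hx
        simp only [mem_sdiff, mem_union, hV2] at hx ⊢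
        tauto
      · apply gr_e_mono G (subset_refl _)
        intro x hx
        simp only [mem_sdiff, mem_union, hV2] at hx ⊢
        tauto
    have hZe : 2 * gr_e G Z V2 ≤ Z.card := by
      rcases hZbad with h | h
      · rw [h]; simp [gr_e]
      · omega
    have hin : (A' ∪ Z) ∈ fam := by
      simp only [fam, mem_filter, mem_powerset]
      refine ⟨union_subset hA'V1 hZV, ?_, Or.inr ?_⟩
      · have : V2.card = n := rfl
        rw [hcardU]
        omega
      · rw [hcardU]
        omega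
    have := hZmax _ hin
    rw [hcardU] at this
    omega
  · intro m v hm hmT hinj hadj hclose
    obtain ⟨i, hi, hiB⟩ := hcyc m (fun i => f (v i)) hm hmT
      (fun i hi j hj h => hinj i hi j hj (hf h)) (fun i hi => hadj i hi) hclose
    have := hfV (v i)
    simp only [hV2, hV1, mem_sdiff, mem_compl] at this
    exact this.1 hiB


/-! ### The probability space `Fin N × Fin N → Fin N` -/

theorem gr_sum_prod (N : ℕ) (S : Finset (Fin N × Fin N)) (h : Fin N → ℝ) (hN : 0 < N) :
    ∑ F : (Fin N × Fin N → Fin N), ∏ p ∈ S, h (F p)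
      = (N : ℝ) ^ (N * N) * ((∑ x, h x) / N) ^ S.card := by
  classical
  have hN' : (N : ℝ) ≠ 0 := by positivity
  have h1 : ∀ F : (Fin N × Fin N → Fin N),
      ∏ p ∈ S, h (F p) = ∏ p, (if p ∈ S then h (F p) else 1) := by
    intro F
    rw [prod_ite_mem]
    simp
  simp_rw [h1]
  have h2 := (prod_univ_sum (fun _ : Fin N × Fin N => (univ : Finset (Fin N)))
    (fun p x => if p ∈ S then h x else 1)).symm
  rw [Fintype.piFinset_univ] at h2
  rw [h2]
  have h3 : ∀ p : Fin N × Fin N, (∑ x : Fin N, (if p ∈ S then h x else 1))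
      = (N : ℝ) * (if p ∈ S then ((∑ x, h x) / N) else 1) := by
    intro p
    split_ifs with hp
    · field_simp
    · simp
  simp_rw [h3]
  rw [prod_mul_distrib, prod_const, prod_ite_mem]
  simp [div_pow]

theorem gr_sum_ind (N c : ℕ) (S : Finset (Fin N × Fin N)) (hN : 0 < N) (hc : c ≤ N) :
    ∑ F : (Fin N × Fin N → Fin N), (if ∀ p ∈ S, (F p).val < c then (1 : ℝ) else 0)
      = (N : ℝ) ^ (N * N) * ((c : ℝ) / N) ^ S.card := by
  classical
  have := gr_sum_prod N S (fun x => if x.val < c then (1 : ℝ) else 0) hN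
  have h2 : ∑ x : Fin N, (if x.val < c then (1 : ℝ) else 0) = c := by
    rw [Finset.sum_boole]
    have : (univ.filter (fun x : Fin N => x.val < c)).card = c := by
      rw [Fin.card_filter_val_lt]
      omega
    rw [this]
  rw [h2] at this
  rw [← this]
  apply sum_congr rfl
  intro F _
  by_cases hF : ∀ p ∈ S, (F p).val < c
  · rw [if_pos hF, prod_eq_one]
    intro p hp
    rw [if_pos (hF p hp)]
  · rw [if_neg hF]
    push Not at hF
    obtain ⟨p, hp, hp2⟩ := hF
    rw [prod_eq_zero hp]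
    rw [if_neg (by omega)]

/-- crossing count -/
noncomputable def gr_X {N : ℕ} (c : ℕ) (F : Fin N × Fin N → Fin N) (A : Finset (Fin N)) : ℕ :=
  by classical exact ((A ×ˢ Aᶜ).filter (fun p => (F p).val < c)).card

theorem gr_sum_half (N c : ℕ) (A : Finset (Fin N)) (hN : 0 < N) (hc : c ≤ N) :
    ∑ F : (Fin N × Fin N → Fin N), ((1 : ℝ) / 2) ^ (gr_X c F A)
      = (N : ℝ) ^ (N * N) * ((1 : ℝ) - c / (2 * N)) ^ (A.card * (N - A.card)) := by
  classical
  have hN' : (N : ℝ) ≠ 0 := by positivity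
  have := gr_sum_prod N (A ×ˢ Aᶜ) (fun x => if x.val < c then (1 : ℝ) / 2 else 1) hN
  have h2 : ∑ x : Fin N, (if x.val < c then (1 : ℝ) / 2 else 1) = N - c / 2 := by
    have h3 : ∀ x : Fin N, (if x.val < c then (1 : ℝ) / 2 else 1)
        = 1 - (1/2) * (if x.val < c then (1 : ℝ) else 0) := by
      intro x; split_ifs <;> norm_num
    simp_rw [h3]
    rw [sum_sub_distrib, ← mul_sum, Finset.sum_boole]
    have : (univ.filter (fun x : Fin N => x.val < c)).card = c := by
      rw [Fin.card_filter_val_lt]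
      omega
    rw [this]
    simp
    ring
  rw [h2, card_product, card_compl, Fintype.card_fin] at this
  have h4 : ((N : ℝ) - c / 2) / N = 1 - c / (2 * N) := by
    field_simp
  rw [h4] at this
  rw [← this]
  apply sum_congr rfl
  intro F _
  unfold gr_X
  rw [← prod_const, prod_filter]

/-- the graph of `F`. -/
def gr_G {N : ℕ} (c : ℕ) (F : Fin N × Fin N → Fin N) : SimpleGraph (Fin N) where
  Adj u v := u ≠ v ∧ ((F (u, v)).val < c ∨ (F (v, u)).val < c)
  symm := ⟨fun _ _ h => ⟨h.1.symm, h.2.symm⟩⟩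
  loopless := ⟨fun _ h => h.1 rfl⟩

theorem gr_X_le {N : ℕ} (c : ℕ) (F : Fin N × Fin N → Fin N) (A : Finset (Fin N)) :
    gr_X c F A ≤ gr_e (gr_G c F) A Aᶜ := by
  classical
  unfold gr_X gr_e
  apply card_le_card
  intro p hp
  simp only [mem_filter, mem_product, mem_compl] at hp ⊢
  refine ⟨hp.1, ?_, Or.inl hp.2⟩
  intro h
  rw [h] at hp
  exact hp.1.2 hp.1.1

theorem gr_sum_deg2 (N c : ℕ) (v : Fin N) (hN : 0 < N) (hc : c ≤ N) :
    ∑ F : (Fin N × Fin N → Fin N), ((gr_deg (gr_G c F) v : ℝ)) ^ 2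
      ≤ (N : ℝ) ^ (N * N) * (4 * (c + c ^ 2)) := by
  classical
  have hN' : (N : ℝ) ≠ 0 := by positivity
  have hNpos : (0 : ℝ) < N := by positivity
  -- out and in
  let out : (Fin N × Fin N → Fin N) → ℝ := fun F => ∑ u : Fin N, (if (F (v, u)).val < c then (1:ℝ) else 0)
  let inn : (Fin N × Fin N → Fin N) → ℝ := fun F => ∑ u : Fin N, (if (F (u, v)).val < c then (1:ℝ) else 0)
  have hdeg : ∀ F, (gr_deg (gr_G c F) v : ℝ) ≤ out F + inn F := by
    intro F
    unfold gr_deg
    rw [← Finset.sum_boole]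
    simp only [out, inn]
    rw [← sum_add_distrib]
    apply sum_le_sum
    intro u _
    by_cases h1 : (F (v, u)).val < c
    · rw [if_pos h1]
      split_ifs <;> norm_num
    · by_cases h2 : (F (u, v)).val < c
      · rw [if_pos h2, if_neg h1]
        split_ifs <;> norm_num
      · rw [if_neg h1, if_neg h2, if_neg]
        · norm_num
        · rintro ⟨_, h | h⟩
          · exact h1 h
          · exact h2 h
  have hsq : ∀ F, (gr_deg (gr_G c F) v : ℝ) ^ 2 ≤ 2 * (out F) ^ 2 + 2 * (inn F) ^ 2 := by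
    intro F
    have h0 : (0 : ℝ) ≤ gr_deg (gr_G c F) v := by positivity
    nlinarith [hdeg F, sq_nonneg (out F - inn F), pow_le_pow_left₀ h0 (hdeg F) 2]
  have key : ∀ (g : Fin N → Fin N × Fin N), Function.Injective g →
      ∑ F : (Fin N × Fin N → Fin N), (∑ u : Fin N, (if (F (g u)).val < c then (1:ℝ) else 0)) ^ 2
        ≤ (N : ℝ) ^ (N * N) * (c + c ^ 2) := by
    intro g hg
    have h1 : ∀ F : (Fin N × Fin N → Fin N),
        (∑ u : Fin N, (if (F (g u)).val < c then (1:ℝ) else 0)) ^ 2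
        = ∑ u : Fin N, ∑ u' : Fin N, (if ∀ p ∈ ({g u, g u'} : Finset (Fin N × Fin N)), (F p).val < c then (1:ℝ) else 0) := by
      intro F
      rw [sq, sum_mul_sum]
      apply sum_congr rfl
      intro u _
      apply sum_congr rfl
      intro u' _
      by_cases h1 : (F (g u)).val < c
      · by_cases h2 : (F (g u')).val < c
        · rw [if_pos h1, if_pos h2, if_pos]
          · norm_num
          · intro p hp
            simp only [mem_insert, mem_singleton] at hp
            rcases hp with rfl | rfl <;> assumption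
        · rw [if_neg h2, mul_zero, if_neg]
          intro h
          exact h2 (h _ (by simp))
      · rw [if_neg h1, zero_mul, if_neg]
        intro h
        exact h1 (h _ (by simp))
    simp_rw [h1]
    rw [sum_comm]
    have h2 : ∀ u : Fin N, ∑ F : (Fin N × Fin N → Fin N), ∑ u' : Fin N, (if ∀ p ∈ ({g u, g u'} : Finset (Fin N × Fin N)), (F p).val < c then (1:ℝ) else 0)
        ≤ (N : ℝ) ^ (N * N) * ((c + c ^ 2) / N) := by
      intro u
      rw [sum_comm]
      simp_rw [gr_sum_ind N c _ hN hc]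
      rw [← mul_sum]
      apply mul_le_mul_of_nonneg_left _ (by positivity)
      have h3 : ∀ u' : Fin N, ((c : ℝ) / N) ^ (({g u, g u'} : Finset (Fin N × Fin N)).card)
          ≤ (if u' = u then ((c : ℝ) / N) else 0) + ((c : ℝ) / N) ^ 2 := by
        intro u'
        by_cases huu : u' = u
        · rw [if_pos huu, huu, pair_eq_singleton, card_singleton, pow_one]
          have : (0:ℝ) ≤ ((c : ℝ) / N) ^ 2 := by positivity
          linarith
        · rw [if_neg huu, card_pair (fun h => huu (hg h).symm)]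
          simp
      refine (sum_le_sum (fun u' _ => h3 u')).trans ?_
      rw [sum_add_distrib, sum_ite_eq' univ u]
      simp only [mem_univ, if_true, sum_const, card_univ, Fintype.card_fin, nsmul_eq_mul]
      apply le_of_eq
      field_simp
    refine (sum_le_sum (fun u _ => h2 u)).trans ?_
    simp only [sum_const, card_univ, Fintype.card_fin, nsmul_eq_mul]
    apply le_of_eq
    field_simp
  have ho := key (fun u => (v, u)) (fun a b h => by simpa using h)
  have hi := key (fun u => (u, v)) (fun a b h => by simpa using h)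
  calc ∑ F : (Fin N × Fin N → Fin N), ((gr_deg (gr_G c F) v : ℝ)) ^ 2
      ≤ ∑ F : (Fin N × Fin N → Fin N), (2 * (out F) ^ 2 + 2 * (inn F) ^ 2) :=
        sum_le_sum (fun F _ => hsq F)
    _ = 2 * ∑ F : (Fin N × Fin N → Fin N), (out F) ^ 2 + 2 * ∑ F : (Fin N × Fin N → Fin N), (inn F) ^ 2 := by
        rw [sum_add_distrib, mul_sum, mul_sum]
    _ ≤ 2 * ((N : ℝ) ^ (N * N) * (c + c ^ 2)) + 2 * ((N : ℝ) ^ (N * N) * (c + c ^ 2)) := by
        have := ho; have := hi
        simp only [out, inn]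
        linarith
    _ = (N : ℝ) ^ (N * N) * (4 * (c + c ^ 2)) := by ring

/-! ### Cycles -/

def gr_nxt {m : ℕ} (i : Fin m) : Fin m := ⟨(i.val + 1) % m, Nat.mod_lt _ i.pos⟩

theorem gr_nxt_val {m : ℕ} (i : Fin m) :
    (gr_nxt i).val = if i.val + 1 < m then i.val + 1 else 0 := by
  unfold gr_nxt
  split_ifs with h
  · exact Nat.mod_eq_of_lt h
  · have : i.val + 1 = m := by have := i.2; omega
    simp [this]

def gr_isCyc {N : ℕ} (G : SimpleGraph (Fin N)) (m : ℕ) (w : Fin m → Fin N) : Prop :=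
  Function.Injective w ∧ ∀ i, G.Adj (w i) (w (gr_nxt i))

noncomputable def gr_cyc {N : ℕ} (G : SimpleGraph (Fin N)) (m : ℕ) : Finset (Fin m → Fin N) :=
  by classical exact univ.filter (gr_isCyc G m)

theorem gr_sum_cyc (N c m : ℕ) (hN : 0 < N) (hc : c ≤ N) (hm : 3 ≤ m) :
    ∑ F : (Fin N × Fin N → Fin N), ((gr_cyc (gr_G c F) m).card : ℝ)
      ≤ (N : ℝ) ^ (N * N) * (2 * c) ^ m := by
  classical
  have hN' : (N : ℝ) ≠ 0 := by positivity
  let P : (Fin m → Fin N) → (Fin m → Bool) → Fin m → Fin N × Fin N :=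
    fun w o i => if o i then (w i, w (gr_nxt i)) else (w (gr_nxt i), w i)
  have hP : ∀ w o, Function.Injective w → Function.Injective (P w o) := by
    intro w o hw i j hij
    have h1 : (w i = w j) ∨ (w i = w (gr_nxt j) ∧ w (gr_nxt i) = w j) := by
      simp only [P] at hij
      split_ifs at hij with h1 h2 h2
      · left; exact (Prod.mk.inj hij).1
      · right; exact ⟨(Prod.mk.inj hij).1, (Prod.mk.inj hij).2⟩
      · right; exact ⟨(Prod.mk.inj hij).2, (Prod.mk.inj hij).1⟩
      · left; exact (Prod.mk.inj hij).2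
    rcases h1 with h | ⟨h, h'⟩
    · exact hw h
    · have e1 := congrArg Fin.val (hw h)
      have e2 := congrArg Fin.val (hw h')
      rw [gr_nxt_val] at e1 e2
      have := i.2
      have := j.2
      split_ifs at e1 e2 <;> omega
  have h1 : ∀ F : (Fin N × Fin N → Fin N), ((gr_cyc (gr_G c F) m).card : ℝ)
      ≤ ∑ w ∈ univ.filter (fun w : Fin m → Fin N => Function.Injective w), ∑ o : Fin m → Bool,
        (if ∀ p ∈ univ.image (P w o), (F p).val < c then (1 : ℝ) else 0) := by
    intro F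
    have h2 : ((gr_cyc (gr_G c F) m).card : ℝ) = ∑ w ∈ univ.filter (fun w : Fin m → Fin N => Function.Injective w),
        (if ∀ i, (gr_G c F).Adj (w i) (w (gr_nxt i)) then (1 : ℝ) else 0) := by
      rw [Finset.sum_boole, filter_filter]
      unfold gr_cyc gr_isCyc
      congr!
    rw [h2]
    apply sum_le_sum
    intro w _
    by_cases hadj : ∀ i, (gr_G c F).Adj (w i) (w (gr_nxt i))
    · rw [if_pos hadj]
      let o : Fin m → Bool := fun i => decide ((F (w i, w (gr_nxt i))).val < c)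
      have ho : ∀ p ∈ univ.image (P w o), (F p).val < c := by
        intro p hp
        obtain ⟨i, _, rfl⟩ := mem_image.mp hp
        simp only [P, o, decide_eq_true_eq]
        split_ifs with h
        · exact h
        · exact (hadj i).2.resolve_left h
      calc (1 : ℝ) = (if ∀ p ∈ univ.image (P w o), (F p).val < c then (1 : ℝ) else 0) := by
            rw [if_pos ho]
        _ ≤ _ := single_le_sum (f := fun o => (if ∀ p ∈ univ.image (P w o), (F p).val < c then (1 : ℝ) else 0))
            (fun o _ => by split_ifs <;> norm_num) (mem_univ o)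
    · rw [if_neg hadj]
      exact sum_nonneg (fun o _ => by split_ifs <;> norm_num)
  refine (sum_le_sum (fun F _ => h1 F)).trans ?_
  rw [sum_comm]
  have h3 : ∀ w ∈ univ.filter (fun w : Fin m → Fin N => Function.Injective w),
      ∑ F : (Fin N × Fin N → Fin N), ∑ o : Fin m → Bool,
        (if ∀ p ∈ univ.image (P w o), (F p).val < c then (1 : ℝ) else 0)
      ≤ (N : ℝ) ^ (N * N) * (2 ^ m * ((c : ℝ) / N) ^ m) := by
    intro w hw
    have hw' : Function.Injective w := (mem_filter.mp hw).2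
    rw [sum_comm]
    simp_rw [gr_sum_ind N c _ hN hc]
    apply le_of_eq
    have : ∀ o : Fin m → Bool, (univ.image (P w o)).card = m := by
      intro o
      rw [card_image_of_injective _ (hP w o hw'), card_univ, Fintype.card_fin]
    simp_rw [this]
    simp
    ring
  refine (sum_le_sum h3).trans ?_
  rw [sum_const, nsmul_eq_mul]
  have h4 : ((univ.filter (fun w : Fin m → Fin N => Function.Injective w)).card : ℝ) ≤ (N : ℝ) ^ m := by
    have := card_filter_le (univ : Finset (Fin m → Fin N)) (fun w => Function.Injective w)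
    rw [card_univ] at this
    simp only [Fintype.card_pi, Fintype.card_fin, prod_const, card_univ] at this
    exact_mod_cast this
  calc _ ≤ (N : ℝ) ^ m * ((N : ℝ) ^ (N * N) * (2 ^ m * ((c : ℝ) / N) ^ m)) :=
        mul_le_mul_of_nonneg_right h4 (by positivity)
    _ = (N : ℝ) ^ (N * N) * (2 * c) ^ m := by
        rw [div_pow, mul_pow]
        field_simp

/-! ### Choice of a good `F` -/

theorem gr_choose (N T : ℕ) (hT : 200 ≤ T) (hN : N = 512 ^ T) :
    ∃ F : Fin N × Fin N → Fin N,
      (∀ A : Finset (Fin N), N ≤ 8 * A.card → 4 * A.card ≤ 3 * N → A.card ≤ gr_X 128 F A) ∧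
      (∑ v, ((gr_deg (gr_G 128 F) v : ℝ)) ^ 2 ≤ 16 * 16512 * N) ∧
      (∑ m ∈ Ico 3 T, ((gr_cyc (gr_G 128 F) m).card : ℝ) ≤ 4 * 256 ^ T) := by
  classical
  have hNT : 512 ≤ N := by
    rw [hN]
    calc 512 = 512 ^ 1 := by norm_num
      _ ≤ 512 ^ T := Nat.pow_le_pow_right (by norm_num) (by omega)
  have hN0 : 0 < N := by omega
  have hc : 128 ≤ N := by omega
  have hNr : (512 : ℝ) ≤ N := by exact_mod_cast hNT
  have hNpos : (0 : ℝ) < N := by linarith
  set Q : ℝ := (N : ℝ) ^ (N * N) with hQ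
  have hQpos : 0 < Q := by positivity
  let fam : Finset (Finset (Fin N)) := univ.filter (fun A => N ≤ 8 * A.card ∧ 4 * A.card ≤ 3 * N)
  -- (a)
  have hA : ∑ F : (Fin N × Fin N → Fin N), ∑ A ∈ fam, (2 : ℝ) ^ A.card * (1 / 2) ^ (gr_X 128 F A)
      ≤ Q * (1 / 4) := by
    rw [sum_comm]
    have h1 : ∀ A ∈ fam, ∑ F : (Fin N × Fin N → Fin N), (2 : ℝ) ^ A.card * (1 / 2) ^ (gr_X 128 F A)
        ≤ Q * Real.exp (-(15 * N / 8)) := by
      intro A hA
      simp only [fam, mem_filter, mem_univ, true_and] at hA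
      rw [← mul_sum, gr_sum_half N 128 A hN0 hc]
      have hAr : (N : ℝ) ≤ 8 * A.card := by exact_mod_cast hA.1
      have hAr2 : 4 * (A.card : ℝ) ≤ 3 * N := by exact_mod_cast hA.2
      have hsub : ((N - A.card : ℕ) : ℝ) = N - A.card := by
        rw [Nat.cast_sub]; omega
      have h2 : (1 : ℝ) - ((128 : ℕ) : ℝ) / (2 * N) ≤ Real.exp (-(64 / N)) := by
        have := Real.add_one_le_exp (-(64 / (N : ℝ)))
        have h3 : (((128 : ℕ) : ℝ)) / (2 * N) = 64 / N := by
          push_cast
          field_simp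
          norm_num
        rw [h3]
        linarith
      have h0 : (0 : ℝ) ≤ 1 - ((128 : ℕ) : ℝ) / (2 * N) := by
        rw [sub_nonneg, div_le_one (by positivity)]
        push_cast
        linarith
      have h4 : ((1 : ℝ) - ((128 : ℕ) : ℝ) / (2 * N)) ^ (A.card * (N - A.card))
          ≤ Real.exp (-(16 * A.card)) := by
        refine (pow_le_pow_left₀ h0 h2 _).trans ?_
        rw [← Real.exp_nat_mul]
        apply Real.exp_le_exp.mpr
        rw [Nat.cast_mul, hsub]
        have h5 : (A.card : ℝ) * (N - A.card) * (64 / N) ≥ 16 * A.card := by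
          rw [ge_iff_le, mul_div_assoc', le_div_iff₀ hNpos]
          have hA0 : (0 : ℝ) ≤ A.card := by positivity
          nlinarith [mul_le_mul_of_nonneg_left hAr2 hA0]
        linarith
      have h6 : (2 : ℝ) ^ A.card ≤ Real.exp A.card := by
        have : (2 : ℝ) ≤ Real.exp 1 := by
          have := Real.add_one_le_exp (1 : ℝ)
          linarith
        calc (2 : ℝ) ^ A.card ≤ (Real.exp 1) ^ A.card := pow_le_pow_left₀ (by norm_num) this _
          _ = Real.exp A.card := by rw [← Real.exp_nat_mul]; simp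
      calc (2 : ℝ) ^ A.card * (Q * ((1 : ℝ) - ((128 : ℕ) : ℝ) / (2 * N)) ^ (A.card * (N - A.card)))
          ≤ Real.exp A.card * (Q * Real.exp (-(16 * A.card))) := by gcongr
        _ = Q * Real.exp (-(15 * A.card)) := by
            rw [mul_left_comm, ← Real.exp_add]
            congr 2
            ring
        _ ≤ Q * Real.exp (-(15 * N / 8)) := by
            apply mul_le_mul_of_nonneg_left _ hQpos.le
            apply Real.exp_le_exp.mpr
            linarith
    refine (sum_le_sum h1).trans ?_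
    rw [sum_const, nsmul_eq_mul]
    have h7 : (fam.card : ℝ) ≤ Real.exp N := by
      have h8 : fam.card ≤ 2 ^ N := by
        have := card_filter_le (univ : Finset (Finset (Fin N))) (fun A => N ≤ 8 * A.card ∧ 4 * A.card ≤ 3 * N)
        rw [card_univ, Fintype.card_finset, Fintype.card_fin] at this
        exact this
      have h9 : (fam.card : ℝ) ≤ 2 ^ N := by exact_mod_cast h8
      refine h9.trans ?_
      have : (2 : ℝ) ≤ Real.exp 1 := by
        have := Real.add_one_le_exp (1 : ℝ)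
        linarith
      calc (2 : ℝ) ^ N ≤ (Real.exp 1) ^ N := pow_le_pow_left₀ (by norm_num) this _
        _ = Real.exp N := by rw [← Real.exp_nat_mul]; simp
    calc (fam.card : ℝ) * (Q * Real.exp (-(15 * N / 8)))
        ≤ Real.exp N * (Q * Real.exp (-(15 * N / 8))) := by gcongr
      _ = Q * Real.exp (-(7 * N / 8)) := by
          rw [mul_left_comm, ← Real.exp_add]
          congr 2
          ring
      _ ≤ Q * (1 / 4) := by
          apply mul_le_mul_of_nonneg_left _ hQpos.le
          have h10 : Real.exp (-(7 * N / 8)) ≤ Real.exp (-3) := by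
            apply Real.exp_le_exp.mpr
            linarith
          have h11 : (4 : ℝ) ≤ Real.exp 3 := by
            have := Real.add_one_le_exp (3 : ℝ)
            linarith
          rw [Real.exp_neg 3] at h10
          refine h10.trans ?_
          rw [one_div]
          exact inv_anti₀ (by norm_num) h11
  -- (b)
  have hB : ∑ F : (Fin N × Fin N → Fin N), (∑ v, ((gr_deg (gr_G 128 F) v : ℝ)) ^ 2) / (16 * 16512 * N)
      ≤ Q * (1 / 4) := by
    rw [← sum_div, sum_comm, div_le_iff₀ (by positivity)]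
    refine (sum_le_sum (fun v _ => gr_sum_deg2 N 128 v hN0 hc)).trans ?_
    simp only [sum_const, card_univ, Fintype.card_fin, nsmul_eq_mul]
    apply le_of_eq
    rw [← hQ]
    push_cast
    ring
  -- (c)
  have hC : ∑ F : (Fin N × Fin N → Fin N), (∑ m ∈ Ico 3 T, ((gr_cyc (gr_G 128 F) m).card : ℝ)) / (4 * 256 ^ T)
      ≤ Q * (1 / 4) := by
    rw [← sum_div, sum_comm, div_le_iff₀ (by positivity)]
    refine (sum_le_sum (fun m hm => gr_sum_cyc N 128 m hN0 hc (mem_Ico.mp hm).1)).trans ?_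
    rw [← mul_sum, ← hQ]
    have h1 : ∑ m ∈ Ico 3 T, (2 * ((128 : ℕ) : ℝ)) ^ m ≤ 256 ^ T := by
      have h2 : (2 * ((128 : ℕ) : ℝ)) = 256 := by norm_num
      rw [h2]
      have h3 : ∑ m ∈ Ico 3 T, (256 : ℝ) ^ m ≤ ∑ m ∈ range T, (256 : ℝ) ^ m := by
        apply sum_le_sum_of_subset_of_nonneg
        · intro m hm
          exact mem_range.mpr (mem_Ico.mp hm).2
        · intros; positivity
      refine h3.trans ?_
      rw [geom_sum_eq (by norm_num)]
      rw [div_le_iff₀ (by norm_num)]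
      have : (0 : ℝ) < 256 ^ T := by positivity
      linarith
    calc Q * ∑ m ∈ Ico 3 T, (2 * ((128 : ℕ) : ℝ)) ^ m ≤ Q * 256 ^ T :=
          mul_le_mul_of_nonneg_left h1 hQpos.le
      _ = Q * (1 / 4) * (4 * 256 ^ T) := by ring
  -- combine
  have hcard : (Fintype.card (Fin N × Fin N → Fin N) : ℝ) = Q := by
    rw [hQ]
    simp
  have htot : ∑ F : (Fin N × Fin N → Fin N),
      ((∑ A ∈ fam, (2 : ℝ) ^ A.card * (1 / 2) ^ (gr_X 128 F A))
       + (∑ v, ((gr_deg (gr_G 128 F) v : ℝ)) ^ 2) / (16 * 16512 * N)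
       + (∑ m ∈ Ico 3 T, ((gr_cyc (gr_G 128 F) m).card : ℝ)) / (4 * 256 ^ T))
      < ∑ _F : (Fin N × Fin N → Fin N), (1 : ℝ) := by
    rw [sum_add_distrib, sum_add_distrib]
    rw [sum_const, nsmul_eq_mul, card_univ, hcard]
    linarith
  obtain ⟨F, _, hF⟩ := exists_lt_of_sum_lt htot
  have p1 : 0 ≤ ∑ A ∈ fam, (2 : ℝ) ^ A.card * (1 / 2) ^ (gr_X 128 F A) :=
    sum_nonneg (fun _ _ => by positivity)
  have p2 : 0 ≤ (∑ v, ((gr_deg (gr_G 128 F) v : ℝ)) ^ 2) / (16 * 16512 * N) := by
    apply div_nonneg (sum_nonneg (fun _ _ => by positivity)) (by positivity)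
  have p3 : 0 ≤ (∑ m ∈ Ico 3 T, ((gr_cyc (gr_G 128 F) m).card : ℝ)) / (4 * 256 ^ T) := by
    apply div_nonneg (sum_nonneg (fun _ _ => by positivity)) (by positivity)
  refine ⟨F, ?_, ?_, ?_⟩
  · intro A h1 h2
    have hmem : A ∈ fam := by simp [fam, h1, h2]
    have h3 : (2 : ℝ) ^ A.card * (1 / 2) ^ (gr_X 128 F A) < 1 := by
      have := single_le_sum (f := fun A : Finset (Fin N) => (2 : ℝ) ^ A.card * (1 / 2) ^ (gr_X 128 F A))
        (fun A _ => by positivity) hmem
      linarith
    by_contra hcon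
    push Not at hcon
    have h4 : (1 : ℝ) ≤ (2 : ℝ) ^ A.card * (1 / 2) ^ (gr_X 128 F A) := by
      rw [one_div, inv_pow, ← div_eq_mul_inv, one_le_div (by positivity)]
      exact pow_le_pow_right₀ (by norm_num) hcon.le
    linarith
  · have : (∑ v, ((gr_deg (gr_G 128 F) v : ℝ)) ^ 2) / (16 * 16512 * N) ≤ 1 := by linarith
    rwa [div_le_one (by positivity)] at this
  · have : (∑ m ∈ Ico 3 T, ((gr_cyc (gr_G 128 F) m).card : ℝ)) / (4 * 256 ^ T) ≤ 1 := by linarith
    rwa [div_le_one (by positivity)] at this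

theorem gr_T (T : ℕ) (hT : 200 ≤ T) :
    ∃ (n : ℕ) (Gr : SimpleGraph (Fin n)), 512 ^ T ≤ 2 * n ∧ n ≤ 512 ^ T ∧
      (∀ v, Nat.card {u // Gr.Adj v u} ≤ 8454144) ∧
      (∀ A : Finset (Fin n), 2 * A.card ≤ n →
        A.card ≤ 2 * Nat.card {p : Fin n × Fin n // p.1 ∈ A ∧ p.2 ∉ A ∧ Gr.Adj p.1 p.2}) ∧
      (∀ (m : ℕ) (v : ℕ → Fin n), 3 ≤ m → m < T → (∀ i < m, ∀ j < m, v i = v j → i = j) →
        (∀ i, i + 1 < m → Gr.Adj (v i) (v (i + 1))) → ¬ Gr.Adj (v (m - 1)) (v 0)) := by
  classical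
  obtain ⟨N, hN⟩ : ∃ N, N = 512 ^ T := ⟨_, rfl⟩
  rw [← hN]
  have hN0 : 0 < N := by rw [hN]; positivity
  obtain ⟨F, hFa, hFb, hFc⟩ := gr_choose N T hT hN
  set G := gr_G 128 F with hG
  let B1 : Finset (Fin N) := univ.filter (fun v => 8454144 < gr_deg G v)
  let rt : (m : ℕ) → (Fin m → Fin N) → Fin N := fun m w =>
    if h : 0 < m then w ⟨0, h⟩ else ⟨0, hN0⟩
  let B2 : Finset (Fin N) := (Ico 3 T).biUnion (fun m => (gr_cyc G m).image (rt m))
  have hB2 : (B2.card : ℝ) ≤ 4 * 256 ^ T := by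
    refine le_trans ?_ hFc
    have : B2.card ≤ ∑ m ∈ Ico 3 T, (gr_cyc G m).card :=
      card_biUnion_le.trans (sum_le_sum (fun m _ => card_image_le))
    exact_mod_cast this
  have hbig : (128 * 8454144 * 256 ^ T : ℝ) ≤ N := by
    have h1 : (2 : ℝ) ^ 200 ≤ 2 ^ T := pow_le_pow_right₀ (by norm_num) hT
    have h2 : (N : ℝ) = 2 ^ T * 256 ^ T := by
      rw [hN]; push_cast; rw [← mul_pow]; norm_num
    rw [h2]
    apply mul_le_mul_of_nonneg_right _ (by positivity)
    refine le_trans ?_ h1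
    norm_num
  have hB1e : ((∑ v ∈ B1, gr_deg G v : ℕ) : ℝ) * 8454144 ≤ 16 * 16512 * N := by
    refine le_trans ?_ hFb
    rw [Nat.cast_sum, sum_mul]
    refine le_trans (sum_le_sum (g := fun v => ((gr_deg G v : ℝ)) ^ 2) ?_) ?_
    · intro v hv
      have : (8454144 : ℝ) ≤ gr_deg G v := by
        have := (mem_filter.mp hv).2
        exact_mod_cast this.le
      have h0 : (0 : ℝ) ≤ gr_deg G v := by positivity
      nlinarith
    · exact sum_le_univ_sum_of_nonneg (fun _ => by positivity)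
  have hB1c : (B1.card : ℝ) ≤ ((∑ v ∈ B1, gr_deg G v : ℕ) : ℝ) := by
    have : B1.card ≤ ∑ v ∈ B1, gr_deg G v := by
      rw [card_eq_sum_ones]
      apply sum_le_sum
      intro v hv
      have := (mem_filter.mp hv).2
      omega
    exact_mod_cast this
  let B := B1 ∪ B2
  have hNr : (0 : ℝ) < N := by exact_mod_cast hN0
  have h256 : (0 : ℝ) < 256 ^ T := by positivity
  have hBcard : 16 * B.card ≤ N := by
    have h1 : B.card ≤ B1.card + B2.card := card_union_le _ _
    have h2 : (B.card : ℝ) ≤ B1.card + B2.card := by exact_mod_cast h1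
    have h3 : (16 : ℝ) * B.card ≤ N := by linarith
    exact_mod_cast h3
  have hBe : 16 * ∑ v ∈ B, gr_deg G v ≤ N := by
    have h1 : ∑ v ∈ B, gr_deg G v ≤ ∑ v ∈ B1, gr_deg G v + B2.card * 8454144 := by
      have h2 : B = B1 ∪ (B2 \ B1) := by simp [B]
      rw [h2, sum_union disjoint_sdiff]
      apply Nat.add_le_add_left
      calc ∑ v ∈ B2 \ B1, gr_deg G v ≤ ∑ v ∈ B2 \ B1, 8454144 := by
            apply sum_le_sum
            intro v hv
            have := (mem_sdiff.mp hv).2
            simp only [B1, mem_filter, mem_univ, true_and, not_lt] at this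
            exact this
        _ = (B2 \ B1).card * 8454144 := by rw [sum_const, smul_eq_mul]
        _ ≤ B2.card * 8454144 := Nat.mul_le_mul_right _ (card_le_card sdiff_subset)
    have h2 : ((∑ v ∈ B, gr_deg G v : ℕ) : ℝ) ≤ (∑ v ∈ B1, gr_deg G v : ℕ) + B2.card * 8454144 := by
      exact_mod_cast h1
    have h3 : (16 : ℝ) * ((∑ v ∈ B, gr_deg G v : ℕ) : ℝ) ≤ N := by linarith
    exact_mod_cast h3
  refine gr_clean N T 8454144 G hN0 ?_ B hBcard hBe ?_ ?_
  · intro A h1 h2
    exact (hFa A h1 h2).trans (gr_X_le 128 F A)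
  · intro v hv
    by_contra hcon
    apply hv
    simp only [B, mem_union]
    left
    simp only [B1, mem_filter, mem_univ, true_and]
    omega
  · intro m v hm hmT hinj hadj hclose
    refine ⟨0, by omega, ?_⟩
    simp only [B, mem_union]
    right
    simp only [B2, mem_biUnion, mem_Ico, mem_image]
    refine ⟨m, ⟨hm, hmT⟩, fun i => v i.val, ?_, ?_⟩
    · unfold gr_cyc
      simp only [mem_filter, mem_univ, true_and]
      refine ⟨?_, ?_⟩
      · intro i j hij
        exact Fin.ext (hinj i.val i.2 j.val j.2 hij)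
      · intro i
        show G.Adj (v i.val) (v (gr_nxt i).val)
        rw [gr_nxt_val]
        split_ifs with h
        · exact hadj i.val h
        · have h2 : i.val = m - 1 := by have := i.2; omega
          rw [h2]
          exact hclose
    · simp only [rt]
      rw [dif_pos (by omega)]

theorem graph_exists : ∃ C D : ℕ, ∀ L : ℕ, 1 ≤ L → ∃ (n : ℕ) (Gr : SimpleGraph (Fin n)),
    L ≤ n ∧ n ≤ C ^ L ∧ (∀ v, Nat.card {u // Gr.Adj v u} ≤ D) ∧
    (∀ A : Finset (Fin n), 2 * A.card ≤ n →
      A.card ≤ 2 * Nat.card {p : Fin n × Fin n // p.1 ∈ A ∧ p.2 ∉ A ∧ Gr.Adj p.1 p.2}) ∧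
    (∀ (m : ℕ) (v : ℕ → Fin n), 3 ≤ m → m < 200 * L → (∀ i < m, ∀ j < m, v i = v j → i = j) →
      (∀ i, i + 1 < m → Gr.Adj (v i) (v (i + 1))) → ¬ Gr.Adj (v (m - 1)) (v 0)) := by
  refine ⟨512 ^ 200, 8454144, ?_⟩
  intro L hL
  obtain ⟨n, Gr, h1, h2, h3, h4, h5⟩ := gr_T (200 * L) (by omega)
  refine ⟨n, Gr, ?_, ?_, h3, h4, h5⟩
  · have h6 : 200 * L < 512 ^ (200 * L) := Nat.lt_pow_self (by norm_num)
    omega
  · rw [← pow_mul]
    exact h2

end Pool.Agent.H76.SC
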