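import Mathlib
import Pool.Agent.H76.SC.Code
import Pool.Agent.H76.SC.Colour
import Pool.Agent.H76.SC.Graph

set_option autoImplicit false

/-! # Existence of the next level -/

namespace Pool.Agent.H76.SC

/-! ### Words of colours -/

/-- the letter of an ordered pair of colours -/
def cdo_ltr {K : ℕ} (x y : Fin K) : ℕ × Bool :=
  if x < y then (x.val * K + y.val, true) else (y.val * K + x.val, false)

/-- the word of a list of colours -/
def cdo_lw {K : ℕ} : List (Fin K) → List (ℕ × Bool)
  | x :: y :: z => cdo_ltr x y :: cdo_lw (y :: z)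
  | _ => []

theorem cdo_lw_length {K : ℕ} : ∀ z : List (Fin K), (cdo_lw z).length = z.length - 1
  | [] => rfl
  | [_] => rfl
  | x :: y :: z => by
      rw [cdo_lw, List.length_cons, cdo_lw_length (y :: z)]
      simp

theorem cdo_pair_inj {K : ℕ} {x y x' y' : Fin K} (h : x.val * K + y.val = x'.val * K + y'.val) :
    x = x' ∧ y = y' := by
  have hK : 0 < K := lt_of_le_of_lt (Nat.zero_le _) x.2
  have e1 : (x.val * K + y.val) / K = x.val := by
    rw [mul_comm, Nat.mul_add_div hK, Nat.div_eq_of_lt y.2, add_zero]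
  have e2 : (x'.val * K + y'.val) / K = x'.val := by
    rw [mul_comm, Nat.mul_add_div hK, Nat.div_eq_of_lt y'.2, add_zero]
  have e3 : x.val = x'.val := by rw [← e1, ← e2, h]
  refine ⟨Fin.ext e3, Fin.ext ?_⟩
  rw [e3] at h
  omega

theorem cdo_ltr_inj {K : ℕ} {x y x' y' : Fin K} (h : cdo_ltr x y = cdo_ltr x' y') :
    x = x' ∧ y = y' := by
  unfold cdo_ltr at h
  split_ifs at h with h1 h2 h2
  · exact cdo_pair_inj (congrArg Prod.fst h)
  · exact absurd (congrArg Prod.snd h) (by simp)
  · exact absurd (congrArg Prod.snd h) (by simp)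
  · exact (cdo_pair_inj (congrArg Prod.fst h)).symm

theorem cdo_ltr_swap {K : ℕ} {x y : Fin K} (h : x ≠ y) :
    (cdo_ltr x y).1 = (cdo_ltr y x).1 ∧ (cdo_ltr x y).2 ≠ (cdo_ltr y x).2 := by
  unfold cdo_ltr
  rcases lt_or_gt_of_ne h with h1 | h1
  · rw [if_pos h1, if_neg (not_lt.mpr h1.le)]
    exact ⟨rfl, by simp⟩
  · rw [if_neg (not_lt.mpr h1.le), if_pos h1]
    exact ⟨rfl, by simp⟩

theorem cdo_lw_inj {K : ℕ} : ∀ z z' : List (Fin K), 2 ≤ z.length → z.length = z'.length →
    cdo_lw z = cdo_lw z' → z = z'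
  | [], _, h, _, _ => by simp at h
  | [_], _, h, _, _ => by simp at h
  | x :: y :: z, [], _, h, _ => by simp at h
  | x :: y :: z, [_], _, h, _ => by simp at h
  | x :: y :: z, x' :: y' :: z', _, hl, h => by
      rw [cdo_lw, cdo_lw] at h
      have h1 := cdo_ltr_inj (List.cons.inj h).1
      have h2 := (List.cons.inj h).2
      cases z with
      | nil =>
        have : z' = [] := by simpa using hl
        rw [h1.1, h1.2, this]
      | cons w z =>
        have h3 := cdo_lw_inj (y :: w :: z) (y' :: z') (by simp) (by simpa using hl) h2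
        rw [h1.1, h3]

/-! ### Walks of the coloured graph -/

/-- an edge relation -/
def cdo_E {K n : ℕ} (Gr : SimpleGraph (Fin n)) (col : Fin n → Fin K) (c : Code) : Prop :=
  ∀ t ∈ c.2, ∃ u v : Fin n, Gr.Adj u v ∧ col u < col v ∧
    t = (u.val, (col u).val * K + (col v).val, v.val)

theorem cdo_step {K n : ℕ} {Gr : SimpleGraph (Fin n)} {col : Fin n → Fin K} {c : Code}
    (hE : cdo_E Gr col c) (u : Fin n) (a : ℕ × Bool) (v : ℕ) (h : cstep c u.val a = some v) :
    ∃ v' : Fin n, v'.val = v ∧ Gr.Adj u v' ∧ cdo_ltr (col u) (col v') = a := by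
  obtain ⟨q, b⟩ := a
  unfold cstep at h
  cases b with
  | true =>
    simp only [if_true, Option.map_eq_some_iff] at h
    obtain ⟨t, ht, htv⟩ := h
    have hm := List.mem_of_find?_eq_some ht
    have hp := List.find?_some ht
    simp only [Bool.and_eq_true, beq_iff_eq] at hp
    obtain ⟨u', v', hadj, hlt, rfl⟩ := hE t hm
    simp only at hp htv
    have hu : u' = u := Fin.ext hp.1
    subst hu
    refine ⟨v', htv, hadj, ?_⟩
    unfold cdo_ltr
    rw [if_pos hlt, hp.2]
  | false =>
    simp only [Bool.false_eq_true, if_false, Option.map_eq_some_iff] at h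
    obtain ⟨t, ht, htv⟩ := h
    have hm := List.mem_of_find?_eq_some ht
    have hp := List.find?_some ht
    simp only [Bool.and_eq_true, beq_iff_eq] at hp
    obtain ⟨v', u', hadj, hlt, rfl⟩ := hE t hm
    simp only at hp htv
    have hu : u' = u := Fin.ext hp.1
    subst hu
    refine ⟨v', htv, hadj.symm, ?_⟩
    unfold cdo_ltr
    rw [if_neg (not_lt.mpr hlt.le), hp.2]

theorem cdo_walk {K n : ℕ} {Gr : SimpleGraph (Fin n)} {col : Fin n → Fin K} {c : Code}
    (hE : cdo_E Gr col c) : ∀ (w : List (ℕ × Bool)) (u : Fin n) (v : ℕ),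
    crun c u.val w = some v → ∃ (p : List (Fin n)) (hp : p ≠ []), p.length = w.length + 1 ∧
      p.head hp = u ∧ (p.getLast hp).val = v ∧ p.IsChain Gr.Adj ∧ cdo_lw (p.map col) = w
  | [], u, v, h => by
      refine ⟨[u], by simp, rfl, rfl, ?_, List.isChain_singleton u, rfl⟩
      unfold crun at h
      simpa using h
  | a :: w, u, v, h => by
      unfold crun at h
      rw [List.foldlM_cons] at h
      obtain ⟨x, hx, hxv⟩ := Option.bind_eq_some_iff.mp h
      obtain ⟨u', hu', hadj, hl⟩ := cdo_step hE u a x hx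
      subst hu'
      obtain ⟨p, hp, h1, h2, h3, h4, h5⟩ := cdo_walk hE w u' v hxv
      cases p with
      | nil => exact absurd rfl hp
      | cons y p =>
        simp only [List.head_cons] at h2
        subst h2
        refine ⟨u :: y :: p, by simp, ?_, rfl, ?_, ?_, ?_⟩
        · rw [List.length_cons, h1]; rfl
        · rw [List.getLast_cons hp]; exact h3
        · rw [List.isChain_cons_cons]; exact ⟨hadj, h4⟩
        · rw [List.map_cons, List.map_cons, cdo_lw, hl]
          rw [List.map_cons] at h5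
          rw [h5]

theorem cdo_nb {K n : ℕ} {Gr : SimpleGraph (Fin n)} {col : Fin n → Fin K}
    (hcol : ∀ u v, Gr.Adj u v → col u ≠ col v) : ∀ p : List (Fin n), p.IsChain Gr.Adj →
    FreeGroup.IsReduced (cdo_lw (p.map col)) → ∀ (i : ℕ) (h : i + 2 < p.length), p[i] ≠ p[i + 2]
  | [], _, _, i, h => by simp at h
  | [_], _, _, i, h => by simp at h
  | [_, _], _, _, i, h => by simp at h
  | x :: y :: z :: p, hc, hr, 0, h => by
      simp only [List.getElem_cons_zero, List.getElem_cons_succ]
      rintro rfl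
      rw [List.isChain_cons_cons] at hc
      simp only [List.map_cons, cdo_lw] at hr
      unfold FreeGroup.IsReduced at hr
      have h1 : (cdo_ltr (col x) (col y)).1 = (cdo_ltr (col y) (col x)).1 →
          (cdo_ltr (col x) (col y)).2 = (cdo_ltr (col y) (col x)).2 := by
        rw [List.isChain_cons_cons] at hr
        exact hr.1
      have h2 := cdo_ltr_swap (hcol _ _ hc.1)
      exact h2.2 (h1 h2.1)
  | x :: y :: z :: p, hc, hr, i + 1, h => by
      rw [List.isChain_cons_cons] at hc
      have hr' : FreeGroup.IsReduced (cdo_lw ((y :: z :: p).map col)) := by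
        simp only [List.map_cons, cdo_lw] at hr ⊢
        exact hr.tail
      have := cdo_nb hcol (y :: z :: p) hc.2 hr' i (by simpa using h)
      simpa using this

/-! ### Readable words -/

/-- available letters -/
def cdo_av (c : Code) (u : ℕ) : List (ℕ × Bool) :=
  (c.2.filter (fun t => t.1 == u)).map (fun t => (t.2.1, true)) ++
    (c.2.filter (fun t => t.2.2 == u)).map (fun t => (t.2.1, false))

theorem cdo_mem_av {c : Code} {u : ℕ} {a : ℕ × Bool} {v : ℕ} (h : cstep c u a = some v) :
    a ∈ cdo_av c u := by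
  obtain ⟨q, b⟩ := a
  unfold cstep at h
  unfold cdo_av
  rw [List.mem_append]
  cases b with
  | true =>
    left
    simp only [if_true, Option.map_eq_some_iff] at h
    obtain ⟨t, ht, htv⟩ := h
    have hm := List.mem_of_find?_eq_some ht
    have hp := List.find?_some ht
    simp only [Bool.and_eq_true, beq_iff_eq] at hp
    rw [List.mem_map]
    exact ⟨t, List.mem_filter.mpr ⟨hm, by simp [hp.1]⟩, by rw [hp.2]⟩
  | false =>
    right
    simp only [Bool.false_eq_true, if_false, Option.map_eq_some_iff] at h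
    obtain ⟨t, ht, htv⟩ := h
    have hm := List.mem_of_find?_eq_some ht
    have hp := List.find?_some ht
    simp only [Bool.and_eq_true, beq_iff_eq] at hp
    rw [List.mem_map]
    exact ⟨t, List.mem_filter.mpr ⟨hm, by simp [hp.1]⟩, by rw [hp.2]⟩

theorem cdo_filter_or (u : ℕ) : ∀ l : List (ℕ × ℕ × ℕ), (∀ t ∈ l, t.1 ≠ t.2.2) →
    (l.filter (fun t => t.1 == u)).length + (l.filter (fun t => t.2.2 == u)).length =
      (l.filter (fun t => t.1 == u || t.2.2 == u)).length
  | [], _ => rfl
  | t :: l, h => by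
      have ih := cdo_filter_or u l (fun t ht => h t (List.mem_cons_of_mem _ ht))
      have ht := h t List.mem_cons_self
      simp only [List.filter_cons]
      by_cases h1 : t.1 = u
      · have h2 : t.2.2 ≠ u := fun h2 => ht (h1.trans h2.symm)
        simp only [h1, beq_self_eq_true, if_true, beq_eq_false_iff_ne.mpr h2, Bool.false_eq_true,
          if_false, Bool.true_or, List.length_cons]
        omega
      · by_cases h2 : t.2.2 = u
        · simp only [h2, beq_self_eq_true, if_true, beq_eq_false_iff_ne.mpr h1, Bool.false_eq_true,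
            if_false, Bool.or_true, List.length_cons]
          omega
        · simp only [beq_eq_false_iff_ne.mpr h2, beq_eq_false_iff_ne.mpr h1, Bool.false_eq_true,
            if_false, Bool.or_false]
          omega

theorem cdo_no_loop {p : Par} {l : List Code} {c : Code} (hp : 2 ≤ p.n0) (h : PS p l c) :
    ∀ t ∈ c.2, t.1 ≠ t.2.2 := by
  intro t ht heq
  have hb := h.bd t ht
  have hex : ∃ t', c.2.find? (fun s => s.1 == t.1 && s.2.1 == t.2.1) = some t' := by
    rw [← Option.isSome_iff_exists, List.find?_isSome]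
    exact ⟨t, ht, by simp⟩
  obtain ⟨t', ht'⟩ := hex
  have hm := List.mem_of_find?_eq_some ht'
  have hq := List.find?_some ht'
  simp only [Bool.and_eq_true, beq_iff_eq] at hq
  have hd := (h.det t' hm t ht hq.2).mp hq.1
  refine h.girth [(t.2.1, true)] ⟨?_, FreeGroup.IsReduced.singleton⟩ (by simp) ?_ t.1 hb.1 ?_
  · intro a ha
    rw [List.mem_singleton] at ha
    rw [ha]; exact hb.2.1
  · simp only [List.length_singleton]; omega
  · unfold crun
    simp only [List.foldlM_cons, List.foldlM_nil, cstep, if_true, ht', Option.map_some]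
    rw [hd, ← heq]
    rfl

theorem cdo_av_length {p : Par} {l : List Code} {c : Code} (hp : 2 ≤ p.n0) (h : PS p l c)
    {u : ℕ} (hu : u < c.1) : (cdo_av c u).length ≤ p.D := by
  unfold cdo_av
  rw [List.length_append, List.length_map, List.length_map,
    cdo_filter_or u c.2 (cdo_no_loop hp h)]
  exact h.deg u hu

theorem cdo_step_lt {p : Par} {l : List Code} {c : Code} (h : PS p l c) {u v : ℕ} {a : ℕ × Bool}
    (hs : cstep c u a = some v) : v < c.1 := by
  obtain ⟨q, b⟩ := a
  unfold cstep at hs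
  cases b with
  | true =>
    simp only [if_true, Option.map_eq_some_iff] at hs
    obtain ⟨t, ht, htv⟩ := hs
    rw [← htv]
    exact (h.bd t (List.mem_of_find?_eq_some ht)).2.2
  | false =>
    simp only [Bool.false_eq_true, if_false, Option.map_eq_some_iff] at hs
    obtain ⟨t, ht, htv⟩ := hs
    rw [← htv]
    exact (h.bd t (List.mem_of_find?_eq_some ht)).1

/-- the finite set of readable words of length `r` -/
def cdo_rd (c : Code) : ℕ → ℕ → Finset (List (ℕ × Bool))
  | 0, _ => {[]}
  | r + 1, u => (cdo_av c u).toFinset.biUnion fun a =>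
      match cstep c u a with
      | some v => (cdo_rd c r v).image (fun w => a :: w)
      | none => ∅

theorem cdo_mem_rd {c : Code} : ∀ (w : List (ℕ × Bool)) (u : ℕ), (crun c u w).isSome →
    w ∈ cdo_rd c w.length u
  | [], u, _ => by simp [cdo_rd]
  | a :: w, u, h => by
      obtain ⟨v, hv⟩ := Option.isSome_iff_exists.mp h
      unfold crun at hv
      rw [List.foldlM_cons] at hv
      obtain ⟨x, hx, hxv⟩ := Option.bind_eq_some_iff.mp hv
      rw [List.length_cons, cdo_rd, Finset.mem_biUnion]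
      refine ⟨a, List.mem_toFinset.mpr (cdo_mem_av hx), ?_⟩
      rw [hx]
      simp only [Finset.mem_image]
      refine ⟨w, cdo_mem_rd w x ?_, rfl⟩
      rw [Option.isSome_iff_exists]
      exact ⟨v, hxv⟩

theorem cdo_card_rd {p : Par} {l : List Code} {c : Code} (hp : 2 ≤ p.n0) (h : PS p l c) :
    ∀ (r : ℕ) (u : ℕ), u < c.1 → (cdo_rd c r u).card ≤ p.D ^ r
  | 0, u, _ => by simp [cdo_rd]
  | r + 1, u, hu => by
      rw [cdo_rd, pow_succ']
      refine (Finset.card_biUnion_le_card_mul _ _ (p.D ^ r) ?_).trans ?_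
      · intro a _
        cases hs : cstep c u a with
        | none => simp
        | some v =>
          simp only
          exact Finset.card_image_le.trans (cdo_card_rd hp h r v (cdo_step_lt h hs))
      · exact Nat.mul_le_mul_right _ ((List.toFinset_card_le _).trans (cdo_av_length hp h hu))

theorem cdo_W_fin (K : ℕ) (c : Code) (m : ℕ) :
    {z : List (Fin K) | z.length = m + 2 ∧ ∃ u < c.1, (crun c u (cdo_lw z)).isSome}.Finite :=
  Set.Finite.subset (List.finite_length_eq (Fin K) (m + 2)) (fun _ hz => hz.1)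

/-- colour words readable in a code -/
noncomputable def cdo_W (K : ℕ) (c : Code) (m : ℕ) : Finset (List (Fin K)) :=
  (cdo_W_fin K c m).toFinset

theorem cdo_mem_W {K : ℕ} {c : Code} {m : ℕ} {z : List (Fin K)} :
    z ∈ cdo_W K c m ↔ z.length = m + 2 ∧ ∃ u < c.1, (crun c u (cdo_lw z)).isSome := by
  unfold cdo_W
  rw [Set.Finite.mem_toFinset]
  rfl

theorem cdo_W_card {p : Par} {l : List Code} {c : Code} (hp : 2 ≤ p.n0) (h : PS p l c)
    (K m : ℕ) (hm : m = l.length + p.n0) : (cdo_W K c m).card ≤ p.C ^ m * p.D ^ (m + 1) := by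
  have h1 : (cdo_W K c m).card ≤ ((Finset.range c.1).biUnion (fun u => cdo_rd c (m + 1) u)).card := by
    apply Finset.card_le_card_of_injOn (fun z => cdo_lw z)
    · intro z hz
      obtain ⟨hz1, u, hu, hz2⟩ := cdo_mem_W.mp hz
      rw [Finset.mem_coe, Finset.mem_biUnion]
      refine ⟨u, Finset.mem_range.mpr hu, ?_⟩
      have := cdo_mem_rd (cdo_lw z) u hz2
      rwa [cdo_lw_length, hz1] at this
    · intro z hz z' hz' he
      have h1 := (cdo_mem_W.mp hz).1
      have h2 := (cdo_mem_W.mp hz').1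
      exact cdo_lw_inj z z' (by omega) (by omega) he
  refine h1.trans ((Finset.card_biUnion_le_card_mul _ _ (p.D ^ (m + 1)) ?_).trans ?_)
  · intro u hu
    exact cdo_card_rd hp h (m + 1) u (Finset.mem_range.mp hu)
  · rw [Finset.card_range]
    apply Nat.mul_le_mul_right
    rw [hm]
    exact h.hi

/-! ### The code of a coloured graph -/

open Classical in
/-- the oriented edges of a coloured graph -/
noncomputable def cdo_ed {K n : ℕ} (Gr : SimpleGraph (Fin n)) (col : Fin n → Fin K) :
    Finset (Fin n × Fin n) :=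
  Finset.univ.filter (fun e => Gr.Adj e.1 e.2 ∧ col e.1 < col e.2)

/-- the triple of an oriented edge -/
def cdo_tr {K n : ℕ} (col : Fin n → Fin K) (e : Fin n × Fin n) : ℕ × ℕ × ℕ :=
  (e.1.val, (col e.1).val * K + (col e.2).val, e.2.val)

/-- the code of a coloured graph -/
noncomputable def cdo_code {K n : ℕ} (Gr : SimpleGraph (Fin n)) (col : Fin n → Fin K) : Code :=
  (n, (cdo_ed Gr col).toList.map (cdo_tr col))

theorem cdo_tr_inj {K n : ℕ} (col : Fin n → Fin K) : Function.Injective (cdo_tr col) := by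
  intro e e' h
  unfold cdo_tr at h
  have h1 := congrArg Prod.fst h
  have h2 := congrArg Prod.snd (congrArg Prod.snd h)
  exact Prod.ext (Fin.ext h1) (Fin.ext h2)

theorem cdo_mem_code {K n : ℕ} {Gr : SimpleGraph (Fin n)} {col : Fin n → Fin K}
    {t : ℕ × ℕ × ℕ} : t ∈ (cdo_code Gr col).2 ↔ ∃ u v : Fin n, Gr.Adj u v ∧ col u < col v ∧
      t = (u.val, (col u).val * K + (col v).val, v.val) := by
  unfold cdo_code cdo_ed
  simp only [List.mem_map, Finset.mem_toList, Finset.mem_filter, Finset.mem_univ, true_and]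
  constructor
  · rintro ⟨⟨u, v⟩, h, rfl⟩
    exact ⟨u, v, h.1, h.2, rfl⟩
  · rintro ⟨u, v, h1, h2, rfl⟩
    exact ⟨(u, v), ⟨h1, h2⟩, rfl⟩

theorem cdo_nodup {K n : ℕ} (Gr : SimpleGraph (Fin n)) (col : Fin n → Fin K) :
    (cdo_code Gr col).2.Nodup := by
  unfold cdo_code
  exact (Finset.nodup_toList _).map (cdo_tr_inj col)

theorem cdo_code_E {K n : ℕ} (Gr : SimpleGraph (Fin n)) (col : Fin n → Fin K) :
    cdo_E Gr col (cdo_code Gr col) := fun _ ht => cdo_mem_code.mp ht

theorem cdo_deg {K n D : ℕ} {Gr : SimpleGraph (Fin n)} {col : Fin n → Fin K}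
    (hD : ∀ v, Nat.card {u // Gr.Adj v u} ≤ D) (u : ℕ) (hu : u < n) :
    ((cdo_code Gr col).2.filter (fun t => t.1 == u || t.2.2 == u)).length ≤ D := by
  classical
  refine le_trans ?_ (hD ⟨u, hu⟩)
  have hnd : ((cdo_code Gr col).2.filter (fun t => t.1 == u || t.2.2 == u)).Nodup :=
    (cdo_nodup Gr col).filter _
  rw [← List.toFinset_card_of_nodup hnd, Nat.card_eq_fintype_card,
    ← Fintype.card_coe, ← Nat.card_eq_fintype_card, ← Nat.card_eq_fintype_card]
  -- the other end of a triple
  have key : ∀ t : {t // t ∈ ((cdo_code Gr col).2.filter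
      (fun t => t.1 == u || t.2.2 == u)).toFinset}, ∃ v : Fin n, Gr.Adj ⟨u, hu⟩ v ∧
        ((t.1 = (u, (col ⟨u, hu⟩).val * K + (col v).val, v.val) ∧ col ⟨u, hu⟩ < col v) ∨
        (t.1 = (v.val, (col v).val * K + (col ⟨u, hu⟩).val, u) ∧ col v < col ⟨u, hu⟩)) := by
    rintro ⟨t, ht⟩
    rw [List.mem_toFinset, List.mem_filter] at ht
    obtain ⟨x, y, hadj, hlt, rfl⟩ := cdo_mem_code.mp ht.1
    have h2 := ht.2
    simp only [Bool.or_eq_true, beq_iff_eq] at h2
    rcases h2 with h2 | h2
    · have hx : x = ⟨u, hu⟩ := Fin.ext h2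
      subst hx
      exact ⟨y, hadj, Or.inl ⟨rfl, hlt⟩⟩
    · have hy : y = ⟨u, hu⟩ := Fin.ext h2
      subst hy
      exact ⟨x, hadj.symm, Or.inr ⟨rfl, hlt⟩⟩
  choose f hf1 hf2 using key
  refine Nat.card_le_card_of_injective (fun t => (⟨f t, hf1 t⟩ : {v // Gr.Adj ⟨u, hu⟩ v})) ?_
  intro t t' he
  have he' : f t = f t' := congrArg Subtype.val he
  apply Subtype.ext
  rcases hf2 t with ⟨h1, h1'⟩ | ⟨h1, h1'⟩ <;> rcases hf2 t' with ⟨h2, h2'⟩ | ⟨h2, h2'⟩
  · rw [h1, h2, he']
  · rw [he'] at h1'; exact absurd h1' (lt_asymm h2')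
  · rw [he'] at h1'; exact absurd h1' (lt_asymm h2')
  · rw [h1, h2, he']

theorem cdo_exp {K n : ℕ} {Gr : SimpleGraph (Fin n)} {col : Fin n → Fin K}
    (hcol : ∀ u v, Gr.Adj u v → col u ≠ col v)
    (hexp : ∀ A : Finset (Fin n), 2 * A.card ≤ n →
      A.card ≤ 2 * Nat.card {p : Fin n × Fin n // p.1 ∈ A ∧ p.2 ∉ A ∧ Gr.Adj p.1 p.2})
    (B : List ℕ) (hB : B.Sublist (List.range n)) (hBn : 2 * B.length ≤ n) :
    B.length ≤ 2 * ((cdo_code Gr col).2.filter
      (fun t => decide (t.1 ∈ B) != decide (t.2.2 ∈ B))).length := by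
  classical
  have hnd : B.Nodup := hB.nodup List.nodup_range
  have hlt : ∀ x ∈ B, x < n := fun x hx => List.mem_range.mp (hB.subset hx)
  set A : Finset (Fin n) := Finset.univ.filter (fun x => x.val ∈ B) with hA
  have hAB : A.card = B.length := by
    rw [← List.toFinset_card_of_nodup hnd]
    apply Finset.card_bij (fun x _ => x.val)
    · intro x hx
      rw [hA, Finset.mem_filter] at hx
      exact List.mem_toFinset.mpr hx.2
    · intro x _ y _ h
      exact Fin.ext h
    · intro x hx
      have hx' := List.mem_toFinset.mp hx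
      refine ⟨⟨x, hlt x hx'⟩, ?_, rfl⟩
      rw [hA, Finset.mem_filter]
      exact ⟨Finset.mem_univ _, hx'⟩
  have h1 := hexp A (by rw [hAB]; exact hBn)
  rw [hAB] at h1
  refine h1.trans (Nat.mul_le_mul_left 2 ?_)
  have hnd2 : ((cdo_code Gr col).2.filter
      (fun t => decide (t.1 ∈ B) != decide (t.2.2 ∈ B))).Nodup := (cdo_nodup Gr col).filter _
  rw [← List.toFinset_card_of_nodup hnd2, ← Fintype.card_coe, ← Nat.card_eq_fintype_card]
  have hmem : ∀ x : Fin n, x ∈ A ↔ x.val ∈ B := by
    intro x; rw [hA, Finset.mem_filter]; simp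
  have key : ∀ e : {p : Fin n × Fin n // p.1 ∈ A ∧ p.2 ∉ A ∧ Gr.Adj p.1 p.2},
      ∃ t ∈ ((cdo_code Gr col).2.filter
        (fun t => decide (t.1 ∈ B) != decide (t.2.2 ∈ B))).toFinset,
        (t.1 = e.1.1.val ∧ t.2.2 = e.1.2.val) ∨ (t.1 = e.1.2.val ∧ t.2.2 = e.1.1.val) := by
    rintro ⟨⟨x, y⟩, hx, hy, hadj⟩
    simp only at hx hy hadj
    rw [hmem] at hx hy
    rcases lt_or_gt_of_ne (hcol x y hadj) with h | h
    · refine ⟨(x.val, (col x).val * K + (col y).val, y.val), ?_, Or.inl ⟨rfl, rfl⟩⟩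
      rw [List.mem_toFinset, List.mem_filter]
      refine ⟨cdo_mem_code.mpr ⟨x, y, hadj, h, rfl⟩, ?_⟩
      simp [hx, hy]
    · refine ⟨(y.val, (col y).val * K + (col x).val, x.val), ?_, Or.inr ⟨rfl, rfl⟩⟩
      rw [List.mem_toFinset, List.mem_filter]
      refine ⟨cdo_mem_code.mpr ⟨y, x, hadj.symm, h, rfl⟩, ?_⟩
      simp [hx, hy]
  choose f hf1 hf2 using key
  refine Nat.card_le_card_of_injective (fun e => (⟨f e, hf1 e⟩ : {t // t ∈ ((cdo_code Gr col).2.filter
        (fun t => decide (t.1 ∈ B) != decide (t.2.2 ∈ B))).toFinset})) ?_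
  intro e e' he
  have he' : f e = f e' := congrArg Subtype.val he
  have h2 := hf2 e
  have h3 := hf2 e'
  rw [he'] at h2
  obtain ⟨⟨x, y⟩, hx, hy, hadj⟩ := e
  obtain ⟨⟨x', y'⟩, hx', hy', hadj'⟩ := e'
  simp only at hx hy hx' hy' h2 h3
  apply Subtype.ext
  simp only
  rcases h2 with ⟨a1, a2⟩ | ⟨a1, a2⟩ <;> rcases h3 with ⟨b1, b2⟩ | ⟨b1, b2⟩
  · exact Prod.ext (Fin.ext (a1.symm.trans b1)) (Fin.ext (a2.symm.trans b2))
  · exfalso
    have : x = y' := Fin.ext (a1.symm.trans b1)
    exact hy' (this ▸ hx)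
  · exfalso
    have : y = x' := Fin.ext (a1.symm.trans b1)
    exact hy (this ▸ hx')
  · exact Prod.ext (Fin.ext (a2.symm.trans b2)) (Fin.ext (a1.symm.trans b1))

theorem exists_par : ∃ p : Par, 2 ≤ p.n0 ∧ ∀ l : List Code, Valid p l → ∃ c, PS p l c := by
  classical
  obtain ⟨C, D, hG⟩ := graph_exists
  obtain ⟨K, n0, hn0, hcolg⟩ := colouring C D
  refine ⟨⟨K * K, D, 2, C, n0⟩, hn0, ?_⟩
  intro l hl
  set p : Par := ⟨K * K, D, 2, C, n0⟩ with hp
  obtain ⟨n, Gr, h1, h2, h3, h4, h5⟩ := hG (l.length + n0) (by omega)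
  have hgirth : Girth Gr (200 * (l.length + n0)) := h5
  -- forbidden colour words
  set W : ℕ → Finset (List (Fin K)) := fun m =>
    if h : n0 ≤ m ∧ m - n0 < l.length then cdo_W K (l[m - n0]'h.2) m else ∅ with hW
  have hWcard : ∀ m, (W m).card ≤ C ^ m * D ^ (m + 1) := by
    intro m
    rw [hW]
    simp only
    split_ifs with h
    · have h6 := hl (m - n0) h.2
      refine cdo_W_card hn0 h6 K m ?_
      rw [List.length_take]
      show m = min (m - n0) l.length + n0
      omega
    · simp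
  obtain ⟨col, c1, c2, c3, c4⟩ := hcolg (l.length + n0) n Gr (by omega) h2 h3 hgirth W hWcard
  refine ⟨cdo_code Gr col, ?_⟩
  have hE := cdo_code_E Gr col
  -- walks of reduced words
  have walk : ∀ (w : List (ℕ × Bool)) (u v : ℕ), WRed p.k w → u < n →
      crun (cdo_code Gr col) u w = some v → ∃ (q : List (Fin n)) (hq : q ≠ []),
        q.length = w.length + 1 ∧ (q.head hq).val = u ∧ (q.getLast hq).val = v ∧ NB Gr q ∧
        cdo_lw (q.map col) = w := by
    intro w u v hw hu hr
    obtain ⟨q, hq, e1, e2, e3, e4, e5⟩ := cdo_walk hE w ⟨u, hu⟩ v hr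
    refine ⟨q, hq, e1, by rw [e2], e3, ⟨e4, ?_⟩, e5⟩
    exact cdo_nb c1 q e4 (by rw [e5]; exact hw.2)
  constructor
  · -- bd
    intro t ht
    obtain ⟨u, v, hadj, hlt, rfl⟩ := hE t ht
    refine ⟨u.2, ?_, v.2⟩
    show (col u).val * K + (col v).val < K * K
    have a1 := (col u).2
    have a2 := (col v).2
    calc (col u).val * K + (col v).val < (col u).val * K + K := by omega
      _ = ((col u).val + 1) * K := by ring
      _ ≤ K * K := Nat.mul_le_mul_right K a1
  · -- det
    intro t ht t' ht' heq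
    obtain ⟨u, v, hadj, hlt, rfl⟩ := hE t ht
    obtain ⟨u', v', hadj', hlt', rfl⟩ := hE t' ht'
    simp only at heq ⊢
    obtain ⟨e1, e2⟩ := cdo_pair_inj heq
    constructor
    · intro h
      have hu : u = u' := Fin.ext h
      subst hu
      by_contra hne
      exact c2 v u v' hadj.symm hadj' (fun h' => hne (by rw [h'])) e2
    · intro h
      have hv : v = v' := Fin.ext h
      subst hv
      by_contra hne
      exact c2 u v u' hadj hadj'.symm (fun h' => hne (by rw [h'])) e1
  · exact cdo_nodup Gr col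
  · intro u hu
    exact cdo_deg h3 u hu
  · intro B hB hBn
    exact cdo_exp c1 h4 B hB hBn
  · show l.length ≤ n
    omega
  · exact h2
  · -- girth
    intro w hw hne hlen u hu hr
    obtain ⟨q, hq, e1, e2, e3, e4, e5⟩ := walk w u u hw hu hr
    have hwl : 0 < w.length := List.length_pos_of_ne_nil hne
    have hnd := nb_nodup Gr _ hgirth q e4 (by
      rw [e1]
      have : w.length < 200 * (l.length + n0) := hlen
      omega)
    have e6 : q.head hq = q.getLast hq := Fin.ext (e2.trans e3.symm)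
    rw [List.head_eq_getElem, List.getLast_eq_getElem] at e6
    have := (List.Nodup.getElem_inj_iff hnd).mp e6
    omega
  · -- av
    intro m hm w hw hwl u hu v hv hr1 hr2
    obtain ⟨v', hv'⟩ := Option.isSome_iff_exists.mp hr2
    obtain ⟨q, hq, e1, e2, e3, e4, e5⟩ := walk w v v' hw hv hv'
    have hwl' : w.length = m + n0 + 1 := hwl
    refine c3 (m + n0) (by omega) (by omega) q e4 (by omega) ?_
    rw [hW]
    simp only
    have hm' : n0 ≤ m + n0 ∧ m + n0 - n0 < l.length := ⟨by omega, by omega⟩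
    rw [dif_pos hm', cdo_mem_W]
    refine ⟨by rw [List.length_map]; omega, u, ?_, ?_⟩
    · simpa only [Nat.add_sub_cancel] using hu
    · rw [e5]
      simpa only [Nat.add_sub_cancel] using hr1
  · -- uniq
    intro w hw hwl u hu v hv hr1 hr2
    obtain ⟨u', hu'⟩ := Option.isSome_iff_exists.mp hr1
    obtain ⟨v', hv'⟩ := Option.isSome_iff_exists.mp hr2
    obtain ⟨q, hq, e1, e2, e3, e4, e5⟩ := walk w u u' hw hu hu'
    obtain ⟨r, hr, f1, f2, f3, f4, f5⟩ := walk w v v' hw hv hv'
    have hwl' : w.length = l.length + n0 + 1 := hwl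
    have he : q.map col = r.map col := by
      refine cdo_lw_inj _ _ ?_ ?_ (e5.trans f5.symm)
      · rw [List.length_map]; omega
      · rw [List.length_map, List.length_map]; omega
    have hqr := c4 q r e4 f4 (by omega) (by omega) he
    subst hqr
    exact e2.symm.trans f2

end Pool.Agent.H76.SC
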