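import Mathlib
import Pool.Agent.H76.SC.AutRun

set_option autoImplicit false

/-! # Expanding levels are connected -/

namespace Pool.Agent.H76.SC

theorem cn_bdry {k : ℕ} {V : Type} (A : Aut k V) (B : Finset V)
    (h : ∀ x ∈ B, ∀ a y, A.step x a = some y → y ∈ B) :
    Nat.card {p : V × (Fin k × Bool) // p.1 ∈ B ∧ ∃ y, y ∉ B ∧ A.step p.1 p.2 = some y} = 0 := by
  rw [Nat.card_eq_zero]
  left
  refine ⟨fun p => ?_⟩
  obtain ⟨⟨x, a⟩, hx, y, hy, hs⟩ := p
  exact hy (h x hx a y hs)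

theorem conn {k : ℕ} {V : Type} (A : Aut k V) (b : ℕ) (hexp : A.Exp b)
    (hfin : ∀ n, Finite {x // A.lev x = n}) (x y : V) (h : A.lev x = A.lev y) :
    ∃ w, A.run x w = some y := by
  classical
  by_contra hno
  have hf : Set.Finite {z : V | A.lev z = A.lev x} := hfin (A.lev x)
  obtain ⟨L, hL⟩ : ∃ L : Finset V, ∀ z, z ∈ L ↔ A.lev z = A.lev x :=
    ⟨hf.toFinset, fun z => by simp⟩
  set R := L.filter (fun z => ∃ w, A.run x w = some z) with hR
  set S := L.filter (fun z => ¬ ∃ w, A.run x w = some z) with hS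
  have hcard : R.card + S.card = L.card := by
    rw [hR, hS]
    exact Finset.card_filter_add_card_filter_not (fun z => ∃ w, A.run x w = some z)
  have hLc : Nat.card {z // A.lev z = A.lev x} = L.card := by
    rw [Nat.subtype_card L hL]
  have hRcl : ∀ z ∈ R, ∀ a z', A.step z a = some z' → z' ∈ R := by
    intro z hz a z' hs
    rw [hR, Finset.mem_filter, hL] at hz ⊢
    obtain ⟨h1, w, hw⟩ := hz
    refine ⟨(A.lev_step z z' a hs).trans h1, w ++ [a], ?_⟩
    rw [ar_run_append_eq]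
    exact ⟨z, hw, by rw [ar_run_cons_eq]; exact ⟨z', hs, rfl⟩⟩
  have hScl : ∀ z ∈ S, ∀ a z', A.step z a = some z' → z' ∈ S := by
    intro z hz a z' hs
    rw [hS, Finset.mem_filter, hL] at hz ⊢
    obtain ⟨h1, h2⟩ := hz
    refine ⟨(A.lev_step z z' a hs).trans h1, ?_⟩
    rintro ⟨w, hw⟩
    refine h2 ⟨w ++ [(a.1, !a.2)], ?_⟩
    rw [ar_run_append_eq]
    exact ⟨z', hw, by rw [ar_run_cons_eq]; exact ⟨z, A.inv z z' a hs, rfl⟩⟩
  have hxR : x ∈ R := by
    rw [hR, Finset.mem_filter, hL]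
    exact ⟨rfl, [], rfl⟩
  have hyS : y ∈ S := by
    rw [hS, Finset.mem_filter, hL]
    exact ⟨h.symm, hno⟩
  rcases le_total R.card S.card with hc | hc
  · have h1 := hexp (A.lev x) R (fun z hz => by
      rw [hR, Finset.mem_filter, hL] at hz; exact hz.1) (by rw [hLc]; omega)
    rw [cn_bdry A R hRcl, mul_zero, Nat.le_zero, Finset.card_eq_zero] at h1
    rw [h1] at hxR
    exact absurd hxR (Finset.notMem_empty _)
  · have h1 := hexp (A.lev x) S (fun z hz => by
      rw [hS, Finset.mem_filter, hL] at hz; exact hz.1) (by rw [hLc]; omega)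
    rw [cn_bdry A S hScl, mul_zero, Nat.le_zero, Finset.card_eq_zero] at h1
    rw [h1] at hyS
    exact absurd hyS (Finset.notMem_empty _)

end Pool.Agent.H76.SC
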