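import Mathlib
import Pool.Agent.H76.SC.Chain

set_option autoImplicit false

/-! # Walls crossed by a geodesic of the quotient group -/

namespace Pool.Agent.H76.SC

open FreeGroup

variable {k : ℕ} {V : Type} [DecidableEq V] (A : Aut k V)

/-- `v` is on the geodesic from `1` to `x` -/
def On (x v : FreeGroup (Fin k)) : Prop := Btw fd 1 v x

/-- long overlap of the geodesic from `1` to `x` with a lift -/
structure Aut.Lg (c : A.Idx) (x α β : FreeGroup (Fin k)) : Prop where
  ha : Pr fd (A.YY c) 1 α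
  hb : Pr fd (A.YY c) x β
  long : 198 * A.g (A.lv c) ≤ 200 * fd α β

/-- vertices far from the two ends of an overlap -/
def Aut.Far (c : A.Idx) (α β : FreeGroup (Fin k)) (y : V) : Prop :=
  ∀ v, c.1 v = some y → A.g (A.lv c) < 50 * fd α v ∧ A.g (A.lv c) < 50 * fd β v

theorem tr : IsTree (fd (S := Fin k)) := isTree_fd _

theorem fd_mul (g x y : FreeGroup (Fin k)) : fd (g * x) (g * y) = fd x y := by
  unfold fd
  congr 2
  group

omit [DecidableEq V] in
theorem ell_pos (c : A.Idx) : 400 ≤ A.g (A.lv c) := A.big _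

theorem geo_sub {x u z : FreeGroup (Fin k)} (hx : A.sysH.Geo 1 x) (hu : On x u) (hz : On x z) :
    A.sysH.Geo u z := by
  intro n hn
  show fd u z ≤ fd u (n * z)
  unfold On at *
  rcases le_total (fd 1 u) (fd 1 z) with h | h
  · obtain ⟨h1, h2⟩ := btw_linear tr hu hz h
    have h3 : fd 1 x ≤ fd 1 (n * x) := hx n hn
    have h4 := tr.tri 1 u (n * x)
    have h5 := tr.tri u (n * z) (n * x)
    have h6 := fd_mul n z x
    unfold Btw at *
    omega
  · obtain ⟨h1, h2⟩ := btw_linear tr hz hu h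
    have h3 : fd 1 x ≤ fd 1 (n⁻¹ * x) := hx n⁻¹ (inv_mem hn)
    have h4 := tr.tri 1 z (n⁻¹ * x)
    have h5 := tr.tri z (n⁻¹ * u) (n⁻¹ * x)
    have h6 := fd_mul n⁻¹ u x
    have h7 : fd z (n⁻¹ * u) = fd u (n * z) := by
      rw [← fd_mul n z, mul_inv_cancel_left, tr.symm]
    have h8 := tr.symm u z
    unfold Btw at *
    omega

theorem Lg.split {c : A.Idx} {x α β : FreeGroup (Fin k)} (h : A.Lg c x α β) :
    fd 1 x = fd 1 α + fd α β + fd β x := by
  apply pr_two tr h.ha h.hb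
  rintro rfl
  have h1 := h.long
  have h2 := ell_pos A c
  rw [tr.self] at h1
  omega

theorem Lg.onA {c : A.Idx} {x α β : FreeGroup (Fin k)} (h : A.Lg c x α β) : On x α := by
  have h1 := Lg.split A h
  have h2 := tr.tri α β x
  have h3 := tr.tri 1 α x
  unfold On Btw
  omega

theorem Lg.onB {c : A.Idx} {x α β : FreeGroup (Fin k)} (h : A.Lg c x α β) : On x β := by
  have h1 := Lg.split A h
  have h2 := tr.tri 1 α β
  have h3 := tr.tri 1 β x
  unfold On Btw
  omega

/-- points of the path in the lift are between the ends of the overlap -/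
theorem Lg.btw {c : A.Idx} {x α β v : FreeGroup (Fin k)} (h : A.Lg c x α β) (hv : On x v)
    (hv' : v ∈ A.YY c) : Btw fd α v β := by
  have h1 := Lg.split A h
  have h2 := h.ha.2 v hv'
  have h3 := h.hb.2 v hv'
  have s1 := (tr (k := k)).symm x v
  have s2 := (tr (k := k)).symm x β
  have s3 := (tr (k := k)).symm β v
  unfold On Btw at *
  omega

/-- the gate of a point of the path outside the lift is an end of the overlap -/
theorem Lg.gate {c : A.Idx} {x α β v : FreeGroup (Fin k)} (h : A.Lg c x α β) (hv : On x v)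
    (hv' : v ∉ A.YY c) : (Pr fd (A.YY c) v α ∧ Btw fd 1 v α) ∨
      (Pr fd (A.YY c) v β ∧ Btw fd β v x) := by
  rcases le_total (fd 1 v) (fd 1 α) with h1 | h1
  · left
    obtain ⟨h2, h3⟩ := btw_linear tr hv (Lg.onA A h) h1
    exact ⟨pr_btw tr h.ha h2, h2⟩
  · rcases le_total (fd 1 β) (fd 1 v) with h2 | h2
    · right
      obtain ⟨h3, h4⟩ := btw_linear tr (Lg.onB A h) hv h2
      exact ⟨pr_btw tr h.hb (Btw.symm tr h4), h4⟩
    · exfalso
      apply hv'
      apply conv_YY A c α β v h.ha.1 h.hb.1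
      obtain ⟨h3, h4⟩ := btw_linear tr (Lg.onA A h) hv h1
      obtain ⟨h5, h6⟩ := btw_linear tr hv (Lg.onB A h) h2
      have h7 := Lg.split A h
      unfold On Btw at *
      have h8 := Lg.onA A h
      have h9 := Lg.onB A h
      unfold On Btw at h8 h9
      omega

theorem chain_far {a : Fin k} {c : A.Idx} {u z p : FreeGroup (Fin k)} (h : A.RCE a c u z)
    (hg : A.sysH.Geo u z) (hp : Pr fd (A.YY c) z p) : 198 * A.g (A.lv c) ≤ 200 * fd u p ∧
      ∃ f ∈ A.DD c, 200 * fd p (f * u) ≤ 2 * A.g (A.lv c) := by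
  obtain ⟨f, hf, hf', h1⟩ := chainK (gl A.sysH) (RCE.rc A h) hg hp
  have h1' : 200 * fd p (f * u) ≤ 2 * A.g (A.lv c) := h1
  have hf1 : f ≠ 1 := by
    rintro rfl
    exact hf' (one_mem _)
  have h2 : A.g (A.lv c) ≤ fd u (f * u) := disp_DD A c f hf hf1 u (RCE.mem A h).1
  have h3 := tr.tri u p (f * u)
  exact ⟨by omega, f, hf, h1'⟩

/-- existence of a chain -/
theorem wall_chain {x u z : FreeGroup (Fin k)} {a b : Fin k} (hx : A.sysH.Geo 1 x)
    (hu : On x u) (hz : On x z) (hW : A.wm (u, a) = A.wm (z, b)) (hne : u ≠ z) :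
    a = b ∧ ∃ c, A.RCE a c u z := by
  obtain ⟨h1, h2⟩ := (wm_eq A).mp hW
  refine ⟨h1, ?_⟩
  rcases chain_exists A h2 with ⟨n, hn, h3⟩ | h3
  · exfalso
    apply hne
    apply tr.eq
    have h4 : fd u z ≤ fd u (n⁻¹ * z) := geo_sub A hx hu hz n⁻¹ (inv_mem hn)
    dsimp only at h3
    rw [h3, inv_mul_cancel_left, tr.self] at h4
    rw [h3]
    omega
  · exact h3

theorem long_of {c : A.Idx} {x u z p : FreeGroup (Fin k)} (hu : On x u) (hz : On x z)
    (hu' : u ∈ A.YY c) (hp : Pr fd (A.YY c) z p) (hl : 198 * A.g (A.lv c) ≤ 200 * fd u p) :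
    ∃ α β, A.Lg c x α β := by
  obtain ⟨α, hα⟩ := exists_pr tr (conv_YY A c) ⟨u, hu'⟩ 1
  obtain ⟨β, hβ⟩ := exists_pr tr (conv_YY A c) ⟨u, hu'⟩ x
  refine ⟨α, β, hα, hβ, le_trans hl ?_⟩
  have h1 : Btw fd z p u := hp.2 u hu'
  have h2 : On x p := by
    unfold On at *
    rcases le_total (fd 1 u) (fd 1 z) with h | h
    · obtain ⟨h3, h4⟩ := btw_linear tr hu hz h
      have h5 := btw_trans' tr h3 (Btw.symm tr h1)
      exact (btw_trans tr hz h5.1).1
    · obtain ⟨h3, h4⟩ := btw_linear tr hz hu h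
      have h5 := btw_trans' tr h3 h1
      exact (btw_trans tr hu h5.1).1
  have h3 := hα.2 u hu'
  have h4 := hα.2 p hp.1
  have h5 := hβ.2 u hu'
  have h6 := hβ.2 p hp.1
  have h7 := tr.tri 1 α x
  have h8 := tr.tri α β x
  have s1 := (tr (k := k)).symm x β
  have s2 := (tr (k := k)).symm x u
  have s3 := (tr (k := k)).symm x p
  have s4 := (tr (k := k)).symm u p
  unfold On at *
  rcases le_total (fd 1 u) (fd 1 p) with h | h
  · obtain ⟨h9, h10⟩ := btw_linear tr hu h2 h
    unfold Btw at *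
    omega
  · obtain ⟨h9, h10⟩ := btw_linear tr h2 hu h
    unfold Btw at *
    omega

/-- edges of the path with the same wall are in long overlaps -/
theorem long_exists {x u z : FreeGroup (Fin k)} {a b : Fin k} (hx : A.sysH.Geo 1 x)
    (hu : On x u) (hz : On x z) (hW : A.wm (u, a) = A.wm (z, b)) (hne : u ≠ z) :
    ∃ c α β, A.Lg c x α β ∧ u ∈ A.YY c ∧ u * of a ∈ A.YY c := by
  obtain ⟨-, c, h1⟩ := wall_chain A hx hu hz hW hne
  obtain ⟨h2, h3⟩ := RCE.mem A h1
  obtain ⟨p, hp⟩ := exists_pr tr (conv_YY A c) ⟨u, h2⟩ z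
  obtain ⟨α, β, h4⟩ := long_of A hu hz h2 hp (chain_far A h1 (geo_sub A hx hu hz) hp).1
  exact ⟨c, α, β, h4, h2, h3⟩

/-- edges of the path equivalent to an edge of a long overlap far from its ends are in the same lift
and over the same edge -/
theorem star {c : A.Idx} {x α β u z : FreeGroup (Fin k)} {a b : Fin k} {y : V}
    (hx : A.sysH.Geo 1 x) (hL : A.Lg c x α β) (hu : On x u) (hz : On x z)
    (hz' : On x (z * of b)) (huc : u ∈ A.YY c) (hy : c.1 u = some y)
    (hF : A.Far c α β y) (hW : A.wm (u, a) = A.wm (z, b)) (huc' : u * of a ∈ A.YY c) :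
    a = b ∧ z ∈ A.YY c ∧ z * of b ∈ A.YY c ∧ c.1 z = some y := by
  have hab : a = b := ((wm_eq A).mp hW).1
  refine ⟨hab, ?_⟩
  by_cases hne : u = z
  · subst hne
    subst hab
    exact ⟨huc, huc', hy⟩
  obtain ⟨-, c', h1⟩ := wall_chain A hx hu hz hW hne
  have hg := geo_sub A hx hu hz
  obtain ⟨h2, h3⟩ := RCE.mem A h1
  have hcc : c' = c := by
    by_contra hcc
    obtain ⟨p, hp⟩ := exists_pr tr (conv_YY A c') ⟨u, h2⟩ z
    obtain ⟨h4, -⟩ := chain_far A h1 hg hp
    have hl := ell_pos A c'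
    have hFu := hF u hy
    have h5 : Btw fd z p u := hp.2 u h2
    have hpx : On x p := by
      unfold On at *
      rcases le_total (fd 1 u) (fd 1 z) with h | h
      · obtain ⟨h6, h7⟩ := btw_linear tr hu hz h
        have h8 := btw_trans' tr h6 (Btw.symm tr h5)
        exact (btw_trans tr hz h8.1).1
      · obtain ⟨h6, h7⟩ := btw_linear tr hz hu h
        have h8 := btw_trans' tr h6 h5
        exact (btw_trans tr hu h8.1).1
    by_cases hpc : p ∈ A.YY c
    · have := (piece_YY A c' c hcc u p h2 huc hp.1 hpc).1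
      omega
    · rcases Lg.gate A hL hpx hpc with ⟨h6, -⟩ | ⟨h6, -⟩
      · have h7 : Btw fd p α u := h6.2 u huc
        have h8 : α ∈ A.YY c' := conv_YY A c' p u α hp.1 h2 h7
        have h9 := (piece_YY A c c' (Ne.symm hcc) α u hL.ha.1 h8 huc h2).1
        omega
      · have h7 : Btw fd p β u := h6.2 u huc
        have h8 : β ∈ A.YY c' := conv_YY A c' p u β hp.1 h2 h7
        have h9 := (piece_YY A c c' (Ne.symm hcc) β u hL.hb.1 h8 huc h2).1
        omega
  subst hcc
  obtain ⟨p, hp⟩ := exists_pr tr (conv_YY A c') ⟨u, h2⟩ z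
  obtain ⟨-, f, hf, h4⟩ := chain_far A h1 hg hp
  have hfu : c'.1 (f * u) = some y := by rw [DD_apply A hf, hy]
  have hFu := hF _ hfu
  have hbad : p ≠ α ∧ p ≠ β := by
    constructor
    · rintro rfl; omega
    · rintro rfl; omega
  have hzc : z ∈ A.YY c' := by
    by_contra hzc
    rcases Lg.gate A hL hz hzc with ⟨h6, -⟩ | ⟨h6, -⟩
    · exact hbad.1 (pr_unique tr hp h6)
    · exact hbad.2 (pr_unique tr hp h6)
  have hpz : p = z := pr_unique tr hp (pr_self tr hzc)
  have hd1 : fd (z * of b) z = 1 := by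
    unfold fd
    rw [mul_inv_rev, inv_mul_cancel_right]
    rfl
  have hzc' : z * of b ∈ A.YY c' := by
    by_contra hzc'
    have hz1 : ∀ q, q ∈ A.YY c' → Pr fd (A.YY c') (z * of b) q → z = q := by
      intro q hq h6
      have h7 := h6.2 z hzc
      apply tr.eq
      have h8 : fd (z * of b) q ≠ 0 := by
        intro h9
        rw [tr.eq _ _ h9] at hzc'
        exact hzc' hq
      have s1 := (tr (k := k)).symm z q
      unfold Btw at h7
      omega
    rcases Lg.gate A hL hz' hzc' with ⟨h6, -⟩ | ⟨h6, -⟩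
    · exact hbad.1 (hpz.trans (hz1 _ hL.ha.1 h6))
    · exact hbad.2 (hpz.trans (hz1 _ hL.hb.1 h6))
  refine ⟨hzc, hzc', ?_⟩
  obtain ⟨f', hf', h5⟩ := chainK2 (gl A.sysH) (RCE.rc A h1) hg hzc
  rw [h5, DD_apply A hf', hy]

/-- different long overlaps have different far walls -/
theorem long_inj {c c' : A.Idx} {x α β α' β' u u' : FreeGroup (Fin k)} {a a' : Fin k} {y y' : V}
    (hx : A.sysH.Geo 1 x) (hL : A.Lg c x α β) (hL' : A.Lg c' x α' β') (hu : On x u)
    (hu' : On x u') (hu1 : On x (u' * of a')) (huc : u ∈ A.YY c) (hy : c.1 u = some y)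
    (hF : A.Far c α β y) (huc' : u * of a ∈ A.YY c) (hvc : u' ∈ A.YY c') (hy' : c'.1 u' = some y')
    (hF' : A.Far c' α' β' y') (hW : A.wm (u, a) = A.wm (u', a')) : c = c' := by
  by_contra hcc
  obtain ⟨-, h1, -, -⟩ := star A hx hL hu hu' hu1 huc hy hF hW huc'
  have hFu := hF' u' hy'
  -- one of the ends of the first overlap is outside the second lift
  have h2 : α ∉ A.YY c' ∨ β ∉ A.YY c' := by
    by_contra h
    push_neg at h
    have h3 := (piece_YY A c c' hcc α β hL.ha.1 h.1 hL.hb.1 h.2).1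
    have h4 := hL.long
    have h5 := ell_pos A c
    omega
  have key : ∀ q, q ∈ A.YY c → On x q → q ∉ A.YY c' → False := by
    intro q hq hqx hqc
    rcases Lg.gate A hL' hqx hqc with ⟨h6, -⟩ | ⟨h6, -⟩
    · have h7 : Btw fd q α' u' := h6.2 u' hvc
      have h8 : α' ∈ A.YY c := conv_YY A c q u' α' hq h1 h7
      have h9 := (piece_YY A c' c (Ne.symm hcc) α' u' hL'.ha.1 h8 hvc h1).1
      omega
    · have h7 : Btw fd q β' u' := h6.2 u' hvc
      have h8 : β' ∈ A.YY c := conv_YY A c q u' β' hq h1 h7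
      have h9 := (piece_YY A c' c (Ne.symm hcc) β' u' hL'.hb.1 h8 hvc h1).1
      omega
  rcases h2 with h2 | h2
  · exact key α hL.ha.1 (Lg.onA A hL) h2
  · exact key β hL.hb.1 (Lg.onB A hL) h2

end Pool.Agent.H76.SC
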