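import Mathlib
import Pool.Agent.H76.SC.Star

set_option autoImplicit false

/-! # Edges of reduced words -/

namespace Pool.Agent.H76.SC

open FreeGroup

variable {k : ℕ}

theorem ed_get {w : List (Fin k × Bool)} : ∀ (g : FreeGroup (Fin k)) (i : ℕ) (h : i < w.length)
    (h' : i < (ed g w).length),
    (((ed g w)[i]).1 = g * FreeGroup.mk (w.take i) ∧
      ((ed g w)[i]).1 * of ((ed g w)[i]).2 = g * FreeGroup.mk (w.take (i + 1))) ∨
    (((ed g w)[i]).1 = g * FreeGroup.mk (w.take (i + 1)) ∧
      ((ed g w)[i]).1 * of ((ed g w)[i]).2 = g * FreeGroup.mk (w.take i)) := by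
  induction w with
  | nil => intro g i h; simp at h
  | cons l w ih =>
    obtain ⟨a, b⟩ := l
    intro g i h h'
    cases i with
    | zero =>
      cases b
      · right
        simp only [ed, List.getElem_cons_zero, List.take_zero, List.take_succ_cons]
        refine ⟨rfl, ?_⟩
        rw [← FreeGroup.one_eq_mk]
        group
      · left
        simp only [ed, List.getElem_cons_zero, List.take_zero, List.take_succ_cons]
        refine ⟨?_, rfl⟩
        rw [← FreeGroup.one_eq_mk]
        group
    | succ i =>
      have h1 : i < w.length := by simpa using h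
      have hm : ∀ n, FreeGroup.mk ((a, b) :: w.take n) = FreeGroup.mk [(a, b)] *
          FreeGroup.mk (w.take n) := fun n => by rw [mul_mk]; rfl
      cases b
      · have e1 : FreeGroup.mk [(a, false)] = (of a)⁻¹ := rfl
        have h2 := ih (g * (of a)⁻¹) i h1 (by rw [ed_length]; exact h1)
        simp only [ed, List.getElem_cons_succ, List.take_succ_cons, hm, e1, ← mul_assoc]
        exact h2
      · have e1 : FreeGroup.mk [(a, true)] = of a := rfl
        have h2 := ih (g * of a) i h1 (by rw [ed_length]; exact h1)
        simp only [ed, List.getElem_cons_succ, List.take_succ_cons, hm, e1, ← mul_assoc]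
        exact h2

theorem red_take {w : List (Fin k × Bool)} (hw : reduce w = w) (i : ℕ) :
    reduce (w.take i) = w.take i := by
  rw [← isReduced_iff_reduce_eq] at *
  exact List.IsChain.take hw i

theorem fd_take {w : List (Fin k × Bool)} (hw : reduce w = w) (g : FreeGroup (Fin k)) {i : ℕ}
    (h : i ≤ w.length) : fd g (g * FreeGroup.mk (w.take i)) = i := by
  unfold fd
  rw [inv_mul_cancel_left, toWord_mk, red_take hw, List.length_take]
  omega

theorem btw_take {w : List (Fin k × Bool)} (hw : reduce w = w) (g : FreeGroup (Fin k)) (i : ℕ) :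
    Btw fd g (g * FreeGroup.mk (w.take i)) (g * FreeGroup.mk w) := by
  rw [btw_fd]
  have h1 : (g * FreeGroup.mk (w.take i))⁻¹ * (g * FreeGroup.mk w) =
      FreeGroup.mk (w.drop i) := by
    have : FreeGroup.mk w = FreeGroup.mk (w.take i) * FreeGroup.mk (w.drop i) := by
      rw [mul_mk, List.take_append_drop]
    rw [this]
    group
  have h2 : reduce (w.drop i) = w.drop i := by
    rw [← isReduced_iff_reduce_eq] at *
    exact List.IsChain.drop hw i
  rw [inv_mul_cancel_left, inv_mul_cancel_left, h1, toWord_mk, toWord_mk, toWord_mk, hw,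
    red_take hw, h2, List.take_append_drop]

/-- edges of a reduced word lie on its geodesic -/
theorem ed_btw {w : List (Fin k × Bool)} (hw : reduce w = w) (g : FreeGroup (Fin k))
    {e : FreeGroup (Fin k) × Fin k} (he : e ∈ ed g w) :
    Btw fd g e.1 (g * FreeGroup.mk w) ∧ Btw fd g (e.1 * of e.2) (g * FreeGroup.mk w) := by
  obtain ⟨i, hi, rfl⟩ := List.getElem_of_mem he
  have hi' : i < w.length := by rwa [ed_length] at hi
  rcases ed_get g i hi' hi with ⟨h1, h2⟩ | ⟨h1, h2⟩
  · rw [h1] at h2 ⊢
    rw [h2]
    exact ⟨btw_take hw g i, btw_take hw g (i + 1)⟩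
  · rw [h1] at h2 ⊢
    rw [h2]
    exact ⟨btw_take hw g (i + 1), btw_take hw g i⟩

theorem ed_nodup {w : List (Fin k × Bool)} (hw : reduce w = w) (g : FreeGroup (Fin k)) :
    (ed g w).Nodup := by
  rw [List.nodup_iff_injective_getElem]
  intro ⟨i, hi⟩ ⟨j, hj⟩ hij
  dsimp only at hij
  have hi' : i < w.length := by rwa [ed_length] at hi
  have hj' : j < w.length := by rwa [ed_length] at hj
  have key : ∀ (i : ℕ) (hi : i < (ed g w).length), i < w.length →
      i = min (fd g ((ed g w)[i]).1) (fd g (((ed g w)[i]).1 * of ((ed g w)[i]).2)) := by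
    intro i hi hi'
    rcases ed_get g i hi' hi with ⟨h1, h2⟩ | ⟨h1, h2⟩
    · rw [h2, h1, fd_take hw g hi'.le, fd_take hw g hi']
      omega
    · rw [h2, h1, fd_take hw g hi'.le, fd_take hw g hi']
      omega
  have h1 := key i hi hi'
  have h2 := key j hj hj'
  rw [hij, ← h2] at h1
  exact Fin.ext h1

/-- coordinates of edge sums count edges -/
theorem es_apply {α : Type*} [DecidableEq α] (f : FreeGroup (Fin k) × Fin k → α)
    (g : FreeGroup (Fin k)) (w : List (Fin k × Bool)) (p : α) :
    es f g w p = (((ed g w).filter (fun e => f e = p)).length : ZMod 2) := by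
  unfold es
  generalize ed g w = l
  induction l with
  | nil => simp
  | cons e l ih =>
    rw [List.map_cons, List.sum_cons, Finsupp.add_apply, ih, List.filter_cons,
      Finsupp.single_apply]
    by_cases h : f e = p
    · simp [h, add_comm]
    · simp [h]

end Pool.Agent.H76.SC
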