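import Mathlib
import Pool.Agent.H76.SC.AutRun

set_option autoImplicit false

/-! # Long geodesics in the mod 2 homology cover cross many edges an odd number of times, away from
their endpoints -/

namespace Pool.Agent.H76.SC

section

variable {k : ℕ} {V : Type} (A : Aut k V)

/-- the edge crossed by the letter `c` from `x` to `z` -/
def lr_edge (x : V) (c : Fin k × Bool) (z : V) : V × Fin k := (if c.2 then x else z, c.1)

/-- all crossed edges lie in `S` -/
def lr_in (S : Set (V × Fin k)) : V → List (Fin k × Bool) → Prop
  | _, [] => True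
  | x, c :: u => ∃ z, A.step x c = some z ∧ lr_edge x c z ∈ S ∧ lr_in S z u

def lr_near (l : ℕ) (x z : V) : Prop := ∃ p, 50 * p.length ≤ l ∧ A.run x p = some z

theorem lr_in_snoc (S : Set (V × Fin k)) {x z z' : V} {u : List (Fin k × Bool)}
    {c : Fin k × Bool} (h : lr_in A S x u) (hr : A.run x u = some z)
    (hs : A.step z c = some z') (he : lr_edge z c z' ∈ S) : lr_in A S x (u ++ [c]) := by
  induction u generalizing x with
  | nil =>
    rw [run_nil] at hr
    rw [Option.some.inj hr]
    exact ⟨z', hs, he, trivial⟩
  | cons a u ih =>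
    obtain ⟨z1, h1, h2, h3⟩ := h
    obtain ⟨z2, h4, h5⟩ := (ar_run_cons_eq A).mp hr
    have h14 : z1 = z2 := by rw [h1] at h4; exact Option.some.inj h4
    subst h14
    exact ⟨z1, h1, h2, ih h3 h5⟩

theorem lr_in_mono {S T : Set (V × Fin k)} (hST : S ⊆ T) {x : V} {u : List (Fin k × Bool)}
    (h : lr_in A S x u) : lr_in A T x u := by
  induction u generalizing x with
  | nil => trivial
  | cons a u ih =>
    obtain ⟨z1, h1, h2, h3⟩ := h
    exact ⟨z1, h1, hST h2, ih h3⟩

theorem lr_fun (S : Set (V × Fin k)) {x : V} {u : List (Fin k × Bool)}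
    (h : lr_in A S x u) : ∃ v : ℕ → V, v 0 = x ∧ ∀ i (hi : i < u.length),
      A.step (v i) u[i] = some (v (i + 1)) ∧ lr_edge (v i) u[i] (v (i + 1)) ∈ S := by
  induction u generalizing x with
  | nil => exact ⟨fun _ => x, rfl, fun i hi => absurd hi (Nat.not_lt_zero i)⟩
  | cons a u ih =>
    obtain ⟨z1, h1, h2, h3⟩ := h
    obtain ⟨v, hv0, hv⟩ := ih h3
    refine ⟨fun i => Nat.casesOn i x v, rfl, ?_⟩
    intro i hi
    cases i with
    | zero =>
      simp only [List.getElem_cons_zero]
      rw [hv0]
      exact ⟨h1, h2⟩
    | succ i =>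
      simp only [List.getElem_cons_succ]
      exact hv i (by simpa using hi)

theorem lr_seg {u : List (Fin k × Bool)} {v : ℕ → V}
    (hv : ∀ i (hi : i < u.length), A.step (v i) u[i] = some (v (i + 1)))
    (s m : ℕ) (hsm : s + m ≤ u.length) :
    A.run (v s) ((u.drop s).take m) = some (v (s + m)) := by
  induction m with
  | zero => simp [run_nil]
  | succ m ih =>
    have h1 : m < (u.drop s).length := by rw [List.length_drop]; omega
    rw [List.take_succ_eq_append_getElem h1, ar_run_append_eq]
    refine ⟨v (s + m), ih (by omega), ?_⟩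
    rw [ar_run_cons_eq]
    refine ⟨v (s + m + 1), ?_, rfl⟩
    rw [List.getElem_drop]
    exact hv (s + m) (by omega)

theorem lr_seg_red {u : List (Fin k × Bool)} (hu : FreeGroup.IsReduced u) (s m : ℕ) :
    FreeGroup.IsReduced ((u.drop s).take m) := by
  unfold FreeGroup.IsReduced at hu ⊢
  exact (hu.drop s).take m

theorem lr_seg_len {u : List (Fin k × Bool)} (s m : ℕ) (hsm : s + m ≤ u.length) :
    ((u.drop s).take m).length = m := by
  rw [List.length_take, List.length_drop]; omega

/-- short reduced paths visit distinct vertices -/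
theorem lr_distinct {u : List (Fin k × Bool)} (hu : FreeGroup.IsReduced u) {v : ℕ → V}
    (hv : ∀ i (hi : i < u.length), A.step (v i) u[i] = some (v (i + 1)))
    (hlen : u.length < A.g (A.lev (v 0))) (s t : ℕ) (hst : s < t) (ht : t ≤ u.length) :
    v s ≠ v t := by
  intro h
  have h1 := lr_seg A hv s (t - s) (by omega)
  have h2 : s + (t - s) = t := by omega
  rw [h2, ← h] at h1
  have h3 := lr_seg_red hu s (t - s)
  have h4 : ((u.drop s).take (t - s)).length = t - s := lr_seg_len s (t - s) (by omega)
  have h5 := A.girth (v s) _ h3.reduce_eq (by intro h; rw [h] at h4; simp at h4; omega) h1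
  have h6 := lr_seg A hv 0 s (by omega)
  have h7 := run_lev A h6
  rw [zero_add] at h7
  rw [h7, h4] at h5
  omega

theorem lr_near_dist {u : List (Fin k × Bool)} (hu : FreeGroup.IsReduced u) {v : ℕ → V}
    (hv : ∀ i (hi : i < u.length), A.step (v i) u[i] = some (v (i + 1)))
    (x : V) (l : ℕ) (hl : l = A.g (A.lev x)) (hl2 : 400 ≤ l)
    (hlen : 2 * u.length ≤ l + 1) (s t : ℕ) (hst : s ≤ t) (ht : t ≤ u.length)
    (hs : lr_near A l x (v s)) (ht' : lr_near A l x (v t)) : 50 * (t - s) ≤ 2 * l := by
  obtain ⟨p, hp, hp'⟩ := hs
  obtain ⟨q, hq, hq'⟩ := ht'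
  have h1 := lr_seg A hv s (t - s) (by omega)
  have h2 : s + (t - s) = t := by omega
  rw [h2] at h1
  have h3 := lr_seg_red hu s (t - s)
  have h4 : ((u.drop s).take (t - s)).length = t - s := lr_seg_len s (t - s) (by omega)
  set sg := (u.drop s).take (t - s) with hsg
  -- closed word at v s
  have h5 : A.run (v s) (sg ++ (winv q ++ p)) = some (v s) := by
    rw [ar_run_append_eq]
    refine ⟨v t, h1, ?_⟩
    rw [ar_run_append_eq]
    exact ⟨x, run_winv A hq', hp'⟩
  have hlw : (winv q).length = q.length := by simp [winv]
  have h6 : FreeGroup.reduce (sg ++ (winv q ++ p)) = [] := by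
    by_contra hne
    have h7 := A.girth (v s) _ (FreeGroup.reduce.idem) hne (run_reduce A h5)
    have h8 : (FreeGroup.reduce (sg ++ (winv q ++ p))).length ≤ (sg ++ (winv q ++ p)).length :=
      FreeGroup.norm_mk_le (L₁ := sg ++ (winv q ++ p))
    rw [List.length_append, List.length_append, hlw, h4] at h8
    have h9 := run_lev A hp'
    rw [h9, ← hl] at h7
    omega
  have h7 : FreeGroup.mk sg * ((FreeGroup.mk q)⁻¹ * FreeGroup.mk p) = 1 := by
    have h8 : FreeGroup.mk (sg ++ (winv q ++ p)) = 1 := by
      rw [← FreeGroup.reduce.self (L := sg ++ (winv q ++ p)), h6]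
      rfl
    rw [← h8]
    rfl
  have h8 : FreeGroup.mk sg = (FreeGroup.mk p)⁻¹ * FreeGroup.mk q := by
    have := eq_inv_of_mul_eq_one_left h7
    rw [this]
    group
  have h9 : (FreeGroup.mk sg).norm = t - s := by
    rw [← h4]
    show (FreeGroup.toWord (FreeGroup.mk sg)).length = _
    rw [FreeGroup.toWord_mk, h3.reduce_eq]
  have h10 : (FreeGroup.mk sg).norm ≤ p.length + q.length := by
    rw [h8]
    refine (FreeGroup.norm_mul_le _ _).trans ?_
    rw [FreeGroup.norm_inv_eq]
    exact add_le_add FreeGroup.norm_mk_le FreeGroup.norm_mk_le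
  omega

open Classical in
theorem lr_claim1 (x y : V) (l : ℕ) (hl : l = A.g (A.lev x)) (hy : A.lev y = A.lev x)
    (O : Finset (V × Fin k)) (hO : 4 * O.card < l) (z0 : V) (hz0 : A.lev z0 = A.lev x)
    (u : List (Fin k × Bool)) (hu : FreeGroup.IsReduced u)
    (hin : lr_in A {e | e ∈ O ∨ lr_near A l x e.1 ∨ lr_near A l y e.1} z0 u)
    (hM : u.length = (l + 1) / 2) : False := by
  have hl2 : 400 ≤ l := by rw [hl]; exact A.big _
  obtain ⟨v, hv0, hv⟩ := lr_fun A _ hin
  have hv1 : ∀ i (hi : i < u.length), A.step (v i) u[i] = some (v (i + 1)) :=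
    fun i hi => (hv i hi).1
  have hdist : ∀ s t, s < t → t ≤ u.length → v s ≠ v t := by
    intro s t hst ht
    apply lr_distinct A hu hv1 _ s t hst ht
    rw [hv0, hz0, ← hl]
    omega
  -- base index of a step
  let M := u.length
  have hne : 0 < u.length := by omega
  -- edge of step i
  let c : ℕ → Fin k × Bool := fun i => if h : i < u.length then u[i] else u[0]
  have hc : ∀ i (hi : i < u.length), c i = u[i] := fun i hi => by simp [c, hi]
  let e : ℕ → V × Fin k := fun i => lr_edge (v i) (c i) (v (i + 1))
  let b : ℕ → ℕ := fun i => if (c i).2 then i else i + 1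
  have hbe : ∀ i, (e i).1 = v (b i) := by
    intro i
    simp only [e, b, lr_edge]
    split_ifs <;> rfl
  have hb1 : ∀ i, i ≤ b i := by intro i; simp only [b]; split_ifs <;> omega
  have hb2 : ∀ i, b i ≤ i + 1 := by intro i; simp only [b]; split_ifs <;> omega
  have he : ∀ i, i < u.length → (e i ∈ O ∨ lr_near A l x (e i).1 ∨ lr_near A l y (e i).1) := by
    intro i hi
    have := (hv i hi).2
    rw [← hc i hi] at this
    exact this
  -- injectivity of e
  have hinj : ∀ i j, i < j → j < u.length → e i ≠ e j := by
    intro i j hij hj h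
    have h1 : v (b i) = v (b j) := by rw [← hbe, ← hbe, h]
    have h2 : (c i).1 = (c j).1 := congrArg Prod.snd h
    have hbi := hb2 i
    have hbj := hb1 j
    have hbj2 := hb2 j
    by_cases h3 : b i = b j
    · have h4 : b i = i + 1 := by omega
      have h5 : b j = j := by omega
      have h6 : j = i + 1 := by omega
      -- then c i has sign false and c j has sign true: not reduced
      have s1 : (c i).2 = false := by
        by_contra hcon
        simp only [b] at h4
        rw [if_pos (by simpa using hcon)] at h4
        omega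
      have s2 : (c j).2 = true := by
        by_contra hcon
        simp only [b] at h5
        rw [if_neg hcon] at h5
        omega
      have h7 := hu
      unfold FreeGroup.IsReduced at h7
      rw [List.isChain_iff_getElem] at h7
      have h8 := h7 i (by omega)
      subst h6
      rw [hc i (by omega)] at s1 h2
      rw [hc (i + 1) hj] at s2 h2
      have := h8 h2
      rw [s1, s2] at this
      exact absurd this (by decide)
    · exact hdist (b i) (b j) (by omega) (by omega) h1
  -- counting
  let I : Finset ℕ := Finset.range u.length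
  let IO := I.filter (fun i => e i ∈ O)
  let Ix := I.filter (fun i => lr_near A l x (e i).1)
  let Iy := I.filter (fun i => lr_near A l y (e i).1)
  have hcov : I ⊆ IO ∪ (Ix ∪ Iy) := by
    intro i hi
    have := he i (Finset.mem_range.mp hi)
    simp only [IO, Ix, Iy, Finset.mem_union, Finset.mem_filter]
    tauto
  have hIO : IO.card ≤ O.card := by
    apply Finset.card_le_card_of_injOn e
    · intro i hi
      exact (Finset.mem_filter.mp (Finset.mem_coe.mp hi)).2
    · intro i hi j hj hij
      have hi' := Finset.mem_range.mp (Finset.mem_filter.mp (Finset.mem_coe.mp hi)).1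
      have hj' := Finset.mem_range.mp (Finset.mem_filter.mp (Finset.mem_coe.mp hj)).1
      by_contra hne'
      rcases Nat.lt_or_gt_of_ne hne' with h | h
      · exact hinj i j h hj' hij
      · exact hinj j i h hi' hij.symm
  have hnear : ∀ x' : V, A.lev x' = A.lev x →
      50 * (I.filter (fun i => lr_near A l x' (e i).1)).card ≤ 2 * l + 150 := by
    intro x' hx'
    by_cases hemp : (I.filter (fun i => lr_near A l x' (e i).1)) = ∅
    · rw [hemp]; simp
    obtain ⟨s, hs, hsmin⟩ := Finset.exists_min_image (I.filter (fun i => lr_near A l x' (e i).1)) id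
      (Finset.nonempty_iff_ne_empty.mpr hemp)
    have hsub : I.filter (fun i => lr_near A l x' (e i).1) ⊆
        Finset.Ico s (s + (2 * l + 100) / 50) := by
      intro t ht
      have hst : s ≤ t := hsmin t ht
      rw [Finset.mem_Ico]
      refine ⟨hst, ?_⟩
      have hs1 := (Finset.mem_filter.mp hs).2
      have ht1 := (Finset.mem_filter.mp ht).2
      have hs2 := Finset.mem_range.mp (Finset.mem_filter.mp hs).1
      have ht2 := Finset.mem_range.mp (Finset.mem_filter.mp ht).1
      rw [hbe] at hs1 ht1
      have hbs := hb1 s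
      have hbs2 := hb2 s
      have hbt := hb1 t
      have hbt2 := hb2 t
      by_cases hlt : b s ≤ b t
      · have := lr_near_dist A hu hv1 x' l (by rw [hx']; exact hl) hl2 (by omega) (b s) (b t) hlt
          (by omega) hs1 ht1
        omega
      · have : t = s := by omega
        omega
    have := Finset.card_le_card hsub
    rw [Nat.card_Ico] at this
    omega
  have hx1 := hnear x rfl
  have hy1 := hnear y hy
  have h1 : I.card ≤ IO.card + (Ix.card + Iy.card) :=
    (Finset.card_le_card hcov).trans ((Finset.card_union_le _ _).trans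
      (Nat.add_le_add_left (Finset.card_union_le _ _) _))
  have h2 : I.card = u.length := Finset.card_range _
  simp only [Ix, Iy] at h1
  omega

/-- value of `P` on the edge crossed by the letter `c` at `z`. -/
def lr_val (P : V × Fin k → ZMod 2) (z : V) (c : Fin k × Bool) : ZMod 2 :=
  match A.step z c with
  | some z' => P (lr_edge z c z')
  | none => 0

def lr_bd (P : V × Fin k → ZMod 2) (z : V) : ZMod 2 := ∑ c, lr_val A P z c

theorem lr_val_some (P : V × Fin k → ZMod 2) {z z' : V} {c : Fin k × Bool}
    (h : A.step z c = some z') : lr_val A P z c = P (lr_edge z c z') := by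
  simp [lr_val, h]

theorem lr_val_none (P : V × Fin k → ZMod 2) {z : V} {c : Fin k × Bool}
    (h : A.step z c = none) : lr_val A P z c = 0 := by
  simp [lr_val, h]

theorem lr_val_ne (P : V × Fin k → ZMod 2) {z : V} {c : Fin k × Bool}
    (h : lr_val A P z c ≠ 0) : ∃ z', A.step z c = some z' ∧ P (lr_edge z c z') ≠ 0 := by
  cases hs : A.step z c with
  | none => exact absurd (lr_val_none A P hs) h
  | some z' => exact ⟨z', rfl, by rwa [lr_val_some A P hs] at h⟩

theorem lr_bd_add (P Q : V × Fin k → ZMod 2) (z : V) :
    lr_bd A (P + Q) z = lr_bd A P z + lr_bd A Q z := by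
  unfold lr_bd
  rw [← Finset.sum_add_distrib]
  apply Finset.sum_congr rfl
  intro c _
  cases hs : A.step z c with
  | none => simp [lr_val_none A _ hs]
  | some z' => simp [lr_val_some A _ hs]

theorem lr_edge_inv {z z' : V} {c : Fin k × Bool} :
    lr_edge z' (c.1, !c.2) z = lr_edge z c z' := by
  obtain ⟨a, b⟩ := c
  cases b <;> simp [lr_edge]

/-- walks inside the support of `P`. -/
theorem lr_walk (P : V × Fin k → ZMod 2) (z0 : V) (c0 : Fin k × Bool)
    (h0 : lr_val A P z0 c0 ≠ 0) (n : ℕ) (hn : 1 ≤ n) :
    ∃ (u' : List (Fin k × Bool)) (c : Fin k × Bool) (z : V),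
      FreeGroup.IsReduced (u' ++ [c]) ∧ lr_in A {e | P e ≠ 0} z0 (u' ++ [c]) ∧
      A.run z0 (u' ++ [c]) = some z ∧ lr_val A P z (c.1, !c.2) ≠ 0 ∧
      (u'.length + 1 = n ∨ (u'.length + 1 < n ∧ lr_bd A P z ≠ 0)) := by
  induction n with
  | zero => omega
  | succ n ih =>
    by_cases hn0 : n = 0
    · subst hn0
      obtain ⟨z', hz', hP⟩ := lr_val_ne A P h0
      refine ⟨[], c0, z', ?_, ?_, ?_, ?_, ?_⟩
      · exact FreeGroup.IsReduced.singleton
      · exact ⟨z', hz', hP, trivial⟩
      · rw [List.nil_append, ar_run_cons_eq]; exact ⟨z', hz', rfl⟩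
      · rw [lr_val_some A P (A.inv z0 z' c0 hz'), lr_edge_inv]
        exact hP
      · left; rfl
    · obtain ⟨u', c, z, h1, h2, h3, h4, h5⟩ := ih (by omega)
      rcases h5 with h5 | h5
      · by_cases hbd : lr_bd A P z = 0
        · -- extend
          have : ∃ c', c' ≠ (c.1, !c.2) ∧ lr_val A P z c' ≠ 0 := by
            by_contra hcon
            push Not at hcon
            apply h4
            rw [← hbd]
            unfold lr_bd
            rw [Finset.sum_eq_single (c.1, !c.2)]
            · intro c' _ hc'
              exact hcon c' hc'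
            · intro h; exact absurd (Finset.mem_univ _) h
          obtain ⟨c', hc', hval⟩ := this
          obtain ⟨z', hz', hP⟩ := lr_val_ne A P hval
          refine ⟨u' ++ [c], c', z', ?_, ?_, ?_, ?_, ?_⟩
          · apply FreeGroup.IsReduced.append_overlap h1 (by
              rw [List.singleton_append, FreeGroup.isReduced_cons_cons]
              refine ⟨?_, FreeGroup.IsReduced.singleton⟩
              intro h
              by_contra hne
              apply hc'
              refine Prod.ext h.symm ?_
              revert hne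
              cases c.2 <;> cases c'.2 <;> simp) (by simp)
          · exact lr_in_snoc A _ h2 h3 hz' hP
          · rw [ar_run_append_eq]
            refine ⟨z, h3, ?_⟩
            rw [ar_run_cons_eq]; exact ⟨z', hz', rfl⟩
          · rw [lr_val_some A P (A.inv z z' c' hz'), lr_edge_inv]
            exact hP
          · left
            rw [List.length_append, List.length_singleton]
            omega
        · exact ⟨u', c, z, h1, h2, h3, h4, Or.inr ⟨by omega, hbd⟩⟩
      · exact ⟨u', c, z, h1, h2, h3, h4, Or.inr ⟨by omega, h5.2⟩⟩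

variable [DecidableEq V]

theorem lr_bd_single_true {x x' : V} {a : Fin k} (h : A.step x (a, true) = some x') (z : V) :
    lr_bd A (Pi.single (x, a) 1) z = (if z = x then 1 else 0) + (if z = x' then 1 else 0) := by
  unfold lr_bd
  rw [Fintype.sum_prod_type]
  simp only [Fintype.sum_bool]
  rw [Finset.sum_add_distrib]
  congr 1
  · rw [Finset.sum_eq_single a]
    · cases hs : A.step z (a, true) with
      | none =>
        rw [lr_val_none A _ hs, if_neg]
        rintro rfl
        rw [h] at hs
        exact absurd hs (by simp)
      | some z' =>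
        rw [lr_val_some A _ hs]
        simp only [lr_edge, if_true]
        by_cases hz : z = x
        · subst hz; simp
        · rw [if_neg hz, Pi.single_eq_of_ne]
          intro h'
          exact hz (Prod.mk.inj h').1
    · intro b _ hb
      cases hs : A.step z (b, true) with
      | none => exact lr_val_none A _ hs
      | some z' =>
        rw [lr_val_some A _ hs, Pi.single_eq_of_ne]
        intro h'
        exact hb (Prod.mk.inj h').2
    · intro h'; exact absurd (Finset.mem_univ _) h'
  · rw [Finset.sum_eq_single a]
    · cases hs : A.step z (a, false) with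
      | none =>
        rw [lr_val_none A _ hs, if_neg]
        rintro rfl
        have := A.inv _ _ _ h
        simp only [Bool.not_true] at this
        rw [this] at hs
        exact absurd hs (by simp)
      | some z' =>
        rw [lr_val_some A _ hs]
        simp only [lr_edge, Bool.false_eq_true, if_false]
        have h1 := A.inv _ _ _ hs
        simp only [Bool.not_false] at h1
        by_cases hz : z = x'
        · subst hz
          have h2 := A.inv _ _ _ h
          simp only [Bool.not_true] at h2
          rw [h2] at hs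
          rw [Option.some.inj hs]
          simp
        · rw [if_neg hz, Pi.single_eq_of_ne]
          intro h'
          have h3 := (Prod.mk.inj h').1
          rw [h3, h] at h1
          exact hz (Option.some.inj h1).symm
    · intro b _ hb
      cases hs : A.step z (b, false) with
      | none => exact lr_val_none A _ hs
      | some z' =>
        rw [lr_val_some A _ hs, Pi.single_eq_of_ne]
        intro h'
        exact hb (Prod.mk.inj h').2
    · intro h'; exact absurd (Finset.mem_univ _) h'

theorem lr_bd_single {x x' : V} {c : Fin k × Bool} (h : A.step x c = some x') (z : V) :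
    lr_bd A (Pi.single (lr_edge x c x') 1) z
      = (if z = x then 1 else 0) + (if z = x' then 1 else 0) := by
  obtain ⟨a, b⟩ := c
  cases b with
  | true => simpa [lr_edge] using lr_bd_single_true A h z
  | false =>
    have := A.inv _ _ _ h
    simp only [Bool.not_false] at this
    have h2 := lr_bd_single_true A this z
    rw [add_comm] at h2
    simpa [lr_edge] using h2

theorem lr_bd_par {x y : V} {w : List (Fin k × Bool)} (h : A.run x w = some y) (z : V) :
    lr_bd A (A.par x w) z = (if z = x then 1 else 0) + (if z = y then 1 else 0) := by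
  induction w generalizing x with
  | nil =>
    rw [run_nil] at h
    rw [Option.some.inj h, ar_par_nil]
    have : lr_bd A (0 : V × Fin k → ZMod 2) z = 0 := by
      unfold lr_bd
      apply Finset.sum_eq_zero
      intro c _
      cases hs : A.step z c with
      | none => exact lr_val_none A _ hs
      | some z' => rw [lr_val_some A _ hs]; rfl
    rw [this]
    exact (CharTwo.add_self_eq_zero _).symm
  | cons a u ih =>
    obtain ⟨x', hx', hr⟩ := (ar_run_cons_eq A).mp h
    rw [ar_par_cons A hx', lr_bd_add, ih hr]
    have h1 := lr_bd_single A hx' z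
    unfold lr_edge at h1
    rw [h1]
    have h2 : ∀ p q r : ZMod 2, p + q + (q + r) = p + r := by decide
    exact h2 _ _ _

theorem lr_par_supp {S : Set (V × Fin k)} {x : V} {u : List (Fin k × Bool)}
    (h : lr_in A S x u) (e : V × Fin k) (he : A.par x u e ≠ 0) : e ∈ S := by
  induction u generalizing x with
  | nil => rw [ar_par_nil] at he; exact absurd rfl he
  | cons a u ih =>
    obtain ⟨z, h1, h2, h3⟩ := h
    rw [ar_par_cons A h1] at he
    by_cases hu : A.par z u e = 0
    · by_cases heq : e = lr_edge x a z
      · rw [heq]; exact h2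
      · exfalso
        apply he
        rw [Pi.add_apply, hu, add_zero]
        exact Pi.single_eq_of_ne heq 1
    · exact ih h3 hu

omit [DecidableEq V] in
theorem lr_run_in {x y : V} {u : List (Fin k × Bool)} (h : A.run x u = some y) :
    lr_in A {e | (∃ z, A.step e.1 (e.2, true) = some z) ∧ A.lev e.1 = A.lev x} x u := by
  induction u generalizing x with
  | nil => trivial
  | cons a u ih =>
    obtain ⟨z, hz, hr⟩ := (ar_run_cons_eq A).mp h
    refine ⟨z, hz, ?_, ?_⟩
    · obtain ⟨a, b⟩ := a
      cases b with
      | true => exact ⟨⟨z, by simpa [lr_edge] using hz⟩, by simp [lr_edge]⟩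
      | false =>
        have := A.inv _ _ _ hz
        simp only [Bool.not_false] at this
        exact ⟨⟨x, by simpa [lr_edge] using this⟩, by
          simpa [lr_edge] using A.lev_step x z _ hz⟩
    · have := ih hr
      rwa [A.lev_step x z _ hz] at this

theorem lr_par_fin {x y : V} {u : List (Fin k × Bool)} (h : A.run x u = some y) :
    {e | A.par x u e ≠ 0}.Finite := by
  induction u generalizing x with
  | nil => simp [ar_par_nil]
  | cons a u ih =>
    obtain ⟨z, hz, hr⟩ := (ar_run_cons_eq A).mp h
    apply ((ih hr).union (Set.finite_singleton (lr_edge x a z))).subset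
    intro e he
    rw [Set.mem_ofPred_eq, ar_par_cons A hz] at he
    by_cases hu : A.par z u e = 0
    · right
      rw [Set.mem_singleton_iff]
      by_contra heq
      apply he
      rw [Pi.add_apply, hu, add_zero]
      exact Pi.single_eq_of_ne heq 1
    · left; exact hu

end

theorem lemmaR {k : ℕ} {V : Type} [DecidableEq V] (A : Aut k V) (x y : V)
    (w : List (Fin k × Bool)) (hw : FreeGroup.reduce w = w) (hr : A.run x w = some y)
    (hmin : ∀ w', A.run x w' = some y → A.par x w' = A.par x w → w.length ≤ w'.length)
    (hlong : A.g (A.lev x) ≤ 2 * w.length) :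
    ∃ O : Finset (V × Fin k), A.g (A.lev x) ≤ 4 * O.card ∧ ∀ e ∈ O, A.par x w e ≠ 0 ∧
      ∀ u, 50 * u.length ≤ A.g (A.lev x) → A.run x u ≠ some e.1 ∧ A.run y u ≠ some e.1 := by
  classical
  obtain ⟨l, hl⟩ : ∃ l, l = A.g (A.lev x) := ⟨_, rfl⟩
  rw [← hl] at hlong ⊢
  have hl2 : 400 ≤ l := by rw [hl]; exact A.big _
  have hylev : A.lev y = A.lev x := run_lev A hr
  let O : Finset (V × Fin k) := (lr_par_fin A hr).toFinset.filter
    (fun e => ¬ lr_near A l x e.1 ∧ ¬ lr_near A l y e.1)
  refine ⟨O, ?_, ?_⟩
  swap
  · intro e he
    simp only [O, Finset.mem_filter, Set.Finite.mem_toFinset, Set.mem_ofPred_eq] at he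
    refine ⟨he.1, fun u hu => ⟨fun h => he.2.1 ⟨u, hu, h⟩, fun h => he.2.2 ⟨u, hu, h⟩⟩⟩
  by_contra hcon
  push Not at hcon
  set R : Set (V × Fin k) := {e | e ∈ O ∨ lr_near A l x e.1 ∨ lr_near A l y e.1} with hR
  have hPR : ∀ e, A.par x w e ≠ 0 → e ∈ R := by
    intro e he
    simp only [hR, Set.mem_ofPred_eq, O, Finset.mem_filter, Set.Finite.mem_toFinset]
    tauto
  have hact : ∀ e, A.par x w e ≠ 0 → (∃ z, A.step e.1 (e.2, true) = some z) ∧ A.lev e.1 = A.lev x :=
    fun e he => lr_par_supp A (lr_run_in A hr) e he
  -- Claim 2 : an even vector supported in the support of par x w is zero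
  have claim2 : ∀ Q : V × Fin k → ZMod 2, (∀ e, Q e ≠ 0 → A.par x w e ≠ 0) →
      (∀ z, lr_bd A Q z = 0) → Q = 0 := by
    intro Q hQ hbd
    by_contra hne
    obtain ⟨e, he⟩ := Function.ne_iff.mp hne
    have he' : Q e ≠ 0 := he
    obtain ⟨⟨z, hz⟩, hlev⟩ := hact e (hQ e he')
    have h0 : lr_val A Q e.1 (e.2, true) ≠ 0 := by
      rw [lr_val_some A Q hz]
      simpa [lr_edge] using he'
    obtain ⟨u', c, z', h1, h2, h3, h4, h5⟩ := lr_walk A Q e.1 (e.2, true) h0 ((l + 1) / 2) (by omega)
    rcases h5 with h5 | h5
    · refine lr_claim1 A x y l hl hylev O hcon e.1 hlev (u' ++ [c]) h1 ?_ ?_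
      · exact lr_in_mono A (fun e he => hPR e (hQ e he)) h2
      · rw [List.length_append, List.length_singleton]; exact h5
    · exact h5.2 (hbd z')
  -- find a short word with the same parity
  obtain ⟨u, hu1, hu2, hu3⟩ : ∃ u, A.run x u = some y ∧ 2 * u.length < l ∧
      lr_in A {e | A.par x w e ≠ 0} x u := by
    by_cases hxy : x = y
    · exact ⟨[], by rw [hxy]; rfl, by simp; omega, trivial⟩
    · have hbdx : lr_bd A (A.par x w) x ≠ 0 := by
        rw [lr_bd_par A hr, if_pos rfl, if_neg hxy]
        decide
      obtain ⟨c0, _, hc0⟩ := Finset.exists_ne_zero_of_sum_ne_zero hbdx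
      obtain ⟨u', c, z', h1, h2, h3, h4, h5⟩ :=
        lr_walk A (A.par x w) x c0 hc0 ((l + 1) / 2) (by omega)
      rcases h5 with h5 | h5
      · exfalso
        refine lr_claim1 A x y l hl hylev O hcon x rfl (u' ++ [c]) h1 ?_ ?_
        · exact lr_in_mono A (fun e he => hPR e he) h2
        · rw [List.length_append, List.length_singleton]; exact h5
      · have hzy : z' = y := by
          by_contra hzy
          have h6 := h5.2
          rw [lr_bd_par A hr, if_neg hzy, add_zero] at h6
          have hzx : z' = x := by
            by_contra hzx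
            rw [if_neg hzx] at h6
            exact h6 rfl
          rw [hzx] at h3
          have := A.girth x _ h1.reduce_eq (by simp) h3
          rw [List.length_append, List.length_singleton, ← hl] at this
          omega
        rw [hzy] at h3
        refine ⟨u' ++ [c], h3, ?_, h2⟩
        rw [List.length_append, List.length_singleton]
        omega
  have h1 : A.par x w + A.par x u = 0 := by
    apply claim2
    · intro e he
      by_cases h : A.par x u e = 0
      · rw [Pi.add_apply, h, add_zero] at he; exact he
      · exact lr_par_supp A hu3 e h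
    · intro z
      rw [lr_bd_add, lr_bd_par A hr, lr_bd_par A hu1]
      exact CharTwo.add_self_eq_zero _
  have h2 : A.par x u = A.par x w := by
    funext e
    have := congrFun h1 e
    rw [Pi.add_apply, Pi.zero_apply] at this
    have h3 : ∀ p q : ZMod 2, p + q = 0 → q = p := by decide
    exact h3 _ _ this
  have := hmin u hu1 h2
  omega

end Pool.Agent.H76.SC
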