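import Mathlib
import Pool.Agent.H76.SC.Star
import Pool.Agent.H76.SC.Count
import Pool.Agent.H76.SC.LemmaR

set_option autoImplicit false

/-! # Many walls from long overlaps, one wall from every other edge -/

namespace Pool.Agent.H76.SC

open FreeGroup

variable {k : ℕ} {V : Type} [DecidableEq V] (A : Aut k V)

theorem EE_N {c : A.Idx} {f : FreeGroup (Fin k)} (hf : f ∈ A.EE c) : f ∈ A.sysH.N :=
  Subgroup.subset_closure (Set.mem_iUnion.mpr ⟨c, hf⟩)

omit [DecidableEq V] in
theorem idx_run {c : A.Idx} {g : FreeGroup (Fin k)} {x y : V} {w : List (Fin k × Bool)}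
    (hx : c.1 g = some x) (hr : A.run x w = some y) : c.1 (g * FreeGroup.mk w) = some y := by
  rw [idx_eq A hx]
  show A.run x (g⁻¹ * (g * FreeGroup.mk w)).toWord = some y
  rw [inv_mul_cancel_left, toWord_mk]
  exact run_reduce A hr

theorem on_of_btw {x α β u : FreeGroup (Fin k)} (h : fd 1 x = fd 1 α + fd α β + fd β x)
    (hu : Btw fd α u β) : On x u := by
  have h1 := (tr (k := k)).tri 1 u x
  have h2 := (tr (k := k)).tri 1 α u
  have h3 := (tr (k := k)).tri u β x
  unfold On Btw at *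
  omega

theorem of_ne' (u : FreeGroup (Fin k)) (a : Fin k) : u ≠ u * of a := by
  intro h
  have h1 : fd (u * of a) u = 1 := by
    unfold fd
    rw [mul_inv_rev, inv_mul_cancel_right]
    rfl
  rw [← h, (tr (k := k)).self] at h1
  exact absurd h1 (by decide)

theorem long_wall {c : A.Idx} {x α β : FreeGroup (Fin k)} (hx : A.sysH.Geo 1 x)
    (hL : A.Lg c x α β) : ∃ O : Finset (V × Fin k), A.g (A.lv c) ≤ 4 * O.card ∧
      ∀ e ∈ O, ∃ u, On x u ∧ On x (u * of e.2) ∧ u ∈ A.YY c ∧ u * of e.2 ∈ A.YY c ∧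
        c.1 u = some e.1 ∧ A.Far c α β e.1 ∧ A.B 1 x (A.wm (u, e.2)) ≠ 0 := by
  classical
  obtain ⟨a0, ha0⟩ := (mem_YY A).mp hL.ha.1
  obtain ⟨b0, hb0⟩ := (mem_YY A).mp hL.hb.1
  have hrun := run_idx A ha0 hb0
  have hlv := lv_eq A ha0
  have hlen : (α⁻¹ * β).toWord.length = fd α β := rfl
  have hsplit := Lg.split A hL
  obtain ⟨O, hO, hO'⟩ := lemmaR A a0 b0 (α⁻¹ * β).toWord (reduce_toWord _) hrun (by
    intro w' hw' hp
    rw [hlen]
    have h1 := idx_run A ha0 hw'
    have h2 : α * FreeGroup.mk w' * β⁻¹ * β = α * FreeGroup.mk w' := by group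
    have h3 : α * FreeGroup.mk w' * β⁻¹ ∈ A.DD c := by
      apply mem_DD_of A hb0
      rw [h2, h1]
    have h4 : α * FreeGroup.mk w' * β⁻¹ ∈ A.EE c := by
      apply mem_EE_of A hb0 h3
      have e1 : β⁻¹ * (α * FreeGroup.mk w' * β⁻¹) * β = β⁻¹ * (α * FreeGroup.mk w') := by group
      rw [e1]
      have h5 := par_idx A ha0 hb0 h1
      rw [inv_mul_cancel_left, toWord_mk, par_reduce A hw', hp] at h5
      exact (left_eq_add.mp h5)
    have h5 := geo_sub A hx (Lg.onA A hL) (Lg.onB A hL) _ (EE_N A h4)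
    have h6 : fd α β ≤ fd α (α * FreeGroup.mk w' * β⁻¹ * β) := h5
    rw [h2] at h6
    refine h6.trans ?_
    unfold fd
    rw [inv_mul_cancel_left, toWord_mk]
    exact (reduce.red (L := w')).length_le) (by
    rw [← hlv, hlen]
    have h1 := hL.long
    omega)
  refine ⟨O, by rw [hlv]; exact hO, ?_⟩
  rintro ⟨z, a⟩ he
  obtain ⟨hp, hfar⟩ := hO' _ he
  have hF : A.Far c α β z := by
    intro v hv
    constructor
    · by_contra hcon
      push Not at hcon
      rw [hlv] at hcon
      exact (hfar (α⁻¹ * v).toWord hcon).1 (run_idx A ha0 hv)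
    · by_contra hcon
      push Not at hcon
      rw [hlv] at hcon
      exact (hfar (β⁻¹ * v).toWord hcon).2 (run_idx A hb0 hv)
  have hes : es (A.lab c) α (α⁻¹ * β).toWord (some z, a) = A.par a0 (α⁻¹ * β).toWord (z, a) :=
    lab_par A ha0 hrun z a
  have hαβ : α * FreeGroup.mk (α⁻¹ * β).toWord = β := by rw [mk_toWord, mul_inv_cancel_left]
  -- an edge of the overlap over the given edge
  obtain ⟨⟨u, a'⟩, hu, hlab⟩ : ∃ e ∈ ed α (α⁻¹ * β).toWord, A.lab c e = (some z, a) := by
    by_contra hcon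
    push Not at hcon
    apply hp
    rw [← hes, es_apply]
    rw [List.filter_eq_nil_iff.mpr]
    · rfl
    · intro e he
      simpa using hcon e he
  unfold Aut.lab at hlab
  rw [Prod.mk.injEq] at hlab
  dsimp only at hlab
  obtain ⟨hcu, rfl⟩ := hlab
  obtain ⟨hy1, hy2⟩ := ed_idx A ha0 hrun _ hu
  dsimp only at hy1 hy2
  have hbt := ed_btw (reduce_toWord _) α hu
  rw [hαβ] at hbt
  have hon1 := on_of_btw hsplit hbt.1
  have hon2 := on_of_btw hsplit hbt.2
  dsimp only at hon1 hon2
  refine ⟨u, hon1, hon2, hy1, hy2, hcu, hF, ?_⟩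
  have hstar : ∀ e' : FreeGroup (Fin k) × Fin k, On x e'.1 → On x (e'.1 * of e'.2) →
      A.wm e' = A.wm (u, a') → a' = e'.2 ∧ e'.1 ∈ A.YY c ∧ e'.1 * of e'.2 ∈ A.YY c ∧
        c.1 e'.1 = some z := by
    intro e' h1 h2 h3
    exact star A hx hL hon1 h1 h2 hy1 hcu hF h3.symm hy2
  have hB : A.B 1 x (A.wm (u, a')) = A.B 1 α (A.wm (u, a')) + A.B α β (A.wm (u, a')) +
      A.B β x (A.wm (u, a')) := by
    rw [← B_add A 1 β x, ← B_add A 1 α β]
    rfl
  have hz1 : A.B 1 α (A.wm (u, a')) = 0 := by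
    show es A.wm 1 (1⁻¹ * α).toWord (A.wm (u, a')) = 0
    rw [es_apply, List.filter_eq_nil_iff.mpr]
    · rfl
    · intro e he
      simp only [decide_eq_true_eq]
      intro hwm
      have h1 := ed_btw (reduce_toWord _) 1 he
      rw [mk_toWord, inv_one, one_mul, one_mul] at h1
      have h2 : On x e.1 := (btw_trans tr (Lg.onA A hL) h1.1).1
      have h3 : On x (e.1 * of e.2) := (btw_trans tr (Lg.onA A hL) h1.2).1
      obtain ⟨-, h4, h5, -⟩ := hstar e h2 h3 hwm
      have h6 : ∀ v, v ∈ A.YY c → Btw fd 1 v α → v = α := by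
        intro v hv hv'
        have h7 := hL.ha.2 v hv
        apply tr.eq
        have s1 := (tr (k := k)).symm v α
        unfold Btw at *
        omega
      exact of_ne' e.1 e.2 ((h6 _ h4 h1.1).trans (h6 _ h5 h1.2).symm)
  have hz2 : A.B β x (A.wm (u, a')) = 0 := by
    show es A.wm β (β⁻¹ * x).toWord (A.wm (u, a')) = 0
    rw [es_apply, List.filter_eq_nil_iff.mpr]
    · rfl
    · intro e he
      simp only [decide_eq_true_eq]
      intro hwm
      have h1 := ed_btw (reduce_toWord _) β he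
      rw [mk_toWord, mul_inv_cancel_left] at h1
      have h2 : On x e.1 := (btw_trans' tr (Lg.onB A hL) h1.1).1
      have h3 : On x (e.1 * of e.2) := (btw_trans' tr (Lg.onB A hL) h1.2).1
      obtain ⟨-, h4, h5, -⟩ := hstar e h2 h3 hwm
      have h6 : ∀ v, v ∈ A.YY c → Btw fd β v x → v = β := by
        intro v hv hv'
        have h7 := hL.hb.2 v hv
        apply tr.eq
        have s1 := (tr (k := k)).symm v β
        have s2 := (tr (k := k)).symm v x
        have s3 := (tr (k := k)).symm β x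
        unfold Btw at *
        omega
      exact of_ne' e.1 e.2 ((h6 _ h4 h1.1).trans (h6 _ h5 h1.2).symm)
  have hz3 : A.B α β (A.wm (u, a')) = A.par a0 (α⁻¹ * β).toWord (z, a') := by
    rw [← hes]
    show es A.wm α (α⁻¹ * β).toWord (A.wm (u, a')) = _
    rw [es_apply, es_apply]
    congr 2
    apply List.filter_congr
    intro e he
    rw [decide_eq_decide]
    have h1 := ed_btw (reduce_toWord _) α he
    rw [hαβ] at h1
    have h2 := on_of_btw hsplit h1.1
    have h3 := on_of_btw hsplit h1.2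
    constructor
    · intro hwm
      obtain ⟨h4, -, -, h5⟩ := hstar e h2 h3 hwm
      unfold Aut.lab
      rw [h5, ← h4]
    · intro hlab
      obtain ⟨h4, h5⟩ := ed_idx A ha0 hrun _ he
      apply wm_lab A h4 h5
      rw [hlab]
      unfold Aut.lab
      dsimp only
      rw [hcu]
  rw [hB, hz1, hz2, hz3, zero_add, add_zero]
  exact hp

theorem short_wall {x : FreeGroup (Fin k)} (hx : A.sysH.Geo 1 x)
    {e : FreeGroup (Fin k) × Fin k} (he : e ∈ ed 1 x.toWord)
    (hno : ¬ ∃ c α β, A.Lg c x α β ∧ e.1 ∈ A.YY c ∧ e.1 * of e.2 ∈ A.YY c) :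
    A.B 1 x (A.wm e) ≠ 0 := by
  classical
  have h0 : A.B 1 x (A.wm e) = es A.wm 1 x.toWord (A.wm e) := by
    show es A.wm 1 (1⁻¹ * x).toWord (A.wm e) = _
    rw [inv_one, one_mul]
  rw [h0, es_apply]
  have hon : ∀ e' ∈ ed 1 x.toWord, On x e'.1 := by
    intro e' he'
    have h1 := (ed_btw (reduce_toWord _) 1 he').1
    rwa [mk_toWord, one_mul] at h1
  have h1 : (ed 1 x.toWord).filter (fun e' => A.wm e' = A.wm e) =
      (ed 1 x.toWord).filter (fun e' => e' = e) := by
    apply List.filter_congr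
    intro e' he'
    rw [decide_eq_decide]
    constructor
    · intro hwm
      by_contra hne
      apply hno
      have h2 : e.1 ≠ e'.1 := by
        intro h
        apply hne
        exact (Prod.ext h ((wm_eq A).mp hwm.symm).1).symm
      exact long_exists A (a := e.2) (b := e'.2) hx (hon e he) (hon e' he') hwm.symm h2
    · rintro rfl; rfl
  rw [h1]
  have h2 : ((ed 1 x.toWord).filter (fun e' => e' = e)).length = 1 := by
    have h3 := List.count_eq_one_of_mem (ed_nodup (reduce_toWord x) 1) he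
    rw [← h3, List.count_eq_length_filter]
    congr 1
    apply List.filter_congr
    intro a _
    by_cases h : a = e <;> simp [h]
  rw [h2]
  simp

end Pool.Agent.H76.SC
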