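import Mathlib
import Pool.Agent.H76.Wee

set_option autoImplicit false

/-! # A proper wall type length function excludes weakly embedded expanders -/

namespace Pool.Agent.H76.SC

open Pool.Agent.H76.Exp Pool.Agent.H76.Wee

open Finset in
private theorem ww_wall {V : Type} [Fintype V] {G : SimpleGraph V} {D : ℕ} {ε : ℝ}
    (h : IsExp G D ε) [DecidableEq V] (A : Finset V) :
    ε * ((A.card : ℝ) * (Aᶜ.card : ℝ)) ≤
      (Fintype.card V : ℝ) * (((eb G A).card : ℝ) + ((eb G Aᶜ).card : ℝ)) := by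
  have hsum := Finset.card_add_card_compl A
  have hsum' : (A.card : ℝ) + (Aᶜ.card : ℝ) = Fintype.card V := by exact_mod_cast hsum
  have hA0 : (0 : ℝ) ≤ A.card := by positivity
  have hA1 : (0 : ℝ) ≤ Aᶜ.card := by positivity
  have hE0 : (0 : ℝ) ≤ (eb G A).card := by positivity
  have hE1 : (0 : ℝ) ≤ (eb G Aᶜ).card := by positivity
  have hn : (0 : ℝ) ≤ Fintype.card V := by positivity
  by_cases hA : 2 * A.card ≤ Fintype.card V
  · have h3 := h.exp' A hA
    calc ε * ((A.card : ℝ) * (Aᶜ.card : ℝ)) = (ε * A.card) * (Aᶜ.card : ℝ) := by ring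
      _ ≤ ((eb G A).card : ℝ) * (Fintype.card V : ℝ) := by
          apply mul_le_mul h3 (by linarith) hA1 hE0
      _ ≤ _ := by nlinarith
  · have hc : 2 * (Aᶜ).card ≤ Fintype.card V := by omega
    have h3 := h.exp' Aᶜ hc
    calc ε * ((A.card : ℝ) * (Aᶜ.card : ℝ)) = (ε * Aᶜ.card) * (A.card : ℝ) := by ring
      _ ≤ ((eb G Aᶜ).card : ℝ) * (Fintype.card V : ℝ) := by
          apply mul_le_mul h3 (by linarith) hA0 hE1
      _ ≤ _ := by nlinarith

open Finset in
theorem not_wee_of_walls {H W : Type} [Group H] [DecidableEq W] (b : H → Finset W) (L : H → ℕ)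
    (hL : ∀ x y, (symmDiff (b x) (b y)).card = L (x⁻¹ * y))
    (hfin : ∀ C : ℕ, {h | L h ≤ C}.Finite) : ¬ WEE H := by
  classical
  rintro ⟨D, ε, S, hε, hS, hinst⟩
  -- bound of `L` on `S`
  obtain ⟨K, hK⟩ : ∃ K : ℕ, ∀ s ∈ S, L s ≤ K := by
    refine ⟨hS.toFinset.sup L, fun s hs => ?_⟩
    exact Finset.le_sup (f := L) (hS.mem_toFinset.mpr hs)
  obtain ⟨C, hC⟩ := exists_nat_gt (4 * ((K : ℝ) * D) / ε)
  have hC' : 4 * ((K : ℝ) * D) < C * ε := by
    rwa [div_lt_iff₀ hε] at hC
  set F : Finset H := (hfin C).toFinset with hF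
  set δ : ℝ := 1 / (4 * (F.card + 1)) with hδ
  have hδpos : 0 < δ := by positivity
  obtain ⟨V, hV1, hV2, Gr, φ, hexp, hstep, hfib⟩ := hinst δ hδpos
  have hn : (0 : ℝ) < (Fintype.card V : ℝ) := by exact_mod_cast Fintype.card_pos
  -- the walls
  set WW : Finset W := univ.biUnion (fun v : V => b (φ v)) with hWW
  set Z : W → Finset V := fun w => univ.filter (fun v => w ∈ b (φ v)) with hZ
  have hcardS : ∀ u v : V, (L ((φ u)⁻¹ * φ v) : ℝ) =
      ∑ w ∈ WW, (if w ∈ symmDiff (b (φ u)) (b (φ v)) then (1 : ℝ) else 0) := by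
    intro u v
    rw [← hL, Finset.sum_boole]
    congr 2
    ext w
    simp only [mem_filter]
    constructor
    · intro hw
      refine ⟨?_, hw⟩
      rw [Finset.mem_symmDiff] at hw
      rw [hWW, mem_biUnion]
      rcases hw with hw | hw
      · exact ⟨u, mem_univ _, hw.1⟩
      · exact ⟨v, mem_univ _, hw.1⟩
    · exact fun hw => hw.2
  -- total length
  have htot : ∑ u : V, ∑ v : V, (L ((φ u)⁻¹ * φ v) : ℝ) =
      ∑ w ∈ WW, 2 * (((Z w).card : ℝ) * ((Z w)ᶜ.card : ℝ)) := by
    simp_rw [hcardS]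
    calc ∑ u : V, ∑ v : V, ∑ w ∈ WW, (if w ∈ symmDiff (b (φ u)) (b (φ v)) then (1 : ℝ) else 0)
        = ∑ u : V, ∑ w ∈ WW, ∑ v : V,
            (if w ∈ symmDiff (b (φ u)) (b (φ v)) then (1 : ℝ) else 0) := by
          apply Finset.sum_congr rfl
          intro u _
          rw [Finset.sum_comm]
      _ = ∑ w ∈ WW, ∑ u : V, ∑ v : V,
            (if w ∈ symmDiff (b (φ u)) (b (φ v)) then (1 : ℝ) else 0) := by
          rw [Finset.sum_comm]
      _ = _ := by
          apply Finset.sum_congr rfl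
          intro w _
          have h1 : ∀ u v : V, (if w ∈ symmDiff (b (φ u)) (b (φ v)) then (1 : ℝ) else 0) =
              (if u ∈ Z w then (1 : ℝ) else 0) * (if v ∈ (Z w)ᶜ then (1 : ℝ) else 0) +
              (if u ∈ (Z w)ᶜ then (1 : ℝ) else 0) * (if v ∈ Z w then (1 : ℝ) else 0) := by
            intro u v
            simp only [Finset.mem_symmDiff, hZ, mem_compl, mem_filter, mem_univ, true_and]
            by_cases h1 : w ∈ b (φ u) <;> by_cases h2 : w ∈ b (φ v) <;> simp [h1, h2]
          simp_rw [h1, Finset.sum_add_distrib, ← Finset.mul_sum, ← Finset.sum_mul,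
            Finset.sum_boole]
          simp only [filter_mem_eq_inter, univ_inter]
          ring
  -- the number of edges
  set E : Finset (V × V) := univ.filter (fun p => Gr.Adj p.1 p.2) with hE
  have hEcard : (E.card : ℝ) ≤ D * (Fintype.card V : ℝ) := by
    have h1 : E.card ≤ D * (univ : Finset V).card := by
      apply Finset.card_le_mul_card_image_of_maps_to (f := Prod.fst) (fun _ _ => mem_univ _)
      intro v _
      refine le_trans ?_ (hexp.deg' v)
      apply Finset.card_le_card_of_injOn Prod.snd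
      · intro p hp
        simp only [hE, mem_coe, mem_filter, mem_univ, true_and] at hp ⊢
        rw [← hp.2]
        exact hp.1
      · intro p hp q hq hpq
        simp only [mem_coe, mem_filter] at hp hq
        exact Prod.ext (hp.2.trans hq.2.symm) hpq
    rw [Finset.card_univ] at h1
    exact_mod_cast h1
  have hedge : ∑ w ∈ WW, (((eb Gr (Z w)).card : ℝ) + ((eb Gr (Z w)ᶜ).card : ℝ)) ≤
      K * (D * (Fintype.card V : ℝ)) := by
    have h1 : ∀ w ∈ WW, (((eb Gr (Z w)).card : ℝ) + ((eb Gr (Z w)ᶜ).card : ℝ)) =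
        ∑ p ∈ E, (if w ∈ symmDiff (b (φ p.1)) (b (φ p.2)) then (1 : ℝ) else 0) := by
      intro w _
      have h2 : ∀ p : V × V, (if w ∈ symmDiff (b (φ p.1)) (b (φ p.2)) then (1 : ℝ) else 0) =
          (if p.1 ∈ Z w ∧ p.2 ∉ Z w then (1 : ℝ) else 0) +
          (if p.1 ∈ (Z w)ᶜ ∧ p.2 ∉ (Z w)ᶜ then (1 : ℝ) else 0) := by
        intro p
        simp only [Finset.mem_symmDiff, hZ, mem_compl, mem_filter, mem_univ, true_and]
        by_cases h1 : w ∈ b (φ p.1) <;> by_cases h2 : w ∈ b (φ p.2) <;> simp [h1, h2]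
      rw [Finset.sum_congr rfl (fun p _ => h2 p), Finset.sum_add_distrib, Finset.sum_boole,
        Finset.sum_boole]
      congr 3
      · ext p
        simp only [eb, hE, mem_filter, mem_univ, true_and]
        tauto
      · ext p
        simp only [eb, hE, mem_filter, mem_univ, true_and]
        tauto
    rw [Finset.sum_congr rfl h1, Finset.sum_comm]
    calc ∑ p ∈ E, ∑ w ∈ WW, (if w ∈ symmDiff (b (φ p.1)) (b (φ p.2)) then (1 : ℝ) else 0)
        ≤ ∑ p ∈ E, (K : ℝ) := by
          apply Finset.sum_le_sum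
          intro p hp
          rw [← hcardS]
          have : L ((φ p.1)⁻¹ * φ p.2) ≤ K := by
            apply hK
            apply hstep
            simpa [hE] using hp
          exact_mod_cast this
      _ = K * E.card := by rw [Finset.sum_const, nsmul_eq_mul, mul_comm]
      _ ≤ _ := mul_le_mul_of_nonneg_left hEcard (by positivity)
  have hmain : ε * ∑ u : V, ∑ v : V, (L ((φ u)⁻¹ * φ v) : ℝ) ≤
      2 * (Fintype.card V : ℝ) * (K * (D * (Fintype.card V : ℝ))) := by
    rw [htot, Finset.mul_sum]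
    calc ∑ w ∈ WW, ε * (2 * (((Z w).card : ℝ) * ((Z w)ᶜ.card : ℝ)))
        ≤ ∑ w ∈ WW, 2 * (Fintype.card V : ℝ) *
            (((eb Gr (Z w)).card : ℝ) + ((eb Gr (Z w)ᶜ).card : ℝ)) := by
          apply Finset.sum_le_sum
          intro w _
          have := ww_wall hexp (Z w)
          linarith
      _ = 2 * (Fintype.card V : ℝ) *
            ∑ w ∈ WW, (((eb Gr (Z w)).card : ℝ) + ((eb Gr (Z w)ᶜ).card : ℝ)) := by
          rw [Finset.mul_sum]
      _ ≤ _ := mul_le_mul_of_nonneg_left hedge (by positivity)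
  -- a good centre
  obtain ⟨u, hu⟩ : ∃ u : V, ε * ∑ v : V, (L ((φ u)⁻¹ * φ v) : ℝ) ≤
      2 * (K * (D * (Fintype.card V : ℝ))) := by
    by_contra hcon
    push Not at hcon
    have h1 : ∑ u : V, 2 * (K * (D * (Fintype.card V : ℝ))) <
        ∑ u : V, ε * ∑ v : V, (L ((φ u)⁻¹ * φ v) : ℝ) :=
      Finset.sum_lt_sum_of_nonempty univ_nonempty (fun u _ => hcon u)
    rw [Finset.sum_const, nsmul_eq_mul, Finset.card_univ, ← Finset.mul_sum] at h1
    linarith
  -- the far points are at most half of all points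
  set B : Finset V := univ.filter (fun v => ¬ L ((φ u)⁻¹ * φ v) ≤ C) with hB
  set G' : Finset V := univ.filter (fun v => L ((φ u)⁻¹ * φ v) ≤ C) with hG'
  have hsplit : (G'.card : ℝ) + (B.card : ℝ) = Fintype.card V := by
    have := Finset.card_filter_add_card_filter_not (s := (univ : Finset V))
      (fun v => L ((φ u)⁻¹ * φ v) ≤ C)
    rw [Finset.card_univ] at this
    exact_mod_cast this
  have hBcard : (C : ℝ) * B.card ≤ ∑ v : V, (L ((φ u)⁻¹ * φ v) : ℝ) := by
    calc (C : ℝ) * B.card = ∑ v ∈ B, (C : ℝ) := by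
          rw [Finset.sum_const, nsmul_eq_mul, mul_comm]
      _ ≤ ∑ v ∈ B, (L ((φ u)⁻¹ * φ v) : ℝ) := by
          apply Finset.sum_le_sum
          intro v hv
          have : ¬ L ((φ u)⁻¹ * φ v) ≤ C := by simpa [hB] using hv
          have : C ≤ L ((φ u)⁻¹ * φ v) := by omega
          exact_mod_cast this
      _ ≤ _ := Finset.sum_le_sum_of_subset_of_nonneg (Finset.subset_univ _)
          (fun _ _ _ => by positivity)
  have hBhalf : (B.card : ℝ) ≤ (Fintype.card V : ℝ) / 2 := by
    by_contra hcon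
    push Not at hcon
    have hCε : 0 ≤ (C : ℝ) * ε := by positivity
    have hCε' : 0 < (C : ℝ) * ε := lt_of_le_of_lt (by positivity) hC'
    have h1 : (C : ℝ) * ε * ((Fintype.card V : ℝ) / 2) < (C : ℝ) * ε * B.card :=
      mul_lt_mul_of_pos_left hcon hCε'
    have h2 : ε * ((C : ℝ) * B.card) ≤ ε * ∑ v : V, (L ((φ u)⁻¹ * φ v) : ℝ) :=
      mul_le_mul_of_nonneg_left hBcard hε.le
    have h3 : 4 * ((K : ℝ) * D) * ((Fintype.card V : ℝ) / 2) <
        C * ε * ((Fintype.card V : ℝ) / 2) := mul_lt_mul_of_pos_right hC' (by positivity)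
    nlinarith
  -- the near points lie in few fibres
  have hG'card : (G'.card : ℝ) ≤ F.card * (δ * Fintype.card V) := by
    have h1 : (G'.card : ℝ) = ∑ g ∈ F, ((G'.filter (fun v => (φ u)⁻¹ * φ v = g)).card : ℝ) := by
      have := Finset.card_eq_sum_card_fiberwise (s := G') (t := F)
        (f := fun v => (φ u)⁻¹ * φ v) (by
          intro v hv
          have : L ((φ u)⁻¹ * φ v) ≤ C := by simpa [hG'] using hv
          simpa [hF] using this)
      exact_mod_cast this
    rw [h1]
    calc ∑ g ∈ F, ((G'.filter (fun v => (φ u)⁻¹ * φ v = g)).card : ℝ)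
        ≤ ∑ g ∈ F, δ * (Fintype.card V : ℝ) := by
          apply Finset.sum_le_sum
          intro g _
          refine le_trans ?_ (hfib (φ u * g))
          rw [Nat.card_eq_fintype_card, Fintype.card_subtype]
          have : (G'.filter (fun v => (φ u)⁻¹ * φ v = g)).card ≤
              (univ.filter (fun v => φ v = φ u * g)).card := by
            apply Finset.card_le_card
            intro v hv
            simp only [mem_filter, mem_univ, true_and] at hv ⊢
            rw [← hv.2]
            group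
          exact_mod_cast this
      _ = _ := by rw [Finset.sum_const, nsmul_eq_mul]
  have hfinal : (F.card : ℝ) * δ ≤ 1 / 4 := by
    rw [hδ]
    have : (0 : ℝ) < 4 * ((F.card : ℝ) + 1) := by positivity
    rw [mul_one_div, div_le_div_iff₀ this (by norm_num)]
    linarith
  have h5 : (F.card : ℝ) * (δ * Fintype.card V) ≤ 1 / 4 * Fintype.card V := by
    rw [← mul_assoc]
    exact mul_le_mul_of_nonneg_right hfinal hn.le
  linarith

end Pool.Agent.H76.SC
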