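import Mathlib
import Pool.Agent.H76.SC.LongWall
import Pool.Agent.H76.SC.WallWee

set_option autoImplicit false

/-! # The group of the even closed words contains no weakly embedded expander -/

namespace Pool.Agent.H76.SC

open FreeGroup Pool.Agent.H76.Exp Pool.Agent.H76.Wee

variable {k : ℕ} {V : Type} [DecidableEq V] (A : Aut k V)

theorem par_lev {w : List (Fin k × Bool)} : ∀ {x y : V}, A.run x w = some y →
    ∀ e, A.par x w e ≠ 0 → A.lev e.1 = A.lev x := by
  induction w with
  | nil => intro x y _ e he; exact absurd rfl he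
  | cons l w ih =>
    obtain ⟨l, b⟩ := l
    intro x y hy e he
    rw [run_cons] at hy
    cases hs : A.step x (l, b) with
    | none => rw [hs] at hy; simp at hy
    | some t =>
      rw [hs] at hy
      have h1 := A.lev_step x t _ hs
      cases b
      · rw [Aut.par, hs] at he
        dsimp only at he
        rw [Pi.add_apply] at he
        by_cases h2 : A.par t w e = 0
        · rw [h2, add_zero, Pi.single_apply] at he
          by_cases h3 : e = (t, l)
          · rw [h3]; exact h1
          · rw [if_neg h3] at he; exact absurd rfl he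
        · rw [ih hy e h2, h1]
      · rw [Aut.par, hs] at he
        dsimp only at he
        rw [Pi.add_apply] at he
        by_cases h2 : A.par t w e = 0
        · rw [h2, add_zero, Pi.single_apply] at he
          by_cases h3 : e = (x, l)
          · rw [h3]
          · rw [if_neg h3] at he; exact absurd rfl he
        · rw [ih hy e h2, h1]

/-- admissible records of positions in long overlaps -/
def Aut.ZZ (C : ℕ) : Set (V × (V × Fin k → ZMod 2) × Fin k) :=
  {t | A.g (A.lev t.1) ≤ 4 * C ∧ ∀ e, t.2.1 e ≠ 0 → A.lev e.1 = A.lev t.1}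

omit [DecidableEq V] in
theorem ZZ_finite (hfin : ∀ n, Finite {x // A.lev x = n})
    (hg : Filter.Tendsto A.g Filter.atTop Filter.atTop) (C : ℕ) : (A.ZZ C).Finite := by
  classical
  have h1 : {n | A.g n ≤ 4 * C}.Finite := by
    obtain ⟨M, hM⟩ := (Filter.tendsto_atTop.mp hg (4 * C + 1)).exists_forall_of_atTop
    apply (Set.finite_Iio M).subset
    intro n hn
    by_contra h
    have h2 := hM n (by simpa using h)
    have h3 : A.g n ≤ 4 * C := hn
    omega
  have h2 : {v : V | A.g (A.lev v) ≤ 4 * C}.Finite := by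
    have : {v : V | A.g (A.lev v) ≤ 4 * C} = ⋃ n ∈ {n | A.g n ≤ 4 * C}, {v | A.lev v = n} := by
      ext v
      simp
    rw [this]
    refine h1.biUnion (fun n _ => ?_)
    have : Finite {v | A.lev v = n} := hfin n
    exact Set.toFinite {v | A.lev v = n}
  have h3 : {e : V × Fin k | A.g (A.lev e.1) ≤ 4 * C}.Finite := by
    have := h2.prod (Set.finite_univ (α := Fin k))
    apply this.subset
    rintro ⟨v, a⟩ h
    exact ⟨h, trivial⟩
  have h4 : {θ : V × Fin k → ZMod 2 | ∀ e, θ e ≠ 0 → A.g (A.lev e.1) ≤ 4 * C}.Finite := by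
    have := h3.to_subtype
    apply Set.Finite.of_finite_image (f := fun θ => fun e : {e : V × Fin k |
      A.g (A.lev e.1) ≤ 4 * C} => θ e.1)
    · exact Set.toFinite _
    · intro θ hθ θ' hθ' h
      funext e
      by_cases he : A.g (A.lev e.1) ≤ 4 * C
      · exact congrFun h ⟨e, he⟩
      · have e1 : θ e = 0 := by
          by_contra hc
          exact he (hθ e hc)
        have e2 : θ' e = 0 := by
          by_contra hc
          exact he (hθ' e hc)
        rw [e1, e2]
  apply (h2.prod (h4.prod (Set.finite_univ (α := Fin k)))).subset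
  rintro ⟨v, θ, a⟩ ⟨h5, h6⟩
  refine ⟨h5, ?_, trivial⟩
  intro e he
  have := h6 e he
  dsimp only at this h5
  rw [this]
  exact h5

/-- geodesic representatives crossing few walls are short -/
theorem bound (hfin : ∀ n, Finite {x // A.lev x = n})
    (hg : Filter.Tendsto A.g Filter.atTop Filter.atTop) (C : ℕ) :
    ∃ R : ℕ, ∀ x : FreeGroup (Fin k), A.sysH.Geo 1 x → (A.B 1 x).support.card ≤ C →
      x.toWord.length ≤ R := by
  classical
  have hZ := ZZ_finite A hfin hg C
  refine ⟨C + C * hZ.toFinset.card, ?_⟩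
  intro x hx hC
  -- data of long overlaps
  have hlw : ∀ c α β, A.Lg c x α β → ∃ u a z, On x u ∧ On x (u * of a) ∧ u ∈ A.YY c ∧
      u * of a ∈ A.YY c ∧ c.1 u = some z ∧ A.Far c α β z ∧ A.B 1 x (A.wm (u, a)) ≠ 0 ∧
      A.g (A.lv c) ≤ 4 * C := by
    intro c α β hL
    obtain ⟨O, hO, hO'⟩ := long_wall A hx hL
    choose! f h1 h2 h3 h4 h5 h6 h7 using hO'
    have hinj : Set.InjOn (fun e : V × Fin k => A.wm (f e, e.2)) O := by
      intro e he e' he' hee
      dsimp only at hee
      obtain ⟨h8, -, -, h9⟩ := star A hx hL (h1 e he) (h1 e' he') (h2 e' he') (h3 e he) (h5 e he)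
        (h6 e he) hee (h4 e he)
      rw [h5 e' he'] at h9
      exact Prod.ext (Option.some.inj h9).symm h8
    have hcard : O.card ≤ C := by
      refine le_trans ?_ hC
      apply Finset.card_le_card_of_injOn (fun e : V × Fin k => A.wm (f e, e.2)) _ hinj
      intro e he
      exact Finsupp.mem_support_iff.mpr (h7 e he)
    have hpos : 0 < O.card := by
      have := ell_pos A c
      omega
    obtain ⟨e, he⟩ := Finset.card_pos.mp hpos
    exact ⟨f e, e.2, e.1, h1 e he, h2 e he, h3 e he, h4 e he, h5 e he, h6 e he, h7 e he,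
      by omega⟩
  let P : FreeGroup (Fin k) × Fin k → Prop := fun e =>
    ∃ c α β, A.Lg c x α β ∧ e.1 ∈ A.YY c ∧ e.1 * of e.2 ∈ A.YY c
  let L := (ed 1 x.toWord).toFinset
  have hL : L.card = x.toWord.length := by
    rw [List.toFinset_card_of_nodup (ed_nodup (reduce_toWord x) 1), ed_length]
  rw [← hL]
  have hon : ∀ e ∈ L, On x e.1 ∧ On x (e.1 * of e.2) := by
    intro e he
    have h1 := ed_btw (reduce_toWord _) 1 (List.mem_toFinset.mp he)
    rwa [mk_toWord, one_mul] at h1
  rw [← Finset.card_filter_add_card_filter_not (s := L) P, add_comm]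
  apply add_le_add
  · -- short edges
    refine le_trans ?_ hC
    apply Finset.card_le_card_of_injOn A.wm
    · intro e he
      have he' := Finset.mem_filter.mp he
      exact Finsupp.mem_support_iff.mpr (short_wall A hx (List.mem_toFinset.mp he'.1) he'.2)
    · intro e he e' he' hee
      have he1 := Finset.mem_filter.mp he
      have he2 := Finset.mem_filter.mp he'
      by_contra hne
      apply he1.2
      have h2 : e.1 ≠ e'.1 := by
        intro h
        apply hne
        exact Prod.ext h ((wm_eq A).mp hee).1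
      exact long_exists A (a := e.2) (b := e'.2) hx (hon e he1.1).1 (hon e' he2.1).1 hee h2
  · -- long edges
    rcases (L.filter P).eq_empty_or_nonempty with h0 | ⟨e0, he0⟩
    · rw [h0, Finset.card_empty]
      exact Nat.zero_le _
    obtain ⟨c0, -, -, -, -, -⟩ := (Finset.mem_filter.mp he0).2
    have i1 : Nonempty A.Idx := ⟨c0⟩
    have i2 : Nonempty (Fin k) := ⟨e0.2⟩
    have i3 : Nonempty V := by
      obtain ⟨_, v, _⟩ := idx_ne A c0
      exact ⟨v⟩
    choose! U AA ZV g1 g2 g3 g4 g5 g6 g7 g8 using hlw
    have hP : ∀ e, P e → ∃ c α β, A.Lg c x α β ∧ e.1 ∈ A.YY c ∧ e.1 * of e.2 ∈ A.YY c :=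
      fun e h => h
    choose! cc ca cb p1 p2 p3 using hP
    let lb : FreeGroup (Fin k) × Fin k → V := fun e =>
      ((cc e).1 e.1).getD (ZV (cc e) (ca e) (cb e))
    let la : FreeGroup (Fin k) × Fin k → V := fun e =>
      ((cc e).1 (ca e)).getD (ZV (cc e) (ca e) (cb e))
    let Φ : FreeGroup (Fin k) × Fin k → A.Wall × (V × (V × Fin k → ZMod 2) × Fin k) := fun e =>
      (A.wm (U (cc e) (ca e) (cb e), AA (cc e) (ca e) (cb e)),
        (lb e, A.par (la e) ((ca e)⁻¹ * e.1).toWord, e.2))
    have hcard : (L.filter P).card ≤ ((A.B 1 x).support ×ˢ hZ.toFinset).card := by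
      apply Finset.card_le_card_of_injOn Φ
      · intro e he
        have he' := Finset.mem_filter.mp he
        have hLg := p1 e he'.2
        have hY := p2 e he'.2
        obtain ⟨y, hy⟩ := (mem_YY A).mp hY
        obtain ⟨a0, ha0⟩ := (mem_YY A).mp hLg.ha.1
        have elb : lb e = y := by simp only [lb, hy, Option.getD_some]
        have ela : la e = a0 := by simp only [la, ha0, Option.getD_some]
        rw [Finset.mem_coe, Finset.mem_product]
        refine ⟨Finsupp.mem_support_iff.mpr (g7 _ _ _ hLg), ?_⟩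
        rw [Set.Finite.mem_toFinset]
        refine ⟨?_, ?_⟩
        · show A.g (A.lev (lb e)) ≤ 4 * C
          rw [elb, ← lv_eq A hy]
          exact g8 _ _ _ hLg
        · intro e'' he''
          show A.lev e''.1 = A.lev (lb e)
          have he3 : A.par (la e) ((ca e)⁻¹ * e.1).toWord e'' ≠ 0 := he''
          rw [ela] at he3
          rw [elb, par_lev A (run_idx A ha0 hy) e'' he3, ← lv_eq A ha0, ← lv_eq A hy]
      · intro e he e' he' hee
        have he1 := Finset.mem_filter.mp he
        have he2 := Finset.mem_filter.mp he'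
        have hLg := p1 e he1.2
        have hLg' := p1 e' he2.2
        have hW : A.wm (U (cc e) (ca e) (cb e), AA (cc e) (ca e) (cb e)) =
            A.wm (U (cc e') (ca e') (cb e'), AA (cc e') (ca e') (cb e')) :=
          congrArg Prod.fst hee
        have hee2 := congrArg Prod.snd hee
        have q1 : lb e = lb e' := congrArg Prod.fst hee2
        have q2 : A.par (la e) ((ca e)⁻¹ * e.1).toWord = A.par (la e') ((ca e')⁻¹ * e'.1).toWord :=
          congrArg (fun t => t.2.1) hee2
        have q3 : e.2 = e'.2 := congrArg (fun t => t.2.2) hee2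
        have hcc : cc e = cc e' := long_inj A hx hLg hLg' (g1 _ _ _ hLg) (g1 _ _ _ hLg')
          (g2 _ _ _ hLg') (g3 _ _ _ hLg) (g5 _ _ _ hLg) (g6 _ _ _ hLg) (g4 _ _ _ hLg)
          (g3 _ _ _ hLg') (g5 _ _ _ hLg') (g6 _ _ _ hLg') hW
        have hca : ca e = ca e' := by
          have h1 := hLg.ha
          rw [hcc] at h1
          exact pr_unique tr h1 hLg'.ha
        have hY := p2 e he1.2
        have hY' := p2 e' he2.2
        obtain ⟨y, hy⟩ := (mem_YY A).mp hY
        obtain ⟨y', hy'⟩ := (mem_YY A).mp hY'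
        obtain ⟨a0, ha0⟩ := (mem_YY A).mp hLg.ha.1
        have elb : lb e = y := by simp only [lb, hy, Option.getD_some]
        have elb' : lb e' = y' := by simp only [lb, hy', Option.getD_some]
        have ela : la e = a0 := by simp only [la, ha0, Option.getD_some]
        have ela' : la e' = a0 := by
          simp only [la, ← hcc, ← hca, ha0, Option.getD_some]
        rw [elb, elb'] at q1
        subst q1
        rw [ela, ela', ← hca] at q2
        rw [← hcc] at hy'
        have h3 : e'.1 * (e.1)⁻¹ ∈ A.DD (cc e) := by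
          apply mem_DD_of A hy
          rw [inv_mul_cancel_right, hy']
        have h4 : e'.1 * (e.1)⁻¹ ∈ A.EE (cc e) := by
          apply mem_EE_of A hy h3
          have e1 : (e.1)⁻¹ * (e'.1 * (e.1)⁻¹) * e.1 = (e.1)⁻¹ * e'.1 := by group
          rw [e1]
          have h5 := par_idx A ha0 hy hy'
          rw [← q2] at h5
          exact left_eq_add.mp h5
        have h5 : fd e.1 e'.1 ≤ fd e.1 ((e'.1 * (e.1)⁻¹)⁻¹ * e'.1) :=
          geo_sub A hx (hon e he1.1).1 (hon e' he2.1).1 _ (inv_mem (EE_N A h4))
        have e2 : (e'.1 * (e.1)⁻¹)⁻¹ * e'.1 = e.1 := by group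
        rw [e2, (tr (k := k)).self] at h5
        exact Prod.ext ((tr (k := k)).eq _ _ (by omega)) q3
    rw [Finset.card_product] at hcard
    exact hcard.trans (Nat.mul_le_mul_right _ hC)

theorem supp_add {α : Type*} [DecidableEq α] (f g : α →₀ ZMod 2) :
    symmDiff f.support g.support = (f + g).support := by
  ext a
  rw [Finset.mem_symmDiff, Finsupp.mem_support_iff, Finsupp.mem_support_iff,
    Finsupp.mem_support_iff, Finsupp.add_apply]
  generalize f a = u
  generalize g a = v
  revert u v
  decide

theorem not_wee_H {k : ℕ} {V : Type} [DecidableEq V] (A : Aut k V)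
    (hfin : ∀ n, Finite {x // A.lev x = n}) (hg : Filter.Tendsto A.g Filter.atTop Filter.atTop) :
    ¬ WEE (FreeGroup (Fin k) ⧸ NC A.RH) := by
  classical
  have hN := N_sysH A
  let π : FreeGroup (Fin k) →* FreeGroup (Fin k) ⧸ NC A.RH := QuotientGroup.mk' _
  have hπ : Function.Surjective π := QuotientGroup.mk'_surjective _
  have hker : ∀ x y, π x = π y ↔ x⁻¹ * y ∈ A.sysH.N := by
    intro x y
    rw [hN]
    exact QuotientGroup.eq
  choose sec hsec using hπ
  have hB : ∀ x y, π x = π y → A.B 1 x = A.B 1 y := by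
    intro x y h
    have h1 := (hker x y).mp h
    have h2 := B_mul A x 1 (x⁻¹ * y)
    rw [mul_one, mul_inv_cancel_left, B_one_N A h1, Finsupp.mapDomain_zero] at h2
    rw [← B_add A 1 x y, h2, add_zero]
  apply not_wee_of_walls (fun h => (A.B 1 (sec h)).support) (fun h => (A.B 1 (sec h)).support.card)
  · intro x y
    rw [supp_add, B_comm A 1 (sec x), B_add]
    have h1 := B_mul A (sec x) 1 ((sec x)⁻¹ * sec y)
    rw [mul_one, mul_inv_cancel_left] at h1
    rw [h1, Finsupp.mapDomain_support_of_injective (wt_inj A _),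
      Finset.card_image_of_injective _ (wt_inj A _)]
    congr 2
    apply hB
    rw [_root_.map_mul, _root_.map_inv, hsec, hsec, hsec]
  · intro C
    obtain ⟨R, hR⟩ := bound A hfin hg C
    have hfin2 : {w : FreeGroup (Fin k) | w.toWord.length ≤ R}.Finite := by
      have h1 := List.finite_length_le (Fin k × Bool) R
      refine (h1.image FreeGroup.mk).subset ?_
      intro w hw
      exact ⟨w.toWord, hw, FreeGroup.mk_toWord⟩
    apply (hfin2.image π).subset
    intro h hh
    obtain ⟨n, hn, hgeo⟩ := exists_geo (S := A.sysH) 1 (sec h)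
    have h1 : π (n * sec h) = h := by
      rw [← hsec h, hker, hsec h]
      have := (sysN_normal' A.sysH).conj_mem _ (inv_mem hn) (sec h)⁻¹
      rw [inv_inv] at this
      rwa [show (n * sec h)⁻¹ * sec h = (sec h)⁻¹ * n⁻¹ * sec h by group]
    refine ⟨n * sec h, ?_, h1⟩
    apply hR _ hgeo
    rw [hB (n * sec h) (sec h) (by rw [h1, hsec])]
    exact hh

end Pool.Agent.H76.SC
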