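import Mathlib
import Pool.Agent.H76.SC.AutSys
import Pool.Agent.H76.SC.Cons
import Pool.Agent.H76.SC.Windmill

set_option autoImplicit false

/-! # Every level of the automaton injects in the group killing all closed words -/

namespace Pool.Agent.H76.SC

variable {k : ℕ} {V : Type} [DecidableEq V] (A : Aut k V)

theorem inj_G {x y y' : V} {w w' : List (Fin k × Bool)} (h : A.run x w = some y)
    (h' : A.run x w' = some y') (hn : (FreeGroup.mk w)⁻¹ * FreeGroup.mk w' ∈ NC A.RG) :
    y = y' := by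
  rw [← N_sysG] at hn
  have hN := sysN_normal' A.sysG
  have h1 := hN.conj_mem _ hn (FreeGroup.mk w)
  have e1 : FreeGroup.mk w * ((FreeGroup.mk w)⁻¹ * FreeGroup.mk w') * (FreeGroup.mk w)⁻¹ =
    FreeGroup.mk w' * (FreeGroup.mk w)⁻¹ := by group
  rw [e1] at h1
  have key : ∀ (u : List (Fin k × Bool)) (z : V), A.run x u = some z →
      (A.mkI 1 x).1 (FreeGroup.mk u) = some z := by
    intro u z hu
    show A.run x (1⁻¹ * FreeGroup.mk u).toWord = some z
    rw [inv_one, one_mul, FreeGroup.toWord_mk]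
    exact run_reduce A hu
  have k1 := key w y h
  have k2 := key w' y' h'
  have h2 : FreeGroup.mk w' * (FreeGroup.mk w)⁻¹ ∈ A.sysG.Γ (A.mkI 1 x) := by
    apply mem_gamma (gl A.sysG) h1 (x := FreeGroup.mk w)
    · exact (mem_YY A).mpr ⟨y, k1⟩
    · rw [inv_mul_cancel_right]
      exact (mem_YY A).mpr ⟨y', k2⟩
  have h3 := DD_apply A (c := A.mkI 1 x) h2 (FreeGroup.mk w)
  rw [inv_mul_cancel_right, k1, k2] at h3
  exact (Option.some.inj h3).symm

end Pool.Agent.H76.SC
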