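import Mathlib
import Pool.Agent.H76.SC.InjG

set_option autoImplicit false

/-! # Lamps at different vertices of a level are different -/

namespace Pool.Agent.H76.SC

section

variable {k : ℕ} {G : Type} [Group G] (π : FreeGroup (Fin k) →* G)

/-- the base of the lamplighter group -/
abbrev lm_B (G : Type) : Type := G → Multiplicative (ZMod 2)

/-- the lamplighter group -/
abbrev lm_W (G : Type) [Group G] : Type :=
  (lm_B G) ⋊[(mulAutArrow : G →* MulAut (G → Multiplicative (ZMod 2)))] G

open Classical in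
/-- the basic lamp -/
noncomputable def lm_s (G : Type) [Group G] (g : G) : lm_B G :=
  fun h => if h = g then Multiplicative.ofAdd 1 else 1

theorem lm_s_sq (g : G) : lm_s G g * lm_s G g = 1 := by
  funext h
  simp only [lm_s, Pi.mul_apply, Pi.one_apply]
  split_ifs
  · rw [← ofAdd_add]
    rfl
  · rfl

theorem lm_s_inj {g g' : G} (h : lm_s G g = lm_s G g') : g = g' := by
  have h1 := congrFun h g
  simp only [lm_s, if_true] at h1
  by_contra hne
  rw [if_neg hne] at h1
  exact absurd h1 (by decide)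

theorem lm_s_inv (g : G) : (lm_s G g)⁻¹ = lm_s G g :=
  inv_eq_of_mul_eq_one_right (lm_s_sq g)

theorem lm_conj (g : G) : (SemidirectProduct.inr g : lm_W G) * SemidirectProduct.inl (lm_s G 1) *
    (SemidirectProduct.inr g)⁻¹ = SemidirectProduct.inl (lm_s G g) := by
  rw [← map_inv, ← SemidirectProduct.inl_aut]
  congr 1
  funext h
  change lm_s G 1 (g⁻¹ * h) = lm_s G g h
  simp only [lm_s]
  congr 1
  rw [inv_mul_eq_one]
  exact propext eq_comm

theorem lm_conj' (x : lm_W G) (t : lm_B G) : ∃ t' : lm_B G,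
    x * SemidirectProduct.inl t * x⁻¹ = SemidirectProduct.inl t' := by
  refine ⟨(x * SemidirectProduct.inl t * x⁻¹).left, ?_⟩
  ext1
  · simp
  · simp

/-- the homomorphism to the lamplighter group -/
noncomputable def lm_hom : FreeGroup (Fin (k + 1)) →* lm_W G :=
  FreeGroup.lift (Fin.lastCases (SemidirectProduct.inl (lm_s G 1))
    (fun a => SemidirectProduct.inr (π (FreeGroup.of a))))

theorem lm_mk_cons {r : ℕ} (a : Fin r × Bool) (w : List (Fin r × Bool)) :
    FreeGroup.mk (a :: w) = FreeGroup.mk [a] * FreeGroup.mk w := by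
  rw [FreeGroup.mul_mk]; rfl

theorem lm_hom_up (w : List (Fin k × Bool)) :
    lm_hom π (FreeGroup.mk (up w)) = SemidirectProduct.inr (π (FreeGroup.mk w)) := by
  induction w with
  | nil =>
    have e1 : FreeGroup.mk (up ([] : List (Fin k × Bool))) = 1 := rfl
    have e2 : FreeGroup.mk ([] : List (Fin k × Bool)) = 1 := rfl
    rw [e1, e2, map_one, map_one, map_one]
  | cons a w ih =>
    have e1 : up (a :: w) = (a.1.castSucc, a.2) :: up w := rfl
    rw [e1, lm_mk_cons, map_mul, ih, lm_mk_cons a w, map_mul, map_mul]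
    congr 1
    obtain ⟨a, b⟩ := a
    cases b with
    | true =>
      change lm_hom π (FreeGroup.of a.castSucc) = SemidirectProduct.inr (π (FreeGroup.of a))
      simp [lm_hom]
    | false =>
      change lm_hom π (FreeGroup.of a.castSucc)⁻¹ = SemidirectProduct.inr (π (FreeGroup.of a)⁻¹)
      rw [map_inv, map_inv, map_inv]
      simp [lm_hom]

theorem lm_hom_lam (b : Bool) :
    lm_hom π (FreeGroup.mk (lam k b)) = SemidirectProduct.inl (lm_s G 1) := by
  cases b with
  | true =>
    change lm_hom π (FreeGroup.of (Fin.last k)) = _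
    simp [lm_hom]
  | false =>
    change lm_hom π (FreeGroup.of (Fin.last k))⁻¹ = _
    rw [map_inv]
    have : lm_hom π (FreeGroup.of (Fin.last k)) = SemidirectProduct.inl (lm_s G 1) := by
      simp [lm_hom]
    rw [this, ← map_inv, lm_s_inv]

theorem lm_winv {r : ℕ} (u : List (Fin r × Bool)) :
    FreeGroup.mk (winv u) = (FreeGroup.mk u)⁻¹ := by
  rw [FreeGroup.inv_mk]; rfl

theorem lm_hom_conj (w : List (Fin k × Bool)) :
    lm_hom π (FreeGroup.mk (up w ++ lam k true ++ winv (up w))) =
      SemidirectProduct.inl (lm_s G (π (FreeGroup.mk w))) := by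
  rw [← FreeGroup.mul_mk, ← FreeGroup.mul_mk, map_mul, map_mul, lm_winv, map_inv, lm_hom_up,
    lm_hom_lam, lm_conj]

end

theorem lamp_ne {k : ℕ} {V : Type} [DecidableEq V] (A : Aut k V) {x y y' : V}
    {w w' : List (Fin k × Bool)} (h : A.run x w = some y) (h' : A.run x w' = some y')
    (he : (FreeGroup.mk (up w ++ lam k true ++ winv (up w)))⁻¹ *
      FreeGroup.mk (up w' ++ lam k true ++ winv (up w')) ∈ NC (RStar A.RH A.RG)) : y = y' := by
  have hRG : ∀ u ∈ A.RG, QuotientGroup.mk' (NC A.RG) (FreeGroup.mk u) = 1 := by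
    intro u hu
    rw [QuotientGroup.mk'_apply, QuotientGroup.eq_one_iff]
    exact Subgroup.subset_normalClosure ⟨u, hu, rfl⟩
  have key : NC (RStar A.RH A.RG) ≤ (lm_hom (QuotientGroup.mk' (NC A.RG))).ker := by
    refine Subgroup.normalClosure_le_normal ?_
    rintro _ ⟨r, hr, rfl⟩
    rw [SetLike.mem_coe, MonoidHom.mem_ker]
    rcases hr with ⟨u, hu, rfl⟩ | rfl | ⟨u, rfl⟩ | ⟨u, hu, rfl⟩
    · obtain ⟨x, hx, -⟩ := hu
      rw [lm_hom_up, hRG u ⟨x, hx⟩, map_one]
    · rw [← FreeGroup.mul_mk, map_mul, lm_hom_lam, ← map_mul, lm_s_sq, map_one]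
    · simp only [← FreeGroup.mul_mk, map_mul, lm_winv, map_inv, lm_hom_lam]
      obtain ⟨t, ht⟩ := lm_conj' (lm_hom (QuotientGroup.mk' (NC A.RG)) (FreeGroup.mk u))
        (lm_s (FreeGroup (Fin k) ⧸ NC A.RG) 1)
      rw [ht, ← map_mul]
      rw [mul_assoc, mul_assoc, mul_assoc]
      have e2 : lm_hom (QuotientGroup.mk' (NC A.RG)) (FreeGroup.mk u) *
          (SemidirectProduct.inl (lm_s (FreeGroup (Fin k) ⧸ NC A.RG) 1) *
          ((lm_hom (QuotientGroup.mk' (NC A.RG)) (FreeGroup.mk u))⁻¹ *
          SemidirectProduct.inl (lm_s (FreeGroup (Fin k) ⧸ NC A.RG) 1))) =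
          SemidirectProduct.inl t *
          SemidirectProduct.inl (lm_s (FreeGroup (Fin k) ⧸ NC A.RG) 1) := by
        rw [← ht]
        simp only [mul_assoc]
      rw [e2, ← map_mul, ← map_mul]
      have ht2 : t * t = 1 := by
        have h1 : (SemidirectProduct.inl (t * t) :
            lm_W (FreeGroup (Fin k) ⧸ NC A.RG)) = 1 := by
          rw [map_mul, ← ht]
          have e3 : ∀ a b : lm_W (FreeGroup (Fin k) ⧸ NC A.RG),
              a * b * a⁻¹ * (a * b * a⁻¹) = a * (b * b) * a⁻¹ := by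
            intro a b; group
          rw [e3, ← map_mul, lm_s_sq, map_one, mul_one, mul_inv_cancel]
        rw [← map_one SemidirectProduct.inl] at h1
        exact SemidirectProduct.inl_injective h1
      have h4 : t * lm_s (FreeGroup (Fin k) ⧸ NC A.RG) 1 *
          (t * lm_s (FreeGroup (Fin k) ⧸ NC A.RG) 1) = 1 := by
        rw [mul_mul_mul_comm, ht2, lm_s_sq, mul_one]
      rw [h4, map_one]
    · simp only [← FreeGroup.mul_mk, map_mul, lm_winv, map_inv, lm_hom_lam, lm_hom_up, hRG u hu,
        map_one, inv_one, mul_one, one_mul]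
      rw [← map_mul, lm_s_sq, map_one]
  have h1 := key he
  rw [MonoidHom.mem_ker, map_mul, map_inv, lm_hom_conj, lm_hom_conj, inv_mul_eq_one] at h1
  have h2 := lm_s_inj (SemidirectProduct.inl_injective h1)
  refine inj_G A h h' ?_
  rw [QuotientGroup.mk'_apply, QuotientGroup.mk'_apply, QuotientGroup.eq] at h2
  exact h2

end Pool.Agent.H76.SC
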