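import Mathlib

set_option autoImplicit false

/-! # Cheeger inequality in Poincaré form -/

namespace Pool.Agent.H76.SC

open Finset

theorem poi_median {X : Type} [Fintype X] [Nonempty X] (u : X → ℝ) :
    ∃ m : ℝ, 2 * (univ.filter (fun x => m < u x)).card ≤ Fintype.card X ∧
      2 * (univ.filter (fun x => u x < m)).card ≤ Fintype.card X := by
  classical
  set T : Finset X := univ.filter
    (fun x => 2 * (univ.filter (fun y => u x < u y)).card ≤ Fintype.card X) with hT
  have hTne : T.Nonempty := by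
    obtain ⟨x, _, hx⟩ := exists_max_image (univ : Finset X) u univ_nonempty
    refine ⟨x, ?_⟩
    simp only [hT, mem_filter, mem_univ, true_and]
    have : univ.filter (fun y => u x < u y) = ∅ := by
      ext y
      simp only [mem_filter, mem_univ, true_and, notMem_empty, iff_false, not_lt]
      exact hx y (mem_univ _)
    rw [this]
    simp
  obtain ⟨x0, hx0, hmin⟩ := exists_min_image T u hTne
  refine ⟨u x0, ?_, ?_⟩
  · simp only [hT, mem_filter, mem_univ, true_and] at hx0
    exact hx0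
  · rcases (univ.filter (fun x => u x < u x0)).eq_empty_or_nonempty with he | hne
    · rw [he]; simp
    · obtain ⟨z, hz, hzmax⟩ := exists_max_image _ u hne
      simp only [mem_filter, mem_univ, true_and] at hz hzmax
      have hzT : z ∉ T := fun h => absurd (hmin z h) (not_le.2 hz)
      simp only [hT, mem_filter, mem_univ, true_and, not_le] at hzT
      have hsub : univ.filter (fun x => u x < u x0) ⊆ univ.filter (fun y => ¬ (u z < u y)) := by
        intro y hy
        simp only [mem_filter, mem_univ, true_and, not_lt] at hy ⊢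
        exact hzmax y hy
      have h1 := card_le_card hsub
      have h2 := card_filter_add_card_filter_not (s := (univ : Finset X)) (fun y => u z < u y)
      rw [card_univ] at h2
      omega

theorem poi_coarea {X : Type} [Fintype X] [DecidableEq X] (Ed : Finset (X × X)) (b : ℕ)
    (hexp : ∀ A : Finset X, 2 * A.card ≤ Fintype.card X →
      A.card ≤ b * (Ed.filter (fun p => p.1 ∈ A ∧ p.2 ∉ A)).card) :
    ∀ (n : ℕ) (h : X → ℝ), (∀ x, 0 ≤ h x) → (univ.filter (fun x => 0 < h x)).card = n →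
      2 * (univ.filter (fun x => 0 < h x)).card ≤ Fintype.card X →
      ∑ x, h x ≤ b * ∑ p ∈ Ed, max (h p.1 - h p.2) 0 := by
  intro n
  induction n using Nat.strong_induction_on with
  | _ n ih =>
  intro h h0 hn hcard
  set A := univ.filter (fun x => 0 < h x) with hA
  have memA : ∀ x, x ∈ A ↔ 0 < h x := fun x => by simp [hA]
  rcases A.eq_empty_or_nonempty with he | hne
  · have hz : ∀ x, h x = 0 := by
      intro x
      have : x ∉ A := by rw [he]; exact notMem_empty _
      rw [memA] at this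
      exact le_antisymm (not_lt.1 this) (h0 x)
    have : ∑ x, h x = 0 := sum_eq_zero fun x _ => hz x
    rw [this]
    exact mul_nonneg (Nat.cast_nonneg _) (sum_nonneg fun p _ => le_max_right _ _)
  · obtain ⟨z, hz, hzmin⟩ := exists_min_image A h hne
    set δ := h z with hδ
    have hδ0 : 0 < δ := (memA z).1 hz
    set h' : X → ℝ := fun x => if x ∈ A then h x - δ else 0 with hh'
    have h0' : ∀ x, 0 ≤ h' x := by
      intro x
      by_cases hx : x ∈ A
      · simp only [hh', if_pos hx]; linarith [hzmin x hx]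
      · simp only [hh', if_neg hx, le_refl]
    have hsub : univ.filter (fun x => 0 < h' x) ⊆ A.erase z := by
      intro x hx
      simp only [mem_filter, mem_univ, true_and] at hx
      by_cases hxA : x ∈ A
      · refine mem_erase.2 ⟨?_, hxA⟩
        rintro rfl
        simp only [hh', if_pos hxA, ← hδ, sub_self, lt_irrefl] at hx
      · simp only [hh', if_neg hxA, lt_irrefl] at hx
    have hc : (univ.filter (fun x => 0 < h' x)).card < A.card :=
      lt_of_le_of_lt (card_le_card hsub) (card_erase_lt_of_mem hz)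
    have h1 := ih _ (by rw [← hn]; exact hc) h' h0' rfl (by omega)
    have h2 : ∑ x, h x = ∑ x, h' x + δ * A.card := by
      have h3 : ∀ x, h x = h' x + (if x ∈ A then δ else 0) := by
        intro x
        by_cases hx : x ∈ A
        · simp only [hh', if_pos hx]; ring
        · simp only [hh', if_neg hx]
          rw [memA] at hx
          linarith [h0 x, not_lt.1 hx]
      calc ∑ x, h x = ∑ x, (h' x + (if x ∈ A then δ else 0)) := sum_congr rfl fun x _ => h3 x
        _ = ∑ x, h' x + ∑ x, (if x ∈ A then δ else 0) := sum_add_distrib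
        _ = ∑ x, h' x + δ * A.card := by
            congr 1
            rw [sum_ite_mem, univ_inter, sum_const, nsmul_eq_mul, mul_comm]
    have h4 : ∑ p ∈ Ed, max (h p.1 - h p.2) 0 = ∑ p ∈ Ed, max (h' p.1 - h' p.2) 0 +
        δ * (Ed.filter (fun p => p.1 ∈ A ∧ p.2 ∉ A)).card := by
      have h5 : ∀ p : X × X, max (h p.1 - h p.2) 0 = max (h' p.1 - h' p.2) 0 +
          (if (p.1 ∈ A ∧ p.2 ∉ A) then δ else 0) := by
        rintro ⟨x, y⟩
        simp only
        by_cases hx : x ∈ A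
        · by_cases hy : y ∈ A
          · simp only [hh', if_pos hx, if_pos hy]
            rw [if_neg (fun hh => hh.2 hy), add_zero]
            congr 1
            ring
          · have hy0 : h y = 0 := by
              rw [memA] at hy
              linarith [h0 y, not_lt.1 hy]
            simp only [hh', if_pos hx, if_neg hy]
            rw [if_pos ⟨hx, hy⟩, hy0, sub_zero, sub_zero, max_eq_left (h0 x),
              max_eq_left (by linarith [hzmin x hx])]
            ring
        · have hx0 : h x = 0 := by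
            rw [memA] at hx
            linarith [h0 x, not_lt.1 hx]
          rw [if_neg (fun hh => hx hh.1), add_zero, hx0, max_eq_right (by linarith [h0 y]),
            max_eq_right]
          simp only [hh', if_neg hx]
          linarith [h0' y, show h' y = (if y ∈ A then h y - δ else 0) from rfl]
      calc ∑ p ∈ Ed, max (h p.1 - h p.2) 0
          = ∑ p ∈ Ed, (max (h' p.1 - h' p.2) 0 + (if (p.1 ∈ A ∧ p.2 ∉ A) then δ else 0)) :=
            sum_congr rfl fun p _ => h5 p
        _ = _ := by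
            rw [sum_add_distrib, ← sum_filter, sum_const, nsmul_eq_mul, mul_comm δ]
    rw [h2, h4, mul_add]
    have h6 : (A.card : ℝ) ≤ b * (Ed.filter (fun p => p.1 ∈ A ∧ p.2 ∉ A)).card := by
      exact_mod_cast hexp A hcard
    have h7 := mul_le_mul_of_nonneg_left h6 hδ0.le
    nlinarith [h1, h7]

theorem poi_half {X : Type} [Fintype X] [DecidableEq X] (Ed : Finset (X × X))
    (hsymm : ∀ x y, (x, y) ∈ Ed → (y, x) ∈ Ed) (D b : ℕ)
    (hdeg : ∀ x, (Ed.filter (fun p => p.1 = x)).card ≤ D)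
    (hexp : ∀ A : Finset X, 2 * A.card ≤ Fintype.card X →
      A.card ≤ b * (Ed.filter (fun p => p.1 ∈ A ∧ p.2 ∉ A)).card) (v : X → ℝ)
    (hv : ∀ x, 0 ≤ v x) (hc : 2 * (univ.filter (fun x => 0 < v x)).card ≤ Fintype.card X) :
    ∑ x, v x ^ 2 ≤ D * b ^ 2 * ∑ p ∈ Ed, (v p.1 - v p.2) ^ 2 := by
  have hset : univ.filter (fun x => 0 < v x ^ 2) = univ.filter (fun x => 0 < v x) := by
    ext x
    simp only [mem_filter, mem_univ, true_and]
    constructor
    · intro h
      exact lt_of_le_of_ne (hv x) (fun he => by rw [← he] at h; norm_num at h)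
    · intro h; positivity
  have h1 := poi_coarea Ed b hexp _ (fun x => v x ^ 2) (fun x => sq_nonneg _) rfl
    (by rw [hset]; exact hc)
  -- symmetrise
  have hswap : ∀ f : X × X → ℝ, ∑ p ∈ Ed, f p = ∑ p ∈ Ed, f (p.2, p.1) := by
    intro f
    refine sum_nbij' (fun p => (p.2, p.1)) (fun p => (p.2, p.1)) ?_ ?_ ?_ ?_ ?_
    · rintro ⟨x, y⟩ h; exact hsymm x y h
    · rintro ⟨x, y⟩ h; exact hsymm x y h
    · intro p _; rfl
    · intro p _; rfl
    · intro p _; rfl
  have h2 : 2 * ∑ p ∈ Ed, max (v p.1 ^ 2 - v p.2 ^ 2) 0 =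
      ∑ p ∈ Ed, |v p.1 ^ 2 - v p.2 ^ 2| := by
    have h3 := hswap (fun p => max (v p.1 ^ 2 - v p.2 ^ 2) 0)
    simp only at h3
    rw [two_mul]
    nth_rewrite 2 [h3]
    rw [← sum_add_distrib]
    refine sum_congr rfl fun p _ => ?_
    rcases le_total (v p.1 ^ 2) (v p.2 ^ 2) with h | h
    · rw [max_eq_right (by linarith), max_eq_left (by linarith), abs_of_nonpos (by linarith)]
      ring
    · rw [max_eq_left (by linarith), max_eq_right (by linarith), abs_of_nonneg (by linarith)]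
      ring
  set E := ∑ p ∈ Ed, (v p.1 - v p.2) ^ 2 with hE
  set Q := ∑ x, v x ^ 2 with hQ
  have hE0 : 0 ≤ E := sum_nonneg fun p _ => sq_nonneg _
  have hQ0 : 0 ≤ Q := sum_nonneg fun p _ => sq_nonneg _
  -- degree bound
  have hdeg1 : ∑ p ∈ Ed, v p.1 ^ 2 ≤ D * Q := by
    have h4 : ∑ p ∈ Ed, v p.1 ^ 2 = ∑ x, ∑ p ∈ Ed.filter (fun p => p.1 = x), v p.1 ^ 2 :=
      (sum_fiberwise_of_maps_to (fun p _ => mem_univ p.1) _).symm
    rw [h4, hQ, mul_sum]
    refine sum_le_sum fun x _ => ?_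
    calc ∑ p ∈ Ed.filter (fun p => p.1 = x), v p.1 ^ 2
        = ∑ p ∈ Ed.filter (fun p => p.1 = x), v x ^ 2 :=
          sum_congr rfl fun p hp => by rw [(mem_filter.1 hp).2]
      _ = (Ed.filter (fun p => p.1 = x)).card * v x ^ 2 := by rw [sum_const, nsmul_eq_mul]
      _ ≤ D * v x ^ 2 :=
          mul_le_mul_of_nonneg_right (by exact_mod_cast hdeg x) (sq_nonneg _)
  have hdeg2 : ∑ p ∈ Ed, v p.2 ^ 2 ≤ D * Q := by
    rw [hswap (fun p => v p.2 ^ 2)]
    exact hdeg1
  have hsum : ∑ p ∈ Ed, (v p.1 + v p.2) ^ 2 ≤ 4 * D * Q := by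
    calc ∑ p ∈ Ed, (v p.1 + v p.2) ^ 2 ≤ ∑ p ∈ Ed, (2 * v p.1 ^ 2 + 2 * v p.2 ^ 2) :=
          sum_le_sum fun p _ => by nlinarith [sq_nonneg (v p.1 - v p.2)]
      _ = 2 * ∑ p ∈ Ed, v p.1 ^ 2 + 2 * ∑ p ∈ Ed, v p.2 ^ 2 := by
          rw [sum_add_distrib, mul_sum, mul_sum]
      _ ≤ 4 * D * Q := by linarith
  have hcs : (∑ p ∈ Ed, |v p.1 ^ 2 - v p.2 ^ 2|) ^ 2 ≤ E * (4 * D * Q) := by
    calc (∑ p ∈ Ed, |v p.1 ^ 2 - v p.2 ^ 2|) ^ 2
        = (∑ p ∈ Ed, |v p.1 - v p.2| * |v p.1 + v p.2|) ^ 2 := by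
          congr 1
          refine sum_congr rfl fun p _ => ?_
          rw [← abs_mul]; congr 1; ring
      _ ≤ (∑ p ∈ Ed, |v p.1 - v p.2| ^ 2) * ∑ p ∈ Ed, |v p.1 + v p.2| ^ 2 :=
          sum_mul_sq_le_sq_mul_sq _ _ _
      _ = E * ∑ p ∈ Ed, (v p.1 + v p.2) ^ 2 := by simp only [sq_abs, hE]
      _ ≤ E * (4 * D * Q) := mul_le_mul_of_nonneg_left hsum hE0
  have h5 : 2 * Q ≤ b * ∑ p ∈ Ed, |v p.1 ^ 2 - v p.2 ^ 2| := by
    rw [← h2]
    have : (b : ℝ) * (2 * ∑ p ∈ Ed, max (v p.1 ^ 2 - v p.2 ^ 2) 0) =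
      2 * (b * ∑ p ∈ Ed, max (v p.1 ^ 2 - v p.2 ^ 2) 0) := by ring
    rw [this]
    linarith [h1]
  have h6 : (2 * Q) ^ 2 ≤ b ^ 2 * (E * (4 * D * Q)) := by
    calc (2 * Q) ^ 2 ≤ (b * ∑ p ∈ Ed, |v p.1 ^ 2 - v p.2 ^ 2|) ^ 2 :=
          pow_le_pow_left₀ (by positivity) h5 2
      _ = b ^ 2 * (∑ p ∈ Ed, |v p.1 ^ 2 - v p.2 ^ 2|) ^ 2 := by ring
      _ ≤ b ^ 2 * (E * (4 * D * Q)) := mul_le_mul_of_nonneg_left hcs (by positivity)
  rcases eq_or_lt_of_le hQ0 with hq | hq
  · rw [← hq]; positivity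
  · have h7 : Q * Q ≤ Q * (D * b ^ 2 * E) := by nlinarith [h6]
    exact le_of_mul_le_mul_left h7 hq

theorem poincare {X : Type} [Fintype X] [DecidableEq X] (Ed : Finset (X × X))
    (hsymm : ∀ x y, (x, y) ∈ Ed → (y, x) ∈ Ed) (D b : ℕ)
    (hdeg : ∀ x, (Ed.filter (fun p => p.1 = x)).card ≤ D)
    (hexp : ∀ A : Finset X, 2 * A.card ≤ Fintype.card X →
      A.card ≤ b * (Ed.filter (fun p => p.1 ∈ A ∧ p.2 ∉ A)).card) (u : X → ℝ) :
    ∑ x, ∑ y, (u x - u y) ^ 2 ≤
      2 * D * b ^ 2 * Fintype.card X * ∑ p ∈ Ed, (u p.1 - u p.2) ^ 2 := by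
  rcases isEmpty_or_nonempty X with hX | hX
  · simp
  obtain ⟨m, hm1, hm2⟩ := poi_median u
  have hp := poi_half Ed hsymm D b hdeg hexp (fun x => max (u x - m) 0)
    (fun x => le_max_right _ _) (by
      have : univ.filter (fun x => 0 < max (u x - m) 0) = univ.filter (fun x => m < u x) := by
        ext x
        simp only [mem_filter, mem_univ, true_and, lt_max_iff, lt_irrefl, or_false, sub_pos]
      rw [this]; exact hm1)
  have hn := poi_half Ed hsymm D b hdeg hexp (fun x => max (m - u x) 0)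
    (fun x => le_max_right _ _) (by
      have : univ.filter (fun x => 0 < max (m - u x) 0) = univ.filter (fun x => u x < m) := by
        ext x
        simp only [mem_filter, mem_univ, true_and, lt_max_iff, lt_irrefl, or_false, sub_pos]
      rw [this]; exact hm2)
  have hsq : ∀ x, (u x - m) ^ 2 = max (u x - m) 0 ^ 2 + max (m - u x) 0 ^ 2 := by
    intro x
    rcases le_total (u x) m with h | h
    · rw [max_eq_right (by linarith), max_eq_left (by linarith)]; ring
    · rw [max_eq_left (by linarith), max_eq_right (by linarith)]; ring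
  have hE : ∑ p ∈ Ed, (max (u p.1 - m) 0 - max (u p.2 - m) 0) ^ 2 +
      ∑ p ∈ Ed, (max (m - u p.1) 0 - max (m - u p.2) 0) ^ 2 ≤
      ∑ p ∈ Ed, (u p.1 - u p.2) ^ 2 := by
    rw [← sum_add_distrib]
    refine sum_le_sum fun p _ => ?_
    rcases le_total (u p.1) m with h | h <;> rcases le_total (u p.2) m with h' | h'
    · rw [max_eq_right (by linarith : u p.1 - m ≤ 0), max_eq_right (by linarith : u p.2 - m ≤ 0),
        max_eq_left (by linarith : 0 ≤ m - u p.1), max_eq_left (by linarith : 0 ≤ m - u p.2)]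
      nlinarith
    · rw [max_eq_right (by linarith : u p.1 - m ≤ 0), max_eq_left (by linarith : 0 ≤ u p.2 - m),
        max_eq_left (by linarith : 0 ≤ m - u p.1), max_eq_right (by linarith : m - u p.2 ≤ 0)]
      nlinarith [mul_nonneg (sub_nonneg.2 h) (sub_nonneg.2 h')]
    · rw [max_eq_left (by linarith : 0 ≤ u p.1 - m), max_eq_right (by linarith : u p.2 - m ≤ 0),
        max_eq_right (by linarith : m - u p.1 ≤ 0), max_eq_left (by linarith : 0 ≤ m - u p.2)]
      nlinarith [mul_nonneg (sub_nonneg.2 h) (sub_nonneg.2 h')]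
    · rw [max_eq_left (by linarith : 0 ≤ u p.1 - m), max_eq_left (by linarith : 0 ≤ u p.2 - m),
        max_eq_right (by linarith : m - u p.1 ≤ 0), max_eq_right (by linarith : m - u p.2 ≤ 0)]
      nlinarith
  have hQ : ∑ x, (u x - m) ^ 2 ≤ D * b ^ 2 * ∑ p ∈ Ed, (u p.1 - u p.2) ^ 2 := by
    calc ∑ x, (u x - m) ^ 2 = ∑ x, max (u x - m) 0 ^ 2 + ∑ x, max (m - u x) 0 ^ 2 := by
          rw [← sum_add_distrib]; exact sum_congr rfl fun x _ => hsq x
      _ ≤ D * b ^ 2 * (∑ p ∈ Ed, (max (u p.1 - m) 0 - max (u p.2 - m) 0) ^ 2 +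
            ∑ p ∈ Ed, (max (m - u p.1) 0 - max (m - u p.2) 0) ^ 2) := by
          rw [mul_add]; exact add_le_add hp hn
      _ ≤ D * b ^ 2 * ∑ p ∈ Ed, (u p.1 - u p.2) ^ 2 :=
          mul_le_mul_of_nonneg_left hE (by positivity)
  have hvar : ∑ x, ∑ y, (u x - u y) ^ 2 ≤ 2 * Fintype.card X * ∑ x, (u x - m) ^ 2 := by
    have h1 : ∑ x, ∑ y, (u x - u y) ^ 2 = 2 * Fintype.card X * ∑ x, (u x - m) ^ 2 -
        2 * (∑ x, (u x - m)) ^ 2 := by
      have h2 : ∀ x, ∑ y, (u x - u y) ^ 2 = Fintype.card X * (u x - m) ^ 2 +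
          ∑ y, (u y - m) ^ 2 - 2 * (u x - m) * ∑ y, (u y - m) := by
        intro x
        calc ∑ y, (u x - u y) ^ 2 = ∑ y, ((u x - m) ^ 2 + (u y - m) ^ 2 -
              2 * (u x - m) * (u y - m)) := sum_congr rfl fun y _ => by ring
          _ = _ := by
            rw [sum_sub_distrib, sum_add_distrib, sum_const, card_univ, nsmul_eq_mul, mul_sum]
      calc ∑ x, ∑ y, (u x - u y) ^ 2 = ∑ x, (Fintype.card X * (u x - m) ^ 2 +
            ∑ y, (u y - m) ^ 2 - 2 * (u x - m) * ∑ y, (u y - m)) :=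
            sum_congr rfl fun x _ => h2 x
        _ = Fintype.card X * ∑ x, (u x - m) ^ 2 + Fintype.card X * ∑ y, (u y - m) ^ 2 -
            2 * (∑ x, (u x - m)) * ∑ y, (u y - m) := by
            rw [sum_sub_distrib, sum_add_distrib, sum_const, card_univ, nsmul_eq_mul, ← mul_sum,
              ← sum_mul, ← mul_sum]
        _ = _ := by ring
    rw [h1]
    nlinarith [sq_nonneg (∑ x, (u x - m))]
  calc ∑ x, ∑ y, (u x - u y) ^ 2 ≤ 2 * Fintype.card X * ∑ x, (u x - m) ^ 2 := hvar
    _ ≤ 2 * Fintype.card X * (D * b ^ 2 * ∑ p ∈ Ed, (u p.1 - u p.2) ^ 2) :=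
        mul_le_mul_of_nonneg_left hQ (by positivity)
    _ = _ := by ring

end Pool.Agent.H76.SC
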