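import Mathlib

set_option autoImplicit false

/-! # Lamps over a Poincaré graph: a relative Poincaré inequality -/

namespace Pool.Agent.H76.SC

/-- The sign of a bit. -/
noncomputable def wal_s (a : ZMod 2) : ℝ := if a = 0 then 1 else -1

theorem wal_s_add (a b : ZMod 2) : wal_s (a + b) = wal_s a * wal_s b := by
  have h01 : ∀ c : ZMod 2, c = 0 ∨ c = 1 := by decide
  have h11 : (1 : ZMod 2) + 1 = 0 := by decide
  have h1 : (1 : ZMod 2) ≠ 0 := by decide
  rcases h01 a with rfl | rfl <;> rcases h01 b with rfl | rfl <;>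
    simp [wal_s, h11]

theorem wal_s_zero : wal_s 0 = 1 := by simp [wal_s]

theorem wal_s_one : wal_s 1 = -1 := by
  have h1 : (1 : ZMod 2) ≠ 0 := by decide
  simp [wal_s]

/-- Walsh characters. -/
noncomputable def wal_chi {X : Type} (B : Finset X) (A : X → ZMod 2) : ℝ :=
  ∏ x ∈ B, wal_s (A x)

theorem wal_chi_add {X : Type} (B : Finset X) (A A' : X → ZMod 2) :
    wal_chi B (A + A') = wal_chi B A * wal_chi B A' := by
  unfold wal_chi
  rw [← Finset.prod_mul_distrib]
  exact Finset.prod_congr rfl fun x _ => by rw [Pi.add_apply, wal_s_add]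

theorem wal_chi_single {X : Type} [DecidableEq X] (B : Finset X) (x : X) :
    wal_chi B (Pi.single x 1) = if x ∈ B then -1 else 1 := by
  unfold wal_chi
  split_ifs with h
  · rw [Finset.prod_eq_single x]
    · rw [Pi.single_eq_same, wal_s_one]
    · intro b _ hb
      rw [Pi.single_eq_of_ne hb, wal_s_zero]
    · exact fun h' => absurd h h'
  · refine Finset.prod_eq_one fun b hb => ?_
    have : b ≠ x := fun e => h (e ▸ hb)
    rw [Pi.single_eq_of_ne this, wal_s_zero]

theorem wal_sum_chi {X : Type} [Fintype X] [DecidableEq X] (A : X → ZMod 2) :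
    ∑ B : Finset X, wal_chi B A = if A = 0 then (2 : ℝ) ^ Fintype.card X else 0 := by
  have h := Finset.prod_one_add (f := fun x => wal_s (A x)) (Finset.univ : Finset X)
  rw [Finset.powerset_univ] at h
  have h2 : ∑ B : Finset X, wal_chi B A = ∏ x, (1 + wal_s (A x)) := by
    rw [h]; rfl
  rw [h2]
  split_ifs with hA
  · subst hA
    simp only [Pi.zero_apply, wal_s_zero]
    rw [Finset.prod_const, Finset.card_univ]
    norm_num
  · obtain ⟨x, hx⟩ : ∃ x, A x ≠ 0 := by
      by_contra hcon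
      push Not at hcon
      exact hA (funext hcon)
    refine Finset.prod_eq_zero (Finset.mem_univ x) ?_
    simp [wal_s, hx]

theorem wal_char_two {X : Type} (A : X → ZMod 2) : A + A = 0 := by
  funext x
  have : ∀ c : ZMod 2, c + c = 0 := by decide
  exact this (A x)

theorem wal_add_eq_zero {X : Type} (A A' : X → ZMod 2) : A + A' = 0 ↔ A = A' := by
  constructor
  · intro h
    have h2 : A + A' + A' = A' := by rw [h, zero_add]
    rwa [add_assoc, wal_char_two, add_zero] at h2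
  · rintro rfl
    exact wal_char_two A

/-- Unnormalised Walsh transform. -/
noncomputable def wal_hat {X E : Type} [Fintype X] [DecidableEq X]
    [NormedAddCommGroup E] [InnerProductSpace ℝ E]
    (g : (X → ZMod 2) → E) (B : Finset X) : E := ∑ A, wal_chi B A • g A

theorem wal_parseval {X E : Type} [Fintype X] [DecidableEq X]
    [NormedAddCommGroup E] [InnerProductSpace ℝ E] (g : (X → ZMod 2) → E) :
    ∑ B, ‖wal_hat g B‖ ^ 2 = (2 : ℝ) ^ Fintype.card X * ∑ A, ‖g A‖ ^ 2 := by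
  have h1 : ∀ B : Finset X, ‖wal_hat g B‖ ^ 2 =
      ∑ A, ∑ A', wal_chi B (A + A') * inner ℝ (g A) (g A') := by
    intro B
    rw [← real_inner_self_eq_norm_sq, wal_hat, sum_inner]
    refine Finset.sum_congr rfl fun A _ => ?_
    rw [inner_sum]
    refine Finset.sum_congr rfl fun A' _ => ?_
    rw [real_inner_smul_left, real_inner_smul_right, wal_chi_add]
    ring
  simp_rw [h1]
  rw [Finset.sum_comm, Finset.mul_sum]
  refine Finset.sum_congr rfl fun A _ => ?_
  rw [Finset.sum_comm]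
  simp_rw [← Finset.sum_mul, wal_sum_chi, wal_add_eq_zero]
  simp

theorem wal_hat_sub {X E : Type} [Fintype X] [DecidableEq X]
    [NormedAddCommGroup E] [InnerProductSpace ℝ E] (g g' : (X → ZMod 2) → E) (B : Finset X) :
    wal_hat (fun A => g A - g' A) B = wal_hat g B - wal_hat g' B := by
  simp [wal_hat, smul_sub, Finset.sum_sub_distrib]

theorem wal_hat_shift {X E : Type} [Fintype X] [DecidableEq X]
    [NormedAddCommGroup E] [InnerProductSpace ℝ E] (g : (X → ZMod 2) → E) (x : X)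
    (B : Finset X) :
    wal_hat (fun A => g (A + Pi.single x 1)) B = wal_chi B (Pi.single x 1) • wal_hat g B := by
  unfold wal_hat
  rw [Finset.smul_sum]
  refine Fintype.sum_equiv (Equiv.addRight (Pi.single x (1 : ZMod 2))) _ _ fun A => ?_
  simp only [Equiv.coe_addRight]
  rw [smul_smul, wal_chi_add, mul_comm (wal_chi B A), ← mul_assoc, ← wal_chi_add,
    wal_char_two]
  simp [wal_chi, wal_s_zero]

theorem wal_lamp {X E : Type} [Fintype X] [DecidableEq X]
    [NormedAddCommGroup E] [InnerProductSpace ℝ E] (g : (X → ZMod 2) → E) (x : X) :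
    4 * ∑ B : Finset X, (if x ∈ B then ‖wal_hat g B‖ ^ 2 else 0) =
      (2 : ℝ) ^ Fintype.card X * ∑ A, ‖g (A + Pi.single x 1) - g A‖ ^ 2 := by
  have hp := wal_parseval (fun A => g (A + Pi.single x 1) - g A)
  refine Eq.trans ?_ hp
  rw [Finset.mul_sum]
  refine Finset.sum_congr rfl fun B _ => ?_
  have e := wal_hat_sub (fun A => g (A + Pi.single x 1)) g B
  rw [wal_hat_shift, wal_chi_single] at e
  refine Eq.trans ?_ (congrArg (fun v => ‖v‖ ^ 2) e.symm)
  show _ = ‖(if x ∈ B then (-1 : ℝ) else 1) • wal_hat g B - wal_hat g B‖ ^ 2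
  split_ifs with h
  · have : (-1 : ℝ) • wal_hat g B - wal_hat g B = (-2 : ℝ) • wal_hat g B := by
      rw [neg_smul, one_smul, neg_smul, two_smul]; abel
    rw [this, norm_smul]
    simp only [norm_neg, Real.norm_ofNat]
    ring
  · simp

/-- Reverse triangle inequality for square roots of sums of squares. -/
theorem wal_mink {ι : Type} [Fintype ι] (a b : ι → ℝ) :
    (√(∑ i, a i ^ 2) - √(∑ i, b i ^ 2)) ^ 2 ≤ ∑ i, (a i - b i) ^ 2 := by
  have ha : 0 ≤ ∑ i, a i ^ 2 := Finset.sum_nonneg fun i _ => sq_nonneg _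
  have hb : 0 ≤ ∑ i, b i ^ 2 := Finset.sum_nonneg fun i _ => sq_nonneg _
  have hcs := Real.sum_mul_le_sqrt_mul_sqrt Finset.univ a b
  have e1 : ∑ i, (a i - b i) ^ 2 = ∑ i, a i ^ 2 + ∑ i, b i ^ 2 - 2 * ∑ i, a i * b i := by
    rw [Finset.mul_sum, ← Finset.sum_add_distrib, ← Finset.sum_sub_distrib]
    exact Finset.sum_congr rfl fun i _ => by ring
  rw [e1]
  nlinarith [Real.sq_sqrt ha, Real.sq_sqrt hb]

theorem walsh {X Y E : Type} [Fintype X] [DecidableEq X] [Nonempty X] [Fintype Y]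
    [NormedAddCommGroup E] [InnerProductSpace ℝ E] (π : Y → X) (hπ : Function.Surjective π)
    (Ed : Finset (X × X)) (D : ℕ) (P C : ℝ) (hC : 0 ≤ C) (hP0 : 0 ≤ P)
    (hdeg : Ed.card ≤ D * Fintype.card X)
    (hP : ∀ u : X → ℝ, ∑ x, ∑ y, (u x - u y) ^ 2 ≤
      P * Fintype.card X * ∑ p ∈ Ed, (u p.1 - u p.2) ^ 2)
    (f : (X → ZMod 2) → Y → E)
    (hmove : ∀ p ∈ Ed, ∃ σ : {y // π y = p.1} ≃ {y // π y = p.2}, ∀ y A,
      ‖f A y.1 - f A (σ y).1‖ ≤ C)
    (hlamp : ∀ y A, ‖f (A + Pi.single (π y) 1) y - f A y‖ ≤ C) :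
    ∃ (y : Y) (A : X → ZMod 2), ∑ x, ‖f (A + Pi.single x 1) y - f A y‖ ^ 2 ≤
      (8 * P * D + 2) * C ^ 2 * Fintype.card X := by
  classical
  have _ := hC
  by_contra hcon
  push Not at hcon
  set N : ℝ := (2 : ℝ) ^ Fintype.card X with hN
  set m : ℝ := (Fintype.card X : ℝ) with hm
  have hmpos : 0 < m := by rw [hm]; exact_mod_cast Fintype.card_pos
  have hNpos : 0 < N := by positivity
  have hcardA : (Fintype.card (X → ZMod 2) : ℝ) = N := by
    rw [Fintype.card_fun, ZMod.card]; push_cast; rfl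
  -- fibres
  let n : X → ℝ := fun x => Fintype.card {y // π y = x}
  have hnpos : ∀ x, 0 < n x := by
    intro x
    obtain ⟨y, hy⟩ := hπ x
    have : Nonempty {y // π y = x} := ⟨⟨y, hy⟩⟩
    show (0 : ℝ) < (Fintype.card {y // π y = x} : ℝ)
    exact_mod_cast Fintype.card_pos
  let h : Finset X → Y → E := fun B y => wal_hat (fun A => f A y) B
  let F : Finset X → X → ℝ := fun B x => √(∑ y : {y // π y = x}, ‖h B y.1‖ ^ 2) / √(n x)
  have hF2 : ∀ B x, F B x ^ 2 = (∑ y : {y // π y = x}, ‖h B y.1‖ ^ 2) / n x := by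
    intro B x
    show (√(∑ y : {y // π y = x}, ‖h B y.1‖ ^ 2) / √(n x)) ^ 2 = _
    rw [div_pow, Real.sq_sqrt (Finset.sum_nonneg fun i _ => sq_nonneg _),
      Real.sq_sqrt (hnpos x).le]
  -- edges
  have hedge : ∀ p ∈ Ed, ∑ B, (F B p.1 - F B p.2) ^ 2 ≤ N ^ 2 * C ^ 2 := by
    intro p hp
    obtain ⟨σ, hσ⟩ := hmove p hp
    have hn : n p.2 = n p.1 := by
      show (Fintype.card {y // π y = p.2} : ℝ) = (Fintype.card {y // π y = p.1} : ℝ)
      exact_mod_cast (Fintype.card_congr σ).symm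
    have h1 : ∀ B, (F B p.1 - F B p.2) ^ 2 ≤
        (∑ y : {y // π y = p.1}, ‖h B y.1 - h B (σ y).1‖ ^ 2) / n p.1 := by
      intro B
      have e1 : F B p.1 - F B p.2 = (√(∑ y : {y // π y = p.1}, ‖h B y.1‖ ^ 2) -
          √(∑ y : {y // π y = p.1}, ‖h B (σ y).1‖ ^ 2)) / √(n p.1) := by
        show √(∑ y : {y // π y = p.1}, ‖h B y.1‖ ^ 2) / √(n p.1) -
          √(∑ y : {y // π y = p.2}, ‖h B y.1‖ ^ 2) / √(n p.2) = _
        rw [hn, sub_div]
        congr 3
        exact (Fintype.sum_equiv σ _ _ fun y => rfl).symm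
      rw [e1, div_pow, Real.sq_sqrt (hnpos _).le]
      refine div_le_div_of_nonneg_right ?_ (hnpos _).le
      refine (wal_mink _ _).trans (Finset.sum_le_sum fun y _ => ?_)
      rw [← sq_abs, ← sq_abs (‖h B y.1 - h B (σ y).1‖)]
      have := abs_norm_sub_norm_le (h B y.1) (h B (σ y).1)
      rw [abs_of_nonneg (norm_nonneg (h B y.1 - h B (σ y).1))]
      exact pow_le_pow_left₀ (abs_nonneg _) this 2
    refine (Finset.sum_le_sum fun B _ => h1 B).trans ?_
    rw [← Finset.sum_div, Finset.sum_comm, div_le_iff₀ (hnpos _)]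
    have h2 : ∀ y : {y // π y = p.1}, ∑ B, ‖h B y.1 - h B (σ y).1‖ ^ 2 ≤ N ^ 2 * C ^ 2 := by
      intro y
      have e2 : ∑ B, ‖h B y.1 - h B (σ y).1‖ ^ 2 =
          N * ∑ A, ‖f A y.1 - f A (σ y).1‖ ^ 2 := by
        rw [← wal_parseval (fun A => f A y.1 - f A (σ y).1)]
        exact Finset.sum_congr rfl fun B _ => by rw [wal_hat_sub]
      rw [e2]
      have e3 : ∑ A, ‖f A y.1 - f A (σ y).1‖ ^ 2 ≤ N * C ^ 2 := by
        refine (Finset.sum_le_sum (g := fun _ => C ^ 2) fun A _ =>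
          pow_le_pow_left₀ (norm_nonneg _) (hσ y A) 2).trans ?_
        rw [Finset.sum_const, Finset.card_univ, nsmul_eq_mul, hcardA]
      calc N * ∑ A, ‖f A y.1 - f A (σ y).1‖ ^ 2 ≤ N * (N * C ^ 2) :=
            mul_le_mul_of_nonneg_left e3 hNpos.le
        _ = N ^ 2 * C ^ 2 := by ring
    refine (Finset.sum_le_sum fun y _ => h2 y).trans ?_
    rw [Finset.sum_const, Finset.card_univ, nsmul_eq_mul]
    exact le_of_eq (by show (Fintype.card {y // π y = p.1} : ℝ) * _ = _ * (Fintype.card {y // π y = p.1} : ℝ); ring)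
  -- Poincaré
  have hpoin : ∑ B, ∑ x, ∑ x', (F B x - F B x') ^ 2 ≤ P * m ^ 2 * D * N ^ 2 * C ^ 2 := by
    refine (Finset.sum_le_sum fun B _ => hP (F B)).trans ?_
    rw [← Finset.mul_sum, Finset.sum_comm]
    have e1 : ∑ p ∈ Ed, ∑ B, (F B p.1 - F B p.2) ^ 2 ≤ (D * m) * (N ^ 2 * C ^ 2) := by
      refine (Finset.sum_le_sum fun p hp => hedge p hp).trans ?_
      rw [Finset.sum_const, nsmul_eq_mul]
      refine mul_le_mul_of_nonneg_right ?_ (by positivity)
      rw [hm]; exact_mod_cast hdeg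
    calc P * m * ∑ p ∈ Ed, ∑ B, (F B p.1 - F B p.2) ^ 2
        ≤ P * m * ((D * m) * (N ^ 2 * C ^ 2)) :=
          mul_le_mul_of_nonneg_left e1 (mul_nonneg hP0 hmpos.le)
      _ = P * m ^ 2 * D * N ^ 2 * C ^ 2 := by ring
  -- lamps at the own vertex
  have hown : ∀ x, ∑ B : Finset X, (if x ∈ B then F B x ^ 2 else 0) ≤ N ^ 2 * C ^ 2 / 4 := by
    intro x
    have e1 : ∑ B : Finset X, (if x ∈ B then F B x ^ 2 else 0) =
        (∑ y : {y // π y = x}, ∑ B : Finset X, (if x ∈ B then ‖h B y.1‖ ^ 2 else 0)) / n x := by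
      rw [Finset.sum_comm, Finset.sum_div]
      refine Finset.sum_congr rfl fun B _ => ?_
      split_ifs with hx
      · exact hF2 B x
      · simp
    rw [e1, div_le_iff₀ (hnpos x)]
    have h2 : ∀ y : {y // π y = x}, ∑ B : Finset X, (if x ∈ B then ‖h B y.1‖ ^ 2 else 0) ≤
        N ^ 2 * C ^ 2 / 4 := by
      intro y
      have e2 := wal_lamp (fun A => f A y.1) x
      have e3 : ∑ A, ‖f (A + Pi.single x 1) y.1 - f A y.1‖ ^ 2 ≤ N * C ^ 2 := by
        refine (Finset.sum_le_sum (g := fun _ => C ^ 2) fun A _ => ?_).trans ?_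
        · have := hlamp y.1 A
          rw [y.2] at this
          exact pow_le_pow_left₀ (norm_nonneg _) this 2
        · rw [Finset.sum_const, Finset.card_univ, nsmul_eq_mul, hcardA]
      have e4 : N * ∑ A, ‖f (A + Pi.single x 1) y.1 - f A y.1‖ ^ 2 ≤ N * (N * C ^ 2) :=
        mul_le_mul_of_nonneg_left e3 hNpos.le
      have e5 : 4 * ∑ B : Finset X, (if x ∈ B then ‖h B y.1‖ ^ 2 else 0) ≤ N * (N * C ^ 2) :=
        e2.le.trans e4
      nlinarith
    refine (Finset.sum_le_sum fun y _ => h2 y).trans ?_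
    rw [Finset.sum_const, Finset.card_univ, nsmul_eq_mul]
    exact le_of_eq (by show (Fintype.card {y // π y = x} : ℝ) * _ = _ * (Fintype.card {y // π y = x} : ℝ); ring)
  -- all lamps, upper bound
  have hup : ∑ x, ∑ x', ∑ B : Finset X, (if x ∈ B then F B x' ^ 2 else 0) ≤
      m ^ 2 * N ^ 2 * C ^ 2 * (2 * P * D + 1 / 2) := by
    have e1 : ∀ x x', ∑ B : Finset X, (if x ∈ B then F B x' ^ 2 else 0) ≤
        2 * ∑ B : Finset X, (F B x - F B x') ^ 2 +
          2 * ∑ B : Finset X, (if x ∈ B then F B x ^ 2 else 0) := by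
      intro x x'
      rw [Finset.mul_sum, Finset.mul_sum, ← Finset.sum_add_distrib]
      refine Finset.sum_le_sum fun B _ => ?_
      split_ifs with hx
      · nlinarith [sq_nonneg (2 * F B x - F B x')]
      · nlinarith [sq_nonneg (F B x - F B x')]
    have e2 : ∑ x, ∑ x', ∑ B : Finset X, (if x ∈ B then F B x' ^ 2 else 0) ≤
        ∑ x, ∑ x', (2 * ∑ B : Finset X, (F B x - F B x') ^ 2 + 2 * (N ^ 2 * C ^ 2 / 4)) := by
      refine Finset.sum_le_sum fun x _ => Finset.sum_le_sum fun x' _ => ?_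
      have := e1 x x'
      have := hown x
      linarith
    refine e2.trans ?_
    simp_rw [Finset.sum_add_distrib, ← Finset.mul_sum]
    simp only [Finset.sum_const, Finset.card_univ, nsmul_eq_mul]
    have e3 : ∑ x, ∑ x', ∑ B : Finset X, (F B x - F B x') ^ 2 =
        ∑ B, ∑ x, ∑ x', (F B x - F B x') ^ 2 := by
      rw [Finset.sum_comm]
      conv_rhs => rw [Finset.sum_comm]
      rw [Finset.sum_comm]
      exact Finset.sum_congr rfl fun x _ => Finset.sum_comm
    rw [e3]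
    have : (Fintype.card X : ℝ) = m := rfl
    rw [this]
    nlinarith [hpoin]
  -- all lamps, lower bound
  have hlow : m ^ 2 * N ^ 2 * C ^ 2 * (2 * P * D + 1 / 2) <
      ∑ x, ∑ x', ∑ B : Finset X, (if x ∈ B then F B x' ^ 2 else 0) := by
    rw [Finset.sum_comm]
    have e0 : m ^ 2 * N ^ 2 * C ^ 2 * (2 * P * D + 1 / 2) =
        ∑ _x' : X, (N * N * ((8 * P * D + 2) * C ^ 2 * m)) / 4 := by
      rw [Finset.sum_const, Finset.card_univ, nsmul_eq_mul]
      rw [← hm]
      ring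
    rw [e0]
    refine Finset.sum_lt_sum_of_nonempty Finset.univ_nonempty fun x' _ => ?_
    have e1 : ∑ x, ∑ B : Finset X, (if x ∈ B then F B x' ^ 2 else 0) =
        (∑ y : {y // π y = x'}, ∑ x, ∑ B : Finset X,
          (if x ∈ B then ‖h B y.1‖ ^ 2 else 0)) / n x' := by
      rw [Finset.sum_comm (s := (Finset.univ : Finset {y // π y = x'})), Finset.sum_div]
      refine Finset.sum_congr rfl fun x _ => ?_
      rw [Finset.sum_comm, Finset.sum_div]
      refine Finset.sum_congr rfl fun B _ => ?_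
      split_ifs with hx
      · exact hF2 B x'
      · simp
    rw [e1, lt_div_iff₀ (hnpos x')]
    have hne : Nonempty {y // π y = x'} := by
      obtain ⟨y, hy⟩ := hπ x'
      exact ⟨⟨y, hy⟩⟩
    have e2 : N * N * ((8 * P * D + 2) * C ^ 2 * m) / 4 * n x' =
        ∑ _y : {y // π y = x'}, N * N * ((8 * P * D + 2) * C ^ 2 * m) / 4 := by
      rw [Finset.sum_const, Finset.card_univ, nsmul_eq_mul]
      show _ * (Fintype.card {y // π y = x'} : ℝ) = _
      ring
    rw [e2]
    refine Finset.sum_lt_sum_of_nonempty Finset.univ_nonempty fun y _ => ?_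
    have e3 : ∑ x, ∑ B : Finset X, (if x ∈ B then ‖h B y.1‖ ^ 2 else 0) =
        N / 4 * ∑ A, ∑ x, ‖f (A + Pi.single x 1) y.1 - f A y.1‖ ^ 2 := by
      rw [Finset.sum_comm (s := (Finset.univ : Finset (X → ZMod 2))), Finset.mul_sum]
      refine Finset.sum_congr rfl fun x _ => ?_
      have := wal_lamp (fun A => f A y.1) x
      rw [← hN] at this
      linarith
    rw [e3]
    have e4 : N * ((8 * P * D + 2) * C ^ 2 * m) <
        ∑ A, ∑ x, ‖f (A + Pi.single x 1) y.1 - f A y.1‖ ^ 2 := by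
      rw [← hcardA, ← nsmul_eq_mul, ← Finset.card_univ, ← Finset.sum_const]
      exact Finset.sum_lt_sum_of_nonempty Finset.univ_nonempty fun A _ => hcon y.1 A
    nlinarith
  exact absurd hup (not_le.mpr hlow)

end Pool.Agent.H76.SC
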