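import Mathlib
import Pool.Agent.H76.SC.Conn
import Pool.Agent.H76.SC.Lamp
import Pool.Agent.H76.SC.Poincare
import Pool.Agent.H76.SC.Walsh
import Pool.Agent.H76.Final1

set_option autoImplicit false

/-! # The lamplighter type group does not coarsely embed -/

namespace Pool.Agent.H76.SC

section QCE

variable {k : ℕ} {V : Type} [DecidableEq V] (A : Aut k V)

/-- the group -/
abbrev qce_Q := FreeGroup (Fin (k + 1)) ⧸ NC (RStar A.RH A.RG)

/-- the projection -/
abbrev qce_p : FreeGroup (Fin (k + 1)) →* qce_Q A := QuotientGroup.mk' (NC (RStar A.RH A.RG))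

theorem qce_rel {w : List (Fin (k + 1) × Bool)} (h : w ∈ RStar A.RH A.RG) :
    qce_p A (FreeGroup.mk w) = 1 := by
  rw [QuotientGroup.mk'_apply, QuotientGroup.eq_one_iff]
  exact Subgroup.subset_normalClosure ⟨w, h, rfl⟩

theorem qce_mk_winv {r : ℕ} (u : List (Fin r × Bool)) :
    FreeGroup.mk (winv u) = (FreeGroup.mk u)⁻¹ := by
  rw [FreeGroup.inv_mk]; rfl

theorem qce_up_append (u w : List (Fin k × Bool)) : up (u ++ w) = up u ++ up w := by
  simp [up]

theorem qce_up_winv (u : List (Fin k × Bool)) : up (winv u) = winv (up u) := by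
  simp [up, winv, Function.comp_def]

/-- the element of a word in the first letters -/
def qce_g (w : List (Fin k × Bool)) : qce_Q A := qce_p A (FreeGroup.mk (up w))

/-- the lamp -/
def qce_d : qce_Q A := qce_p A (FreeGroup.mk (lam k true))

theorem qce_g_append (u w : List (Fin k × Bool)) :
    qce_g A (u ++ w) = qce_g A u * qce_g A w := by
  unfold qce_g
  rw [qce_up_append, ← FreeGroup.mul_mk, map_mul]

theorem qce_g_winv (u : List (Fin k × Bool)) : qce_g A (winv u) = (qce_g A u)⁻¹ := by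
  unfold qce_g
  rw [qce_up_winv, qce_mk_winv, map_inv]

theorem qce_g_eq {x y : V} {w w' : List (Fin k × Bool)} (h : A.run x w = some y)
    (h' : A.run x w' = some y) (hp : A.par x w = A.par x w') : qce_g A w = qce_g A w' := by
  have h1 : A.run x (w ++ winv w') = some x := by
    rw [ar_run_append_eq]
    exact ⟨y, h, run_winv A h'⟩
  have h2 : A.par x (w ++ winv w') = 0 := by
    rw [par_append A h, par_winv A h', hp]
    funext e
    exact CharTwo.add_self_eq_zero _
  have h3 : qce_g A (w ++ winv w') = 1 :=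
    qce_rel A (Or.inl ⟨w ++ winv w', ⟨x, h1, h2⟩, rfl⟩)
  rw [qce_g_append, qce_g_winv, mul_inv_eq_one] at h3
  exact h3

theorem qce_lam_false : qce_p A (FreeGroup.mk (lam k false)) = (qce_d A)⁻¹ := by
  unfold qce_d
  rw [← map_inv, FreeGroup.inv_mk]
  rfl

theorem qce_d_sq : qce_d A * qce_d A = 1 := by
  have := qce_rel A (w := lam k true ++ lam k true) (Or.inr (Or.inl rfl))
  rwa [← FreeGroup.mul_mk, map_mul] at this

theorem qce_comm (g : qce_Q A) : Commute (g * qce_d A * g⁻¹) (qce_d A) := by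
  obtain ⟨w, rfl⟩ := QuotientGroup.mk'_surjective _ g
  obtain ⟨u, rfl⟩ : ∃ u, FreeGroup.mk u = w := ⟨w.toWord, FreeGroup.mk_toWord⟩
  have := qce_rel A (w := u ++ lam k true ++ winv u ++ lam k true ++ u ++
      lam k false ++ winv u ++ lam k false) (Or.inr (Or.inr (Or.inl ⟨u, rfl⟩)))
  simp only [← FreeGroup.mul_mk, map_mul, qce_mk_winv, map_inv, qce_lam_false] at this
  change _ * qce_d A * _ * qce_d A * _ * _ * _ * _ = 1 at this
  set g := qce_p A (FreeGroup.mk u) with hg
  change Commute (g * qce_d A * g⁻¹) (qce_d A)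
  rw [commute_iff_eq]
  have e : (g * qce_d A * g⁻¹) * qce_d A * (g * (qce_d A)⁻¹ * g⁻¹) * (qce_d A)⁻¹ = 1 := by
    rw [← this]; group
  rw [mul_inv_eq_one] at e
  have e2 : g * (qce_d A)⁻¹ * g⁻¹ = (g * qce_d A * g⁻¹)⁻¹ := by group
  rw [e2, mul_inv_eq_iff_eq_mul] at e
  exact e

theorem qce_comm2 (g h : qce_Q A) : Commute (g * qce_d A * g⁻¹) (h * qce_d A * h⁻¹) := by
  have h1 := qce_comm A (h⁻¹ * g)
  rw [commute_iff_eq] at h1 ⊢
  have h2 : h * ((h⁻¹ * g) * qce_d A * (h⁻¹ * g)⁻¹ * qce_d A) * h⁻¹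
      = h * (qce_d A * ((h⁻¹ * g) * qce_d A * (h⁻¹ * g)⁻¹)) * h⁻¹ := by rw [h1]
  calc _ = h * ((h⁻¹ * g) * qce_d A * (h⁻¹ * g)⁻¹ * qce_d A) * h⁻¹ := by group
    _ = h * (qce_d A * ((h⁻¹ * g) * qce_d A * (h⁻¹ * g)⁻¹)) * h⁻¹ := h2
    _ = _ := by group

theorem qce_closed {x : V} {u : List (Fin k × Bool)} (h : A.run x u = some x) :
    qce_g A u * qce_d A = qce_d A * qce_g A u := by
  have := qce_rel A (w := up u ++ lam k true ++ winv (up u) ++ lam k false)
    (Or.inr (Or.inr (Or.inr ⟨u, ⟨x, h⟩, rfl⟩)))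
  simp only [← FreeGroup.mul_mk, map_mul, qce_mk_winv, map_inv, qce_lam_false] at this
  change qce_g A u * qce_d A * (qce_g A u)⁻¹ * (qce_d A)⁻¹ = 1 at this
  rw [mul_inv_eq_one, mul_inv_eq_iff_eq_mul] at this
  exact this

theorem qce_lam_eq {x y : V} {w w' : List (Fin k × Bool)} (h : A.run x w = some y)
    (h' : A.run x w' = some y) :
    qce_g A w * qce_d A * (qce_g A w)⁻¹ = qce_g A w' * qce_d A * (qce_g A w')⁻¹ := by
  have h1 : A.run y (winv w ++ w') = some y := by
    rw [ar_run_append_eq]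
    exact ⟨x, run_winv A h, h'⟩
  have h2 := qce_closed A h1
  rw [qce_g_append, qce_g_winv] at h2
  have h3 : qce_g A w * ((qce_g A w)⁻¹ * qce_g A w' * qce_d A) * (qce_g A w')⁻¹
      = qce_g A w * (qce_d A * ((qce_g A w)⁻¹ * qce_g A w')) * (qce_g A w')⁻¹ := by rw [h2]
  symm
  calc _ = qce_g A w * ((qce_g A w)⁻¹ * qce_g A w' * qce_d A) * (qce_g A w')⁻¹ := by group
    _ = qce_g A w * (qce_d A * ((qce_g A w)⁻¹ * qce_g A w')) * (qce_g A w')⁻¹ := h3
    _ = _ := by group

theorem qce_lam_ne {x y y' : V} {w w' : List (Fin k × Bool)} (h : A.run x w = some y)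
    (h' : A.run x w' = some y')
    (he : qce_g A w * qce_d A * (qce_g A w)⁻¹ = qce_g A w' * qce_d A * (qce_g A w')⁻¹) :
    y = y' := by
  apply lamp_ne A h h'
  rw [← QuotientGroup.eq_one_iff, ← QuotientGroup.mk'_apply]
  change qce_p A _ = 1
  simp only [← FreeGroup.mul_mk, map_mul, qce_mk_winv, map_inv]
  change (qce_g A w * qce_d A * (qce_g A w)⁻¹)⁻¹ * (qce_g A w' * qce_d A * (qce_g A w')⁻¹) = 1
  rw [he, inv_mul_cancel]

theorem qce_par_supp {x y : V} {w : List (Fin k × Bool)} (h : A.run x w = some y) (z : V)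
    (a : Fin k) (hz : A.lev z ≠ A.lev x) : A.par x w (z, a) = 0 := by
  induction w generalizing x with
  | nil => rw [ar_par_nil]; rfl
  | cons c u ih =>
    obtain ⟨x', hx', hu⟩ := (ar_run_cons_eq A).mp h
    have hlev := A.lev_step x x' c hx'
    rw [ar_par_cons A hx', Pi.add_apply, ih hu (by rw [hlev]; exact hz), add_zero]
    apply Pi.single_eq_of_ne
    intro heq
    rw [Prod.mk.injEq] at heq
    split_ifs at heq with hc
    · exact hz (by rw [heq.1])
    · exact hz (by rw [heq.1, hlev])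

/-- the homomorphism of a lamp -/
def qce_phi {G : Type} [Group G] (l : G) (hl : l * l = 1) : Multiplicative (ZMod 2) →* G where
  toFun a := if Multiplicative.toAdd a = 0 then 1 else l
  map_one' := by simp
  map_mul' := by
    intro a b
    have h2 : ∀ c : ZMod 2, c = 0 ∨ c = 1 := by decide
    rcases h2 (Multiplicative.toAdd a) with ha | ha <;>
    rcases h2 (Multiplicative.toAdd b) with hb | hb <;>
    rw [toAdd_mul, ha, hb] <;> simp [hl]
    exact fun h => absurd (by decide) h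

theorem qce_phi_one {G : Type} [Group G] (l : G) (hl : l * l = 1) :
    qce_phi l hl (Multiplicative.ofAdd 1) = l := by
  simp [qce_phi]

/-- lamp configurations -/
theorem qce_lamps {G X : Type} [Group G] [Fintype X] [DecidableEq X] (l : X → G)
    (hl : ∀ x, l x * l x = 1) (hc : ∀ x y, Commute (l x) (l y)) :
    ∃ lamp : (X → ZMod 2) → G, ∀ B x, lamp (B + Pi.single x 1) = lamp B * l x := by
  have hcomm : Pairwise fun x y => ∀ (a b : Multiplicative (ZMod 2)),
      Commute (qce_phi (l x) (hl x) a) (qce_phi (l y) (hl y) b) := by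
    intro x y _ a b
    change Commute (if _ then _ else _) (if _ then _ else _)
    split_ifs
    · exact Commute.one_left _
    · exact Commute.one_left _
    · exact Commute.one_right _
    · exact hc x y
  refine ⟨fun B => MonoidHom.noncommPiCoprod (fun x => qce_phi (l x) (hl x)) hcomm
    (fun x => Multiplicative.ofAdd (B x)), ?_⟩
  intro B x
  have e : (fun z => Multiplicative.ofAdd ((B + Pi.single x 1 : X → ZMod 2) z))
      = (fun z => Multiplicative.ofAdd (B z)) *
        Pi.mulSingle (M := fun _ : X => Multiplicative (ZMod 2)) x (Multiplicative.ofAdd 1) := by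
    funext z
    rw [Pi.mul_apply, Pi.add_apply, ofAdd_add]
    congr 1
  simp only
  rw [e, map_mul, MonoidHom.noncommPiCoprod_mulSingle, qce_phi_one]

theorem qce_step {x0 x x' : V} {a : Fin k × Bool} (h : A.step x a = some x')
    {θ : V × Fin k → ZMod 2} (hw : ∃ w, A.run x0 w = some x ∧ A.par x0 w = θ) :
    ∃ w, A.run x0 w = some x' ∧ A.par x0 w = θ + A.par x [a] := by
  obtain ⟨w, h1, h2⟩ := hw
  refine ⟨w ++ [a], ?_, ?_⟩
  · rw [ar_run_append_eq]
    refine ⟨x, h1, ?_⟩
    rw [ar_run_cons_eq]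
    exact ⟨x', h, rfl⟩
  · rw [par_append A h1, h2]

omit [DecidableEq V] in
theorem qce_add_add (θ e : V × Fin k → ZMod 2) : θ + e + e = θ := by
  funext z
  simp only [Pi.add_apply]
  rw [add_assoc, CharTwo.add_self_eq_zero, add_zero]

/-- the edges inside a level -/
noncomputable def qce_Ed (n : ℕ) [Fintype {x // A.lev x = n}] :
    Finset ({x // A.lev x = n} × {x // A.lev x = n}) :=
  open Classical in Finset.univ.filter fun p => ∃ a, A.step p.1.1 a = some p.2.1

theorem qce_deg (n : ℕ) [Fintype {x // A.lev x = n}] (x : {x // A.lev x = n}) :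
    ((qce_Ed A n).filter (fun p => p.1 = x)).card ≤ 2 * k := by
  classical
  have hch : ∀ p : {x // A.lev x = n} × {x // A.lev x = n}, ∃ a : Option (Fin k × Bool),
      p ∈ qce_Ed A n → ∃ c, a = some c ∧ A.step p.1.1 c = some p.2.1 := by
    intro p
    by_cases hp : p ∈ qce_Ed A n
    · obtain ⟨c, hc⟩ := (Finset.mem_filter.1 hp).2
      exact ⟨some c, fun _ => ⟨c, rfl, hc⟩⟩
    · exact ⟨none, fun h => absurd h hp⟩
  choose F hF using hch
  have h1 : ((qce_Ed A n).filter (fun p => p.1 = x)).card ≤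
      (Finset.univ.image (some : Fin k × Bool → Option (Fin k × Bool))).card := by
    apply Finset.card_le_card_of_injOn F
    · intro p hp
      obtain ⟨c, hc, _⟩ := hF p (Finset.mem_filter.1 hp).1
      rw [hc]
      simp
    · intro p hp q hq hpq
      rw [Finset.mem_coe, Finset.mem_filter] at hp hq
      obtain ⟨c, hc, hc2⟩ := hF p hp.1
      obtain ⟨c', hc', hc2'⟩ := hF q hq.1
      rw [hc, hc'] at hpq
      have hcc := Option.some.inj hpq
      subst hcc
      rw [hp.2] at hc2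
      rw [hq.2] at hc2'
      rw [hc2] at hc2'
      have h3 := Option.some.inj hc2'
      exact Prod.ext (by rw [hp.2, hq.2]) (Subtype.ext h3)
  refine h1.trans ?_
  refine Finset.card_image_le.trans ?_
  rw [Finset.card_univ, Fintype.card_prod, Fintype.card_fin, Fintype.card_bool]
  omega

theorem qce_exp (b : ℕ) (hexp : A.Exp b) (n : ℕ) [Fintype {x // A.lev x = n}]
    (S : Finset {x // A.lev x = n}) (hS : 2 * S.card ≤ Fintype.card {x // A.lev x = n}) :
    S.card ≤ (b * (2 * k)) * ((qce_Ed A n).filter (fun p => p.1 ∈ S ∧ p.2 ∉ S)).card := by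
  classical
  set B : Finset V := S.map (Function.Embedding.subtype _) with hB
  have hBc : B.card = S.card := Finset.card_map _
  have hmem : ∀ v (hv : A.lev v = n), v ∈ B ↔ (⟨v, hv⟩ : {x // A.lev x = n}) ∈ S := by
    intro v hv
    rw [hB, Finset.mem_map]
    constructor
    · rintro ⟨x, hx, rfl⟩; exact hx
    · intro h; exact ⟨_, h, rfl⟩
  have hlev : ∀ x ∈ B, A.lev x = n := by
    intro x hx
    rw [hB, Finset.mem_map] at hx
    obtain ⟨y, _, rfl⟩ := hx
    exact y.2
  have h1 := hexp n B hlev (by rw [hBc, Nat.card_eq_fintype_card]; exact hS)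
  set T := {p : V × (Fin k × Bool) // p.1 ∈ B ∧ ∃ y, y ∉ B ∧ A.step p.1 p.2 = some y} with hT
  set W := {p // p ∈ (qce_Ed A n).filter (fun p => p.1 ∈ S ∧ p.2 ∉ S)} with hW
  have h2 : Nat.card T ≤ Nat.card (W × (Fin k × Bool)) := by
    have hch : ∀ p : T, ∃ q : W × (Fin k × Bool), q.1.1.1.1 = p.1.1 ∧ q.2 = p.1.2 := by
      rintro ⟨⟨x, a⟩, hx, y, hy, hst⟩
      have hxn := hlev x hx
      have hyn : A.lev y = n := by rw [A.lev_step x y a hst, hxn]
      refine ⟨(⟨(⟨x, hxn⟩, ⟨y, hyn⟩), ?_⟩, a), rfl, rfl⟩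
      rw [Finset.mem_filter]
      refine ⟨Finset.mem_filter.2 ⟨Finset.mem_univ _, a, hst⟩, (hmem x hxn).1 hx, ?_⟩
      intro hcon
      exact hy ((hmem y hyn).2 hcon)
    choose G hG1 hG2 using hch
    apply Nat.card_le_card_of_injective G
    intro p q hpq
    apply Subtype.ext
    apply Prod.ext
    · rw [← hG1 p, ← hG1 q, hpq]
    · rw [← hG2 p, ← hG2 q, hpq]
  rw [Nat.card_prod, Nat.card_prod, Nat.card_fin, Nat.card_eq_fintype_card (α := Bool),
    Fintype.card_bool, Nat.card_eq_fintype_card (α := W), Fintype.card_coe] at h2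
  rw [hBc] at h1
  calc S.card ≤ b * Nat.card T := h1
    _ ≤ b * (((qce_Ed A n).filter (fun p => p.1 ∈ S ∧ p.2 ∉ S)).card * (k * 2)) := by gcongr
    _ = _ := by ring

/-- a level -/
abbrev qce_X (n : ℕ) := {x // A.lev x = n}

theorem qce_level (b : ℕ) (hexp : A.Exp b) (n : ℕ)
    [Fintype (qce_X A n)] (x0 : V) (hx0 : A.lev x0 = n) {H : Type} [NormedAddCommGroup H]
    [InnerProductSpace ℝ H] (f : qce_Q A → H) (C : ℝ) (hC : 0 ≤ C)
    (hf : ∀ (g : qce_Q A) (a : Fin (k + 1) × Bool),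
      ‖f g - f (g * qce_p A (FreeGroup.mk [a]))‖ ≤ C)
    (q : qce_X A n → List (Fin k × Bool)) (hq : ∀ x, A.run x0 (q x) = some x.1) :
    ∃ p h : qce_Q A, ∑ x : qce_X A n,
      ‖f (p * (h⁻¹ * (qce_g A (q x) * qce_d A * (qce_g A (q x))⁻¹) * h)) - f p‖ ^ 2 ≤
      (8 * (2 * ((2 * k : ℕ) : ℝ) * ((b * (2 * k) : ℕ) : ℝ) ^ 2) * ((2 * k : ℕ) : ℝ) + 2) * C ^ 2 *
        Fintype.card (qce_X A n) := by
  classical
  have hXne : Nonempty (qce_X A n) := ⟨⟨x0, hx0⟩⟩
  set l : qce_X A n → qce_Q A := fun x => qce_g A (q x) * qce_d A * (qce_g A (q x))⁻¹ with hl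
  have hl2 : ∀ x, l x * l x = 1 := by
    intro x
    have := qce_d_sq A
    calc l x * l x = qce_g A (q x) * (qce_d A * qce_d A) * (qce_g A (q x))⁻¹ := by
          simp only [hl]; group
      _ = 1 := by rw [this]; group
  obtain ⟨lamp, hlamp⟩ := qce_lamps l hl2 (fun x y => qce_comm2 A _ _)
  let Y := {y : qce_X A n × (V × Fin k → ZMod 2) // ∃ w, A.run x0 w = some y.1.1 ∧ A.par x0 w = y.2}
  have hYfin : Finite Y := by
    let F : Y → qce_X A n × (qce_X A n × Fin k → ZMod 2) := fun y => (y.1.1, fun z => y.1.2 (z.1.1, z.2))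
    apply Finite.of_injective F
    intro y y' hyy
    apply Subtype.ext
    have h1 := (Prod.mk.injEq _ _ _ _).mp hyy
    apply Prod.ext h1.1
    funext z
    obtain ⟨v, a⟩ := z
    by_cases hv : A.lev v = n
    · exact congrFun h1.2 (⟨v, hv⟩, a)
    · obtain ⟨w, hw1, hw2⟩ := y.2
      obtain ⟨w', hw1', hw2'⟩ := y'.2
      rw [← hw2, ← hw2', qce_par_supp A hw1 v a (by rw [hx0]; exact hv),
        qce_par_supp A hw1' v a (by rw [hx0]; exact hv)]
  have : Fintype Y := Fintype.ofFinite Y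
  have hYw : ∀ y : Y, ∃ w, A.run x0 w = some y.1.1.1 ∧ A.par x0 w = y.1.2 := fun y => y.2
  choose wY hw1 hw2 using hYw
  let π : Y → qce_X A n := fun y => y.1.1
  have hπ : Function.Surjective π := fun x => ⟨⟨(x, A.par x0 (q x)), q x, hq x, rfl⟩, rfl⟩
  let f' : (qce_X A n → ZMod 2) → Y → H := fun B y => f (lamp B * qce_g A (wY y))
  have hP : ∀ u : qce_X A n → ℝ, ∑ x, ∑ y, (u x - u y) ^ 2 ≤
      (2 * ((2 * k : ℕ) : ℝ) * ((b * (2 * k) : ℕ) : ℝ) ^ 2) * Fintype.card (qce_X A n) *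
        ∑ p ∈ qce_Ed A n, (u p.1 - u p.2) ^ 2 := by
    intro u
    refine poincare (qce_Ed A n) ?_ (2 * k) (b * (2 * k)) (fun x => qce_deg A n x) (fun S hS =>
      qce_exp A b hexp n S hS) u
    intro x y hxy
    obtain ⟨a, ha⟩ := (Finset.mem_filter.1 hxy).2
    exact Finset.mem_filter.2 ⟨Finset.mem_univ _, (a.1, !a.2), A.inv _ _ _ ha⟩
  have hdeg : (qce_Ed A n).card ≤ (2 * k) * Fintype.card (qce_X A n) := by
    have h1 : (qce_Ed A n).card = ∑ x : qce_X A n, ((qce_Ed A n).filter (fun p => p.1 = x)).card :=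
      Finset.card_eq_sum_card_fiberwise (fun _ _ => Finset.mem_univ _)
    rw [h1]
    calc _ ≤ ∑ x : qce_X A n, (2 * k) := Finset.sum_le_sum fun x _ => qce_deg A n x
      _ = _ := by rw [Finset.sum_const, Finset.card_univ, smul_eq_mul, mul_comm]
  obtain ⟨y, B, hyB⟩ := walsh π hπ (qce_Ed A n) (2 * k)
    (2 * ((2 * k : ℕ) : ℝ) * ((b * (2 * k) : ℕ) : ℝ) ^ 2) C hC (by positivity) hdeg hP f'
    (by
      rintro ⟨x, x'⟩ hxx
      obtain ⟨a, ha⟩ := (Finset.mem_filter.1 hxx).2
      simp only at ha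
      have ha' := A.inv _ _ _ ha
      have hpe : A.par x'.1 [(a.1, !a.2)] = A.par x.1 [a] := ar_par_inv A ha
      refine ⟨⟨fun y => ⟨⟨(x', y.1.1.2 + A.par x.1 [a]), ?_⟩, rfl⟩,
        fun y => ⟨⟨(x, y.1.1.2 + A.par x.1 [a]), ?_⟩, rfl⟩, ?_, ?_⟩, ?_⟩
      · have h1 : y.1.1.1 = x := y.2
        apply qce_step A ha
        obtain ⟨w, e1, e2⟩ := y.1.2
        exact ⟨w, by rw [e1, h1], e2⟩
      · have h1 : y.1.1.1 = x' := y.2
        rw [← hpe]
        apply qce_step A ha'
        obtain ⟨w, e1, e2⟩ := y.1.2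
        exact ⟨w, by rw [e1, h1], e2⟩
      · rintro ⟨⟨⟨z, θ⟩, hz⟩, hzx⟩
        simp only [π] at hzx
        subst hzx
        simp only [qce_add_add]
      · rintro ⟨⟨⟨z, θ⟩, hz⟩, hzx⟩
        simp only [π] at hzx
        subst hzx
        simp only [qce_add_add]
      · intro y B
        simp only [Equiv.coe_fn_mk, f']
        set y' : Y := ⟨(x', y.1.1.2 + A.par x.1 [a]), _⟩ with hy'
        have h1 : y.1.1.1 = x := y.2
        have h2 : A.run x0 (wY y.1 ++ [a]) = some x'.1 := by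
          rw [ar_run_append_eq]
          refine ⟨x.1, by rw [hw1, h1], ?_⟩
          rw [ar_run_cons_eq]
          exact ⟨x'.1, ha, rfl⟩
        have h3 : A.par x0 (wY y.1 ++ [a]) = A.par x0 (wY y') := by
          rw [par_append A (hw1 y.1), hw2, hw2, h1]
        have h4 : qce_g A (wY y') = qce_g A (wY y.1) * qce_g A [a] := by
          rw [← qce_g_append]
          exact (qce_g_eq A h2 (hw1 y') h3).symm
        rw [h4, ← mul_assoc]
        exact hf _ _)
    (by
      intro y B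
      simp only [f']
      rw [hlamp]
      have h1 : l (π y) = qce_g A (wY y) * qce_d A * (qce_g A (wY y))⁻¹ :=
        qce_lam_eq A (hq (π y)) (hw1 y)
      have h2 : lamp B * l (π y) * qce_g A (wY y) = lamp B * qce_g A (wY y) * qce_d A := by
        rw [h1]; group
      rw [h2, norm_sub_rev]
      exact hf _ _)
  refine ⟨lamp B * qce_g A (wY y), qce_g A (wY y), ?_⟩
  refine le_trans (le_of_eq ?_) hyB
  refine Finset.sum_congr rfl fun x _ => ?_
  simp only [f']
  rw [hlamp]
  congr 4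
  change lamp B * qce_g A (wY y) * ((qce_g A (wY y))⁻¹ * l x * qce_g A (wY y)) = _
  group

end QCE

theorem not_ce_Q {k : ℕ} {V : Type} [DecidableEq V] (A : Aut k V) (b : ℕ) (hexp : A.Exp b)
    (hfin : ∀ n, Finite {x // A.lev x = n})
    (hinf : ∀ M, ∃ n, M ≤ Nat.card {x // A.lev x = n}) :
    ¬ Final1.CE (QuotientGroup.mk' (NC (RStar A.RH A.RG))) := by
  classical
  rintro ⟨H, i1, i2, i3, f, h1, h2⟩
  obtain ⟨C0, hC0⟩ := h1 1
  set C : ℝ := max C0 0 with hC
  have hf : ∀ (g : qce_Q A) (a : Fin (k + 1) × Bool),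
      ‖f g - f (g * qce_p A (FreeGroup.mk [a]))‖ ≤ C := by
    intro g a
    refine (hC0 g _ ⟨FreeGroup.mk [a], ?_, rfl⟩).trans (le_max_left _ _)
    rw [FreeGroup.toWord_mk]
    simp
  set K : ℝ := (8 * (2 * ((2 * k : ℕ) : ℝ) * ((b * (2 * k) : ℕ) : ℝ) ^ 2) * ((2 * k : ℕ) : ℝ) + 2)
    * C ^ 2 with hK
  have hK0 : 0 ≤ K := by positivity
  obtain ⟨r, hr⟩ := h2 (√(2 * K + 1))
  -- the short elements
  set S : Set (qce_Q A) := qce_p A '' {w : FreeGroup (Fin (k + 1)) | w.toWord.length ≤ r} with hS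
  have hSfin : S.Finite := (Final1.finite_short (k + 1) r).image _
  set M : ℕ := hSfin.toFinset.card with hM
  obtain ⟨n, hn⟩ := hinf (2 * M + 1)
  have := hfin n
  let _ : Fintype (qce_X A n) := Fintype.ofFinite _
  have hcard : Nat.card {x // A.lev x = n} = Fintype.card (qce_X A n) :=
    Nat.card_eq_fintype_card (α := qce_X A n)
  rw [hcard] at hn
  have hne : Nonempty (qce_X A n) := Fintype.card_pos_iff.1 (by omega)
  obtain ⟨⟨x0, hx0⟩⟩ := hne
  have hcon : ∀ x : qce_X A n, ∃ w, A.run x0 w = some x.1 := fun x =>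
    conn A b hexp hfin x0 x.1 (by rw [hx0, x.2])
  choose q hq using hcon
  obtain ⟨p, h, hph⟩ := qce_level A b hexp n x0 hx0 f C (le_max_right _ _) hf q hq
  rw [← hK] at hph
  set L : qce_X A n → qce_Q A := fun x =>
    h⁻¹ * (qce_g A (q x) * qce_d A * (qce_g A (q x))⁻¹) * h with hL
  change ∑ x, ‖f (p * L x) - f p‖ ^ 2 ≤ _ at hph
  have hLinj : Function.Injective L := by
    intro x y hxy
    apply Subtype.ext
    apply qce_lam_ne A (hq x) (hq y)
    exact mul_left_cancel (mul_right_cancel hxy)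
  -- the good points
  set Gd : Finset (qce_X A n) := Finset.univ.filter fun x => ‖f (p * L x) - f p‖ ^ 2 ≤ 2 * K + 1
    with hGd
  have hG1 : Gd.card ≤ M := by
    rw [hM]
    apply Finset.card_le_card_of_injOn L
    · intro x hx
      rw [Finset.mem_coe, Finset.mem_filter] at hx
      rw [Finset.mem_coe, Set.Finite.mem_toFinset]
      have h3 : ‖f p - f (p * L x)‖ ≤ √(2 * K + 1) := by
        rw [norm_sub_rev]
        exact Real.le_sqrt_of_sq_le hx.2
      obtain ⟨w, hw, hw2⟩ := hr p (p * L x) h3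
      exact ⟨w, hw, (mul_left_cancel hw2).symm⟩
    · exact hLinj.injOn
  have hG2 : Fintype.card (qce_X A n) ≤ 2 * Gd.card := by
    by_contra hcon
    push Not at hcon
    set Bd : Finset (qce_X A n) := Finset.univ.filter fun x =>
      ¬ ‖f (p * L x) - f p‖ ^ 2 ≤ 2 * K + 1 with hBd
    have h4 : Gd.card + Bd.card = Fintype.card (qce_X A n) := by
      rw [← Finset.card_univ]
      exact Finset.card_filter_add_card_filter_not _
    have h5 : (Bd.card : ℝ) * (2 * K + 1) ≤ ∑ x, ‖f (p * L x) - f p‖ ^ 2 := by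
      calc (Bd.card : ℝ) * (2 * K + 1) = ∑ x ∈ Bd, (2 * K + 1) := by
            rw [Finset.sum_const, nsmul_eq_mul]
        _ ≤ ∑ x ∈ Bd, ‖f (p * L x) - f p‖ ^ 2 := by
            apply Finset.sum_le_sum
            intro x hx
            rw [Finset.mem_filter] at hx
            exact (not_le.1 hx.2).le
        _ ≤ _ := Finset.sum_le_sum_of_subset_of_nonneg (Finset.subset_univ _)
            fun _ _ _ => sq_nonneg _
    have h6 : (Fintype.card (qce_X A n) : ℝ) < 2 * Bd.card := by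
      have : Fintype.card (qce_X A n) < 2 * Bd.card := by omega
      exact_mod_cast this
    have h7 : (Bd.card : ℝ) * (2 * K + 1) ≤ K * Fintype.card (qce_X A n) := h5.trans hph
    have h8 : 0 ≤ (Bd.card : ℝ) := Nat.cast_nonneg _
    nlinarith
  omega

end Pool.Agent.H76.SC
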