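import Mathlib
import Pool.Agent.H76.SC.Aut0
import Pool.Agent.H76.Wee

set_option autoImplicit false

/-! # Adding lamps does not create weakly embedded expanders -/

namespace Pool.Agent.H76.SC

open Pool.Agent.H76.Exp Pool.Agent.H76.Wee

theorem qw_comm {K : Type*} [CommGroup K] (h2 : ∀ a : K, a * a = 1) : ¬ WEE K := by
  classical
  rintro ⟨D, ε, S, hε, hS, hinst⟩
  have : Finite S := hS
  set H := Subgroup.closure S with hH
  have hfg : Group.FG H := Group.closure_finite_fg S
  have htor : IsMulTorsion H := by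
    intro a
    rw [isOfFinOrder_iff_pow_eq_one]
    refine ⟨2, by norm_num, ?_⟩
    apply Subtype.ext
    rw [pow_two]
    exact h2 a.1
  have hfin : Finite H := CommGroup.finite_of_fg_isMulTorsion H htor
  have : Fintype H := Fintype.ofFinite H
  set M : ℝ := (Fintype.card H : ℝ) with hM
  have hMpos : 0 < M := by
    rw [hM]; exact_mod_cast Fintype.card_pos
  obtain ⟨V, _, _, Gr, φ, hexp, hstep, hfib⟩ := hinst (1 / (2 * M)) (by positivity)
  obtain ⟨v0⟩ := ‹Nonempty V›
  let A : Set V := {v | (φ v0)⁻¹ * φ v ∈ H}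
  have hclosed : ∀ u v, Gr.Adj u v → u ∈ A → v ∈ A := by
    intro u v huv hu
    have h1 : (φ u)⁻¹ * φ v ∈ H := Subgroup.subset_closure (hstep u v huv)
    have h3 : (φ v0)⁻¹ * φ v = ((φ v0)⁻¹ * φ u) * ((φ u)⁻¹ * φ v) := by group
    show (φ v0)⁻¹ * φ v ∈ H
    rw [h3]
    exact mul_mem hu h1
  have hno : ∀ B : Set V, (∀ u v, Gr.Adj u v → u ∈ B → v ∈ B) → B.Nonempty →
      ¬ 2 * Nat.card B ≤ Nat.card V := by
    intro B hB hBne hcard
    have h1 := hexp.exp B hcard
    have h3 : IsEmpty {p : V × V // p.1 ∈ B ∧ p.2 ∉ B ∧ Gr.Adj p.1 p.2} :=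
      ⟨fun p => p.2.2.1 (hB _ _ p.2.2.2 p.2.1)⟩
    have h3' : Nat.card {p : V × V // p.1 ∈ B ∧ p.2 ∉ B ∧ Gr.Adj p.1 p.2} = 0 :=
      Nat.card_of_isEmpty
    rw [h3', Nat.cast_zero] at h1
    obtain ⟨b, hb⟩ := hBne
    have : Nonempty B := ⟨⟨b, hb⟩⟩
    have h4 : 0 < Nat.card B := Nat.card_pos
    have h5 : (0 : ℝ) < Nat.card B := by exact_mod_cast h4
    nlinarith
  have hA : ∀ v, v ∈ A := by
    by_contra hcon
    push Not at hcon
    obtain ⟨v1, hv1⟩ := hcon
    have h0 : v0 ∈ A := by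
      show (φ v0)⁻¹ * φ v0 ∈ H
      rw [inv_mul_cancel]
      exact one_mem _
    have h1 := hno A hclosed ⟨v0, h0⟩
    have h3 := hno Aᶜ (fun u v huv hu hv => hu (hclosed v u huv.symm hv)) ⟨v1, hv1⟩
    have h4 : Nat.card A + Nat.card (Aᶜ : Set V) = Nat.card V := by
      rw [Nat.card_coe_set_eq, Nat.card_coe_set_eq]
      exact Set.ncard_add_ncard_compl A
    omega
  let f : V → H := fun v => ⟨(φ v0)⁻¹ * φ v, hA v⟩
  have hcard : Fintype.card V = ∑ y : H, Fintype.card {x // f x = y} := by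
    rw [← Fintype.card_sigma]
    exact (Fintype.card_congr (Equiv.sigmaFiberEquiv f)).symm
  have hle : ∀ y : H, (Fintype.card {x // f x = y} : ℝ) ≤ 1 / (2 * M) * Fintype.card V := by
    intro y
    refine le_trans ?_ (hfib (φ v0 * y))
    have : Fintype.card {x // f x = y} ≤ Nat.card {v : V // φ v = φ v0 * y} := by
      rw [← Nat.card_eq_fintype_card]
      apply Nat.card_le_card_of_injective
        (fun x : {x // f x = y} => (⟨x.1, by
          have h7 : (f x.1 : K) = y := congrArg Subtype.val x.2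
          rw [← h7]; simp [f]⟩ : {v : V // φ v = φ v0 * y}))
      intro a b hab
      have := congrArg Subtype.val hab
      exact Subtype.ext this
    exact_mod_cast this
  have hn : (0 : ℝ) < Fintype.card V := by
    have : 0 < Fintype.card V := Fintype.card_pos_iff.mpr ⟨v0⟩
    exact_mod_cast this
  have h5 : (Fintype.card V : ℝ) ≤ M * (1 / (2 * M) * Fintype.card V) := by
    calc (Fintype.card V : ℝ) = ∑ y : H, (Fintype.card {x // f x = y} : ℝ) := by
          rw [hcard]; push_cast; rfl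
      _ ≤ ∑ _y : H, 1 / (2 * M) * (Fintype.card V : ℝ) := Finset.sum_le_sum fun y _ => hle y
      _ = M * (1 / (2 * M) * Fintype.card V) := by
          rw [Finset.sum_const, Finset.card_univ, nsmul_eq_mul]
  have h6 : M * (1 / (2 * M) * (Fintype.card V : ℝ)) = Fintype.card V / 2 := by
    field_simp
  linarith

/-- abelian groups of exponent 2 contain no weakly embedded expander -/
theorem not_wee_exp2 {K : Type*} [Group K] (hc : ∀ a b : K, a * b = b * a)
    (h2 : ∀ a : K, a * a = 1) : ¬ WEE K :=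
  @qw_comm K { (inferInstance : Group K) with mul_comm := hc } h2

section quotient

variable {k : ℕ} (RH RG : Set (List (Fin k × Bool)))

/-- the map killing the lamp letter -/
def qw_phi : FreeGroup (Fin (k + 1)) →* FreeGroup (Fin k) ⧸ NC RH :=
  FreeGroup.lift (Fin.lastCases (motive := fun _ => FreeGroup (Fin k) ⧸ NC RH) 1
    (fun a => QuotientGroup.mk' (NC RH) (FreeGroup.of a)))

theorem qw_phi_up (u : List (Fin k × Bool)) :
    qw_phi RH (FreeGroup.mk (up u)) = QuotientGroup.mk' (NC RH) (FreeGroup.mk u) := by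
  have h : (qw_phi RH).comp (FreeGroup.map Fin.castSucc) = QuotientGroup.mk' (NC RH) := by
    apply FreeGroup.ext_hom
    intro a
    simp [qw_phi]
  have h1 : FreeGroup.mk (up u) = FreeGroup.map Fin.castSucc (FreeGroup.mk u) := by
    rw [FreeGroup.map.mk]
    rfl
  rw [h1, ← h]
  rfl

theorem qw_phi_lam (b : Bool) : qw_phi RH (FreeGroup.mk (lam k b)) = 1 := by
  cases b <;> simp [qw_phi, lam]

theorem qw_winv {r : ℕ} (w : List (Fin r × Bool)) :
    FreeGroup.mk (winv w) = (FreeGroup.mk w)⁻¹ := by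
  rw [FreeGroup.inv_mk]
  rfl

theorem qw_lam_false : FreeGroup.mk (lam k false) = (FreeGroup.mk (lam k true))⁻¹ := by
  rw [FreeGroup.inv_mk]
  rfl

theorem qw_phi_ker : ∀ x ∈ NC (RStar RH RG), qw_phi RH x = 1 := by
  intro x hx
  have hle : NC (RStar RH RG) ≤ (qw_phi RH).ker := by
    apply Subgroup.normalClosure_le_normal
    rintro _ ⟨w, hw, rfl⟩
    show qw_phi RH (FreeGroup.mk w) = 1
    rcases hw with ⟨u, hu, rfl⟩ | rfl | ⟨u, rfl⟩ | ⟨u, hu, rfl⟩
    · rw [qw_phi_up]
      rw [QuotientGroup.mk'_apply, QuotientGroup.eq_one_iff]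
      exact Subgroup.subset_normalClosure ⟨u, hu, rfl⟩
    · rw [← FreeGroup.mul_mk, map_mul, qw_phi_lam, mul_one]
    · simp only [← FreeGroup.mul_mk, map_mul, qw_phi_lam, qw_winv, map_inv]
      group
    · simp only [← FreeGroup.mul_mk, map_mul, qw_phi_lam, qw_winv, map_inv]
      group
  exact hle hx

/-- the projection killing the lamp -/
def qw_pi : FreeGroup (Fin (k + 1)) ⧸ NC (RStar RH RG) →* FreeGroup (Fin k) ⧸ NC RH :=
  QuotientGroup.lift _ (qw_phi RH) (qw_phi_ker RH RG)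

/-- the section -/
def qw_sec : FreeGroup (Fin k) ⧸ NC RH →* FreeGroup (Fin (k + 1)) ⧸ NC (RStar RH RG) :=
  QuotientGroup.lift _ ((QuotientGroup.mk' (NC (RStar RH RG))).comp (FreeGroup.map Fin.castSucc))
    (by
      intro x hx
      have hle : NC RH ≤ ((QuotientGroup.mk' (NC (RStar RH RG))).comp
          (FreeGroup.map Fin.castSucc)).ker := by
        apply Subgroup.normalClosure_le_normal
        rintro _ ⟨u, hu, rfl⟩
        show QuotientGroup.mk' (NC (RStar RH RG)) (FreeGroup.map Fin.castSucc (FreeGroup.mk u)) = 1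
        rw [QuotientGroup.mk'_apply, QuotientGroup.eq_one_iff, FreeGroup.map.mk]
        exact Subgroup.subset_normalClosure ⟨up u, Or.inl ⟨u, hu, rfl⟩, rfl⟩
      exact hle hx)

/-- the lamp element -/
def qw_d : FreeGroup (Fin (k + 1)) ⧸ NC (RStar RH RG) :=
  QuotientGroup.mk' _ (FreeGroup.mk (lam k true))

theorem qw_d_sq : qw_d RH RG * qw_d RH RG = 1 := by
  unfold qw_d
  rw [← map_mul, FreeGroup.mul_mk, QuotientGroup.mk'_apply, QuotientGroup.eq_one_iff]
  exact Subgroup.subset_normalClosure ⟨_, Or.inr (Or.inl rfl), rfl⟩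

theorem qw_d_comm (g : FreeGroup (Fin (k + 1)) ⧸ NC (RStar RH RG)) :
    (g * qw_d RH RG * g⁻¹) * qw_d RH RG = qw_d RH RG * (g * qw_d RH RG * g⁻¹) := by
  obtain ⟨x, rfl⟩ := QuotientGroup.mk'_surjective _ g
  obtain ⟨u, rfl⟩ : ∃ u, FreeGroup.mk u = x := ⟨x.toWord, FreeGroup.mk_toWord⟩
  have h : QuotientGroup.mk' (NC (RStar RH RG)) (FreeGroup.mk
      (u ++ lam k true ++ winv u ++ lam k true ++ u ++
      lam k false ++ winv u ++ lam k false)) = 1 := by
    rw [QuotientGroup.mk'_apply, QuotientGroup.eq_one_iff]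
    exact Subgroup.subset_normalClosure ⟨_, Or.inr (Or.inr (Or.inl ⟨u, rfl⟩)), rfl⟩
  simp only [← FreeGroup.mul_mk, map_mul, qw_winv, map_inv, qw_lam_false] at h
  change QuotientGroup.mk' (NC (RStar RH RG)) (FreeGroup.mk u) * qw_d RH RG *
    (QuotientGroup.mk' (NC (RStar RH RG)) (FreeGroup.mk u))⁻¹ * qw_d RH RG *
    QuotientGroup.mk' (NC (RStar RH RG)) (FreeGroup.mk u) * (qw_d RH RG)⁻¹ *
    (QuotientGroup.mk' (NC (RStar RH RG)) (FreeGroup.mk u))⁻¹ * (qw_d RH RG)⁻¹ = 1 at h
  generalize QuotientGroup.mk' (NC (RStar RH RG)) (FreeGroup.mk u) = g at h ⊢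
  generalize qw_d RH RG = d at h ⊢
  have h2 : g * d * g⁻¹ * d * (d * (g * d * g⁻¹))⁻¹ = 1 := by
    rw [← h]; group
  exact mul_inv_eq_one.mp h2

/-- the conjugates of the lamp element -/
def qw_conj : Set (FreeGroup (Fin (k + 1)) ⧸ NC (RStar RH RG)) :=
  {x | ∃ g, x = g * qw_d RH RG * g⁻¹}

theorem qw_conj_comm {a b : FreeGroup (Fin (k + 1)) ⧸ NC (RStar RH RG)}
    (ha : a ∈ qw_conj RH RG) (hb : b ∈ qw_conj RH RG) : a * b = b * a := by
  obtain ⟨g, rfl⟩ := ha
  obtain ⟨g', rfl⟩ := hb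
  have h := qw_d_comm RH RG (g'⁻¹ * g)
  generalize qw_d RH RG = d at h ⊢
  have h1 : g * d * g⁻¹ * (g' * d * g'⁻¹) =
      g' * ((g'⁻¹ * g) * d * (g'⁻¹ * g)⁻¹ * d) * g'⁻¹ := by group
  have h2 : g' * d * g'⁻¹ * (g * d * g⁻¹) =
      g' * (d * ((g'⁻¹ * g) * d * (g'⁻¹ * g)⁻¹)) * g'⁻¹ := by group
  rw [h1, h2, h]

theorem qw_T_comm {a b : FreeGroup (Fin (k + 1)) ⧸ NC (RStar RH RG)}
    (ha : a ∈ Subgroup.closure (qw_conj RH RG)) (hb : b ∈ Subgroup.closure (qw_conj RH RG)) :
    a * b = b * a := by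
  have h1 : Subgroup.closure (qw_conj RH RG) ≤ Subgroup.centralizer (qw_conj RH RG) := by
    rw [Subgroup.closure_le]
    intro x hx
    rw [SetLike.mem_coe, Subgroup.mem_centralizer_iff]
    intro y hy
    exact qw_conj_comm RH RG hy hx
  have h2 : Subgroup.closure (qw_conj RH RG) ≤
      Subgroup.centralizer (Subgroup.closure (qw_conj RH RG) : Set _) := by
    rw [Subgroup.closure_le]
    intro x hx
    rw [SetLike.mem_coe, Subgroup.mem_centralizer_iff]
    intro y hy
    exact (Subgroup.mem_centralizer_iff.mp (h1 hy) x hx).symm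
  exact (Subgroup.mem_centralizer_iff.mp (h2 hb) a ha)

theorem qw_T_sq {a : FreeGroup (Fin (k + 1)) ⧸ NC (RStar RH RG)}
    (ha : a ∈ Subgroup.closure (qw_conj RH RG)) : a * a = 1 := by
  induction ha using Subgroup.closure_induction with
  | mem x hx =>
    obtain ⟨g, rfl⟩ := hx
    have h := qw_d_sq RH RG
    calc g * qw_d RH RG * g⁻¹ * (g * qw_d RH RG * g⁻¹) =
        g * (qw_d RH RG * qw_d RH RG) * g⁻¹ := by group
      _ = 1 := by rw [h]; group
  | one => exact mul_one 1
  | mul x y hx hy h1 h2 =>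
    have hxy := qw_T_comm RH RG hx hy
    calc x * y * (x * y) = x * (y * x) * y := by group
      _ = x * (x * y) * y := by rw [hxy]
      _ = (x * x) * (y * y) := by group
      _ = 1 := by rw [h1, h2, mul_one]
  | inv x hx h1 =>
    rw [← mul_inv_rev, h1, inv_one]

theorem qw_ker_le : (qw_pi RH RG).ker ≤ Subgroup.closure (qw_conj RH RG) := by
  have hnorm : (Subgroup.closure (qw_conj RH RG)).Normal := by
    have e : qw_conj RH RG = Group.conjugatesOfSet {qw_d RH RG} := by
      ext x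
      rw [Group.mem_conjugatesOfSet_iff]
      constructor
      · rintro ⟨g, rfl⟩
        exact ⟨qw_d RH RG, rfl, isConj_iff.mpr ⟨g, rfl⟩⟩
      · rintro ⟨a, ha, hax⟩
        rw [Set.mem_singleton_iff] at ha
        subst ha
        obtain ⟨g, hg⟩ := isConj_iff.mp hax
        exact ⟨g, hg.symm⟩
    rw [e]
    exact Subgroup.normalClosure_normal
  set T := Subgroup.closure (qw_conj RH RG) with hT
  have hd : qw_d RH RG ∈ T := Subgroup.subset_closure ⟨1, by group⟩
  have key : ((QuotientGroup.mk' T).comp (qw_sec RH RG)).comp (qw_pi RH RG) =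
      QuotientGroup.mk' T := by
    apply QuotientGroup.monoidHom_ext
    apply FreeGroup.ext_hom
    intro a
    refine Fin.lastCases ?_ (fun b => ?_) a
    · have h1 : (QuotientGroup.mk' T) (qw_d RH RG) = 1 := by
        rw [QuotientGroup.mk'_apply, QuotientGroup.eq_one_iff]; exact hd
      have h2 : qw_d RH RG = QuotientGroup.mk' (NC (RStar RH RG)) (FreeGroup.of (Fin.last k)) := rfl
      rw [h2] at h1
      simp only [MonoidHom.comp_apply]
      rw [h1]
      have h3 : (qw_pi RH RG) (QuotientGroup.mk' (NC (RStar RH RG))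
          (FreeGroup.of (Fin.last k))) = 1 := by
        have := qw_phi_lam RH true
        exact this
      rw [h3, map_one, map_one]
    · simp only [MonoidHom.comp_apply]
      have h3 : (qw_pi RH RG) (QuotientGroup.mk' (NC (RStar RH RG))
          (FreeGroup.of (Fin.castSucc b))) = QuotientGroup.mk' (NC RH) (FreeGroup.of b) := by
        have := qw_phi_up RH [(b, true)]
        exact this
      have h4 : qw_sec RH RG (QuotientGroup.mk' (NC RH) (FreeGroup.of b)) =
          QuotientGroup.mk' (NC (RStar RH RG)) (FreeGroup.of (Fin.castSucc b)) := by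
        show QuotientGroup.mk' (NC (RStar RH RG)) (FreeGroup.map Fin.castSucc (FreeGroup.of b)) = _
        rw [FreeGroup.map.of]
      rw [h3, h4]
  intro q hq
  rw [MonoidHom.mem_ker] at hq
  have h1 := DFunLike.congr_fun key q
  simp only [MonoidHom.comp_apply] at h1
  rw [hq, map_one, map_one] at h1
  have h2 := h1.symm
  rw [QuotientGroup.mk'_apply, QuotientGroup.eq_one_iff] at h2
  exact h2

end quotient

theorem not_wee_Q {k : ℕ} (RH RG : Set (List (Fin k × Bool)))
    (h : ¬ WEE (FreeGroup (Fin k) ⧸ NC RH)) :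
    ¬ WEE (FreeGroup (Fin (k + 1)) ⧸ NC (RStar RH RG)) := by
  intro hw
  rcases ext_cases (qw_pi RH RG) hw with h1 | h1
  · exact h h1
  · refine not_wee_exp2 ?_ ?_ h1
    · intro a b
      exact Subtype.ext (qw_T_comm RH RG (qw_ker_le RH RG a.2) (qw_ker_le RH RG b.2))
    · intro a
      exact Subtype.ext (qw_T_sq RH RG (qw_ker_le RH RG a.2))

end Pool.Agent.H76.SC
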