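import Mathlib
import Pool.Agent.H76.SC.Aut0
import Pool.Agent.H91.CD.COMPa

set_option autoImplicit false

/-! # Recursive enumerability of normal closures -/

namespace Pool.Agent.H76.SC

open Pool.Agent.H91.CD.COMP

section ren

variable {r : ℕ}

/-- one step of the reduction -/
def ren_step (x : Fin r × Bool) (acc : List (Fin r × Bool)) : List (Fin r × Bool) :=
  List.casesOn acc [x] fun hd tl =>
    if x.1 = hd.1 ∧ x.2 = !hd.2 then tl else x :: hd :: tl

theorem ren_reduce_eq (w : List (Fin r × Bool)) :
    FreeGroup.reduce w = w.foldr ren_step [] := by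
  induction w with
  | nil => rfl
  | cons x w ih =>
    rw [FreeGroup.reduce.cons, ih]
    rfl

theorem ren_step_primrec :
    Primrec₂ (ren_step : Fin r × Bool → List (Fin r × Bool) → List (Fin r × Bool)) := by
  have key := Primrec.list_casesOn (α := (Fin r × Bool) × List (Fin r × Bool))
    (f := fun p => p.2) (g := fun p => [p.1])
    (h := fun p q => if p.1.1 = q.1.1 ∧ p.1.2 = !q.1.2 then q.2 else p.1 :: q.1 :: q.2)
    Primrec.snd ?_ ?_
  · exact key.of_eq fun p => by rfl
  · exact Primrec.list_cons.comp Primrec.fst (Primrec.const [])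
  · -- the decision
    have hx : Primrec fun p : (((Fin r × Bool) × List (Fin r × Bool)) ×
        ((Fin r × Bool) × List (Fin r × Bool))) => p.1.1 := Primrec.fst.comp Primrec.fst
    have hhd : Primrec fun p : (((Fin r × Bool) × List (Fin r × Bool)) ×
        ((Fin r × Bool) × List (Fin r × Bool))) => p.2.1 := Primrec.fst.comp Primrec.snd
    have htl : Primrec fun p : (((Fin r × Bool) × List (Fin r × Bool)) ×
        ((Fin r × Bool) × List (Fin r × Bool))) => p.2.2 := Primrec.snd.comp Primrec.snd
    apply Primrec.ite
    · apply PrimrecPred.and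
      · exact Primrec.eq.comp (Primrec.fst.comp hx) (Primrec.fst.comp hhd)
      · exact Primrec.eq.comp (Primrec.snd.comp hx) (Primrec.not.comp (Primrec.snd.comp hhd))
    · exact htl
    · exact Primrec.list_cons.comp hx (Primrec.list_cons.comp hhd htl)

theorem ren_reduce : Computable (FreeGroup.reduce : List (Fin r × Bool) → _) := by
  have h : Primrec fun w : List (Fin r × Bool) => w.foldr ren_step [] := by
    exact Primrec.list_foldr (h := fun (_ : List (Fin r × Bool))
      (q : (Fin r × Bool) × List (Fin r × Bool)) => ren_step q.1 q.2) Primrec.id (Primrec.const [])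
      (ren_step_primrec.comp (Primrec.fst.comp Primrec.snd) (Primrec.snd.comp Primrec.snd))
  exact (h.of_eq fun w => (ren_reduce_eq w).symm).to_comp

theorem ren_winv : Computable (winv : List (Fin r × Bool) → _) := by
  have h : Primrec (fun w : List (Fin r × Bool) =>
      (w.map (fun a => (a.1, !a.2))).reverse) := by
    apply Primrec.list_reverse.comp
    apply Primrec.list_map Primrec.id
    exact (Primrec.fst.comp Primrec.snd).pair (Primrec.not.comp (Primrec.snd.comp Primrec.snd))
  exact h.to_comp

theorem ren_up : Computable (up : List (Fin r × Bool) → _) := by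
  have h : Primrec (fun w : List (Fin r × Bool) =>
      (w.map (fun a => ((a.1.castSucc : Fin (r + 1)), a.2)))) := by
    apply Primrec.list_map Primrec.id
    exact ((Primrec.dom_finite (Fin.castSucc : Fin r → Fin (r + 1))).comp
      (Primrec.fst.comp Primrec.snd)).pair (Primrec.snd.comp Primrec.snd)
  exact h.to_comp

theorem ren_mk_winv (w : List (Fin r × Bool)) : FreeGroup.mk (winv w) = (FreeGroup.mk w)⁻¹ := by
  rw [FreeGroup.inv_mk]
  rfl

/-- the base words -/
def ren_B (R : Set (List (Fin r × Bool))) (w : List (Fin r × Bool)) : Prop :=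
  w = [] ∨ (∃ p : List (Fin r × Bool) × List (Fin r × Bool), p.2 ∈ R ∧
    w = p.1 ++ (p.2 ++ winv p.1)) ∨
  (∃ p : List (Fin r × Bool) × List (Fin r × Bool), p.2 ∈ R ∧
    w = p.1 ++ (winv p.2 ++ winv p.1))

/-- the product relation -/
def ren_R (q : List (Fin r × Bool) × List (Fin r × Bool) × List (Fin r × Bool)) : Prop :=
  FreeGroup.reduce q.2.2 = FreeGroup.reduce (q.1 ++ q.2.1)

theorem ren_B_re (R : Set (List (Fin r × Bool))) (hR : REPred (fun w => w ∈ R)) :
    REPred (ren_B R) := by
  unfold ren_B
  apply re_or
  · exact re_eq Computable.id (Computable.const [])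
  apply re_or
  · apply re_exists (p := fun (w : List (Fin r × Bool))
      (p : List (Fin r × Bool) × List (Fin r × Bool)) => p.2 ∈ R ∧ w = p.1 ++ (p.2 ++ winv p.1))
    apply re_and
    · exact re_comp hR (Computable.snd.comp Computable.snd)
    · apply re_eq Computable.fst
      exact Computable.list_append.comp (Computable.fst.comp Computable.snd)
        (Computable.list_append.comp (Computable.snd.comp Computable.snd)
          (ren_winv.comp (Computable.fst.comp Computable.snd)))
  · apply re_exists (p := fun (w : List (Fin r × Bool))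
      (p : List (Fin r × Bool) × List (Fin r × Bool)) => p.2 ∈ R ∧
        w = p.1 ++ (winv p.2 ++ winv p.1))
    apply re_and
    · exact re_comp hR (Computable.snd.comp Computable.snd)
    · apply re_eq Computable.fst
      exact Computable.list_append.comp (Computable.fst.comp Computable.snd)
        (Computable.list_append.comp (ren_winv.comp (Computable.snd.comp Computable.snd))
          (ren_winv.comp (Computable.fst.comp Computable.snd)))

theorem ren_R_re : REPred (ren_R (r := r)) := by
  apply re_eq
  · exact ren_reduce.comp (Computable.snd.comp Computable.snd)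
  · exact ren_reduce.comp (Computable.list_append.comp Computable.fst
      (Computable.fst.comp Computable.snd))

theorem ren_cl_sub (R : Set (List (Fin r × Bool))) (w : List (Fin r × Bool))
    (h : Cl (ren_B R) ren_R w) : FreeGroup.mk w ∈ NC R := by
  induction h with
  | base hb =>
    rcases hb with rfl | ⟨⟨v, u⟩, hu, rfl⟩ | ⟨⟨v, u⟩, hu, rfl⟩
    · exact one_mem (NC R)
    · have h1 : FreeGroup.mk u ∈ NC R := Subgroup.subset_normalClosure ⟨u, hu, rfl⟩
      rw [← FreeGroup.mul_mk, ← FreeGroup.mul_mk, ren_mk_winv, ← mul_assoc]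
      exact (inferInstance : (NC R).Normal).conj_mem _ h1 _
    · have h1 : FreeGroup.mk u ∈ NC R := Subgroup.subset_normalClosure ⟨u, hu, rfl⟩
      rw [← FreeGroup.mul_mk, ← FreeGroup.mul_mk, ren_mk_winv, ren_mk_winv, ← mul_assoc]
      exact (inferInstance : (NC R).Normal).conj_mem _ (inv_mem h1) _
  | step _ _ hR iha ihb =>
    have h1 := FreeGroup.reduce.exact hR
    rw [h1, ← FreeGroup.mul_mk]
    exact mul_mem iha ihb

theorem ren_cl_of_eq {R : Set (List (Fin r × Bool))} {w w' : List (Fin r × Bool)}
    (h : Cl (ren_B R) ren_R w) (hw : FreeGroup.mk w' = FreeGroup.mk w) :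
    Cl (ren_B R) ren_R w' := by
  refine Cl.step h (Cl.base (Or.inl rfl)) (c := w') ?_
  show FreeGroup.reduce w' = FreeGroup.reduce (w ++ [])
  rw [List.append_nil, ← FreeGroup.toWord_mk, ← FreeGroup.toWord_mk, hw]

theorem ren_cl_mul {R : Set (List (Fin r × Bool))} {w a b : List (Fin r × Bool)}
    (ha : Cl (ren_B R) ren_R a) (hb : Cl (ren_B R) ren_R b)
    (hw : FreeGroup.mk w = FreeGroup.mk a * FreeGroup.mk b) :
    Cl (ren_B R) ren_R w := by
  refine Cl.step ha hb (c := w) ?_
  show FreeGroup.reduce w = FreeGroup.reduce (a ++ b)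
  rw [← FreeGroup.toWord_mk, ← FreeGroup.toWord_mk, hw, FreeGroup.mul_mk]

theorem ren_sub_cl (R : Set (List (Fin r × Bool))) (x : FreeGroup (Fin r)) (hx : x ∈ NC R) :
    (∀ w, FreeGroup.mk w = x → Cl (ren_B R) ren_R w) ∧
      (∀ w, FreeGroup.mk w = x⁻¹ → Cl (ren_B R) ren_R w) := by
  unfold NC Subgroup.normalClosure at hx
  induction hx using Subgroup.closure_induction with
  | mem x hx =>
    obtain ⟨y, hy, hc⟩ := Group.mem_conjugatesOfSet_iff.1 hx
    obtain ⟨u, hu, rfl⟩ := hy
    obtain ⟨g, hg⟩ := isConj_iff.1 hc
    constructor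
    · intro w hw
      refine ren_cl_of_eq (w := g.toWord ++ (u ++ winv g.toWord))
        (Cl.base (Or.inr (Or.inl ⟨(g.toWord, u), hu, rfl⟩))) ?_
      rw [hw, ← FreeGroup.mul_mk, ← FreeGroup.mul_mk, ren_mk_winv, FreeGroup.mk_toWord,
        ← mul_assoc, hg]
    · intro w hw
      refine ren_cl_of_eq (w := g.toWord ++ (winv u ++ winv g.toWord))
        (Cl.base (Or.inr (Or.inr ⟨(g.toWord, u), hu, rfl⟩))) ?_
      rw [hw, ← FreeGroup.mul_mk, ← FreeGroup.mul_mk, ren_mk_winv, ren_mk_winv,
        FreeGroup.mk_toWord, ← hg]
      group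
  | one =>
    constructor
    · intro w hw
      exact ren_cl_of_eq (w := []) (Cl.base (Or.inl rfl)) hw
    · intro w hw
      refine ren_cl_of_eq (w := []) (Cl.base (Or.inl rfl)) ?_
      rw [hw, inv_one]
      rfl
  | mul x y _ _ ihx ihy =>
    constructor
    · intro w hw
      exact ren_cl_mul (ihx.1 x.toWord FreeGroup.mk_toWord) (ihy.1 y.toWord FreeGroup.mk_toWord)
        (by rw [hw, FreeGroup.mk_toWord, FreeGroup.mk_toWord])
    · intro w hw
      exact ren_cl_mul (ihy.2 (y⁻¹).toWord FreeGroup.mk_toWord)
        (ihx.2 (x⁻¹).toWord FreeGroup.mk_toWord)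
        (by rw [hw, FreeGroup.mk_toWord, FreeGroup.mk_toWord, mul_inv_rev])
  | inv x _ ih =>
    refine ⟨ih.2, ?_⟩
    rw [inv_inv]
    exact ih.1

end ren

theorem re_nc {r : ℕ} (R : Set (List (Fin r × Bool))) (hR : REPred (fun w => w ∈ R)) :
    REPred (fun w : List (Fin r × Bool) => FreeGroup.mk w ∈ NC R) := by
  refine (cl_re (ren_B_re R hR) ren_R_re).of_eq fun w => ?_
  exact ⟨ren_cl_sub R w, fun h => (ren_sub_cl R _ h).1 w rfl⟩

theorem re_star {k : ℕ} (RH RG : Set (List (Fin k × Bool))) (h1 : REPred (fun w => w ∈ RH))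
    (h2 : REPred (fun w => w ∈ RG)) : REPred (fun w => w ∈ RStar RH RG) := by
  unfold RStar
  simp only [Set.mem_ofPred_eq]
  apply re_or
  · apply re_exists (p := fun (w : List (Fin (k + 1) × Bool)) (u : List (Fin k × Bool)) =>
      u ∈ RH ∧ w = up u)
    apply re_and
    · exact re_comp h1 Computable.snd
    · exact re_eq Computable.fst (ren_up.comp Computable.snd)
  apply re_or
  · exact re_eq Computable.id (Computable.const _)
  apply re_or
  · apply re_range
    refine Computable.list_append.comp (Computable.list_append.comp (Computable.list_append.comp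
      (Computable.list_append.comp (Computable.list_append.comp (Computable.list_append.comp
      (Computable.list_append.comp Computable.id (Computable.const _)) ren_winv)
      (Computable.const _)) Computable.id) (Computable.const _)) ren_winv) (Computable.const _)
  · apply re_exists (p := fun (w : List (Fin (k + 1) × Bool)) (u : List (Fin k × Bool)) =>
      u ∈ RG ∧ w = up u ++ lam k true ++ winv (up u) ++ lam k false)
    apply re_and
    · exact re_comp h2 Computable.snd
    · apply re_eq Computable.fst
      exact Computable.list_append.comp (Computable.list_append.comp (Computable.list_append.comp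
        (ren_up.comp Computable.snd) (Computable.const _))
        (ren_winv.comp (ren_up.comp Computable.snd))) (Computable.const _)

end Pool.Agent.H76.SC
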