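import Mathlib
import Pool.Agent.H76.SC.Code

set_option autoImplicit false

/-! # Computable sequences by greedy search -/

namespace Pool.Agent.H76.SC

/-- greedy search along a decidable relation between finite sequences and next terms -/
theorem exists_seq {α : Type} [Primcodable α] (P : List α → α → Prop)
    (hP : ComputablePred (fun x : List α × α => P x.1 x.2))
    (hex : ∀ l : List α, (∀ (n : ℕ) (h : n < l.length), P (l.take n) l[n]) → ∃ a, P l a) :
    ∃ s : ℕ → α, Computable s ∧ ∀ n, P ((List.range n).map s) (s n) := by
  obtain ⟨hdec, hcomp⟩ := hP
  have hdec' : ∀ l a, Decidable (P l a) := fun l a => hdec (l, a)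
  -- the test
  let F : List α → ℕ → Option α := fun l m =>
    (Encodable.decode m : Option α).bind
      (fun a => bif decide (P l a) then some a else none)
  have hc : Computable (fun x : (List α × ℕ) × α => decide (P x.1.1 x.2)) := by
    have h0 := Computable.comp hcomp (g := fun x : (List α × ℕ) × α => (x.1.1, x.2))
      ((Computable.fst.comp Computable.fst).pair Computable.snd)
    refine Computable.of_eq h0 (fun x => ?_)
    exact decide_eq_decide.mpr Iff.rfl
  have hF : Computable₂ F := by
    refine Computable.option_bind (Computable.decode.comp Computable.snd) ?_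
    exact Computable.cond hc (Computable.option_some.comp Computable.snd)
      (Computable.const none)
  have hFspec : ∀ l m a, a ∈ F l m → P l a := by
    intro l m a h
    simp only [F, Option.mem_def, Option.bind_eq_some_iff] at h
    obtain ⟨b, _, hb⟩ := h
    by_cases hPb : P l b
    · simp only [hPb, decide_true, cond_true, Option.some.injEq] at hb
      rw [← hb]; exact hPb
    · simp only [hPb, decide_false, cond_false] at hb
      cases hb
  let nxt : List α →. α := fun l => Nat.rfindOpt (F l)
  have hnxt : Partrec nxt := Partrec.rfindOpt hF
  have hnspec : ∀ l a, a ∈ nxt l → P l a := by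
    intro l a h
    obtain ⟨m, hm⟩ := Nat.rfindOpt_spec h
    exact hFspec l m a hm
  have hndom : ∀ l, (∃ a, P l a) → (nxt l).Dom := by
    rintro l ⟨a, ha⟩
    apply Nat.rfindOpt_dom.mpr
    refine ⟨Encodable.encode a, a, ?_⟩
    simp only [F, Encodable.encodek, Option.bind_some, ha, decide_true, cond_true,
      Option.mem_def]
  -- prefixes
  let pre : ℕ →. List α := fun n =>
    Nat.rec (motive := fun _ => Part (List α)) (Part.some [])
      (fun _ IH => IH.bind fun l => (nxt l).map (fun a => l ++ [a])) n
  have hpre : Partrec pre := by
    have hstep : Partrec₂ (fun (_ : ℕ) (x : ℕ × List α) => (nxt x.2).map (fun a => x.2 ++ [a])) := by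
      have hm : Computable₂ (fun (y : ℕ × (ℕ × List α)) (a : α) => y.2.2 ++ [a]) :=
        Computable.list_append.comp
          (Computable.snd.comp (Computable.snd.comp Computable.fst))
          (Computable.list_cons.comp Computable.snd (Computable.const []))
      exact Partrec.map (hnxt.comp (Computable.snd.comp Computable.snd)) hm
    exact Partrec.nat_rec (f := fun n : ℕ => n) (g := fun _ => Part.some [])
      (h := fun (_ : ℕ) (x : ℕ × List α) => (nxt x.2).map (fun a => x.2 ++ [a]))
      Computable.id (Computable.const ([] : List α)).partrec hstep
  have hzero : pre 0 = Part.some [] := rfl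
  have hsucc : ∀ n, pre (n + 1) = (pre n).bind fun l => (nxt l).map (fun a => l ++ [a]) :=
    fun n => rfl
  have hadm : ∀ n, ∃ l ∈ pre n, l.length = n ∧
      ∀ (m : ℕ) (h : m < l.length), P (l.take m) l[m] := by
    intro n
    induction n with
    | zero =>
      refine ⟨[], by rw [hzero]; exact Part.mem_some _, rfl, ?_⟩
      intro m h
      simp at h
    | succ n ih =>
      obtain ⟨l, hl, hlen, hP⟩ := ih
      have hd := hndom l (hex l hP)
      refine ⟨l ++ [(nxt l).get hd], ?_, by simp [hlen], ?_⟩
      · rw [hsucc]
        refine Part.mem_bind hl ?_
        exact Part.mem_map _ (Part.get_mem hd)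
      · intro m h
        rw [List.length_append, List.length_singleton] at h
        rcases Nat.lt_or_ge m l.length with hm | hm
        · rw [List.take_append_of_le_length hm.le, List.getElem_append_left hm]
          exact hP m hm
        · have hm' : m = l.length := by omega
          subst hm'
          rw [List.take_left' rfl, List.getElem_append_right (le_refl _)]
          simp only [Nat.sub_self, List.getElem_cons_zero]
          exact hnspec l _ (Part.get_mem hd)
  let sp : ℕ →. α := fun n => (pre n).bind nxt
  have hsp : Partrec sp := Partrec.bind hpre (hnxt.comp Computable.snd)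
  have htot : ∀ n, (sp n).Dom := by
    intro n
    obtain ⟨l, hl, _, hP⟩ := hadm n
    have hd := hndom l (hex l hP)
    exact Part.dom_iff_mem.mpr ⟨(nxt l).get hd, Part.mem_bind hl (Part.get_mem hd)⟩
  let s : ℕ → α := fun n => (sp n).get (htot n)
  have hs : ∀ n, s n ∈ sp n := fun n => Part.get_mem (htot n)
  refine ⟨s, Partrec.of_eq_tot hsp hs, ?_⟩
  have hmem : ∀ n, (List.range n).map s ∈ pre n := by
    intro n
    induction n with
    | zero =>
      rw [hzero]
      exact Part.mem_some _
    | succ n ih =>
      rw [hsucc, List.range_succ, List.map_append]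
      refine Part.mem_bind ih ?_
      have h1 := hs n
      obtain ⟨l, hl, h2⟩ := Part.mem_bind_iff.mp h1
      have : l = (List.range n).map s := Part.mem_unique hl ih
      subst this
      exact Part.mem_map _ h2
  intro n
  have h1 := hs n
  obtain ⟨l, hl, h2⟩ := Part.mem_bind_iff.mp h1
  have : l = (List.range n).map s := Part.mem_unique hl (hmem n)
  subst this
  exact hnspec _ _ h2

end Pool.Agent.H76.SC
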