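import Mathlib
import Pool.Agent.H76.SC.Proper
import Pool.Agent.H76.SC.QCE
import Pool.Agent.H76.SC.QWee
import Pool.Agent.H76.SC.REnc
import Pool.Agent.H76.SC.CodeOf
import Pool.Agent.H76.SC.PSPrim
import Pool.Agent.H76.SC.SeqComp
import Pool.Agent.H76.SC.AutOf
import Pool.Agent.H76.Final1

set_option autoImplicit false

/-! # A finitely presented group without coarse embedding and without weakly embedded expander -/

namespace Pool.Agent.H76.SC

open Pool.Agent.H76.Exp Pool.Agent.H76.Wee Pool.Agent.H76.Final1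

theorem final : ∃ (n : ℕ) (rels : Finset (FreeGroup (Fin n))),
    ¬ CE (PresentedGroup.mk (rels : Set (FreeGroup (Fin n)))) ∧
    ¬ HasWEE (PresentedGroup.mk (rels : Set (FreeGroup (Fin n)))) := by
  obtain ⟨p, hn0, hp⟩ := exists_par
  obtain ⟨s, hs, hPS⟩ := exists_seq (fun l c => PS p l c) (ps_prim p) hp
  obtain ⟨A, hg, hlev, hexp, hRH, hRG⟩ := aut_of p hn0 s hs hPS
  have hequiv : ∀ n, Nonempty (Fin (s n).1 ≃ {x // A.lev x = n}) := by
    intro n
    refine ⟨Equiv.ofBijective (fun i => ⟨⟨n, i⟩, hlev _⟩) ⟨?_, ?_⟩⟩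
    · intro i j hij
      simpa using hij
    · rintro ⟨⟨m, i⟩, hx⟩
      have hm : m = n := by rw [← hx, hlev]
      subst hm
      exact ⟨i, rfl⟩
  have hfin : ∀ n, Finite {x // A.lev x = n} := fun n => Finite.of_equiv _ (hequiv n).some
  have hcard : ∀ n, Nat.card {x // A.lev x = n} = (s n).1 := by
    intro n
    rw [← Nat.card_congr (hequiv n).some, Nat.card_fin]
  have htend : Filter.Tendsto A.g Filter.atTop Filter.atTop := by
    apply Filter.tendsto_atTop_mono (f := fun n => n) _ Filter.tendsto_id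
    intro n
    rw [hg]
    omega
  have hinf : ∀ M, ∃ n, M ≤ Nat.card {x // A.lev x = n} := by
    intro M
    refine ⟨M, ?_⟩
    rw [hcard]
    have := (hPS M).lo
    simpa using this
  have h1 := not_wee_H A hfin htend
  have h2 := not_wee_Q A.RH A.RG h1
  have h3 := not_ce_Q A p.b hexp hfin hinf
  have h4 := re_nc _ (re_star A.RH A.RG hRH hRG)
  obtain ⟨n, rels, j, -, h5, h6⟩ := main (p.k + 1) (FreeGroup (Fin (p.k + 1)) ⧸ NC (RStar A.RH A.RG))
    (QuotientGroup.mk' _) (QuotientGroup.mk'_surjective _)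
    (by
      refine h4.of_eq (fun w => ?_)
      rw [QuotientGroup.mk'_apply, QuotientGroup.eq_one_iff])
    (fun h => h2 (wee_of_has _ h))
  exact ⟨n, rels, h6 h3, h5⟩

end Pool.Agent.H76.SC
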